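import Pool.Agent.Lib.DN.GL.Spec

set_option autoImplicit false

open scoped Pointwise

noncomputable section

namespace Pool.Agent.DN.GL

open Pool.Agent.MuZ Pool.Agent.FW Pool.Agent.DN
open Pool.Agent.DI (io ofC io_inj exists_io io_ofC ofC_io VP MP UP TP ex)

/-- The ring of the `P`-integral elements. -/
private def polV (P : Ideal ZZ) (hP : P.IsPrime) : Subring Om where
  carrier := {x | VP P x}
  mul_mem' := fun hx hy => Pool.Agent.DI.VP.mul hx hy
  one_mem' := Pool.Agent.DI.VP.one
  add_mem' := fun hx hy => Pool.Agent.DI.VP.add hx hy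
  zero_mem' := Pool.Agent.DI.VP.zero
  neg_mem' := fun hx => Pool.Agent.DI.VP.neg hx

/-- Polynomials with coefficients in a subring are images. -/
private theorem pol_lift (V : Subring Om) (F : Polynomial Om) (hF : ∀ i, F.coeff i ∈ V) :
    ∃ F' : Polynomial V, F'.map V.subtype = F := by
  rw [← Polynomial.mem_lifts, Polynomial.lifts_iff_coeff_lifts]
  exact fun n => ⟨⟨F.coeff n, hF n⟩, rfl⟩

/-- Division with remainder by a monic polynomial with coefficients in a subring. -/
private theorem pol_div (V : Subring Om) (F Q : Polynomial Om) (hF : ∀ i, F.coeff i ∈ V)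
    (hQ : ∀ i, Q.coeff i ∈ V) (hm : Q.Monic) :
    ∃ G R : Polynomial Om, F = Q * G + R ∧ R.degree < Q.degree ∧ (∀ i, G.coeff i ∈ V) ∧
      ∀ i, R.coeff i ∈ V := by
  obtain ⟨F', rfl⟩ := pol_lift V F hF
  obtain ⟨Q', rfl⟩ := pol_lift V Q hQ
  have hi : Function.Injective V.subtype := Subtype.val_injective
  have hm' : Q'.Monic := Polynomial.monic_of_injective hi hm
  refine ⟨(F' /ₘ Q').map V.subtype, (F' %ₘ Q').map V.subtype, ?_, ?_, ?_, ?_⟩
  · rw [← Polynomial.map_mul, ← Polynomial.map_add, add_comm, Polynomial.modByMonic_add_div]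
  · rw [Polynomial.degree_map_eq_of_injective hi, Polynomial.degree_map_eq_of_injective hi]
    exact Polynomial.degree_modByMonic_lt _ hm'
  · intro i
    rw [Polynomial.coeff_map]
    exact ((F' /ₘ Q').coeff i).2
  · intro i
    rw [Polynomial.coeff_map]
    exact ((F' %ₘ Q').coeff i).2

/-- The coefficients of the product of the `X - r`. -/
private theorem pol_nodal (V : Subring Om) (S : Finset Om) (hS : ∀ r ∈ S, r ∈ V) (i : ℕ) :
    (Lagrange.nodal S (fun r : Om => r)).coeff i ∈ V := by
  have h : (Lagrange.nodal S (fun r : Om => r)) ∈ Polynomial.lifts V.subtype := by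
    rw [Lagrange.nodal_eq]
    refine Subsemiring.prod_mem _ fun r hr => ?_
    have h1 : (Polynomial.X - Polynomial.C r : Polynomial Om) =
        (Polynomial.X - Polynomial.C (⟨r, hS r hr⟩ : V) : Polynomial V).map V.subtype := by
      rw [Polynomial.map_sub, Polynomial.map_X, Polynomial.map_C]
      rfl
    rw [h1]
    exact (Polynomial.mem_lifts _).2 ⟨_, rfl⟩
  rw [Polynomial.lifts_iff_coeff_lifts] at h
  obtain ⟨y, hy⟩ := h i
  rw [← hy]
  exact y.2

/-- The values of the polynomials with coefficients in a subring. -/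
private theorem pol_eval (V : Subring Om) (F : Polynomial Om) (hF : ∀ i, F.coeff i ∈ V) {x : Om}
    (hx : x ∈ V) : F.eval x ∈ V := by
  rw [Polynomial.eval_eq_sum_range]
  exact V.sum_mem fun i _ => V.mul_mem (hF i) (V.pow_mem hx i)

theorem tPol : S_Pol := by
  classical
  intro P hP S F hS hF
  have hQ := pol_nodal (polV P hP) S hS
  have hQd : (Lagrange.nodal S (fun r : Om => r)).degree = (S.card : WithBot ℕ) :=
    Lagrange.degree_nodal
  have hQm : (Lagrange.nodal S (fun r : Om => r)).Monic := Lagrange.nodal_monic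
  have hQe : ∀ a ∈ S, (Lagrange.nodal S (fun r : Om => r)).eval a = 0 := fun a ha =>
    Lagrange.eval_nodal_at_node (v := fun r : Om => r) ha
  have hQ' : ∀ a ∈ S, (Lagrange.nodal S (fun r : Om => r)).derivative.eval a =
      ∏ r ∈ S.erase a, (a - r) := fun a ha => by
    have h := Lagrange.eval_nodal_derivative_eval_node_eq (v := fun r : Om => r) ha
    rw [Lagrange.eval_nodal] at h
    exact h
  constructor
  · intro c hc hFc a ha
    obtain ⟨G, R, h1, h2, h3, h4⟩ := pol_div (polV P hP) (F - Polynomial.C c) _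
      (fun i => by
        rw [Polynomial.coeff_sub, Polynomial.coeff_C]
        split_ifs
        · exact Pool.Agent.DI.VP.sub (hF i) hc
        · rw [sub_zero]
          exact hF i) hQ hQm
    rw [hQd] at h2
    have hR : R = 0 := by
      refine Polynomial.eq_zero_of_degree_lt_of_eval_finset_eq_zero S h2 fun r hr => ?_
      have h5 := congrArg (Polynomial.eval r) h1
      rw [Polynomial.eval_sub, Polynomial.eval_C, hFc r hr, sub_self, Polynomial.eval_add,
        Polynomial.eval_mul, hQe r hr, zero_mul, zero_add] at h5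
      exact h5.symm
    rw [hR, add_zero] at h1
    refine ⟨G.eval a, pol_eval (polV P hP) G h3 (hS a ha), ?_⟩
    have h6 : F = Lagrange.nodal S (fun r : Om => r) * G + Polynomial.C c := by
      rw [← h1, sub_add_cancel]
    rw [h6, Polynomial.derivative_add, Polynomial.derivative_C, add_zero, Polynomial.derivative_mul,
      Polynomial.eval_add, Polynomial.eval_mul, Polynomial.eval_mul, hQe a ha, zero_mul, add_zero,
      hQ' a ha]
  · obtain ⟨G, R, h1, h2, h3, h4⟩ := pol_div (polV P hP) F _ hF hQ hQm
    rw [hQd] at h2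
    have h5 : ∑ a ∈ S, F.eval a / ∏ r ∈ S.erase a, (a - r) = R.coeff (S.card - 1) := by
      rw [Lagrange.coeff_eq_sum (v := fun r : Om => r) (Function.injective_id.injOn) h2]
      refine Finset.sum_congr rfl fun a ha => ?_
      have h6 : F.eval a = R.eval a := by
        rw [h1, Polynomial.eval_add, Polynomial.eval_mul, hQe a ha, zero_mul, zero_add]
      rw [h6]
    rw [h5]
    exact h4 _

end Pool.Agent.DN.GL
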