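import Pool.Agent.Lib.DN.GL.Spec

set_option autoImplicit false

open scoped Pointwise

noncomputable section

namespace Pool.Agent.DN.GL

open Pool.Agent.MuZ Pool.Agent.FW Pool.Agent.DN
open Pool.Agent.DI (io ofC io_inj exists_io io_ofC ofC_io VP MP UP TP ex)

variable {k t : ℕ}

/-- A root of a monic equation of degree two is integral at `P`. -/
private theorem Der_int {P : Ideal ZZ} [P.IsPrime] {y u c : Om} (hu : VP P u) (hc : VP P c)
    (h : y ^ 2 + u * y = c) : VP P y := by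
  by_contra hy
  obtain ⟨h0, h1⟩ := DI.VP.not_iff.1 hy
  have e : (1 : Om) = y⁻¹ * (c * y⁻¹ - u) := by
    rw [← h]
    field_simp
    ring
  have h2 : MP P (1 : Om) := by
    rw [e]
    exact DI.MP.mul_right h1 ((DI.VP.mul hc h1.vp).sub hu)
  exact DI.MP.one_not h2

theorem tDer : S_Der := by
  intro hB2 hR1 hLev hOa hPi hMono hDer0 k t _ P hP f N z0 d hpt hN
  have hPp : P.IsPrime := hP.1.1
  have h2 : MP P 2 := hP.2
  obtain ⟨o0, o1, oadd, otoO, oval, oP, oC, oX, oEv⟩ := hOa k t P hP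
  obtain ⟨pi1, pi2, pi3, pi4, pi5, -, -, -⟩ := hPi k t P hP f N z0 d hpt
  obtain ⟨q1, q2, q3, q4, q5, q6⟩ := pi1 (1 : OO k t) (cop_one 2)
  rw [toC_one, one_mul] at q4 q5 q6
  set π : Om := pH z0 d (1 : OO k t) with hπ
  set X : Om := xO (⊤ : Ideal (OO k t)) (z0 + d) with hX
  set W : Om := vO (⊤ : Ideal (OO k t)) (z0 + d) with hW
  set A : Om := a1O (⊤ : Ideal (OO k t)) with hA
  set B : Om := a3O (⊤ : Ideal (OO k t)) with hB
  have hπV : VP P π := by
    refine (vP_nonneg h2 q2).1 ?_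
    rw [q3]
    positivity
  have hWV : VP P W := q6.1
  have hder0 := hDer0 k t P hP f N z0 d hpt hN
  -- (1)
  have r1 : ∀ x y y' : Om, Der k t P z0 d x y → Der k t P z0 d x y' → GE P 2 (y - y') := by
    rintro x y y' ⟨F, hF, hFx, hFy⟩ ⟨G, hG, hGx, hGy⟩
    have hFG : PA k t P (F + -G) := (oP F (-G) hF (oP G G hG hG).2.2.1).1
    have h3 := hder0 (F + -G) hFG (by
      rw [Polynomial.eval_add, Polynomial.eval_neg, hFx, hGx, add_neg_cancel])
    rw [Polynomial.derivative_add, Polynomial.derivative_neg, Polynomial.eval_add,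
      Polynomial.eval_neg] at h3
    have h4 := (hFy.sub h2 hGy).add h2 (h3.mul_right h2 hWV)
    have e : y - F.derivative.eval π * W - (y' - G.derivative.eval π * W) +
        (F.derivative.eval π + -G.derivative.eval π) * W = y - y' := by ring
    rwa [e] at h4
  -- (2)
  have r2 : ∀ x y y' : Om, Der k t P z0 d x y → GE P 2 (y' - y) → Der k t P z0 d x y' := by
    rintro x y y' ⟨F, hF, hFx, hFy⟩ h
    refine ⟨F, hF, hFx, ?_⟩
    have h4 := hFy.add h2 h
    have e : y - F.derivative.eval π * W + (y' - y) = y' - F.derivative.eval π * W := by ring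
    rwa [e] at h4
  -- (3)
  have r3 : ∀ x y : Om, Der k t P z0 d x y → VP P x ∧ VP P y := by
    rintro x y ⟨F, hF, hFx, hFy⟩
    refine ⟨?_, ?_⟩
    · rw [← hFx]
      exact (oEv F hF π hπV).1
    · have h3 : VP P (y - F.derivative.eval π * W) := (GE.vp_iff h2).1 (hFy.mono (by norm_num))
      have h4 : VP P (F.derivative.eval π * W) :=
        DI.VP.mul (oEv _ (oP F F hF hF).2.2.2 π hπV).1 hWV
      have h5 := h3.add h4
      rwa [sub_add_cancel] at h5
  -- (4)
  have r4 : ∀ a : Om, OA k t P a → Der k t P z0 d a 0 := by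
    intro a ha
    refine ⟨Polynomial.C a, oC a ha, Polynomial.eval_C, ?_⟩
    rw [Polynomial.derivative_C, Polynomial.eval_zero, zero_mul, sub_zero]
    exact GE.zero 2
  -- (5)
  have r5 : ∀ x y x' y' : Om, Der k t P z0 d x y → Der k t P z0 d x' y' →
      Der k t P z0 d (x + x') (y + y') ∧ Der k t P z0 d (x - x') (y - y') ∧
      Der k t P z0 d (x * x') (x * y' + x' * y) := by
    intro x y x' y' hx hx'
    have v1 := (r3 x y hx).1
    have v2 := (r3 x' y' hx').1
    obtain ⟨F, hF, hFx, hFy⟩ := hx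
    obtain ⟨G, hG, hGx, hGy⟩ := hx'
    refine ⟨⟨F + G, (oP F G hF hG).1, ?_, ?_⟩, ⟨F + -G, (oP F (-G) hF (oP G G hG hG).2.2.1).1, ?_, ?_⟩,
      ⟨F * G, (oP F G hF hG).2.1, ?_, ?_⟩⟩
    · rw [Polynomial.eval_add, hFx, hGx]
    · rw [Polynomial.derivative_add, Polynomial.eval_add]
      have h4 := hFy.add h2 hGy
      have e : y - F.derivative.eval π * W + (y' - G.derivative.eval π * W) =
          y + y' - (F.derivative.eval π + G.derivative.eval π) * W := by ring
      rwa [e] at h4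
    · rw [Polynomial.eval_add, Polynomial.eval_neg, hFx, hGx]
      ring
    · rw [Polynomial.derivative_add, Polynomial.derivative_neg, Polynomial.eval_add,
        Polynomial.eval_neg]
      have h4 := hFy.sub h2 hGy
      have e : y - F.derivative.eval π * W - (y' - G.derivative.eval π * W) =
          y - y' - (F.derivative.eval π + -G.derivative.eval π) * W := by ring
      rwa [e] at h4
    · rw [Polynomial.eval_mul, hFx, hGx]
    · rw [Polynomial.derivative_mul, Polynomial.eval_add, Polynomial.eval_mul, Polynomial.eval_mul]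
      have h4 := (hGy.mul_left h2 v1).add h2 (hFy.mul_left h2 v2)
      rw [hFx, hGx]
      have e : x * (y' - G.derivative.eval π * W) + x' * (y - F.derivative.eval π * W) =
          x * y' + x' * y - (F.derivative.eval π * x' + x * G.derivative.eval π) * W := by ring
      rwa [e] at h4
  -- (7)
  have r7 : ∀ (f' : ℕ) (x : Om), Odd f' → f ∣ f' → x ∈ EE k t (f' * 2 ^ N) → VP P x →
      ∃ y : Om, Der k t P z0 d x y := by
    intro f' x hf' hff hx hxv
    obtain ⟨F, hF, hFx⟩ := hMono k t P hP f N z0 d hpt f' hf' hff x hx hxv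
    refine ⟨F.derivative.eval π * W, F, hF, hFx, ?_⟩
    rw [sub_self]
    exact GE.zero 2
  -- (8)
  have r8 : Der k t P z0 d X W := by
    refine ⟨Polynomial.X + Polynomial.C (xO (⊤ : Ideal (OO k t)) z0), (oP _ _ oX (oC _ pi2)).1, ?_, ?_⟩
    · rw [Polynomial.eval_add, Polynomial.eval_X, Polynomial.eval_C]
      unfold pH
      rw [toC_one, one_mul, sub_add_cancel]
    · rw [Polynomial.derivative_add, Polynomial.derivative_X, Polynomial.derivative_C, add_zero,
        Polynomial.eval_one, one_mul, sub_self]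
      exact GE.zero 2
  refine ⟨r1, r2, r3, r4, r5, ?_, r7, r8, ?_⟩
  · -- (6)
    intro f' x y hf' hff hx hxu hxy
    have hx0 : x ≠ 0 := hxu.ne_zero
    obtain ⟨H, hH, hHx⟩ := hMono k t P hP f N z0 d hpt f' hf' hff x⁻¹ (inv_mem hx) hxu.inv.1
    have v1 := hxu.inv.1
    obtain ⟨F, hF, hFx, hFy⟩ := hxy
    refine ⟨H, hH, hHx, ?_⟩
    have hPA : PA k t P (H * F + -(Polynomial.C 1)) :=
      (oP _ _ (oP H F hH hF).2.1 (oP _ _ (oC 1 o1) (oC 1 o1)).2.2.1).1
    have h3 := hder0 _ hPA (by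
      rw [Polynomial.eval_add, Polynomial.eval_neg, Polynomial.eval_C, Polynomial.eval_mul, hHx, hFx,
        inv_mul_cancel₀ hx0, add_neg_cancel])
    rw [Polynomial.derivative_add, Polynomial.derivative_neg, Polynomial.derivative_C, neg_zero,
      add_zero, Polynomial.derivative_mul, Polynomial.eval_add, Polynomial.eval_mul,
      Polynomial.eval_mul, hHx, hFx] at h3
    have h4 := (hFy.mul_left h2 (v1.mul v1)).add h2 (h3.mul_left h2 (v1.mul hWV))
    have e : -(y / x ^ 2) - H.derivative.eval π * W =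
        -(x⁻¹ * x⁻¹ * (y - F.derivative.eval π * W) +
          x⁻¹ * W * (H.derivative.eval π * x + x⁻¹ * F.derivative.eval π)) := by
      field_simp
      ring
    rw [e]
    exact h4.neg h2
  · -- (9)
    have hM0 : 0 < f * 2 ^ N := Nat.mul_pos hpt.odd.pos (by positivity)
    have hM15 : 15 ∣ f * 2 ^ N := Dvd.dvd.mul_right hpt.f15 _
    have hG : G15 (⊤ : Ideal (OO k t)) := ⟨top_ne_bot, by unfold PrI; rw [top_sup_eq]⟩
    have hz : ((f * 2 ^ N : ℕ) : ℂ) * (z0 + d) ∈ Lam (⊤ : Ideal (OO k t)) := by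
      have e : ((f * 2 ^ N : ℕ) : ℂ) * (z0 + d) =
          ((2 ^ N : ℕ) : ℂ) * ((f : ℂ) * z0) + (f : ℂ) * ((2 : ℂ) ^ N * d) := by
        push_cast
        ring
      rw [e]
      exact lam_add (lam_nat _ hpt.z) (lam_nat _ hpt.dd)
    have hTor : Tor k t (z0 + d) := (tor_iff hG.1).2 ⟨_, hM0, hz⟩
    have hzn : z0 + d ∉ Lam (⊤ : Ideal (OO k t)) := fun h => q4 ⟨hTor, Or.inl h⟩
    obtain ⟨-, -, l3, -, -⟩ := hLev k t (f * 2 ^ N) hM0 hM15
    obtain ⟨la, lb, lx, -⟩ := l3 (⊤ : Ideal (OO k t)) hG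
    obtain ⟨lx1, lx2⟩ := lx (z0 + d) hz
    have hcurve : W ^ 2 = 4 * X ^ 3 + (A * X + B) ^ 2 := by
      obtain ⟨i1, i2, i3, -⟩ := (hR1.1 k t).1 (⊤ : Ideal (OO k t)) hG
      obtain ⟨i4, i5⟩ := i3 (z0 + d) hTor
      apply io_inj
      have h3 := ((hB2 k t (⊤ : Ideal (OO k t)) top_ne_bot (z0 + d) hzn).2 hG.2).1
      rw [map_pow, map_add, map_mul, map_pow, map_pow, map_add, map_mul, hW, hX, hA, hB, i1, i2, i4,
        i5, h3, map_ofNat]
    set Y : Om := yO (⊤ : Ideal (OO k t)) (z0 + d) with hY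
    have hYW : W = 2 * Y + A * X + B := by
      rw [hY]
      unfold yO
      rw [← hX, ← hW, ← hA, ← hB]
      ring
    have hYeq : Y ^ 2 + (A * X + B) * Y = X ^ 3 := by
      have h4 : (4 : Om) ≠ 0 := by norm_num
      apply mul_left_cancel₀ h4
      have h3 := hcurve
      rw [hYW] at h3
      linear_combination h3
    have hXV : VP P X := q5
    have hAV : VP P A := pi3.1
    have hBV : VP P B := pi4.1
    have hYV : VP P Y := Der_int (DI.VP.add (DI.VP.mul hAV hXV) hBV) (DI.VP.pow hXV 3) hYeq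
    have hYE : Y ∈ EE k t (f * 2 ^ N) := by
      rw [hY]
      unfold yO
      exact div_mem (sub_mem (sub_mem lx2 (mul_mem la lx1)) lb) (ofNat_mem _ 2)
    obtain ⟨y0, hy0⟩ := r7 f Y hpt.odd dvd_rfl hYE hYV
    have dA := r4 A pi3
    have dB := r4 B pi4
    have dAX := (r5 _ _ _ _ dA r8).2.2
    have dAXB := (r5 _ _ _ _ dAX dB).1
    have dM := (r5 _ _ _ _ dAXB hy0).2.2
    have dYY := (r5 _ _ _ _ hy0 hy0).2.2
    have dL := (r5 _ _ _ _ dYY dM).1
    have dXX := (r5 _ _ _ _ r8 r8).2.2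
    have dX3 := (r5 _ _ _ _ dXX r8).2.2
    have dT := (r5 _ _ _ _ dL dX3).2.1
    have e0 : Y * Y + (A * X + B) * Y - X * X * X = 0 := by linear_combination hYeq
    rw [e0] at dT
    have h5 := r1 _ _ _ dT (r4 0 o0)
    have h6 := h5.mul_left h2 q6.inv.1
    refine r2 _ _ _ hy0 ?_
    have e1 : 3 * X ^ 2 - A * Y - y0 = -(W⁻¹ * (Y * y0 + Y * y0 + ((A * X + B) * y0 + Y * (A * W + X * 0 + 0)) -
        (X * X * W + X * (X * W + X * W)) - 0)) := by
      have hW0 : W ≠ 0 := q6.ne_zero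
      field_simp
      rw [hYW]
      ring
    rw [e1]
    exact h6.neg h2

end Pool.Agent.DN.GL
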