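import Pool.Agent.Lib.DN.GL.Spec

set_option autoImplicit false

open scoped Pointwise

noncomputable section

namespace Pool.Agent.DN.GL

open Pool.Agent.MuZ Pool.Agent.FW Pool.Agent.DN
open Pool.Agent.DI (io ofC io_inj exists_io io_ofC ofC_io VP MP UP TP ex)

variable {k t : ℕ}

/-- The exact exponent of a difference which is not divisible by `2 ^ N`. -/
private theorem Der0_exp [SqN k t] {N : ℕ} {x : OO k t} (h : ¬ ((2 ^ N : ℕ) : OO k t) ∣ x) :
    ∃ j : ℕ, j < N ∧ ((2 ^ j : ℕ) : OO k t) ∣ x ∧ ¬ ((2 ^ (j + 1) : ℕ) : OO k t) ∣ x := by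
  classical
  have hex : ∃ m : ℕ, ¬ ((2 ^ m : ℕ) : OO k t) ∣ x := ⟨N, h⟩
  have h1 := Nat.find_spec hex
  have h2 : Nat.find hex ≤ N := Nat.find_min' hex h
  have h0 : Nat.find hex ≠ 0 := by
    intro h0
    rw [h0] at h1
    exact h1 (by simp)
  refine ⟨Nat.find hex - 1, by omega, ?_, ?_⟩
  · have h3 := Nat.find_min hex (m := Nat.find hex - 1) (by omega)
    exact not_not.1 h3
  · have e : Nat.find hex - 1 + 1 = Nat.find hex := by omega
    rw [e]
    exact h1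

theorem tDer0 : S_Der0 := by
  intro hOa hRep hPi hSur hPol hSum k t _ P hP f N z0 d hpt hN F hF hF0
  classical
  have hPp : P.IsPrime := hP.1.1
  have h2 : MP P 2 := hP.2
  obtain ⟨-, -, -, -, -, -, -, -, oEv⟩ := hOa k t P hP
  have hN1 : 1 ≤ N := by omega
  obtain ⟨T, hT⟩ := (hRep k t N hN1).1 (Uj f (N - 2))
  obtain ⟨pi1, -, -, -, -, pi6, pi7, pi8⟩ := hPi k t P hP f N z0 d hpt
  -- members of `T` are units
  have hcopU : ∀ h : OO k t, Uj f (N - 2) h → Cop h 2 := by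
    intro h hh
    have h3 : (2 : OO k t) ∣ h - 1 := by
      have e : N - 2 = (N - 3) + 1 := by omega
      have h4 := hh.2
      rw [e, pow_succ] at h4
      push_cast at h4
      exact dvd_trans (Dvd.intro_left _ rfl) h4
    have h5 : ((2 : ℕ) : OO k t) ∣ 1 - h := by
      have e : (1 : OO k t) - h = -(h - 1) := by ring
      rw [e]
      push_cast
      exact (dvd_neg).2 h3
    exact cop_congr h5 (cop_one 2)
  have hcop : ∀ h ∈ T, Cop h 2 := fun h hh => hcopU h (hT.mem h hh)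
  have hinj : ∀ h ∈ T, ∀ h' ∈ T, pH z0 d h = pH z0 d h' → h = h' := by
    intro h hh h' hh' he
    by_contra hne
    have hnd : ¬ ((2 ^ N : ℕ) : OO k t) ∣ h - h' := fun hd => hne (hT.uni h hh h' hh' hd)
    obtain ⟨j, hj, hj1, hj2⟩ := Der0_exp hnd
    exact (pi7 h h' j (hcop h hh) (hcop h' hh') hj hj1 hj2).1 he
  obtain ⟨h1, h1T, h1d⟩ := hT.ex 1 ⟨by simp, by simp⟩
  have hpi1 : pH z0 d (1 : OO k t) = pH z0 d h1 := pi6 1 h1 (cop_one 2) (hcop h1 h1T) h1d
  have hVP : ∀ h : OO k t, Cop h 2 → VP P (pH z0 d h) := by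
    intro h hh
    obtain ⟨-, hne, hv, -⟩ := pi1 h hh
    refine (vP_nonneg h2 hne).1 ?_
    rw [hv]
    positivity
  -- the values
  have hval : ∀ h ∈ T, F.eval (pH z0 d h) = 0 := by
    intro h hh
    obtain ⟨τ, hτ⟩ := hSur k t P hP f N hpt.odd hpt.f15 hN1 h (hT.mem h hh).1 (hcop h hh)
    have h3 := pi8 f h 1 τ hpt.odd dvd_rfl hτ (cop_one 2)
    rw [mul_one] at h3
    rw [← h3, ← (oEv F hF _ (hVP 1 (cop_one 2))).2 τ hτ.ine, hF0, map_zero]
  have hcoef : ∀ i, VP P (F.coeff i) := fun i => (hF i).1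
  set S : Finset Om := T.image (pH z0 d) with hS
  have hSV : ∀ r ∈ S, VP P r := by
    intro r hr
    obtain ⟨h, hh, rfl⟩ := Finset.mem_image.1 hr
    exact hVP h (hcop h hh)
  obtain ⟨y, hy, hy'⟩ := (hPol P hPp S F hSV hcoef).1 0 DI.VP.zero
    (by
      intro r hr
      obtain ⟨h, hh, rfl⟩ := Finset.mem_image.1 hr
      exact hval h hh)
    (pH z0 d h1) (Finset.mem_image.2 ⟨h1, h1T, rfl⟩)
  obtain ⟨s1, s2⟩ := (hSum k t P hP f N z0 d hpt hN).2 T hT h1 h1T
  have hprod : ∏ r ∈ S.erase (pH z0 d h1), (pH z0 d h1 - r) =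
      ∏ h ∈ T.erase h1, (pH z0 d h1 - pH z0 d h) := by
    have e : S.erase (pH z0 d h1) = (T.erase h1).image (pH z0 d) := by
      ext r
      simp only [Finset.mem_erase, hS, Finset.mem_image]
      constructor
      · rintro ⟨hr, h, hh, rfl⟩
        exact ⟨h, ⟨fun e => hr (by rw [e]), hh⟩, rfl⟩
      · rintro ⟨h, ⟨hne, hh⟩, rfl⟩
        exact ⟨fun e => hne (hinj h hh h1 h1T e), h, hh, rfl⟩
    rw [e, Finset.prod_image]
    intro a ha b hb hab
    exact hinj a (Finset.mem_of_mem_erase ha) b (Finset.mem_of_mem_erase hb) hab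
  rw [hpi1, hy', hprod]
  exact GE.mul_right h2 (Or.inr s2.ge) hy

end Pool.Agent.DN.GL
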