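import Pool.Agent.Lib.DN.GL.Spec

/-!
# Theorem DN, part GL, module Ext: elements fixed by inertia have odd level
-/

set_option autoImplicit false

open scoped Pointwise

noncomputable section

namespace Pool.Agent.DN.GL

open Pool.Agent.MuZ Pool.Agent.FW Pool.Agent.DN
open Pool.Agent.DI (io ofC io_inj exists_io io_ofC ofC_io VP MP UP TP ex)

variable {k t : ℕ}

/-- Inertia elements at a prime above `2` fix `K`. -/
private theorem Ext_GK [Ine k t] {P : Ideal ZZ} (hP : Ab2 P) {τ : Gal(Om/ℚ)}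
    (hτ : τ ∈ P.inertia Gal(Om/ℚ)) : τ ∈ GK k t := by
  have : P.IsPrime := hP.1.1
  rw [mem_GK_iff]
  have hv : VP P (wO k t) := by
    have h := toO_VP (P := P) (wI k t)
    rwa [toO_wI] at h
  have h := DI.VP.inertia hτ hv
  have hsq := wO_sq (n := k) (t := t)
  have h3 : (τ (wO k t) - wO k t) * (τ (wO k t) - (t - wO k t)) = 0 := by
    have h4 := congrArg τ hsq
    simp only [map_sub, map_mul, map_pow, map_natCast] at h4
    linear_combination h4 - hsq
  rcases mul_eq_zero.1 h3 with h5 | h5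
  · exact sub_eq_zero.1 h5
  · exfalso
    have h6 : τ (wO k t) = t - wO k t := sub_eq_zero.1 h5
    have ht : (t : Om) = 1 := by
      rw [Ine.one (n := k) (t := t)]
      exact Nat.cast_one
    rw [h6] at h
    have h7 : MP P ((t : Om) - wO k t - wO k t + 2 * wO k t) :=
      DI.MP.add h (DI.MP.mul_right hP.2 hv)
    have h8 : (t : Om) - wO k t - wO k t + 2 * wO k t = 1 := by
      linear_combination ht
    rw [h8] at h7
    exact DI.MP.one_not h7

/-- An ideal prime to `f 2^N` whose class modulo `f` is trivial is equivalent modulo `f 2^N` to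
a principal ideal `(h)`, `h = 1` modulo `f`. -/
private theorem Ext_ideal [Ine k t] {f N : ℕ} (hf : 0 < f) (hN : 1 ≤ N) {a : Ideal (OO k t)}
    (ha : a ≠ ⊥) (hc : PrI a (f * 2 ^ N)) (hr : Ray f a ⊤) :
    ∃ h : OO k t, (f : OO k t) ∣ h - 1 ∧ Cop h 2 ∧ Ray (f * 2 ^ N) a (sp h) := by
  obtain ⟨α, α', hα0, hα'0, hcα, -, hd, he⟩ := hr
  rw [Ideal.mul_top] at he
  have hM : 0 < f * 2 ^ N := Nat.mul_pos hf (pow_pos two_pos N)
  have hfM : (f : OO k t) ∣ ((f * 2 ^ N : ℕ) : OO k t) := by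
    rw [Nat.cast_mul]
    exact dvd_mul_right _ _
  obtain ⟨x, hxa, hx0, hx⟩ := (aO6 k t).2.2.2.2 (f * 2 ^ N) a hM ha hc
  have hmem : α * x ∈ sp α' := by
    rw [← he]
    exact Ideal.mul_mem_mul (Ideal.mem_span_singleton_self α) hxa
  obtain ⟨y, hy⟩ := Ideal.mem_span_singleton.1 hmem
  have hspα : sp α ≠ ⊥ := fun h => hα0 (Ideal.span_singleton_eq_bot.1 h)
  have hya : sp y * a = sp x := by
    have h1 : sp α * (sp y * a) = sp α * sp x := by
      calc sp α * (sp y * a) = sp y * (sp α * a) := by rw [mul_left_comm]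
        _ = sp y * sp α' := by rw [he]
        _ = sp α * sp x := by
          rw [Ideal.span_singleton_mul_span_singleton, Ideal.span_singleton_mul_span_singleton,
            hy, mul_comm]
    exact mul_left_cancel₀ hspα h1
  have hy0 : y ≠ 0 := by
    rintro rfl
    rw [mul_zero] at hy
    exact mul_ne_zero hα0 hx0 hy
  have hcx : Cop x (f * 2 ^ N) := by
    refine cop_congr (a := 1) ?_ (cop_one _)
    have h1 := (dvd_neg (α := OO k t)).2 hx
    rwa [neg_sub] at h1
  have hcy : Cop y (f * 2 ^ N) := by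
    have h1 : PrI (sp y * a) (f * 2 ^ N) := by
      rw [hya]
      exact ((aO6 k t).2.2.2.1 _ x hM).2 hcx
    exact ((aO6 k t).2.2.2.1 _ y hM).1 (((aO6 k t).1 _ _ _).1 h1).1
  -- `y = 1` modulo `f`
  obtain ⟨β, -, hβ⟩ := cop_inv hcα
  have hy1 : (f : OO k t) ∣ y - 1 := by
    have h1 : (f : OO k t) ∣ x - 1 := hfM.trans hx
    have h2 : (f : OO k t) ∣ α * (y - 1) := by
      have e : α * (y - 1) = (α - α') * y + α * (x - 1) := by
        linear_combination -hy
      rw [e]
      exact dvd_add (hd.mul_right y) (h1.mul_left α)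
    have e : y - 1 = β * (α * (y - 1)) - (α * β - 1) * (y - 1) := by ring
    rw [e]
    exact dvd_sub (h2.mul_left β) (hβ.mul_right (y - 1))
  obtain ⟨h, hch, hh⟩ := cop_inv hcy
  have hh1 : (f : OO k t) ∣ h - 1 := by
    have h1 : (f : OO k t) ∣ y * h - 1 := hfM.trans hh
    have e : h - 1 = (y * h - 1) - (y - 1) * h := by ring
    rw [e]
    exact dvd_sub h1 (hy1.mul_right h)
  have h2M : 2 ∣ f * 2 ^ N := (dvd_pow_self 2 (by omega)).mul_left f
  have hh0 : h ≠ 0 := by
    rintro rfl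
    have h1 := cop_dvd hch h2M
    unfold Cop at h1
    rw [Nm_zero, isCoprime_zero_left] at h1
    exact absurd (Int.isUnit_iff.1 h1) (by norm_num)
  refine ⟨h, hh1, cop_dvd hch h2M, y * h, x, mul_ne_zero hy0 hh0, hx0, cop_mul hcy hch, hcx, ?_, ?_⟩
  · have e : y * h - x = (y * h - 1) - (x - 1) := by ring
    rw [e]
    exact dvd_sub hh hx
  · have e : sp y * sp h = sp (y * h) := Ideal.span_singleton_mul_span_singleton y h
    calc sp (y * h) * a = sp h * (sp y * a) := by
          rw [← e, mul_comm (sp y) (sp h), mul_assoc]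
      _ = sp x * sp h := by rw [hya, mul_comm]

theorem tExt : S_Ext := by
  intro hE1 hGal _ hSur k t _ P hP f N hf h15 hN x hx hfix
  have hf0 : 0 < f := hf.pos
  have hM : 0 < f * 2 ^ N := Nat.mul_pos hf0 (pow_pos two_pos N)
  have h15M : 15 ∣ f * 2 ^ N := h15.mul_right _
  refine (hGal k t f hf0 h15).2.2.2 x fun g hg a hga hra => ?_
  obtain ⟨a', ha'⟩ := (hE1 k t _ hM h15M).1 g hg
  have hga' : Psi g f a' := (hE1 k t _ hM h15M).2.2.2.2 g f a' ha' (dvd_mul_right f _) h15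
  have hra' : Ray f a' ⊤ :=
    (aO7 k t f hf0).2.2.1 a' a ⊤ ((hE1 k t f hf0 h15).2.1 g a' a hga' hga) hra
  have hca' : PrI a' (f * 2 ^ N) := (((aO11 k t).2.1 _ _).1 ha'.cop).2
  obtain ⟨h, hh1, hh2, hrh⟩ := Ext_ideal hf0 hN ha'.ne hca' hra'
  have hgh : Psi g (f * 2 ^ N) (sp h) := (hE1 k t _ hM h15M).2.2.1 g a' (sp h) ha' hrh
  obtain ⟨s, hs⟩ := hSur k t P hP f N hf h15 hN h hh1 hh2
  have e := (hGal k t _ hM h15M).2.2.1 g hg s (Ext_GK hP hs.ine) (sp h) (sp h) hgh hs.psi
    ((aO7 k t _ hM).1 _) x hx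
  rw [e]
  exact hfix s hs.ine

end Pool.Agent.DN.GL
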