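import Pool.Agent.Lib.DN.GL.Spec

/-!
# DN, part GL, module Fix: the derivative of elements fixed by `H'` (helper86)
-/

set_option autoImplicit false

open scoped Pointwise

noncomputable section

namespace Pool.Agent.DN.GL

open Pool.Agent.MuZ Pool.Agent.FW Pool.Agent.DN
open Pool.Agent.DI (io ofC io_inj exists_io io_ofC ofC_io VP MP UP TP ex)

variable {k t : ℕ}

private theorem prod_er {ι : Type*} [DecidableEq ι] [DecidableEq Om] (T : Finset ι) (g : ι → Om)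
    (hg : ∀ a ∈ T, ∀ b ∈ T, g a = g b → a = b) {h1 : ι} (h : h1 ∈ T) (S : Finset Om)
    (hS : ∀ r : Om, r ∈ S ↔ ∃ a ∈ T, g a = r) :
    ∏ r ∈ S.erase (g h1), (g h1 - r) = ∏ a ∈ T.erase h1, (g h1 - g a) := by
  symm
  refine Finset.prod_nbij g ?_ ?_ ?_ fun _ _ => rfl
  · intro a ha
    rw [Finset.mem_erase] at ha ⊢
    exact ⟨fun h3 => ha.1 (hg a ha.2 h1 h h3), (hS _).2 ⟨a, ha.2, rfl⟩⟩
  · intro a ha b hb hab
    exact hg a (Finset.mem_of_mem_erase ha) b (Finset.mem_of_mem_erase hb) hab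
  · intro r hr
    have hr' := Finset.mem_erase.1 (Finset.mem_coe.1 hr)
    obtain ⟨a, ha, rfl⟩ := (hS r).1 hr'.2
    refine ⟨a, ?_, rfl⟩
    rw [Finset.mem_coe, Finset.mem_erase]
    exact ⟨fun h3 => hr'.1 (by rw [h3]), ha⟩

private theorem exj {N : ℕ} {v : OO k t} (h : ¬ ((2 ^ N : ℕ) : OO k t) ∣ v) :
    ∃ j : ℕ, j < N ∧ ((2 ^ j : ℕ) : OO k t) ∣ v ∧ ¬ ((2 ^ (j + 1) : ℕ) : OO k t) ∣ v := by
  induction N with
  | zero =>
    exfalso
    apply h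
    rw [pow_zero, Nat.cast_one]
    exact one_dvd v
  | succ N ih =>
    by_cases h1 : ((2 ^ N : ℕ) : OO k t) ∣ v
    · exact ⟨N, Nat.lt_succ_self N, h1, h⟩
    · obtain ⟨j, hj, h2⟩ := ih h1
      exact ⟨j, by omega, h2⟩

private theorem hq_cop {f N : ℕ} {h : OO k t} (hh : Hq f N h) : Cop h 2 := by
  have h1 : ((2 : ℕ) : OO k t) ∣ 1 - h := by
    obtain ⟨u, hu⟩ := hh.2.1
    refine ⟨-(2 * u), ?_⟩
    have e : (1 : OO k t) - h = -(h - 1) := by ring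
    rw [e, hu]
    push_cast
    ring
  exact cop_congr h1 (cop_one 2)

private theorem hq_ch [Ine k t] {f f' N : ℕ} (hN : 3 ≤ N) (hf : Odd f') {v : OO k t} (hv : Hq f N v) :
    ∃ u : OO k t, Hq f' N u ∧ ((2 ^ N : ℕ) : OO k t) ∣ v - u := by
  obtain ⟨u, -, h1, h2⟩ := (aO11 k t).2.2.2.2.2 (2 ^ N) f' v 1 (by positivity) hf.pos
    (Nat.Coprime.pow_left N (Nat.coprime_two_left.2 hf))
  have h3 : ((2 ^ N : ℕ) : OO k t) ∣ v - u := by
    have e : v - u = -(u - v) := by ring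
    rw [e]
    exact (dvd_neg).2 h1
  refine ⟨u, ⟨h2, ?_, ?_⟩, h3⟩
  · have h4 : (4 : OO k t) ∣ ((2 ^ N : ℕ) : OO k t) := by
      refine ⟨((2 ^ (N - 2) : ℕ) : OO k t), ?_⟩
      have e : 2 ^ N = 4 * 2 ^ (N - 2) := by
        have e1 : (4 : ℕ) = 2 ^ 2 := by norm_num
        rw [e1, ← pow_add]
        exact congrArg _ (by omega)
      rw [e]
      push_cast
      ring
    have e : u - 1 = (u - v) + (v - 1) := by ring
    rw [e]
    exact dvd_add (h4.trans h1) hv.2.1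
  · have h4 : ((2 ^ N : ℕ) : ℤ) ∣ Nm u - Nm v := Nm_congr h1
    have h5 : (2 : ℤ) ^ N ∣ Nm u - Nm v := by
      push_cast at h4
      exact h4
    have e : Nm u - 1 = (Nm u - Nm v) + (Nm v - 1) := by ring
    rw [e]
    exact dvd_add h5 hv.2.2

private theorem hq_one {f N : ℕ} : Hq f N (1 : OO k t) := by
  refine ⟨?_, ?_, ?_⟩
  · rw [sub_self]
    exact dvd_zero _
  · rw [sub_self]
    exact dvd_zero _
  · rw [Nm_one, sub_self]
    exact dvd_zero _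

private theorem hq_sys [Ine k t] {f f' N : ℕ} (hN : 3 ≤ N) (hf : Odd f') (hff : f ∣ f')
    {T : Finset (OO k t)} (hT : IsR N (Hq f' N) T) : IsR N (Hq f N) T := by
  refine ⟨?_, ?_, hT.uni⟩
  · intro h hh
    obtain ⟨h1, h2, h3⟩ := hT.mem h hh
    obtain ⟨c, rfl⟩ := hff
    refine ⟨?_, h2, h3⟩
    obtain ⟨u, hu⟩ := h1
    refine ⟨(c : OO k t) * u, ?_⟩
    rw [hu]
    push_cast
    ring
  · intro v hv
    obtain ⟨u, hu, h1⟩ := hq_ch (f' := f') hN hf hv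
    obtain ⟨h, hh, h2⟩ := hT.ex u hu
    refine ⟨h, hh, ?_⟩
    have e : v - h = (v - u) + (u - h) := by ring
    rw [e]
    exact dvd_add h1 h2

theorem tFix : S_Fix := by
  classical
  intro hOa hRep hPi hSur hPol hSum k t _ P hP f N z0 d hp hN f' hf' hff' x y hD hx
  have hPp : P.IsPrime := hP.1.1
  have h2 : MP P 2 := hP.2
  obtain ⟨F, hF, hFx, hFy⟩ := hD
  obtain ⟨-, -, -, -, -, -, -, -, hEv⟩ := hOa k t P hP
  obtain ⟨hPi1, -, -, -, -, hPi2, hPi3, hPi4⟩ := hPi k t P hP f N z0 d hp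
  have c1 : Cop (1 : OO k t) 2 := cop_one 2
  obtain ⟨T, hT⟩ := (hRep k t N (by omega)).1 (Hq f' N)
  have hT' : IsR N (Hq f N) T := hq_sys hN hf' hff' hT
  obtain ⟨h1, hh1, hd1⟩ := hT.ex 1 hq_one
  have hcop : ∀ h ∈ T, Cop h 2 := fun h hh => hq_cop (hT.mem h hh)
  have hpi1 : pH z0 d (1 : OO k t) = pH z0 d h1 := hPi2 1 h1 c1 (hcop h1 hh1) hd1
  have vpi : ∀ h : OO k t, Cop h 2 → VP P (pH z0 d h) := by
    intro h hh
    obtain ⟨-, q1, q2, -⟩ := hPi1 h hh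
    rw [← vP_nonneg h2 q1, q2]
    positivity
  have hinj : ∀ a ∈ T, ∀ b ∈ T, pH z0 d a = pH z0 d b → a = b := by
    intro a ha b hb hab
    by_contra hne
    have h3 : ¬ ((2 ^ N : ℕ) : OO k t) ∣ a - b := fun h4 => hne (hT.uni a ha b hb h4)
    obtain ⟨j, hj, h4, h5⟩ := exj h3
    exact (hPi3 a b j (hcop a ha) (hcop b hb) hj h4 h5).1 hab
  have hval : ∀ h ∈ T, F.eval (pH z0 d h) = x := by
    intro h hh
    obtain ⟨τ, hτ⟩ := hSur k t P hP f' N hf' (hp.f15.trans hff') (by omega) h (hT.mem h hh).1 (hcop h hh)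
    have e1 := hx h τ hτ (hT.mem h hh)
    have e2 := (hEv F hF _ (vpi 1 c1)).2 τ hτ.ine
    rw [hPi4 f' h 1 τ hf' hff' hτ c1, mul_one, hFx, e1] at e2
    exact e2.symm
  have hxV : VP P x := by
    rw [← hFx]
    exact (hEv F hF _ (vpi 1 c1)).1
  have hSm : ∀ r : Om, r ∈ T.image (pH z0 d) ↔ ∃ a ∈ T, pH z0 d a = r := fun r => Finset.mem_image
  obtain ⟨hPol1, -⟩ := hPol P hPp (T.image (pH z0 d)) F (by
    intro r hr
    obtain ⟨a, ha, rfl⟩ := (hSm r).1 hr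
    exact vpi a (hcop a ha)) (fun i => (hF i).1)
  obtain ⟨y', hy', hy2⟩ := hPol1 x hxV (by
    intro r hr
    obtain ⟨a, ha, rfl⟩ := (hSm r).1 hr
    exact hval a ha) (pH z0 d h1) ((hSm _).2 ⟨h1, hh1, rfl⟩)
  obtain ⟨hs1, hs2⟩ := (hSum k t P hP f N z0 d hp hN).1 T hT' h1 hh1
  rw [prod_er T (pH z0 d) hinj hh1 _ hSm] at hy2
  have g1 : GE P (2 / 3 - 3 / 2 ^ N) (∏ h ∈ T.erase h1, (pH z0 d h1 - pH z0 d h)) := Or.inr hs2
  have hvO : VP P (vO (⊤ : Ideal (OO k t)) (z0 + d)) := by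
    have h3 := (hPi1 1 c1).2.2.2.2.2
    rw [toC_one, one_mul] at h3
    exact h3.1
  have g2 : GE P (2 / 3 - 3 / 2 ^ N)
      (F.derivative.eval (pH z0 d (1 : OO k t)) * vO (⊤ : Ideal (OO k t)) (z0 + d)) := by
    rw [hpi1, hy2]
    exact GE.mul_right h2 (GE.mul_right h2 g1 hy') hvO
  have hle : (2 / 3 - 3 / 2 ^ N : ℚ) ≤ 2 := by
    have h3 : (0 : ℚ) ≤ 3 / 2 ^ N := by positivity
    linarith
  have g3 := GE.add h2 (GE.mono hFy hle) g2
  rwa [sub_add_cancel] at g3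

end Pool.Agent.DN.GL
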