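import Pool.Agent.Lib.DN.GL.Spec
import Pool.Agent.Lib.DN.E.Ab
import Pool.Agent.Lib.DN.E.Cj

/-!
# Theorem DN, part GL: Galois theory of the fields `EE M`
-/

set_option autoImplicit false

open scoped Pointwise

noncomputable section

namespace Pool.Agent.DN.GL

open Pool.Agent.MuZ Pool.Agent.FW Pool.Agent.DN
open Pool.Agent.DI (io ofC io_inj exists_io io_ofC ofC_io VP MP UP TP ex)

private theorem Gal_cjI_top {k t : ℕ} [SqN k t] : cjI (⊤ : Ideal (OO k t)) = ⊤ := by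
  have h := (aO3 k t).2.2.2.1 (1 : OO k t)
  rw [cjO_one] at h
  rwa [show sp (1 : OO k t) = ⊤ from Ideal.span_singleton_one] at h

/-- **Gal.** -/
theorem tGal : S_Gal := by
  intro hR1 hE1 _ hE8 k t _ M hM h15
  obtain ⟨r1, r2, r3, r4, r5, r6, -⟩ := aO7 k t M hM
  have hray : ∀ a a' : Ideal (OO k t), Ray M a ⊤ → Ray M a a' → Ray M a' ⊤ :=
    fun a a' h h' => r3 _ _ _ (r2 _ _ h') h
  refine ⟨?_, ?_, ?_, fun x hx => hx⟩
  · refine (hE8 k t M (fun a : Ideal (OO k t) => Ray M a ⊤) hM h15 (r1 ⊤) ?_ hray ?_).1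
    · intro a ha
      obtain ⟨h1, h2⟩ := r6 a ⊤ ha
      exact ⟨h1.2 Eb.ne_top, h2.2 (Eb.pri_top M)⟩
    · intro a a' ha ha'
      have h := r4 a ⊤ a' ⊤ ha ha'
      rwa [Ideal.mul_top] at h
  · obtain ⟨c, -, hc⟩ := Eb.tCj (Eb.tAb hE1 aO7) aL2 aO3 hR1
    obtain ⟨-, -, hst⟩ := hc k t
    intro τ x hx
    refine hst M (fun a : Ideal (OO k t) => Ray M a ⊤) hM h15 hray ?_ τ x hx
    intro a ha
    have h := (aO3 k t).2.2.2.2.2 M a ⊤ ha
    rwa [Gal_cjI_top] at h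
  · intro τ hτ τ' hτ' a a' ha ha' hr x hx
    obtain ⟨e1, e2, -, e4, -⟩ := hE1 k t M hM h15
    have hσ : τ'⁻¹ * τ ∈ GK k t := (GK k t).mul_mem ((GK k t).inv_mem hτ') hτ
    obtain ⟨s, hs⟩ := e1 _ hσ
    have h1 : Psi τ M (a' * s) := by
      have h := e4 _ _ _ _ ha' hs
      rwa [mul_inv_cancel_left] at h
    have h2 : Ray M (a' * s) a := e2 τ _ _ h1 ha
    have h3 : Ray M (s * a') (⊤ * a') := by
      rw [Ideal.top_mul, mul_comm]
      exact r3 _ _ _ h2 hr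
    have h4 : Ray M s ⊤ := r5 s ⊤ a' ha'.ne (Eb.psi_pri ha') h3
    have h5 : (τ'⁻¹ * τ) x = x := hx _ hσ s hs h4
    have h6 : τ' ((τ'⁻¹ * τ) x) = τ' x := by rw [h5]
    rw [← AlgEquiv.mul_apply, mul_inv_cancel_left] at h6
    exact h6

end Pool.Agent.DN.GL
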