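import Pool.Agent.Lib.DN.GL.Spec

/-!
# Theorem DN, part GL, module `Hj`: the group `H'` is large (pigeonhole)

See the docstring of `S_Hj` (`DN/GL/Spec.lean`).
-/

set_option autoImplicit false

open scoped Pointwise

noncomputable section

namespace Pool.Agent.DN.GL

open Pool.Agent.MuZ Pool.Agent.FW Pool.Agent.DN
open Pool.Agent.DI (io ofC io_inj exists_io io_ofC ofC_io VP MP UP TP ex)

variable {k t : ℕ}

private theorem natd {a b : ℕ} (h : a ∣ b) {x : OO k t} (hx : (b : OO k t) ∣ x) : (a : OO k t) ∣ x :=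
  dvd_trans (Nat.cast_dvd_cast h) hx

/-- The norm of an element which is `1` modulo `2 ^ j`. -/
private theorem nm_one {j : ℕ} {u : OO k t} (h : ((2 ^ j : ℕ) : OO k t) ∣ u - 1) :
    (2 : ℤ) ^ j ∣ Nm u - 1 := by
  have h1 := Nm_congr h
  rw [Nm_one] at h1
  exact_mod_cast h1

/-- Inverse modulo `f 2 ^ N`. -/
private theorem inv_uj {f N j : ℕ} (hj : 2 ≤ j) (hjN : j ≤ N) {u : OO k t} (hu : Uj f j u) :
    ∃ b : OO k t, Uj f j b ∧ ((f * 2 ^ N : ℕ) : OO k t) ∣ u * b - 1 := by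
  have h1 : (2 : ℤ) ∣ Nm u - 1 := dvd_trans (dvd_pow_self 2 (by omega)) (nm_one hu.2)
  have h2 : IsCoprime (Nm u) 2 := by
    obtain ⟨c, hc⟩ := h1
    exact ⟨1, -c, by linear_combination hc⟩
  have h3 : Cop u f := by
    refine cop_congr ?_ (cop_one f)
    have e : 1 - u = -(u - 1) := by ring
    rw [e]
    exact (dvd_neg).2 hu.1
  have h4 : Cop u (f * 2 ^ N) := by
    unfold Cop
    push_cast
    exact IsCoprime.mul_right h3 (h2.pow_right)
  obtain ⟨b, -, hb⟩ := cop_inv h4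
  refine ⟨b, ⟨?_, ?_⟩, hb⟩
  · have e : b - 1 = (u * b - 1) - (u - 1) * b := by ring
    rw [e]
    exact dvd_sub (natd (Dvd.intro _ rfl) hb) (Dvd.dvd.mul_right hu.1 b)
  · have e : b - 1 = (u * b - 1) - (u - 1) * b := by ring
    rw [e]
    exact dvd_sub (natd ((pow_dvd_pow 2 hjN).mul_left f) hb) (Dvd.dvd.mul_right hu.2 b)

private theorem mul_uj {f j : ℕ} {u b : OO k t} (hu : Uj f j u) (hb : Uj f j b) : Uj f j (u * b) := by
  have e : u * b - 1 = (u - 1) * b + (b - 1) := by ring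
  refine ⟨?_, ?_⟩
  · rw [e]
    exact dvd_add (Dvd.dvd.mul_right hu.1 b) hb.1
  · rw [e]
    exact dvd_add (Dvd.dvd.mul_right hu.2 b) hb.2

/-- The invariant of the norm. -/
private def gn (N j : ℕ) (u : OO k t) : ℤ := (Nm u - 1) / 2 ^ j % 2 ^ (N - j)

private theorem gn_eq {N j : ℕ} (hjN : j ≤ N) {u u' : OO k t} (hu : (2 : ℤ) ^ j ∣ Nm u - 1)
    (hu' : (2 : ℤ) ^ j ∣ Nm u' - 1) (h : gn N j u = gn N j u') : (2 : ℤ) ^ N ∣ Nm u - Nm u' := by
  have h1 : (2 : ℤ) ^ (N - j) ∣ (Nm u - 1) / 2 ^ j - (Nm u' - 1) / 2 ^ j :=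
    Int.ModEq.dvd (show (Nm u' - 1) / 2 ^ j ≡ (Nm u - 1) / 2 ^ j [ZMOD 2 ^ (N - j)] from h.symm)
  have h2 := Int.mul_ediv_cancel' hu
  have h3 := Int.mul_ediv_cancel' hu'
  have e : Nm u - Nm u' = 2 ^ j * ((Nm u - 1) / 2 ^ j - (Nm u' - 1) / 2 ^ j) := by
    rw [mul_sub, h2, h3]
    ring
  rw [e, ← pow_mul_pow_sub (2 : ℤ) hjN]
  exact mul_dvd_mul_left _ h1

theorem tHj : S_Hj := by
  intro hRep k t _ f N hf j hj hjN T hT
  classical
  obtain ⟨r1, -, r3⟩ := hRep k t N (by omega)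
  obtain ⟨U, hU⟩ := r1 (Uj f j)
  have hcard : U.card = 4 ^ (N - j) := (r3 f hf).2 j hjN U hU
  -- the pigeonhole
  have hM : (0 : ℤ) < 2 ^ (N - j) := by positivity
  obtain ⟨y, -, hy⟩ : ∃ y ∈ Finset.Ico (0 : ℤ) (2 ^ (N - j)),
      2 ^ (N - j) ≤ (U.filter (fun u => gn N j u = y)).card := by
    refine Finset.exists_le_card_fiber_of_mul_le_card_of_maps_to (fun u _ => ?_) ?_ ?_
    · rw [Finset.mem_Ico]
      exact ⟨Int.emod_nonneg _ hM.ne', Int.emod_lt_of_pos _ hM⟩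
    · exact ⟨0, Finset.mem_Ico.2 ⟨le_refl _, hM⟩⟩
    · have e : ((2 : ℤ) ^ (N - j) - 0).toNat = 2 ^ (N - j) := by
        rw [sub_zero]
        have : ((2 : ℤ) ^ (N - j)) = ((2 ^ (N - j) : ℕ) : ℤ) := by push_cast; rfl
        rw [this, Int.toNat_natCast]
      rw [Int.card_Ico, e, hcard, ← mul_pow]
      exact le_refl _
  have hne : (U.filter (fun u => gn N j u = y)).Nonempty := by
    rw [← Finset.card_pos]
    exact lt_of_lt_of_le (by positivity) hy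
  obtain ⟨u0, hu0⟩ := hne
  rw [Finset.mem_filter] at hu0
  have hu0j := hU.mem u0 hu0.1
  obtain ⟨b, hb, hub⟩ := inv_uj hj hjN hu0j
  -- the elements `u b`
  have hHq : ∀ u ∈ U.filter (fun u => gn N j u = y), Hq f N (u * b) := by
    intro u hu
    rw [Finset.mem_filter] at hu
    have huj := hU.mem u hu.1
    have h1 := mul_uj huj hb
    refine ⟨h1.1, ?_, ?_⟩
    · have h4 : ((4 : ℕ) : OO k t) ∣ u * b - 1 := natd (pow_dvd_pow 2 hj) h1.2
      exact_mod_cast h4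
    · have h2 := gn_eq hjN (nm_one huj.2) (nm_one hu0j.2) (hu.2.trans hu0.2.symm)
      have h3 : (2 : ℤ) ^ N ∣ Nm (u0 * b) - 1 := nm_one (natd (Dvd.intro_left _ rfl) hub)
      rw [Nm_mul] at h3
      have e : Nm (u * b) - 1 = (Nm u - Nm u0) * Nm b + (Nm u0 * Nm b - 1) := by
        rw [Nm_mul]
        ring
      rw [e]
      exact dvd_add (Dvd.dvd.mul_right h2 _) h3
  choose! ρ hρ using fun (v : OO k t) (hv : Hq f N v) => hT.ex v hv
  refine le_trans hy (Finset.card_le_card_of_injOn (fun u => ρ (u * b)) ?_ ?_)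
  · intro u hu
    have hu' : u ∈ U.filter (fun u => gn N j u = y) := hu
    obtain ⟨h1, h2⟩ := hρ _ (hHq u hu')
    rw [Finset.mem_filter] at hu'
    have h3 := (mul_uj (hU.mem u hu'.1) hb).2
    have h4 : ((2 ^ j : ℕ) : OO k t) ∣ ρ (u * b) - 1 := by
      have e : ρ (u * b) - 1 = (u * b - 1) - (u * b - ρ (u * b)) := by ring
      rw [e]
      exact dvd_sub h3 (natd (pow_dvd_pow 2 hjN) h2)
    exact Finset.mem_coe.2 (Finset.mem_filter.2 ⟨h1, h4⟩)
  · intro u hu u' hu' h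
    have hu1 : u ∈ U.filter (fun u => gn N j u = y) := hu
    have hu2 : u' ∈ U.filter (fun u => gn N j u = y) := hu'
    obtain ⟨-, h1⟩ := hρ _ (hHq u hu1)
    obtain ⟨-, h2⟩ := hρ _ (hHq u' hu2)
    rw [Finset.mem_filter] at hu1 hu2
    apply hU.uni u hu1.1 u' hu2.1
    have h' : ρ (u * b) = ρ (u' * b) := h
    rw [h'] at h1
    have h3 : ((2 ^ N : ℕ) : OO k t) ∣ (u - u') * b := by
      have e : (u - u') * b = (u * b - ρ (u' * b)) - (u' * b - ρ (u' * b)) := by ring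
      rw [e]
      exact dvd_sub h1 h2
    have h4 : ((2 ^ N : ℕ) : OO k t) ∣ u0 * b - 1 := natd (Dvd.intro_left _ rfl) hub
    have e : u - u' = (u - u') * b * u0 - (u - u') * (u0 * b - 1) := by ring
    rw [e]
    exact dvd_sub (Dvd.dvd.mul_right h3 _) (Dvd.dvd.mul_left h4 _)

end Pool.Agent.DN.GL
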