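import Pool.Agent.Lib.DN.GL.Spec

set_option autoImplicit false

open scoped Pointwise

noncomputable section

namespace Pool.Agent.DN.GL

open Pool.Agent.MuZ Pool.Agent.FW Pool.Agent.DN
open Pool.Agent.DI (io ofC io_inj exists_io io_ofC ofC_io VP MP UP TP ex)

variable {k t : ℕ}

private theorem Lev_mem {M : ℕ} {x : Om}
    (h : ∀ τ ∈ GK k t, ∀ a : Ideal (OO k t), Psi τ M a → Ray M a ⊤ → τ x = x) : x ∈ EE k t M := h

private theorem Lev_NI : NI (⊤ : Ideal (OO k t)) = 1 := by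
  unfold NI
  rw [Nat.card_eq_one_iff_unique]
  exact ⟨Ideal.Quotient.subsingleton_iff.2 rfl, ⟨0⟩⟩

theorem tLev : S_Lev := by
  intro hE1 hE6 hE10 k t _ M hM h15
  obtain ⟨e1, e2, e3, e4, e5⟩ := hE1 k t M hM h15
  obtain ⟨o1, o2, o3, o4, o5, o6, o7, o8⟩ := aO7 k t M hM
  have key : ∀ x : Om, (∀ τ ∈ GK k t, Psi τ M (⊤ : Ideal (OO k t)) → τ x = x) → x ∈ EE k t M := by
    intro x hx
    refine Lev_mem fun τ hτ a h1 h2 => hx τ hτ (e3 τ a ⊤ h1 h2)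
  refine ⟨?_, ?_, ?_, ?_, ?_⟩
  · intro M' hM' hd x hx τ hτ a h1 h2
    have h15' : 15 ∣ M' := h15.trans hd
    obtain ⟨f1, f2, f3, f4, f5⟩ := hE1 k t M' hM' h15'
    obtain ⟨p1, p2, p3, p4, p5, p6, p7, p8⟩ := aO7 k t M' hM'
    exact hx τ hτ a (f5 τ M a h1 hd h15) (p7 M a ⊤ hd h2)
  · intro v
    exact key _ fun τ hτ _ => GK_toO hτ v
  · intro b hb
    refine ⟨key _ fun τ hτ h => ?_, key _ fun τ hτ h => ?_, fun z hz => ⟨key _ fun τ hτ h => ?_,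
      key _ fun τ hτ h => ?_⟩, fun c hc => key _ fun τ hτ h => ?_⟩
    · rw [h.a1 b hb.ne hb.cop, Ideal.top_mul]
    · rw [h.a3 b hb.ne hb.cop, Ideal.top_mul]
    · rw [h.xx b hb.ne hb.cop z hz, Ideal.top_mul]
    · rw [((hE10 k t τ M ⊤ hM h15 h).1 b hb).1 z hz, Ideal.top_mul]
    · rw [((hE10 k t τ M ⊤ hM h15 h).1 b hb).2 c hc, Ideal.top_mul, Ideal.top_mul]
  · intro ζ hζ
    refine key _ fun τ hτ h => ?_
    rw [hE6 k t τ M ⊤ hτ hM h15 h ζ hζ, Lev_NI, pow_one]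
  · intro m b hm hb h2 h15m hNI z hz
    refine ⟨fun hzn => key _ fun τ hτ h => ?_, key _ fun τ hτ h => ?_⟩
    · rw [((hE10 k t τ M ⊤ hM h15 h).2 m b hm hb h2 h15m hNI z hz).1 hzn, Ideal.top_mul]
    · rw [((hE10 k t τ M ⊤ hM h15 h).2 m b hm hb h2 h15m hNI z hz).2, Ideal.top_mul]

end Pool.Agent.DN.GL
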