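import Pool.Agent.Lib.DN.GL.Spec

/-!
# Theorem DN, part GL: the ring `OA` and the polynomials `PA`
-/

set_option autoImplicit false

open scoped Pointwise

noncomputable section

namespace Pool.Agent.DN.GL

open Pool.Agent.MuZ Pool.Agent.FW Pool.Agent.DN
open Pool.Agent.DI (io ofC io_inj exists_io io_ofC ofC_io VP MP UP TP ex)

private theorem Oa_lev {k t : ℕ} [Ine k t] (hLev : C_Lev) {P : Ideal ZZ} {x y : Om} (hx : OA k t P x) (hy : OA k t P y) :
    ∃ f : ℕ, Odd f ∧ 15 ∣ f ∧ x ∈ EE k t f ∧ y ∈ EE k t f := by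
  obtain ⟨-, f, hf, h15, hxf⟩ := hx
  obtain ⟨-, g, hg, h15', hyg⟩ := hy
  refine ⟨f * g, hf.mul hg, h15.mul_right g, ?_, ?_⟩
  · exact (hLev k t f hf.pos h15).1 (f * g) (Nat.mul_pos hf.pos hg.pos) (Dvd.intro _ rfl) hxf
  · exact (hLev k t g hg.pos h15').1 (f * g) (Nat.mul_pos hf.pos hg.pos) (Dvd.intro_left _ rfl) hyg

private theorem Oa_ring {k t : ℕ} [Ine k t] (hLev : C_Lev) {P : Ideal ZZ} [P.IsPrime] {x y : Om} (hx : OA k t P x)
    (hy : OA k t P y) : OA k t P (x + y) ∧ OA k t P (x * y) ∧ OA k t P (-x) := by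
  obtain ⟨f, hf, h15, hxf, hyf⟩ := Oa_lev hLev hx hy
  exact ⟨⟨hx.1.add hy.1, f, hf, h15, (EE k t f).add_mem hxf hyf⟩, ⟨hx.1.mul hy.1, f, hf, h15, (EE k t f).mul_mem hxf hyf⟩,
    ⟨hx.1.neg, f, hf, h15, (EE k t f).neg_mem hxf⟩⟩

private theorem Oa_odd15 : Odd 15 := by decide

private theorem Oa_zero {k t : ℕ} [Ine k t] {P : Ideal ZZ} [P.IsPrime] : OA k t P 0 :=
  ⟨DI.VP.zero, 15, Oa_odd15, dvd_rfl, (EE k t 15).zero_mem⟩

private theorem Oa_one {k t : ℕ} [Ine k t] {P : Ideal ZZ} [P.IsPrime] : OA k t P 1 :=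
  ⟨DI.VP.one, 15, Oa_odd15, dvd_rfl, (EE k t 15).one_mem⟩

private theorem Oa_nat {k t : ℕ} [Ine k t] {P : Ideal ZZ} [P.IsPrime] (n : ℕ) : OA k t P (n : Om) :=
  ⟨DI.VP.nat n, 15, Oa_odd15, dvd_rfl, natCast_mem (EE k t 15) n⟩

private theorem Oa_sum {k t : ℕ} [Ine k t] (hLev : C_Lev) {P : Ideal ZZ} [P.IsPrime] {ι : Type*} (s : Finset ι)
    (g : ι → Om) (h : ∀ i ∈ s, OA k t P (g i)) : OA k t P (∑ i ∈ s, g i) := by
  classical
  induction s using Finset.induction_on with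
  | empty => rw [Finset.sum_empty]; exact Oa_zero
  | insert a s ha ih =>
    rw [Finset.sum_insert ha]
    exact (Oa_ring hLev (h a (Finset.mem_insert_self a s))
      (ih fun i hi => h i (Finset.mem_insert_of_mem hi))).1

/-- `OA`: a ring, fixed by inertia, integral values. -/
theorem tOa : S_Oa := by
  intro hLev hUnr k t _ P hP
  have hPp : P.IsPrime := hP.1.1
  have h2 : MP P 2 := hP.2
  obtain ⟨-, hU⟩ := hUnr k t P hP
  have hfix : ∀ x : Om, OA k t P x → ∀ τ ∈ P.inertia Gal(Om/ℚ), τ x = x := by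
    rintro x ⟨-, f, hf, h15, hx⟩ τ hτ
    exact (hU f hf h15 x hx).1 τ hτ
  have hC : ∀ x : Om, OA k t P x → PA k t P (Polynomial.C x) := by
    intro x hx i
    rw [Polynomial.coeff_C]
    split
    · exact hx
    · exact Oa_zero
  refine ⟨Oa_zero, Oa_one, fun x y hx hy => Oa_ring hLev hx hy, fun v => ?_, fun x hx => ⟨hfix x hx, fun hx0 => ?_, fun hu => ?_⟩,
    fun F G hF hG => ⟨fun i => ?_, fun i => ?_, fun i => ?_, fun i => ?_⟩, hC, fun i => ?_, fun F hF x hx => ⟨?_, fun τ hτ => ?_⟩⟩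
  · exact ⟨toO_VP v, 15, Oa_odd15, dvd_rfl, (hLev k t 15 (by norm_num) dvd_rfl).2.1 v⟩
  · obtain ⟨hv, f, hf, h15, hxf⟩ := hx
    obtain ⟨j, hj⟩ := (hU f hf h15 x hxf).2 hx0
    have h0 : 0 ≤ vP P x := (vP_nonneg h2 hx0).2 hv
    rw [hj] at h0
    have h1 : 0 ≤ j := by exact_mod_cast h0
    obtain ⟨m, rfl⟩ := Int.eq_ofNat_of_zero_le h1
    exact ⟨m, by rw [hj]; exact Int.cast_natCast m⟩
  · obtain ⟨hv, f, hf, h15, hxf⟩ := hx
    exact ⟨hu.inv.1, f, hf, h15, (EE k t f).inv_mem hxf⟩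
  · rw [Polynomial.coeff_add]
    exact (Oa_ring hLev (hF i) (hG i)).1
  · rw [Polynomial.coeff_mul]
    exact Oa_sum hLev _ _ fun j _ => (Oa_ring hLev (hF _) (hG _)).2.1
  · rw [Polynomial.coeff_neg]
    exact (Oa_ring hLev (hF i) (hF i)).2.2
  · rw [Polynomial.coeff_derivative]
    have h3 : OA k t P ((i : Om) + 1) := by
      have h4 := Oa_nat (k := k) (t := t) (P := P) (i + 1)
      push_cast at h4
      exact h4
    exact (Oa_ring hLev (hF (i + 1)) h3).2.1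
  · rw [Polynomial.coeff_X]
    split
    · exact Oa_one
    · exact Oa_zero
  · rw [Polynomial.eval_eq_sum_range]
    exact DI.VP.sum _ _ fun i _ => (hF i).1.mul (hx.pow i)
  · rw [Polynomial.eval_eq_sum_range, Polynomial.eval_eq_sum_range, map_sum]
    refine Finset.sum_congr rfl fun i _ => ?_
    rw [map_mul, map_pow, hfix _ (hF i) τ hτ]

end Pool.Agent.DN.GL
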