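import Pool.Agent.Lib.DN.GL.Spec

/-!
# DN, part GL, module Pi: the valuations of the differences of the conjugates (helper86)
-/

set_option autoImplicit false

open scoped Pointwise

noncomputable section

namespace Pool.Agent.DN.GL

open Pool.Agent.MuZ Pool.Agent.FW Pool.Agent.DN
open Pool.Agent.DI (io ofC io_inj exists_io io_ofC ofC_io VP MP UP TP ex)

variable {k t : ℕ}

private theorem gtop : G15 (⊤ : Ideal (OO k t)) := ⟨top_ne_bot, top_sup_eq _⟩

private theorem two_cast : ((2 : ℕ) : OO k t) = 2 := by norm_cast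

/-- Multiplication by an element prime to `2` on the points of order `2`. -/
private theorem cop_ord [Ine k t] {v : OO k t} (hv : Cop v 2) {x : ℂ}
    (h2 : 2 * x ∈ Lam (⊤ : Ideal (OO k t))) (h : toC v * x ∈ Lam (⊤ : Ideal (OO k t))) :
    x ∈ Lam (⊤ : Ideal (OO k t)) := by
  obtain ⟨b, -, c, hc⟩ := cop_inv hv
  have h3 : toC b * (toC v * x) ∈ Lam (⊤ : Ideal (OO k t)) := lam_mul b h
  have h4 : toC c * (2 * x) ∈ Lam (⊤ : Ideal (OO k t)) := lam_mul c h2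
  have e1 : toC (v * b) = 1 + 2 * toC c := by
    have e2 : v * b = 1 + ((2 : ℕ) : OO k t) * c := by rw [← hc]; ring
    rw [e2, toC_add, toC_mul, toC_one, toC_nat]
    push_cast
    ring
  have e3 : x = toC b * (toC v * x) - toC c * (2 * x) := by
    have e4 : toC b * (toC v * x) = toC (v * b) * x := by rw [toC_mul]; ring
    rw [e4, e1]
    ring
  rw [e3]
  exact lam_sub h3 h4

/-- The exact order of `v d`, `v = 2 ^ j v'`, `v'` prime to `2`. -/
private theorem ord [Ine k t] {N j : ℕ} {v : OO k t} {d : ℂ} (hj : j < N)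
    (hd : (2 : ℂ) ^ N * d ∈ Lam (⊤ : Ideal (OO k t))) (hn : (2 : ℂ) ^ (N - 1) * d ∉ Lam (⊤ : Ideal (OO k t)))
    (h1 : ((2 ^ j : ℕ) : OO k t) ∣ v) (h2 : ¬ ((2 ^ (j + 1) : ℕ) : OO k t) ∣ v) :
    (2 : ℂ) ^ (N - 1 - j + 1) * (toC v * d) ∈ Lam (⊤ : Ideal (OO k t)) ∧
      (2 : ℂ) ^ (N - 1 - j) * (toC v * d) ∉ Lam (⊤ : Ideal (OO k t)) := by
  obtain ⟨u, rfl⟩ := h1
  have hu : Cop u 2 := by
    rw [(aO4 k t).2.2.1]
    intro h3
    apply h2
    obtain ⟨w, rfl⟩ := h3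
    refine ⟨w, ?_⟩
    push_cast
    ring
  have e1 : toC (((2 ^ j : ℕ) : OO k t) * u) = 2 ^ j * toC u := by
    rw [toC_mul, toC_nat]
    push_cast
    ring
  rw [e1]
  constructor
  · have e2 : (2 : ℂ) ^ (N - 1 - j + 1) * (2 ^ j * toC u * d) = toC u * (2 ^ N * d) := by
      have e3 : (2 : ℂ) ^ N = 2 ^ (N - 1 - j + 1) * 2 ^ j := by
        rw [← pow_add]
        exact congrArg _ (by omega)
      rw [e3]
      ring
    rw [e2]
    exact lam_mul u hd
  · intro h3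
    have e2 : (2 : ℂ) ^ (N - 1 - j) * (2 ^ j * toC u * d) = toC u * (2 ^ (N - 1) * d) := by
      have e3 : (2 : ℂ) ^ (N - 1) = 2 ^ (N - 1 - j) * 2 ^ j := by
        rw [← pow_add]
        exact congrArg _ (by omega)
      rw [e3]
      ring
    rw [e2] at h3
    refine hn (cop_ord hu ?_ h3)
    have e4 : (2 : ℂ) * (2 ^ (N - 1) * d) = 2 ^ N * d := by
      have e5 : (2 : ℂ) ^ N = 2 * 2 ^ (N - 1) := by
        rw [← pow_succ']
        exact congrArg _ (by omega)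
      rw [e5]
      ring
    rw [e4]
    exact hd

/-- Points of the field of level `f 2 ^ N`. -/
private theorem lev_pt [Ine k t] {f N : ℕ} {z0 d : ℂ} (hz : (f : ℂ) * z0 ∈ Lam (⊤ : Ideal (OO k t)))
    (hd : (2 : ℂ) ^ N * d ∈ Lam (⊤ : Ideal (OO k t))) (v : OO k t) :
    ((f * 2 ^ N : ℕ) : ℂ) * (z0 + toC v * d) ∈ Lam (⊤ : Ideal (OO k t)) := by
  have e1 : ((f * 2 ^ N : ℕ) : ℂ) * (z0 + toC v * d) =
      ((2 ^ N : ℕ) : ℂ) * (f * z0) + (f : ℂ) * (toC v * (2 ^ N * d)) := by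
    push_cast
    ring
  rw [e1]
  exact lam_add (lam_nat _ hz) (lam_nat _ (lam_mul v hd))

/-- Odd numbers are units. -/
private theorem odd_not {P : Ideal ZZ} [P.IsPrime] (h2 : MP P 2) {f : ℕ} (hf : Odd f) :
    ¬ MP P (f : Om) := by
  intro h
  obtain ⟨j, rfl⟩ := hf
  have h3 : MP P ((2 : Om) * (j : Om)) := DI.MP.mul_right h2 (DI.VP.nat j)
  have h4 := h.sub h3
  have e : (((2 * j + 1 : ℕ) : Om) - 2 * (j : Om)) = 1 := by
    push_cast
    ring
  rw [e] at h4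
  exact DI.MP.one_not h4

/-- Periods. -/
private theorem x_per (hB : S_B1) [Ine k t] {z z' : ℂ} (h : z - z' ∈ Lam (⊤ : Ideal (OO k t))) :
    xO (⊤ : Ideal (OO k t)) z = xO (⊤ : Ideal (OO k t)) z' := by
  have h1 := ((hB k t ⊤ top_ne_bot).1 z' (z - z') h).1
  rw [add_sub_cancel] at h1
  unfold xO XC
  rw [h1]

theorem tPi : S_Pi := by
  intro hB1 hR1 hR2 hD1 hD2 hD10 hLev hAct k t _ P hP f N z0 d hp
  have hPp : P.IsPrime := hP.1.1
  have h2 : MP P 2 := hP.2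
  have gt : G15 (⊤ : Ideal (OO k t)) := gtop
  have hf0 : 0 < f := hp.odd.pos
  have hN1 := hp.pos
  have hM : 0 < f * 2 ^ N := by positivity
  have h15 : 15 ∣ f * 2 ^ N := hp.f15.mul_right _
  obtain ⟨hD21, -, -, hD24, hD25, -, -⟩ := hD2 k t P hP ⊤ gt
  obtain ⟨hGQ, -⟩ := (hR2 k t).1 P hP
  obtain ⟨ha1, ha3, -⟩ := hGQ.2 ⊤ gt
  obtain ⟨hD11, -, -, -, -, -, -⟩ := hD1 k t P hGQ ⊤ gt
  obtain ⟨-, -, hL, -, -⟩ := hLev k t (f * 2 ^ N) hM h15
  obtain ⟨-, -, hL0, -, -⟩ := hLev k t f hf0 hp.f15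
  obtain ⟨hLa1, hLa3, hLx, -⟩ := hL0 ⊤ gt
  obtain ⟨-, -, hLX, -⟩ := hL ⊤ gt
  -- torsion points
  have tz0 : Tor k t z0 := (tor_iff top_ne_bot).2 ⟨f, hf0, hp.z⟩
  have td : Tor k t d := (tor_iff top_ne_bot).2 ⟨2 ^ N, by positivity, by
    push_cast
    exact hp.dd⟩
  have tz : ∀ v : OO k t, Tor k t (z0 + toC v * d) := fun v => tor_add tz0 (tor_mul v td)
  -- the kernel of reduction
  have kz0 : ¬ IK P (⊤ : Ideal (OO k t)) z0 := by
    refine hD25 z0 tz0 fun hq => hp.zn ?_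
    have h3 := hq (f : OO k t) 1 (by
      rw [toO_nat]
      exact odd_not h2 hp.odd) (by
      rw [mul_one, toC_nat]
      exact hp.z)
    rwa [toC_one, one_mul] at h3
  have kd : ∀ v : OO k t, IK P (⊤ : Ideal (OO k t)) (toC v * d) := fun v => by
    refine hD21 _ N ?_
    have e : (2 : ℂ) ^ N * (toC v * d) = toC v * (2 ^ N * d) := by ring
    rw [e]
    exact lam_mul v hp.dd
  have kz : ∀ v : OO k t, ¬ IK P (⊤ : Ideal (OO k t)) (z0 + toC v * d) := by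
    intro v hk
    have h3 := hD11 _ _ hk (kd (-v))
    rw [toC_neg, neg_mul, add_neg_cancel_right] at h3
    exact kz0 h3
  -- the cases `j = 0` of the orders
  have hcop : ∀ h : OO k t, Cop h 2 → ((2 ^ 0 : ℕ) : OO k t) ∣ h ∧ ¬ ((2 ^ (0 + 1) : ℕ) : OO k t) ∣ h := by
    intro h hh
    refine ⟨?_, ?_⟩
    · rw [pow_zero, Nat.cast_one]
      exact one_dvd h
    · rw [zero_add, pow_one, two_cast]
      exact ((aO4 k t).2.2.1 h).1 hh
  have main : ∀ (z : ℂ) (v : OO k t) (j : ℕ), Tor k t z → ¬ IK P (⊤ : Ideal (OO k t)) z → j < N →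
      ((2 ^ j : ℕ) : OO k t) ∣ v → ¬ ((2 ^ (j + 1) : ℕ) : OO k t) ∣ v →
      xO (⊤ : Ideal (OO k t)) (z + toC v * d) - xO (⊤ : Ideal (OO k t)) z ≠ 0 ∧
      vP P (xO (⊤ : Ideal (OO k t)) (z + toC v * d) - xO (⊤ : Ideal (OO k t)) z) =
        1 / (3 * 4 ^ (N - 1 - j)) := by
    intro z v j hz hk hj hv1 hv2
    obtain ⟨o1, o2⟩ := ord hj hp.dd hp.dn hv1 hv2
    have h3 := hD10 k t P hP ⊤ gt (N - 1 - j) z (toC v * d) hz hk o1 o2
    have hpos : 0 < 3 * 4 ^ (N - 1 - j) := by positivity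
    constructor
    · intro h0
      rw [h0, zero_pow hpos.ne', zero_div] at h3
      exact DI.UP.ne_zero h3 rfl
    · have h4 : UP P ((xO (⊤ : Ideal (OO k t)) (z + toC v * d) - xO (⊤ : Ideal (OO k t)) z) ^
          (3 * 4 ^ (N - 1 - j)) / 2 ^ (1 : ℤ)) := by
        rw [zpow_one]
        exact h3
      rw [vP_eq h2 hpos h4]
      push_cast
      ring
  refine ⟨?_, ⟨(hD24 z0 tz0 kz0).1, f, hp.odd, hp.f15, (hLx z0 hp.z).1⟩,
    ⟨ha1, f, hp.odd, hp.f15, hLa1⟩, ⟨ha3.1, f, hp.odd, hp.f15, hLa3⟩, ha3, ?_, ?_, ?_⟩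
  · intro h hh
    obtain ⟨c1, c2⟩ := hcop h hh
    obtain ⟨m1, m2⟩ := main z0 h 0 tz0 kz0 (by omega) c1 c2
    rw [Nat.sub_zero] at m2
    refine ⟨?_, m1, m2, kz h, (hD24 _ (tz h) (kz h)).1, (hD24 _ (tz h) (kz h)).2.1⟩
    refine sub_mem (hLX _ (lev_pt hp.z hp.dd h)).1 (hLX _ ?_).1
    have h3 := lev_pt hp.z hp.dd (0 : OO k t)
    rwa [toC_zero, zero_mul, add_zero] at h3
  · intro h h' _ _ hd
    unfold pH
    congr 1
    refine x_per hB1 ?_
    obtain ⟨u, hu⟩ := hd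
    have e : z0 + toC h * d - (z0 + toC h' * d) = toC u * (2 ^ N * d) := by
      have e1 : toC h - toC h' = 2 ^ N * toC u := by
        rw [← toC_sub, hu, toC_mul, toC_nat]
        push_cast
        ring
      linear_combination d * e1
    rw [e]
    exact lam_mul u hp.dd
  · intro h h' j _ _ hj hd1 hd2
    obtain ⟨m1, m2⟩ := main (z0 + toC h' * d) (h - h') j (tz h') (kz h') hj hd1 hd2
    have e : z0 + toC h' * d + toC (h - h') * d = z0 + toC h * d := by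
      rw [toC_sub]
      ring
    have e1 : pH z0 d h - pH z0 d h' =
        xO (⊤ : Ideal (OO k t)) (z0 + toC h' * d + toC (h - h') * d) -
          xO (⊤ : Ideal (OO k t)) (z0 + toC h' * d) := by
      rw [e]
      unfold pH
      ring
    rw [← e1] at m1 m2
    exact ⟨fun h0 => m1 (by rw [h0, sub_self]), m2⟩
  · intro f' h h' τ hf' hff' hc _
    obtain ⟨-, -, -, hx, hx0, -, -⟩ := hAct k t P hP f' N h τ hf' (hp.f15.trans hff') hc ⊤ gt
    have hz' : (f' : ℂ) * z0 ∈ Lam (⊤ : Ideal (OO k t)) := by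
      obtain ⟨c, rfl⟩ := hff'
      have e : ((f * c : ℕ) : ℂ) * z0 = (c : ℂ) * (f * z0) := by
        push_cast
        ring
      rw [e]
      exact lam_nat c hp.z
    unfold pH
    rw [map_sub, (hx0 z0 hz').1, (hx _ (lev_pt hz' hp.dd h')).1]
    congr 1
    refine x_per hB1 ?_
    obtain ⟨u, hu⟩ := hc.one
    have e : toC h * (z0 + toC h' * d) - (z0 + toC (h * h') * d) = toC u * (f' * z0) := by
      have e1 : toC h - 1 = f' * toC u := by
        rw [← toC_one (n := k) (t := t), ← toC_sub, hu, toC_mul, toC_nat]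
      rw [toC_mul]
      linear_combination z0 * e1
    rw [e]
    exact lam_mul u hz'

end Pool.Agent.DN.GL
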