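import Pool.Agent.Lib.DN.GL.SpecU

/-!
# DN, part GL, module Pz: traces of the powers of `ζ + ζ⁻¹ - 2` (helper86)
-/

set_option autoImplicit false

open scoped Pointwise

noncomputable section

namespace Pool.Agent.DN.GL

open Pool.Agent.MuZ Pool.Agent.FW Pool.Agent.DN
open Pool.Agent.DI (io ofC io_inj exists_io io_ofC ofC_io VP MP UP TP ex)

private theorem od_eq {N : ℕ} (hN : 3 ≤ N) :
    od N = (Finset.range (2 ^ (N - 2))).image (fun i => 2 * i + 1) := by
  have e : 2 ^ (N - 1) = 2 * 2 ^ (N - 2) := by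
    rw [← pow_succ']
    congr 1
    omega
  ext a
  unfold od
  rw [Finset.mem_filter, Finset.mem_range, Finset.mem_image, e]
  constructor
  · rintro ⟨h1, h2⟩
    refine ⟨a / 2, ?_, by omega⟩
    rw [Finset.mem_range]
    omega
  · rintro ⟨i, hi, rfl⟩
    rw [Finset.mem_range] at hi
    omega

private theorem od_sum {N : ℕ} (hN : 3 ≤ N) (F : ℕ → Om) :
    ∑ a ∈ od N, F a = ∑ i ∈ Finset.range (2 ^ (N - 2)), F (2 * i + 1) := by
  rw [od_eq hN, Finset.sum_image]
  intro i _ j _ h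
  have h' : 2 * i + 1 = 2 * j + 1 := h
  omega

private theorem od_card {N : ℕ} (hN : 3 ≤ N) : (od N).card = 2 ^ (N - 2) := by
  rw [od_eq hN, Finset.card_image_of_injective, Finset.card_range]
  intro i j h
  have h' : 2 * i + 1 = 2 * j + 1 := h
  omega

private theorem expand {x : Om} (hx : x ≠ 0) (j : ℕ) :
    (x + x⁻¹ - 2) ^ j =
      ∑ m ∈ Finset.range (2 * j + 1), ((-1) ^ m * (Nat.choose (2 * j) m : Om)) * x ^ ((j : ℤ) - m) := by
  have e1 : x + x⁻¹ - 2 = (-1 + x) ^ 2 * x⁻¹ := by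
    field_simp
    ring
  rw [e1, mul_pow, ← pow_mul, add_pow, Finset.sum_mul]
  refine Finset.sum_congr rfl fun m hm => ?_
  rw [Finset.mem_range] at hm
  have e2 : x ^ ((j : ℤ) - m) = x ^ (2 * j - m) * x⁻¹ ^ j := by
    have e3 : ((j : ℤ) - m) = ((2 * j - m : ℕ) : ℤ) - (j : ℤ) := by
      have : m ≤ 2 * j := by omega
      push_cast [this]
      ring
    rw [e3, zpow_sub₀ hx, zpow_natCast, zpow_natCast, inv_pow]
    rfl
  rw [e2]
  ring

private theorem geo (y : Om) (m : ℕ) :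
    (y ^ 2 - 1) * ∑ i ∈ Finset.range m, y ^ (2 * i + 1) = y * (y ^ (2 * m) - 1) := by
  induction m with
  | zero => simp
  | succ m ih =>
    rw [Finset.sum_range_succ, mul_add, ih]
    ring

/-- The sum over the half system and its negative. -/
private theorem vanish {y : Om} (hy : y ≠ 0) {m : ℕ} (h4 : y ^ (4 * m) = 1) (h2 : y ^ 2 ≠ 1) :
    ∑ i ∈ Finset.range m, y ^ (2 * i + 1) + ∑ i ∈ Finset.range m, y⁻¹ ^ (2 * i + 1) = 0 := by
  have g1 := geo y m
  have g2 := geo y⁻¹ m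
  have hn : y ^ 2 - 1 ≠ 0 := sub_ne_zero.2 h2
  have e4 : y ^ (2 * m) * y ^ (2 * m) = 1 := by
    rw [← pow_add]
    have e : 2 * m + 2 * m = 4 * m := by ring
    rw [e, h4]
  have e5 : y⁻¹ ^ (2 * m) = y ^ (2 * m) := by
    rw [inv_pow]
    exact inv_eq_of_mul_eq_one_left e4
  rw [e5] at g2
  apply mul_left_cancel₀ hn
  rw [mul_zero, mul_add, g1]
  have e6 : (y ^ 2 - 1) * ∑ i ∈ Finset.range m, y⁻¹ ^ (2 * i + 1) =
      -(y ^ 2) * ((y⁻¹ ^ 2 - 1) * ∑ i ∈ Finset.range m, y⁻¹ ^ (2 * i + 1)) := by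
    have e7 : y ^ 2 * y⁻¹ ^ 2 = 1 := by
      rw [← mul_pow, mul_inv_cancel₀ hy, one_pow]
    linear_combination (∑ i ∈ Finset.range m, y⁻¹ ^ (2 * i + 1)) * e7
  rw [e6, g2]
  field_simp
  ring

private theorem zpow_swap (ζ : Om) (a : ℕ) (e : ℤ) : (ζ ^ a) ^ e = (ζ ^ e) ^ a := by
  rw [← zpow_natCast ζ a, ← zpow_natCast (ζ ^ e) a, ← zpow_mul, ← zpow_mul, mul_comm]

theorem tPz : S_Pz := by
  classical
  intro N ζ hN hζ
  have hζ0 : ζ ≠ 0 := hζ.ne_zero (by positivity)
  have e4 : 4 * 2 ^ (N - 2) = 2 ^ N := by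
    have e : (4 : ℕ) = 2 ^ 2 := by norm_num
    rw [e, ← pow_add]
    congr 1
    omega
  have e2 : 2 * 2 ^ (N - 1) = 2 ^ N := by
    rw [← pow_succ']
    congr 1
    omega
  have e1 : 2 * 2 ^ (N - 2) = 2 ^ (N - 1) := by
    rw [← pow_succ']
    congr 1
    omega
  have hod : ∀ a, a ∈ od N ↔ a < 2 ^ (N - 1) ∧ a % 2 = 1 := by
    intro a
    unfold od
    rw [Finset.mem_filter, Finset.mem_range]
  refine ⟨?_, ?_, od_card hN, ?_, ?_⟩
  · intro j hj
    -- twice the sum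
    have hS : ∀ e : ℤ, e ≠ 0 → |e| ≤ j →
        ∑ a ∈ od N, (ζ ^ a) ^ e + ∑ a ∈ od N, ((ζ ^ a)⁻¹) ^ e = 0 := by
      intro e he hej
      have hy : ζ ^ e ≠ 0 := zpow_ne_zero e hζ0
      have h4 : (ζ ^ e) ^ (4 * 2 ^ (N - 2)) = 1 := by
        rw [e4, ← zpow_natCast (ζ ^ e), ← zpow_mul, mul_comm, zpow_mul, zpow_natCast, hζ.pow_eq_one,
          one_zpow]
      have h2 : (ζ ^ e) ^ 2 ≠ 1 := by
        intro h
        rw [← zpow_natCast (ζ ^ e) 2, ← zpow_mul, hζ.zpow_eq_one_iff_dvd] at h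
        obtain ⟨c, hc⟩ := h
        have hc0 : c ≠ 0 := by
          rintro rfl
          rw [mul_zero] at hc
          push_cast at hc
          exact he (by omega)
        have h5 : (2 ^ N : ℤ) ≤ |e * 2| := by
          push_cast at hc
          rw [hc, abs_mul]
          have h6 : (1 : ℤ) ≤ |c| := Int.one_le_abs hc0
          have h7 : |(2 ^ N : ℤ)| = 2 ^ N := abs_of_nonneg (by positivity)
          rw [h7]
          nlinarith [h6, (by positivity : (0 : ℤ) < 2 ^ N)]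
        rw [abs_mul] at h5
        have h8 : |(2 : ℤ)| = 2 := abs_of_nonneg (by norm_num)
        rw [h8] at h5
        have h9 : (2 ^ N : ℤ) = 4 * 2 ^ (N - 2) := by exact_mod_cast e4.symm
        have h10 : (j : ℤ) < 2 ^ (N - 2) := by exact_mod_cast hj
        have h11 : (0 : ℤ) < 2 ^ (N - 2) := by positivity
        linarith
      have h := vanish hy h4 h2
      rw [od_sum hN, od_sum hN]
      rw [← h]
      congr 1
      · refine Finset.sum_congr rfl fun i _ => zpow_swap ζ _ e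
      · refine Finset.sum_congr rfl fun i _ => ?_
        rw [inv_zpow, zpow_swap, inv_pow]
    have hE : ∀ a ∈ od N, (ζ ^ a + (ζ ^ a)⁻¹ - 2) ^ j + (ζ ^ a + (ζ ^ a)⁻¹ - 2) ^ j =
        ∑ m ∈ Finset.range (2 * j + 1), ((-1) ^ m * (Nat.choose (2 * j) m : Om)) *
          ((ζ ^ a) ^ ((j : ℤ) - m) + ((ζ ^ a)⁻¹) ^ ((j : ℤ) - m)) := by
      intro a _
      have hx : ζ ^ a ≠ 0 := pow_ne_zero _ hζ0
      have g1 := expand hx j
      have g2 := expand (inv_ne_zero hx) j
      rw [inv_inv, add_comm (ζ ^ a)⁻¹ (ζ ^ a)] at g2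
      conv_lhs =>
        congr
        · rw [g1]
        · rw [g2]
      rw [← Finset.sum_add_distrib]
      refine Finset.sum_congr rfl fun m _ => ?_
      ring
    have hT : ∑ a ∈ od N, (ζ ^ a + (ζ ^ a)⁻¹ - 2) ^ j + ∑ a ∈ od N, (ζ ^ a + (ζ ^ a)⁻¹ - 2) ^ j =
        2 * ((-1) ^ j * 2 ^ (N - 2) * (Nat.choose (2 * j) j : Om)) := by
      rw [← Finset.sum_add_distrib, Finset.sum_congr rfl hE, Finset.sum_comm,
        Finset.sum_eq_single_of_mem j (Finset.mem_range.2 (by omega))]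
      · rw [← Finset.mul_sum]
        simp only [sub_self, zpow_zero]
        rw [Finset.sum_const, od_card hN, nsmul_eq_mul]
        push_cast
        ring
      · intro m hm hmj
        rw [Finset.mem_range] at hm
        rw [← Finset.mul_sum, Finset.sum_add_distrib, hS _ _ _, mul_zero]
        · intro h
          apply hmj
          omega
        · rw [abs_le]
          constructor
          · omega
          · omega
    have h2 : (2 : Om) ≠ 0 := two_ne_zero
    apply mul_left_cancel₀ h2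
    rw [← hT]
    ring
  · intro j hj
    exact Nat.two_dvd_centralBinom_of_one_le hj
  · intro a ha a' ha' h
    rw [hod] at ha ha'
    have hx : ζ ^ a ≠ 0 := pow_ne_zero _ hζ0
    have hy : ζ ^ a' ≠ 0 := pow_ne_zero _ hζ0
    have h1 : (ζ ^ a - ζ ^ a') * (ζ ^ a * ζ ^ a' - 1) = 0 := by
      field_simp at h
      linear_combination h
    rcases mul_eq_zero.1 h1 with h2 | h2
    · exact hζ.pow_inj (by omega) (by omega) (sub_eq_zero.1 h2)
    · exfalso
      have h3 : ζ ^ (a + a') = 1 := by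
        rw [pow_add]
        exact sub_eq_zero.1 h2
      have h4 := (hζ.pow_eq_one_iff_dvd _).1 h3
      have h5 := Nat.le_of_dvd (by omega) h4
      omega
  · intro c hc a ha
    rw [hod] at ha
    have hpos : 0 < 2 ^ N := by positivity
    have hr := Nat.mod_lt (c * a) hpos
    have hodd : (c * a) % 2 ^ N % 2 = 1 := by
      rw [Nat.mod_mod_of_dvd _ (dvd_pow_self 2 (by omega : N ≠ 0)), Nat.mul_mod, hc, ha.2]
    have hpow : ζ ^ (c * a) = ζ ^ ((c * a) % 2 ^ N) := by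
      conv_lhs => rw [← Nat.div_add_mod (c * a) (2 ^ N), pow_add, pow_mul, hζ.pow_eq_one, one_pow, one_mul]
    by_cases hlt : (c * a) % 2 ^ N < 2 ^ (N - 1)
    · exact ⟨(c * a) % 2 ^ N, (hod _).2 ⟨hlt, hodd⟩, Or.inl hpow⟩
    · refine ⟨2 ^ N - (c * a) % 2 ^ N, (hod _).2 ⟨?_, ?_⟩, Or.inr ?_⟩
      · have h5 : (c * a) % 2 ^ N ≠ 2 ^ (N - 1) := by
          intro h6
          rw [h6] at hodd
          omega
        omega
      · omega
      · rw [hpow]
        apply eq_inv_of_mul_eq_one_left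
        rw [← pow_add]
        have e : (c * a) % 2 ^ N + (2 ^ N - (c * a) % 2 ^ N) = 2 ^ N := by omega
        rw [e, hζ.pow_eq_one]

end Pool.Agent.DN.GL
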