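import Pool.Agent.Lib.DN.GL.Spec
import Pool.Agent.Lib.FW.E.Ine

/-!
# DN, part GL, module Ram: the value group of a finite normal field (helper99)

Adapted from `DT/GL/UnrT.lean` (helper47) and `DN/GL/Va.lean` (helper66).
-/

set_option autoImplicit false

open scoped Pointwise

noncomputable section

namespace Pool.Agent.DN.GL

open Pool.Agent.MuZ Pool.Agent.FW Pool.Agent.DN
open Pool.Agent.DI (io ofC io_inj exists_io io_ofC ofC_io VP MP UP TP ex)
open IsDedekindDomain
open scoped NumberField WithZero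

/-- The valuation of `2` at a prime above `2` of a Galois extension of `ℚ`. -/
private theorem Ram_two (L : Type) [Field L] [NumberField L] [IsGalois ℚ L]
    (w : HeightOneSpectrum (𝓞 L)) (h2 : (2 : 𝓞 L) ∈ w.asIdeal) :
    w.valuation L (2 : L) = WithZero.exp (-1 : ℤ) ^ Nat.card (w.asIdeal.inertia Gal(L/ℚ)) := by
  have hp2 : Prime (2 : ℤ) := Int.prime_two
  have hv : Ideal.span {(2 : ℤ)} ≠ ⊥ := by
    rw [Ne, Ideal.span_singleton_eq_bot]
    exact two_ne_zero
  let v : HeightOneSpectrum ℤ :=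
    ⟨Ideal.span {2}, (Ideal.span_singleton_prime two_ne_zero).2 hp2, hv⟩
  have hwP : w.asIdeal.IsPrime := w.isPrime
  have hvP : v.asIdeal.IsPrime := v.isPrime
  have hlies : w.asIdeal.LiesOver v.asIdeal := by
    refine (Ideal.liesOver_span_iff hwP.ne_top hp2).2 ?_
    rw [map_ofNat]
    exact h2
  have hgg : IsGaloisGroup Gal(L/ℚ) ℤ (𝓞 L) := IsGaloisGroup.of_isFractionRing Gal(L/ℚ) ℤ (𝓞 L) ℚ L
  have h3 : Nat.card (w.asIdeal.inertia Gal(L/ℚ)) = Ideal.ramificationIdxIn v.asIdeal (𝓞 L) :=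
    Ideal.card_inertia_eq_ramificationIdxIn v.asIdeal w.asIdeal
  have h4 := Ideal.ramificationIdxIn_eq_ramificationIdx v.asIdeal w.asIdeal Gal(L/ℚ)
  have h5 : v.asIdeal.ramificationIdx' w.asIdeal = w.asIdeal.ramificationIdx ℤ :=
    Ideal.ramificationIdx'_eq_ramificationIdx v.asIdeal w.asIdeal v.ne_bot
  have h6 := HeightOneSpectrum.intValuation_liesOver v w (2 : ℤ)
  have h9 : algebraMap ℤ (𝓞 L) 2 = 2 := map_ofNat _ 2
  rw [h5, ← h4, ← h3,
    HeightOneSpectrum.intValuation_singleton v two_ne_zero rfl, h9] at h6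
  have h7 := HeightOneSpectrum.valuation_of_algebraMap (K := L) w (2 : 𝓞 L)
  have h8 : (2 : L) = algebraMap (𝓞 L) L (2 : 𝓞 L) := (map_ofNat _ 2).symm
  rw [h8, h7, ← h6]

theorem tRam : S_Ram := by
  classical
  intro E hfd hE P hP h2P
  have hNF : NumberField E := NumberField.mk
  have hN0 : @Normal ℚ E _ _ (IntermediateField.algebra' E) := by
    rw [IntermediateField.normal_iff_forall_map_le']
    rintro σ _ ⟨y, hy, rfl⟩
    exact hE σ y hy
  have hN : Normal ℚ E := by
    convert hN0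
    exact Subsingleton.elim _ _
  have hG : IsGalois ℚ E := ⟨⟩
  -- the prime `w`
  have h2Z : (2 : ZZ) ∈ P := by
    have h1 := (DI.MP.nat_iff (P := P) 2).1 (by exact_mod_cast h2P)
    exact_mod_cast h1
  have hwp : (P.comap (iO E)).IsPrime := Ideal.comap_isPrime _ _
  have h2w : (2 : 𝓞 E) ∈ P.comap (iO E) := by
    rw [Ideal.mem_comap, map_ofNat]
    exact h2Z
  have hwb : P.comap (iO E) ≠ ⊥ := by
    intro h
    rw [h, Ideal.mem_bot] at h2w
    have h1 := congrArg (fun t : 𝓞 E => ((t : E) : Om)) h2w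
    exact (two_ne_zero : (2 : Om) ≠ 0) h1
  let w : HeightOneSpectrum (𝓞 E) := ⟨P.comap (iO E), hwp, hwb⟩
  have hfin : Finite Gal(E/ℚ) := inferInstance
  let I : Subgroup Gal(E/ℚ) := w.asIdeal.inertia Gal(E/ℚ)
  have hfI : Fintype I := Fintype.ofFinite _
  have hlift : ∀ σ : I, ∃ τ ∈ P.inertia Gal(Om/ℚ),
      ∀ z : E, τ (z : Om) = (((σ : Gal(E/ℚ)) z : E) : Om) := by
    rintro ⟨σ, hσ⟩
    let σ' : Gal(Om/ℚ) := σ.liftNormal Om
    have hσ' : ∀ z : E, σ' (z : Om) = ((σ z : E) : Om) := fun z =>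
      σ.liftNormal_commutes Om z
    obtain ⟨τ, hτ, hτL⟩ := tEIne E P hP σ' (by
      intro y hy
      have hyi : IsIntegral ℤ (⟨(y : Om), hy⟩ : E) := by
        have h1 : IsIntegral ℤ (y : Om) := y.2
        exact (isIntegral_algHom_iff ((algebraMap E Om).toIntAlgHom)
          (algebraMap E Om).injective).1 h1
      let z : 𝓞 E := ⟨⟨(y : Om), hy⟩, hyi⟩
      have h3 : iO E (σ • z - z) = σ' • y - y := by
        apply Subtype.ext
        rw [map_sub]
        change ((iO E (σ • z) : ZZ) : Om) - ((iO E z : ZZ) : Om) = σ' (y : Om) - (y : Om)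
        rw [show (y : Om) = (((⟨(y : Om), hy⟩ : E)) : Om) from rfl, hσ']
        rfl
      rw [← h3]
      exact hσ z)
    refine ⟨τ, hτ, fun z => ?_⟩
    rw [hτL z z.2, hσ' z]
  choose T hT hTz using hlift
  have hTinj : Function.Injective T := by
    intro σ σ' h
    apply Subtype.ext
    apply AlgEquiv.ext
    intro z
    apply Subtype.ext
    rw [← hTz σ z, ← hTz σ' z, h]
  have hcard : (Finset.univ.image T).card = Nat.card I := by
    rw [Finset.card_image_of_injective _ hTinj, Finset.card_univ, Nat.card_eq_fintype_card]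
  have hpos : 0 < Nat.card I := Nat.card_pos
  refine ⟨Finset.univ.image T, by rw [hcard]; exact hpos, ?_, ?_, ?_, ?_⟩
  · intro τ hτ
    obtain ⟨σ, -, rfl⟩ := Finset.mem_image.1 hτ
    exact hT σ
  · intro τ hτ τ' hτ' h
    obtain ⟨σ, -, rfl⟩ := Finset.mem_image.1 hτ
    obtain ⟨σ', -, rfl⟩ := Finset.mem_image.1 hτ'
    have : σ = σ' := by
      apply Subtype.ext
      apply AlgEquiv.ext
      intro z
      apply Subtype.ext
      rw [← hTz σ z, ← hTz σ' z, h z z.2]
    rw [this]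
  · intro τ hτ
    let σ : Gal(E/ℚ) := τ.restrictNormal E
    have hσ : ∀ z : E, ((σ z : E) : Om) = τ (z : Om) := fun z => τ.restrictNormal_commutes E z
    have hσI : σ ∈ I := by
      intro z
      change iO E (σ • z - z) ∈ P
      have h3 : iO E (σ • z - z) = τ • iO E z - iO E z := by
        rw [map_sub]
        congr 1
        apply Subtype.ext
        exact hσ (z : E)
      rw [h3]
      exact hτ (iO E z)
    refine ⟨T ⟨σ, hσI⟩, Finset.mem_image_of_mem _ (Finset.mem_univ _), fun x hx => ?_⟩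
    have h4 := hTz ⟨σ, hσI⟩ ⟨x, hx⟩
    have h5 := hσ ⟨x, hx⟩
    exact (h4.trans h5).symm
  · intro x hxE hx0
    rw [hcard]
    have hw2 := Ram_two E w h2w
    have hfrac : ∀ (z : E) (a d : 𝓞 E),
        z * algebraMap (𝓞 E) E d = algebraMap (𝓞 E) E a →
        ((z : E) : Om) * ((iO E d : ZZ) : Om) = ((iO E a : ZZ) : Om) := by
      intro z a d h
      exact congrArg (fun t : E => (t : Om)) h
    have hVP : ∀ z : E, w.valuation E z ≤ 1 → VP P (z : Om) := by
      intro z hz
      obtain ⟨a, d, hd⟩ := w.exists_primeCompl_mul_eq_of_integer z hz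
      exact ⟨iO E a, iO E d, fun h => d.2 h, hfrac z a d hd⟩
    set y : E := ⟨x, hxE⟩ with hy
    have hy0 : y ≠ 0 := fun h => hx0 (congrArg Subtype.val h)
    have hvy0 : w.valuation E y ≠ 0 := (Valuation.ne_zero_iff _).2 hy0
    have hv20 : w.valuation E (2 : E) ≠ 0 := (Valuation.ne_zero_iff _).2 two_ne_zero
    obtain ⟨a, ha⟩ : ∃ a : ℤ, a = -WithZero.log (w.valuation E y) := ⟨_, rfl⟩
    have hlog2 : WithZero.log (w.valuation E (2 : E)) = -(Nat.card I : ℤ) := by
      rw [hw2, WithZero.log_pow, WithZero.log_exp, nsmul_eq_mul, mul_neg, mul_one]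
    have hval : w.valuation E (y ^ Nat.card I / 2 ^ a) = 1 := by
      have h1 : w.valuation E (y ^ Nat.card I / 2 ^ a) ≠ 0 :=
        (Valuation.ne_zero_iff _).2 (div_ne_zero (pow_ne_zero _ hy0) (zpow_ne_zero _ two_ne_zero))
      have h4 : WithZero.log (w.valuation E (y ^ Nat.card I / 2 ^ a)) = 0 := by
        rw [map_div₀, map_pow, map_zpow₀,
          WithZero.log_div (pow_ne_zero _ hvy0) (zpow_ne_zero _ hv20), WithZero.log_pow,
          WithZero.log_zpow]
        simp only [smul_eq_mul, nsmul_eq_mul]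
        rw [hlog2, ha]
        ring
      rw [← WithZero.exp_log h1, h4, WithZero.exp_zero]
    refine ⟨a, vP_eq h2P hpos (DI.UP.iff.2 ⟨?_, ?_, ?_⟩)⟩
    · exact div_ne_zero (pow_ne_zero _ hx0) (zpow_ne_zero _ two_ne_zero)
    · have h := hVP _ hval.le
      push_cast at h
      exact h
    · have h := hVP (y ^ Nat.card I / 2 ^ a)⁻¹ (by rw [map_inv₀, hval, inv_one])
      push_cast at h
      exact h

end Pool.Agent.DN.GL
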