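import Pool.Agent.Lib.DN.GL.Spec

set_option autoImplicit false

open scoped Pointwise

noncomputable section

namespace Pool.Agent.DN.GL

open Pool.Agent.MuZ Pool.Agent.FW Pool.Agent.DN
open Pool.Agent.DI (io ofC io_inj exists_io io_ofC ofC_io VP MP UP TP ex)

variable {k t : ℕ}

private theorem dvd_co (j : ℕ) (a b : OO k t) :
    (j : OO k t) ∣ a - b ↔ (j : ℤ) ∣ a.re - b.re ∧ (j : ℤ) ∣ a.im - b.im := by
  rw [nat_dvd_iff, QuadraticAlgebra.re_sub, QuadraticAlgebra.im_sub]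

/-- The class modulo `M`. -/
private def rh (M : ℕ) (v : OO k t) : ZMod M × ZMod M := (((v.re : ℤ) : ZMod M), ((v.im : ℤ) : ZMod M))

private theorem rh_eq (M : ℕ) (a b : OO k t) : rh M b = rh M a ↔ (M : OO k t) ∣ a - b := by
  unfold rh
  rw [Prod.mk.injEq, dvd_co, ZMod.intCast_eq_intCast_iff_dvd_sub, ZMod.intCast_eq_intCast_iff_dvd_sub]

private theorem card_le {N : ℕ} {C : OO k t → Prop} {T T' : Finset (OO k t)} (h : IsR N C T)
    (h' : IsR N C T') : T.card ≤ T'.card := by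
  choose! g hg using h'.ex
  refine Finset.card_le_card_of_injOn g (fun x hx => (hg x (h.mem x hx)).1) ?_
  intro x hx y hy hxy
  refine h.uni x hx y hy ?_
  have h1 := (hg x (h.mem x hx)).2
  have h2 := (hg y (h.mem y hy)).2
  rw [← hxy] at h2
  have h3 := dvd_sub h1 h2
  rwa [sub_sub_sub_cancel_right] at h3

private theorem exS (N : ℕ) (C : OO k t → Prop) : ∃ T : Finset (OO k t), IsR N C T := by
  classical
  have : NeZero (2 ^ N) := ⟨by positivity⟩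
  set S : Finset (ZMod (2 ^ N) × ZMod (2 ^ N)) := Finset.univ.filter (fun p => ∃ v : OO k t, C v ∧ rh (2 ^ N) v = p)
    with hS
  have key : ∀ p : ZMod (2 ^ N) × ZMod (2 ^ N), ∃ v : OO k t, p ∈ S → C v ∧ rh (2 ^ N) v = p := by
    intro p
    by_cases hp : p ∈ S
    · obtain ⟨v, hv⟩ := (Finset.mem_filter.1 hp).2
      exact ⟨v, fun _ => hv⟩
    · exact ⟨0, fun h => absurd h hp⟩
  choose g hg using key
  refine ⟨S.image g, ⟨?_, ?_, ?_⟩⟩
  · intro h hh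
    obtain ⟨p, hp, rfl⟩ := Finset.mem_image.1 hh
    exact (hg p hp).1
  · intro v hv
    have hp : rh (2 ^ N) v ∈ S := Finset.mem_filter.2 ⟨Finset.mem_univ _, v, hv, rfl⟩
    exact ⟨g (rh (2 ^ N) v), Finset.mem_image_of_mem g hp, (rh_eq _ _ _).1 (hg _ hp).2⟩
  · intro h hh h' hh' hd
    obtain ⟨p, hp, rfl⟩ := Finset.mem_image.1 hh
    obtain ⟨q, hq, rfl⟩ := Finset.mem_image.1 hh'
    have h1 := (rh_eq _ _ _).2 hd
    rw [(hg p hp).2, (hg q hq).2] at h1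
    rw [h1]

private theorem lift (f N : ℕ) (hf : Odd f) (a b : ℤ) : ∃ v : OO k t, (f : OO k t) ∣ v - 1 ∧
    ((2 ^ N : ℕ) : ℤ) ∣ v.re - a ∧ ((2 ^ N : ℕ) : ℤ) ∣ v.im - b := by
  have hc : IsCoprime (f : ℤ) ((2 ^ N : ℕ) : ℤ) := by
    rw [Nat.isCoprime_iff_coprime]
    exact Nat.Coprime.pow_right N hf.coprime_two_right
  obtain ⟨x, y, hxy⟩ := hc
  refine ⟨⟨a * (x * f) + y * (2 ^ N : ℕ), b * (x * f)⟩, ?_, ⟨y - a * y, ?_⟩, ⟨- (b * y), ?_⟩⟩
  · rw [nat_dvd_iff, QuadraticAlgebra.re_sub, QuadraticAlgebra.im_sub, re_one, im_one]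
    exact ⟨⟨a * x - x, by linear_combination hxy⟩, ⟨b * x, by ring⟩⟩
  · show a * (x * f) + y * (2 ^ N : ℕ) - a = _
    linear_combination a * hxy
  · show b * (x * f) - b = _
    linear_combination b * hxy

private theorem eq_of (K : ℕ) (p q : ℕ) (hp : p < K) (hq : q < K) (h : (K : ℤ) ∣ (p : ℤ) - q) : p = q := by
  have h1 : (q : ℤ) ≡ p [ZMOD K] := (Int.modEq_iff_dvd).2 h
  have h2 : q ≡ p [MOD K] := (Int.natCast_modEq_iff).1 h1
  exact (Nat.ModEq.eq_of_lt_of_lt h2 hq hp).symm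

/-- The property of the explicit systems. -/
private def Cj (f j : ℕ) (e : ℤ) (v : OO k t) : Prop :=
  (f : OO k t) ∣ v - 1 ∧ ((2 ^ j : ℕ) : ℤ) ∣ v.re - e ∧ ((2 ^ j : ℕ) : ℤ) ∣ v.im

private theorem sys (f N j : ℕ) (hf : Odd f) (hj : j ≤ N) (e : ℤ) :
    ∃ T : Finset (OO k t), IsR N (Cj f j e) T ∧ T.card = 4 ^ (N - j) := by
  classical
  choose g hg1 hg2 hg3 using fun p : ℕ × ℕ =>
    lift (k := k) (t := t) f N hf (e + (2 ^ j : ℕ) * p.1) ((2 ^ j : ℕ) * p.2)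
  have hN : ((2 ^ N : ℕ) : ℤ) = ((2 ^ j : ℕ) : ℤ) * ((2 ^ (N - j) : ℕ) : ℤ) := by
    rw [← Nat.cast_mul, ← pow_add, Nat.add_sub_cancel' hj]
  have hjN : ((2 ^ j : ℕ) : ℤ) ∣ ((2 ^ N : ℕ) : ℤ) := ⟨_, hN⟩
  have h0 : ((2 ^ j : ℕ) : ℤ) ≠ 0 := by positivity
  set R : Finset (ℕ × ℕ) := (Finset.range (2 ^ (N - j))) ×ˢ (Finset.range (2 ^ (N - j))) with hR
  have inj : ∀ p ∈ R, ∀ q ∈ R, ((2 ^ N : ℕ) : OO k t) ∣ g p - g q → p = q := by
    intro p hp q hq h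
    obtain ⟨h1, h2⟩ := (dvd_co _ _ _).1 h
    rw [hR, Finset.mem_product, Finset.mem_range, Finset.mem_range] at hp hq
    have e1 : ((2 ^ N : ℕ) : ℤ) ∣ ((2 ^ j : ℕ) : ℤ) * ((p.1 : ℤ) - q.1) := by
      have := dvd_sub (dvd_add h1 (hg2 q)) (hg2 p)
      rw [show (g p).re - (g q).re + ((g q).re - (e + ((2 ^ j : ℕ) : ℤ) * q.1)) -
        ((g p).re - (e + ((2 ^ j : ℕ) : ℤ) * p.1)) = ((2 ^ j : ℕ) : ℤ) * ((p.1 : ℤ) - q.1) by ring] at this
      exact this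
    have e2 : ((2 ^ N : ℕ) : ℤ) ∣ ((2 ^ j : ℕ) : ℤ) * ((p.2 : ℤ) - q.2) := by
      have := dvd_sub (dvd_add h2 (hg3 q)) (hg3 p)
      rw [show (g p).im - (g q).im + ((g q).im - ((2 ^ j : ℕ) : ℤ) * q.2) -
        ((g p).im - ((2 ^ j : ℕ) : ℤ) * p.2) = ((2 ^ j : ℕ) : ℤ) * ((p.2 : ℤ) - q.2) by ring] at this
      exact this
    rw [hN] at e1 e2
    exact Prod.ext (eq_of _ _ _ hp.1 hq.1 ((mul_dvd_mul_iff_left h0).1 e1))
      (eq_of _ _ _ hp.2 hq.2 ((mul_dvd_mul_iff_left h0).1 e2))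
  refine ⟨R.image g, ⟨?_, ?_, ?_⟩, ?_⟩
  · intro h hh
    obtain ⟨p, hp, rfl⟩ := Finset.mem_image.1 hh
    refine ⟨hg1 p, ?_, ?_⟩
    · have := dvd_add (hjN.trans (hg2 p)) (Dvd.intro (p.1 : ℤ) rfl : ((2 ^ j : ℕ) : ℤ) ∣ ((2 ^ j : ℕ) : ℤ) * p.1)
      rwa [show (g p).re - (e + ((2 ^ j : ℕ) : ℤ) * p.1) + ((2 ^ j : ℕ) : ℤ) * p.1 = (g p).re - e by ring] at this
    · have := dvd_add (hjN.trans (hg3 p)) (Dvd.intro (p.2 : ℤ) rfl : ((2 ^ j : ℕ) : ℤ) ∣ ((2 ^ j : ℕ) : ℤ) * p.2)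
      rwa [sub_add_cancel] at this
  · rintro v ⟨-, ⟨X, hX⟩, ⟨Y, hY⟩⟩
    set K : ℕ := 2 ^ (N - j) with hK
    have hK0 : (0 : ℤ) < K := by positivity
    have m1 : ((X % K).toNat : ℤ) = X % K := Int.toNat_of_nonneg (Int.emod_nonneg _ hK0.ne')
    have m2 : ((Y % K).toNat : ℤ) = Y % K := Int.toNat_of_nonneg (Int.emod_nonneg _ hK0.ne')
    have l1 := Int.emod_lt_of_pos X hK0
    have l2 := Int.emod_lt_of_pos Y hK0
    refine ⟨g ((X % K).toNat, (Y % K).toNat), Finset.mem_image_of_mem g ?_, ?_⟩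
    · rw [hR, Finset.mem_product, Finset.mem_range, Finset.mem_range]
      constructor
      · show (X % K).toNat < K
        omega
      · show (Y % K).toNat < K
        omega
    · rw [dvd_co]
      have a1 := hg2 ((X % K).toNat, (Y % K).toNat)
      have a2 := hg3 ((X % K).toNat, (Y % K).toNat)
      simp only [m1, m2] at a1 a2
      constructor
      · have b1 : ((2 ^ N : ℕ) : ℤ) ∣ v.re - (e + ((2 ^ j : ℕ) : ℤ) * (X % K)) := by
          rw [show v.re - (e + ((2 ^ j : ℕ) : ℤ) * (X % K)) = ((2 ^ j : ℕ) : ℤ) * (X - X % K) by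
            linear_combination hX, hN]
          exact mul_dvd_mul_left _ (Int.dvd_self_sub_emod)
        have := dvd_sub b1 a1
        rwa [sub_sub_sub_cancel_right] at this
      · have b1 : ((2 ^ N : ℕ) : ℤ) ∣ v.im - (((2 ^ j : ℕ) : ℤ) * (Y % K)) := by
          rw [show v.im - (((2 ^ j : ℕ) : ℤ) * (Y % K)) = ((2 ^ j : ℕ) : ℤ) * (Y - Y % K) by
            linear_combination hY, hN]
          exact mul_dvd_mul_left _ (Int.dvd_self_sub_emod)
        have := dvd_sub b1 a2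
        rwa [sub_sub_sub_cancel_right] at this
  · intro h hh h' hh' hd
    obtain ⟨p, hp, rfl⟩ := Finset.mem_image.1 hh
    obtain ⟨q, hq, rfl⟩ := Finset.mem_image.1 hh'
    rw [inj p hp q hq hd]
  · rw [Finset.card_image_of_injOn, hR, Finset.card_product, Finset.card_range, ← mul_pow]
    · norm_num
    · intro p hp q hq h
      refine inj p hp q hq ?_
      rw [h, sub_self]
      exact dvd_zero _

private theorem isr_congr {N : ℕ} {C C' : OO k t → Prop} {T : Finset (OO k t)} (h : IsR N C T)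
    (hc : ∀ v, C v ↔ C' v) : IsR N C' T :=
  ⟨fun v hv => (hc v).1 (h.mem v hv), fun v hv => h.ex v ((hc v).2 hv), h.uni⟩

theorem tRep : S_Rep := by
  classical
  intro k t _ N hN
  refine ⟨fun C => exS N C, fun C T T' h h' => le_antisymm (card_le h h') (card_le h' h), ?_⟩
  intro f hf
  have hU : ∀ j : ℕ, j ≤ N → ∀ T : Finset (OO k t), IsR N (Uj f j) T → T.card = 4 ^ (N - j) := by
    intro j hj T hT
    obtain ⟨T0, h0, h1⟩ := sys (k := k) (t := t) f N j hf hj 1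
    have h2 : IsR N (Uj f j) T0 := by
      refine isr_congr h0 (fun v => ?_)
      unfold Cj Uj
      rw [nat_dvd_iff (2 ^ j), QuadraticAlgebra.re_sub, QuadraticAlgebra.im_sub, re_one, im_one, sub_zero]
    rw [← h1]
    exact le_antisymm (card_le hT h2) (card_le h2 hT)
  refine ⟨?_, hU⟩
  intro T hT
  obtain ⟨T0, h0, h1⟩ := sys (k := k) (t := t) f N 1 hf hN 0
  have c2 : ∀ v : OO k t, Cop v 2 ↔ ¬ (2 : OO k t) ∣ v := (aO4 k t).2.2.1
  have d2 : ∀ v : OO k t, (2 : OO k t) ∣ v ↔ (2 : ℤ) ∣ v.re ∧ (2 : ℤ) ∣ v.im := (aO4 k t).2.2.2.2.1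
  have e0 : ∀ v : OO k t, Cj f 1 0 v ↔ (f : OO k t) ∣ v - 1 ∧ (2 : OO k t) ∣ v := by
    intro v
    unfold Cj
    rw [d2 v]
    simp
  have h0' := isr_congr h0 e0
  have hdvd : (2 : OO k t) ∣ ((2 ^ N : ℕ) : OO k t) := by
    obtain ⟨m, rfl⟩ := Nat.exists_eq_add_of_le hN
    exact ⟨((2 ^ m : ℕ) : OO k t), by push_cast; ring⟩
  have hdis : ∀ a ∈ T, ∀ b ∈ T0, ¬ ((2 ^ N : ℕ) : OO k t) ∣ a - b := by
    intro a ha b hb h
    have a1 := (c2 a).1 (hT.mem a ha).2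
    have b1 := (h0'.mem b hb).2
    apply a1
    have := dvd_add (hdvd.trans h) b1
    rwa [sub_add_cancel] at this
  have hd : Disjoint T T0 := by
    rw [Finset.disjoint_left]
    intro a ha hb
    exact hdis a ha a hb (by rw [sub_self]; exact dvd_zero _)
  have hun : IsR N (Uj f 0) (T ∪ T0) := by
    refine ⟨?_, ?_, ?_⟩
    · intro v hv
      refine ⟨?_, by simp⟩
      rcases Finset.mem_union.1 hv with h | h
      · exact (hT.mem v h).1
      · exact (h0'.mem v h).1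
    · intro v hv
      by_cases h : (2 : OO k t) ∣ v
      · obtain ⟨w, hw, hw2⟩ := h0'.ex v ⟨hv.1, h⟩
        exact ⟨w, Finset.mem_union_right _ hw, hw2⟩
      · obtain ⟨w, hw, hw2⟩ := hT.ex v ⟨hv.1, (c2 v).2 h⟩
        exact ⟨w, Finset.mem_union_left _ hw, hw2⟩
    · intro a ha b hb h
      rcases Finset.mem_union.1 ha with h3 | h3 <;> rcases Finset.mem_union.1 hb with h4 | h4
      · exact hT.uni a h3 b h4 h
      · exact absurd h (hdis a h3 b h4)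
      · refine absurd ?_ (hdis b h4 a h3)
        rw [← neg_sub, dvd_neg]
        exact h
      · exact h0'.uni a h3 b h4 h
  have hc := hU 0 (Nat.zero_le _) _ hun
  rw [Finset.card_union_of_disjoint hd, h1, Nat.sub_zero] at hc
  obtain ⟨m, rfl⟩ := Nat.exists_eq_add_of_le hN
  have e4 : 4 ^ (1 + m) = 4 * 4 ^ m := by rw [pow_add, pow_one]
  have e5 : 1 + m - 1 = m := by omega
  rw [e5] at hc ⊢
  omega

end Pool.Agent.DN.GL
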