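import Pool.Agent.Lib.DN.GL.Spec

/-!
# Theorem DN, part GL: sums of valuations
-/

set_option autoImplicit false

open scoped Pointwise

noncomputable section

namespace Pool.Agent.DN.GL

open Pool.Agent.MuZ Pool.Agent.FW Pool.Agent.DN
open Pool.Agent.DI (io ofC io_inj exists_io io_ofC ofC_io VP MP UP TP ex)

variable {k t : ℕ}

/-! ## Groups of residues -/

/-- the condition `C` is a group modulo `2 ^ N` -/
private structure Sum_Gr (f N : ℕ) (C : OO k t → Prop) : Prop where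
  one : ∀ h, C h → (f : OO k t) ∣ h - 1
  two : ∀ h, C h → Cop h 2
  mul : ∀ h h', C h → C h' → C (h * h')
  inv : ∀ h u, C h → ((2 ^ N : ℕ) : OO k t) ∣ h * u - 1 → (f : OO k t) ∣ u - 1 → C u

private theorem Sum_dm {a h h' : OO k t} (h1 : a ∣ h - 1) (h2 : a ∣ h' - 1) : a ∣ h * h' - 1 := by
  have e : h * h' - 1 = (h - 1) * h' + (h' - 1) := by ring
  rw [e]
  exact dvd_add (h1.mul_right _) h2

private theorem Sum_di {a h u : OO k t} (h1 : a ∣ h - 1) (h2 : a ∣ h * u - 1) : a ∣ u - 1 := by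
  have e : u - 1 = (h * u - 1) - (h - 1) * u := by ring
  rw [e]
  exact dvd_sub h2 (h1.mul_right _)

private theorem Sum_cast {i j : ℕ} (h : i ≤ j) : ((2 ^ i : ℕ) : OO k t) ∣ ((2 ^ j : ℕ) : OO k t) := by
  obtain ⟨c, hc⟩ := pow_dvd_pow 2 h
  rw [hc]
  exact ⟨(c : OO k t), by push_cast; ring⟩

private theorem Sum_cop {h : OO k t} {i : ℕ} (hi : 1 ≤ i) (h1 : ((2 ^ i : ℕ) : OO k t) ∣ h - 1) : Cop h 2 := by
  have h2 : ((2 ^ 1 : ℕ) : OO k t) ∣ h - 1 := (Sum_cast hi).trans h1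
  have h3 : ((2 : ℕ) : OO k t) ∣ 1 - h := by
    rw [← neg_sub h 1]
    exact (dvd_neg).2 (by simpa using h2)
  exact cop_congr h3 (cop_one 2)

private theorem Sum_Uj {f N j : ℕ} (hj : 1 ≤ j) (hjN : j ≤ N) : Sum_Gr (k := k) (t := t) f N (Uj f j) where
  one h hh := hh.1
  two h hh := Sum_cop hj hh.2
  mul h h' hh hh' := ⟨Sum_dm hh.1 hh'.1, Sum_dm hh.2 hh'.2⟩
  inv h u hh h1 h2 := ⟨h2, Sum_di hh.2 ((Sum_cast hjN).trans h1)⟩

private theorem Sum_four {h : OO k t} : (4 : OO k t) ∣ h ↔ ((2 ^ 2 : ℕ) : OO k t) ∣ h := by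
  norm_num

private theorem Sum_Hq {f N : ℕ} (hN : 2 ≤ N) : Sum_Gr (k := k) (t := t) f N (Hq f N) where
  one h hh := hh.1
  two h hh := Sum_cop (i := 2) (by norm_num) (Sum_four.1 hh.2.1)
  mul h h' hh hh' := by
    refine ⟨Sum_dm hh.1 hh'.1, Sum_dm hh.2.1 hh'.2.1, ?_⟩
    have e : Nm (h * h') - 1 = (Nm h - 1) * Nm h' + (Nm h' - 1) := by
      rw [Nm_mul]
      ring
    rw [e]
    exact dvd_add (hh.2.2.mul_right _) hh'.2.2
  inv h u hh h1 h2 := by
    refine ⟨h2, ?_, ?_⟩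
    · rw [Sum_four]
      exact Sum_di (Sum_four.1 hh.2.1) ((Sum_cast hN).trans h1)
    · have h3 := Nm_congr h1
      rw [Nm_mul, Nm_one] at h3
      have e : Nm u - 1 = (Nm h * Nm u - 1) - (Nm h - 1) * Nm u := by ring
      rw [e]
      refine dvd_sub ?_ (hh.2.2.mul_right _)
      exact_mod_cast h3

open Classical in
/-- translation by an element of the group -/
private theorem Sum_tr {f N : ℕ} {C : OO k t → Prop} (hG : Sum_Gr f N C) {T : Finset (OO k t)}
    (hT : IsR N C T) {h0 : OO k t} (h0T : h0 ∈ T) :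
    ∃ T' : Finset (OO k t), IsR N C T' ∧ ∀ i ≤ N,
      (T'.filter (fun h => ((2 ^ i : ℕ) : OO k t) ∣ h - 1)).card =
        (T.filter (fun h => ((2 ^ i : ℕ) : OO k t) ∣ h0 - h)).card := by
  have hC0 := hT.mem h0 h0T
  have hcop : Cop h0 (2 ^ N * f) := by
    have h1 : Cop h0 f := by
      refine cop_congr (a := 1) ?_ (cop_one f)
      rw [← neg_sub h0 1]
      exact (dvd_neg).2 (hG.one h0 hC0)
    have h2 : Cop h0 2 := hG.two h0 hC0
    unfold Cop at h1 h2 ⊢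
    push_cast
    refine IsCoprime.mul_right (IsCoprime.pow_right ?_) h1
    exact_mod_cast h2
  obtain ⟨u, _, hu⟩ := cop_inv hcop
  have hu2 : ((2 ^ N : ℕ) : OO k t) ∣ h0 * u - 1 :=
    Dvd.dvd.trans ⟨(f : OO k t), by push_cast; ring⟩ hu
  have huf : (f : OO k t) ∣ h0 * u - 1 :=
    Dvd.dvd.trans ⟨((2 ^ N : ℕ) : OO k t), by push_cast; ring⟩ hu
  have hCu : C u := hG.inv h0 u hC0 hu2 (Sum_di (hG.one h0 hC0) huf)
  have key : ∀ i ≤ N, ∀ x : OO k t, ((2 ^ i : ℕ) : OO k t) ∣ x * u → ((2 ^ i : ℕ) : OO k t) ∣ x := by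
    intro i hi x hx
    have e : x = x * u * h0 - x * (h0 * u - 1) := by ring
    rw [e]
    exact dvd_sub (hx.mul_right _) (((Sum_cast hi).trans hu2).mul_left _)
  have hinj : ∀ h ∈ T, ∀ h' ∈ T, h * u = h' * u → h = h' := by
    intro h hh h' hh' he
    refine hT.uni h hh h' hh' (key N le_rfl _ ?_)
    have : (h - h') * u = 0 := by rw [sub_mul, he, sub_self]
    rw [this]
    exact dvd_zero _
  refine ⟨T.image (fun h => h * u), ⟨?_, ?_, ?_⟩, ?_⟩
  · intro v hv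
    obtain ⟨h, hh, rfl⟩ := Finset.mem_image.1 hv
    exact hG.mul h u (hT.mem h hh) hCu
  · intro v hv
    obtain ⟨h, hh, h1⟩ := hT.ex (v * h0) (hG.mul v h0 hv hC0)
    refine ⟨h * u, Finset.mem_image_of_mem _ hh, ?_⟩
    have e : v - h * u = (v * h0 - h) * u - v * (h0 * u - 1) := by ring
    rw [e]
    exact dvd_sub (h1.mul_right _) (hu2.mul_left _)
  · intro v hv v' hv' h1
    obtain ⟨h, hh, rfl⟩ := Finset.mem_image.1 hv
    obtain ⟨h', hh', rfl⟩ := Finset.mem_image.1 hv'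
    have h2 : ((2 ^ N : ℕ) : OO k t) ∣ h - h' := by
      refine key N le_rfl _ ?_
      rw [sub_mul]
      exact h1
    rw [hT.uni h hh h' hh' h2]
  · intro i hi
    rw [Finset.filter_image, Finset.card_image_of_injOn]
    · congr 1
      refine Finset.filter_congr fun h _ => ?_
      constructor
      · intro h1
        refine key i hi _ ?_
        have e : (h0 - h) * u = (h0 * u - 1) - (h * u - 1) := by ring
        rw [e]
        exact dvd_sub ((Sum_cast hi).trans hu2) h1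
      · intro h1
        have e : h * u - 1 = (h0 * u - 1) - (h0 - h) * u := by ring
        show ((2 ^ i : ℕ) : OO k t) ∣ h * u - 1
        rw [e]
        exact dvd_sub ((Sum_cast hi).trans hu2) (h1.mul_right _)
    · intro h hh h' hh' he
      exact hinj h (Finset.mem_filter.1 hh).1 h' (Finset.mem_filter.1 hh').1 he

/-! ## The weights -/

private def Sum_c : ℕ → ℚ
  | 0 => 1
  | i + 1 => 4 ^ (i + 1) - 4 ^ i

private theorem Sum_c_succ (i : ℕ) : Sum_c (i + 1) = 4 ^ (i + 1) - 4 ^ i := rfl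

private theorem Sum_c_nonneg (i : ℕ) : 0 ≤ Sum_c i := by
  cases i with
  | zero => exact zero_le_one
  | succ i =>
    rw [Sum_c_succ, pow_succ]
    have : (0 : ℚ) ≤ 4 ^ i := by positivity
    linarith

private theorem Sum_tel (j : ℕ) : ∑ i ∈ Finset.range (j + 1), Sum_c i = 4 ^ j := by
  induction j with
  | zero => simp [Sum_c]
  | succ j ih =>
    rw [Finset.sum_range_succ, ih, Sum_c_succ]
    ring

private theorem Sum_geo (p : ℕ → Prop) [DecidablePred p] {j N : ℕ} (hj : j < N) (hp : ∀ i, p i ↔ i ≤ j) :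
    ∑ i ∈ Finset.range N, (if p i then Sum_c i else 0) = 4 ^ j := by
  rw [← Finset.sum_filter, ← Sum_tel j]
  congr 1
  ext i
  rw [Finset.mem_filter, Finset.mem_range, Finset.mem_range, hp]
  omega

open Classical in
private theorem Sum_val (hPi : C_Pi) [Ine k t] {P : Ideal ZZ} (hP : Ab2 P) {f N : ℕ} {z0 d : ℂ}
    (hPt : Pt k t f N z0 d) {h0 h : OO k t} (c0 : Cop h0 2) (c1 : Cop h 2)
    (hn : ¬ ((2 ^ N : ℕ) : OO k t) ∣ h0 - h) :
    pH z0 d h0 - pH z0 d h ≠ 0 ∧ vP P (pH z0 d h0 - pH z0 d h) * (3 * 4 ^ (N - 1)) =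
      ∑ i ∈ Finset.range N, (if ((2 ^ i : ℕ) : OO k t) ∣ h0 - h then Sum_c i else 0) := by
  obtain ⟨_, _, _, _, _, _, hV, _⟩ := hPi k t P hP f N z0 d hPt
  have hex : ∃ m, ¬ ((2 ^ m : ℕ) : OO k t) ∣ h0 - h := ⟨N, hn⟩
  obtain ⟨m, hm, hmin⟩ : ∃ m, ¬ ((2 ^ m : ℕ) : OO k t) ∣ h0 - h ∧
      ∀ i < m, ((2 ^ i : ℕ) : OO k t) ∣ h0 - h :=
    ⟨Nat.find hex, Nat.find_spec hex, fun i hi => not_not.1 (Nat.find_min hex hi)⟩
  have hm0 : m ≠ 0 := by
    rintro rfl
    apply hm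
    rw [pow_zero, Nat.cast_one]
    exact one_dvd _
  obtain ⟨j, rfl⟩ := Nat.exists_eq_succ_of_ne_zero hm0
  have hjN : j < N := by
    by_contra hc
    exact hn ((Sum_cast (not_lt.1 hc)).trans (hmin j (Nat.lt_succ_self j)))
  obtain ⟨h1, h2⟩ := hV h0 h j c0 c1 hjN (hmin j (Nat.lt_succ_self j)) hm
  refine ⟨sub_ne_zero.2 h1, ?_⟩
  rw [h2, Sum_geo _ hjN]
  · have e : (4 : ℚ) ^ (N - 1) = 4 ^ j * 4 ^ (N - 1 - j) := by
      rw [← pow_add]
      congr 1
      omega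
    rw [e]
    have h4 : (4 : ℚ) ^ (N - 1 - j) ≠ 0 := pow_ne_zero _ (by norm_num)
    field_simp
  · intro i
    constructor
    · intro hi
      by_contra hc
      exact hm ((Sum_cast (by omega : j + 1 ≤ i)).trans hi)
    · intro hi
      exact hmin i (by omega)

open Classical in
private theorem Sum_tot (hPi : C_Pi) [Ine k t] {P : Ideal ZZ} (hP : Ab2 P) {f N : ℕ} {z0 d : ℂ}
    (hPt : Pt k t f N z0 d) {C : OO k t → Prop} (hG : Sum_Gr f N C) {T : Finset (OO k t)}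
    (hT : IsR N C T) {h0 : OO k t} (h0T : h0 ∈ T) :
    ∏ h ∈ T.erase h0, (pH z0 d h0 - pH z0 d h) ≠ 0 ∧
      vP P (∏ h ∈ T.erase h0, (pH z0 d h0 - pH z0 d h)) * (3 * 4 ^ (N - 1)) =
        ∑ i ∈ Finset.range N, Sum_c i *
          (((T.filter (fun h => ((2 ^ i : ℕ) : OO k t) ∣ h0 - h)).card : ℚ) - 1) := by
  have hpr : P.IsPrime := hP.1.1
  have hall : ∀ h ∈ T.erase h0, pH z0 d h0 - pH z0 d h ≠ 0 ∧
      vP P (pH z0 d h0 - pH z0 d h) * (3 * 4 ^ (N - 1)) =
        ∑ i ∈ Finset.range N, (if ((2 ^ i : ℕ) : OO k t) ∣ h0 - h then Sum_c i else 0) := by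
    intro h hh
    obtain ⟨hne, hhT⟩ := Finset.mem_erase.1 hh
    refine Sum_val hPi hP hPt (hG.two _ (hT.mem _ h0T)) (hG.two _ (hT.mem _ hhT)) fun hd => ?_
    exact hne (hT.uni h0 h0T h hhT hd).symm
  refine ⟨Finset.prod_ne_zero_iff.2 fun h hh => (hall h hh).1, ?_⟩
  rw [vP_prod hP.2 _ _ fun h hh => (hall h hh).1, Finset.sum_mul,
    Finset.sum_congr rfl fun h hh => (hall h hh).2, Finset.sum_comm]
  refine Finset.sum_congr rfl fun i _ => ?_
  rw [← Finset.sum_filter, Finset.sum_const, nsmul_eq_mul, mul_comm]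
  congr 1
  have e : (T.erase h0).filter (fun h => ((2 ^ i : ℕ) : OO k t) ∣ h0 - h) =
      (T.filter (fun h => ((2 ^ i : ℕ) : OO k t) ∣ h0 - h)).erase h0 := by
    ext h
    simp only [Finset.mem_filter, Finset.mem_erase]
    tauto
  have hmem : h0 ∈ T.filter (fun h => ((2 ^ i : ℕ) : OO k t) ∣ h0 - h) := by
    rw [Finset.mem_filter, sub_self]
    exact ⟨h0T, dvd_zero _⟩
  rw [e, Finset.card_erase_of_mem hmem, Nat.cast_pred (Finset.card_pos.2 ⟨h0, hmem⟩)]

/-! ## The sums -/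

private theorem Sum_low (M m : ℕ) (hm : m ≤ M) :
    ∑ i ∈ Finset.range m, Sum_c (i + 3) * ((2 : ℚ) ^ (M - i) - 1) =
      48 * 2 ^ M * (2 ^ m - 1) - 16 * (4 ^ m - 1) := by
  induction m with
  | zero => simp
  | succ m ih =>
    rw [Finset.sum_range_succ, ih (by omega), show m + 3 = (m + 2) + 1 from rfl, Sum_c_succ]
    have e : (2 : ℚ) ^ M = 2 ^ (M - m) * 2 ^ m := by
      rw [← pow_add]
      congr 1
      omega
    have e4 : (4 : ℚ) ^ m = 2 ^ m * 2 ^ m := by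
      rw [← mul_pow]
      norm_num
    rw [pow_add 4 (m + 2) 1, pow_add 4 m 2, pow_succ 4 m, pow_succ 2 m, e, e4]
    ring

private theorem Sum_split (F : ℕ → ℚ) (M : ℕ) :
    ∑ i ∈ Finset.range (M + 3), F i = (F 0 + F 1 + F 2) + ∑ i ∈ Finset.range M, F (i + 3) := by
  calc ∑ i ∈ Finset.range (M + 3), F i
      = ∑ i ∈ Finset.range M, F (i + 1 + 1 + 1) + F (0 + 1 + 1) + F (0 + 1) + F 0 := by
        rw [Finset.sum_range_succ', Finset.sum_range_succ', Finset.sum_range_succ']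
    _ = (F 0 + F 1 + F 2) + ∑ i ∈ Finset.range M, F (i + 3) := by
        show ∑ i ∈ Finset.range M, F (i + 3) + F 2 + F 1 + F 0 = _
        ring

theorem tSum : S_Sum := by
  classical
  intro hRep hPi hHj k t _ P hP f N z0 d hPt hN
  obtain ⟨M, rfl⟩ : ∃ M, N = M + 3 := ⟨N - 3, by omega⟩
  obtain ⟨_, _, hR⟩ := hRep k t (M + 3) (by omega)
  obtain ⟨_, hR4⟩ := hR f hPt.odd
  have e1 : M + 3 - 1 = M + 2 := by omega
  have e2 : M + 3 - 2 = M + 1 := by omega
  have ha : (0 : ℚ) < 2 ^ M := by positivity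
  have e4 : (4 : ℚ) ^ M = 2 ^ M * 2 ^ M := by
    rw [← mul_pow]
    norm_num
  refine ⟨?_, ?_⟩
  · intro T hT h0 h0T
    have hG : Sum_Gr (k := k) (t := t) f (M + 3) (Hq f (M + 3)) := Sum_Hq (by omega)
    obtain ⟨hne, hv⟩ := Sum_tot hPi hP hPt hG hT h0T
    refine ⟨hne, ?_⟩
    obtain ⟨T', hT', hcard⟩ := Sum_tr hG hT h0T
    have hlow : ∀ i, 2 ≤ i → i ≤ M + 3 → (2 : ℚ) ^ (M + 3 - i) ≤
        ((T.filter (fun h => ((2 ^ i : ℕ) : OO k t) ∣ h0 - h)).card : ℚ) := by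
      intro i hi2 hi
      have h1 := hHj k t f (M + 3) hPt.odd i hi2 hi T' hT'
      rw [hcard i hi] at h1
      exact_mod_cast h1
    have hlow2 : ∀ i, i ≤ 2 → (2 : ℚ) ^ (M + 1) ≤
        ((T.filter (fun h => ((2 ^ i : ℕ) : OO k t) ∣ h0 - h)).card : ℚ) := by
      intro i hi
      have h1 := hlow 2 le_rfl (by omega)
      rw [e2] at h1
      refine h1.trans ?_
      have h2 : (T.filter (fun h => ((2 ^ 2 : ℕ) : OO k t) ∣ h0 - h)).card ≤
          (T.filter (fun h => ((2 ^ i : ℕ) : OO k t) ∣ h0 - h)).card := by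
        refine Finset.card_le_card fun h hh => ?_
        rw [Finset.mem_filter] at hh ⊢
        exact ⟨hh.1, (Sum_cast hi).trans hh.2⟩
      exact_mod_cast h2
    rw [e1, Sum_split] at hv
    have c0 : Sum_c 0 = 1 := rfl
    have c1 : Sum_c 1 = 3 := by rw [show (1 : ℕ) = 0 + 1 from rfl, Sum_c_succ]; norm_num
    have c2 : Sum_c 2 = 12 := by rw [show (2 : ℕ) = 1 + 1 from rfl, Sum_c_succ]; norm_num
    have b0 := hlow2 0 (by norm_num)
    have b1 := hlow2 1 (by norm_num)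
    have b2 := hlow2 2 le_rfl
    have hrest : ∑ i ∈ Finset.range M, Sum_c (i + 3) * ((2 : ℚ) ^ (M - i) - 1) ≤
        ∑ i ∈ Finset.range M, Sum_c (i + 3) *
          (((T.filter (fun h => ((2 ^ (i + 3) : ℕ) : OO k t) ∣ h0 - h)).card : ℚ) - 1) := by
      refine Finset.sum_le_sum fun i hi => ?_
      rw [Finset.mem_range] at hi
      have h1 := hlow (i + 3) (by omega) (by omega)
      rw [show M + 3 - (i + 3) = M - i by omega] at h1
      exact mul_le_mul_of_nonneg_left (by linarith) (Sum_c_nonneg _)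
    rw [Sum_low M M le_rfl] at hrest
    rw [c0, c1, c2] at hv
    rw [pow_succ] at b0 b1 b2
    have hS : (32 : ℚ) * 4 ^ M - 16 * 2 ^ M ≤
        vP P (∏ h ∈ T.erase h0, (pH z0 d h0 - pH z0 d h)) * (3 * 4 ^ (M + 2)) := by
      rw [hv, e4]
      rw [e4] at hrest
      nlinarith [hrest, b0, b1, b2]
    rw [pow_add 4 M 2, e4] at hS
    rw [pow_add 2 M 3]
    set V : ℚ := vP P (∏ h ∈ T.erase h0, (pH z0 d h0 - pH z0 d h)) with hV
    set a : ℚ := 2 ^ M with haa
    have hpos : (0 : ℚ) < 3 * (a * a * 4 ^ 2) := by positivity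
    refine le_of_mul_le_mul_right (le_trans ?_ hS) hpos
    have e5 : (2 / 3 - 3 / (a * 2 ^ 3)) * (3 * (a * a * 4 ^ 2)) = 32 * (a * a) - 18 * a := by
      field_simp
      ring
    rw [e5]
    linarith
  · rw [e2]
    intro T hT h0 h0T
    have hG : Sum_Gr (k := k) (t := t) f (M + 3) (Uj f (M + 1)) := Sum_Uj (by omega) (by omega)
    obtain ⟨hne, hv⟩ := Sum_tot hPi hP hPt hG hT h0T
    refine ⟨hne, ?_⟩
    obtain ⟨T', hT', hcard⟩ := Sum_tr hG hT h0T
    have hc16 : T.card = 16 := by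
      rw [hR4 (M + 1) (by omega) T hT, show M + 3 - (M + 1) = 2 by omega]
      norm_num
    have hn1 : ∀ i ∈ Finset.range (M + 2),
        ((T.filter (fun h => ((2 ^ i : ℕ) : OO k t) ∣ h0 - h)).card : ℚ) = 16 := by
      intro i hi
      rw [Finset.mem_range] at hi
      have e6 : T.filter (fun h => ((2 ^ i : ℕ) : OO k t) ∣ h0 - h) = T := by
        refine Finset.filter_true_of_mem fun h hh => ?_
        have e7 : h0 - h = (h0 - 1) - (h - 1) := by ring
        rw [e7]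
        exact (Sum_cast (by omega : i ≤ M + 1)).trans (dvd_sub (hT.mem h0 h0T).2 (hT.mem h hh).2)
      rw [e6, hc16]
      norm_num
    have hn2 : ((T.filter (fun h => ((2 ^ (M + 2) : ℕ) : OO k t) ∣ h0 - h)).card : ℚ) = 4 := by
      rw [← hcard (M + 2) (by omega)]
      have h1 : IsR (M + 3) (Uj f (M + 2))
          (T'.filter (fun h => ((2 ^ (M + 2) : ℕ) : OO k t) ∣ h - 1)) := by
        refine ⟨?_, ?_, ?_⟩
        · intro h hh
          rw [Finset.mem_filter] at hh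
          exact ⟨(hT'.mem h hh.1).1, hh.2⟩
        · intro v hv'
          obtain ⟨h, hh, h2⟩ := hT'.ex v ⟨hv'.1, (Sum_cast (by omega : M + 1 ≤ M + 2)).trans hv'.2⟩
          refine ⟨h, ?_, h2⟩
          rw [Finset.mem_filter]
          refine ⟨hh, ?_⟩
          have e7 : h - 1 = (v - 1) - (v - h) := by ring
          rw [e7]
          exact dvd_sub hv'.2 ((Sum_cast (by omega : M + 2 ≤ M + 3)).trans h2)
        · intro h hh h' hh' h2
          exact hT'.uni h (Finset.mem_filter.1 hh).1 h' (Finset.mem_filter.1 hh').1 h2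
      rw [hR4 (M + 2) (by omega) _ h1, show M + 3 - (M + 2) = 1 by omega]
      norm_num
    rw [e1, show M + 3 = (M + 2) + 1 from rfl, Finset.sum_range_succ, hn2,
      Finset.sum_congr rfl fun i hi => by rw [hn1 i hi], ← Finset.sum_mul,
      show M + 2 = (M + 1) + 1 from rfl, Sum_tel, Sum_c_succ, pow_succ (4 : ℚ) (M + 1)] at hv
    have hpos : (0 : ℚ) < 4 ^ (M + 1) := by positivity
    have h12 : (12 : ℚ) * 4 ^ (M + 1) ≠ 0 := by positivity
    apply mul_right_cancel₀ h12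
    linarith

end Pool.Agent.DN.GL
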