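import Pool.Agent.Lib.DN.GL.SpecT

/-!
# DN, part GL, module SumU: the sum of the valuations over all classes (helper86, after GL/Sum.lean)
-/

set_option autoImplicit false

open scoped Pointwise

noncomputable section

namespace Pool.Agent.DN.GL

open Pool.Agent.MuZ Pool.Agent.FW Pool.Agent.DN
open Pool.Agent.DI (io ofC io_inj exists_io io_ofC ofC_io VP MP UP TP ex)

variable {k t : ℕ}

/-! ## Groups of residues -/

/-- the condition `C` is a group modulo `2 ^ N` -/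
private structure SumU_Gr (f N : ℕ) (C : OO k t → Prop) : Prop where
  one : ∀ h, C h → (f : OO k t) ∣ h - 1
  two : ∀ h, C h → Cop h 2
  mul : ∀ h h', C h → C h' → C (h * h')
  inv : ∀ h u, C h → ((2 ^ N : ℕ) : OO k t) ∣ h * u - 1 → (f : OO k t) ∣ u - 1 → C u

private theorem SumU_dm {a h h' : OO k t} (h1 : a ∣ h - 1) (h2 : a ∣ h' - 1) : a ∣ h * h' - 1 := by
  have e : h * h' - 1 = (h - 1) * h' + (h' - 1) := by ring
  rw [e]
  exact dvd_add (h1.mul_right _) h2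

private theorem SumU_di {a h u : OO k t} (h1 : a ∣ h - 1) (h2 : a ∣ h * u - 1) : a ∣ u - 1 := by
  have e : u - 1 = (h * u - 1) - (h - 1) * u := by ring
  rw [e]
  exact dvd_sub h2 (h1.mul_right _)

private theorem SumU_cast {i j : ℕ} (h : i ≤ j) : ((2 ^ i : ℕ) : OO k t) ∣ ((2 ^ j : ℕ) : OO k t) := by
  obtain ⟨c, hc⟩ := pow_dvd_pow 2 h
  rw [hc]
  exact ⟨(c : OO k t), by push_cast; ring⟩

private theorem SumU_cop {h : OO k t} {i : ℕ} (hi : 1 ≤ i) (h1 : ((2 ^ i : ℕ) : OO k t) ∣ h - 1) : Cop h 2 := by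
  have h2 : ((2 ^ 1 : ℕ) : OO k t) ∣ h - 1 := (SumU_cast hi).trans h1
  have h3 : ((2 : ℕ) : OO k t) ∣ 1 - h := by
    rw [← neg_sub h 1]
    exact (dvd_neg).2 (by simpa using h2)
  exact cop_congr h3 (cop_one 2)

private theorem SumU_Uj {f N j : ℕ} (hj : 1 ≤ j) (hjN : j ≤ N) : SumU_Gr (k := k) (t := t) f N (Uj f j) where
  one h hh := hh.1
  two h hh := SumU_cop hj hh.2
  mul h h' hh hh' := ⟨SumU_dm hh.1 hh'.1, SumU_dm hh.2 hh'.2⟩
  inv h u hh h1 h2 := ⟨h2, SumU_di hh.2 ((SumU_cast hjN).trans h1)⟩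

open Classical in
/-- translation by an element of the group -/
private theorem SumU_tr {f N : ℕ} {C : OO k t → Prop} (hG : SumU_Gr f N C) {T : Finset (OO k t)}
    (hT : IsR N C T) {h0 : OO k t} (h0T : h0 ∈ T) :
    ∃ T' : Finset (OO k t), IsR N C T' ∧ ∀ i ≤ N,
      (T'.filter (fun h => ((2 ^ i : ℕ) : OO k t) ∣ h - 1)).card =
        (T.filter (fun h => ((2 ^ i : ℕ) : OO k t) ∣ h0 - h)).card := by
  have hC0 := hT.mem h0 h0T
  have hcop : Cop h0 (2 ^ N * f) := by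
    have h1 : Cop h0 f := by
      refine cop_congr (a := 1) ?_ (cop_one f)
      rw [← neg_sub h0 1]
      exact (dvd_neg).2 (hG.one h0 hC0)
    have h2 : Cop h0 2 := hG.two h0 hC0
    unfold Cop at h1 h2 ⊢
    push_cast
    refine IsCoprime.mul_right (IsCoprime.pow_right ?_) h1
    exact_mod_cast h2
  obtain ⟨u, _, hu⟩ := cop_inv hcop
  have hu2 : ((2 ^ N : ℕ) : OO k t) ∣ h0 * u - 1 :=
    Dvd.dvd.trans ⟨(f : OO k t), by push_cast; ring⟩ hu
  have huf : (f : OO k t) ∣ h0 * u - 1 :=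
    Dvd.dvd.trans ⟨((2 ^ N : ℕ) : OO k t), by push_cast; ring⟩ hu
  have hCu : C u := hG.inv h0 u hC0 hu2 (SumU_di (hG.one h0 hC0) huf)
  have key : ∀ i ≤ N, ∀ x : OO k t, ((2 ^ i : ℕ) : OO k t) ∣ x * u → ((2 ^ i : ℕ) : OO k t) ∣ x := by
    intro i hi x hx
    have e : x = x * u * h0 - x * (h0 * u - 1) := by ring
    rw [e]
    exact dvd_sub (hx.mul_right _) (((SumU_cast hi).trans hu2).mul_left _)
  have hinj : ∀ h ∈ T, ∀ h' ∈ T, h * u = h' * u → h = h' := by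
    intro h hh h' hh' he
    refine hT.uni h hh h' hh' (key N le_rfl _ ?_)
    have : (h - h') * u = 0 := by rw [sub_mul, he, sub_self]
    rw [this]
    exact dvd_zero _
  refine ⟨T.image (fun h => h * u), ⟨?_, ?_, ?_⟩, ?_⟩
  · intro v hv
    obtain ⟨h, hh, rfl⟩ := Finset.mem_image.1 hv
    exact hG.mul h u (hT.mem h hh) hCu
  · intro v hv
    obtain ⟨h, hh, h1⟩ := hT.ex (v * h0) (hG.mul v h0 hv hC0)
    refine ⟨h * u, Finset.mem_image_of_mem _ hh, ?_⟩
    have e : v - h * u = (v * h0 - h) * u - v * (h0 * u - 1) := by ring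
    rw [e]
    exact dvd_sub (h1.mul_right _) (hu2.mul_left _)
  · intro v hv v' hv' h1
    obtain ⟨h, hh, rfl⟩ := Finset.mem_image.1 hv
    obtain ⟨h', hh', rfl⟩ := Finset.mem_image.1 hv'
    have h2 : ((2 ^ N : ℕ) : OO k t) ∣ h - h' := by
      refine key N le_rfl _ ?_
      rw [sub_mul]
      exact h1
    rw [hT.uni h hh h' hh' h2]
  · intro i hi
    rw [Finset.filter_image, Finset.card_image_of_injOn]
    · congr 1
      refine Finset.filter_congr fun h _ => ?_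
      constructor
      · intro h1
        refine key i hi _ ?_
        have e : (h0 - h) * u = (h0 * u - 1) - (h * u - 1) := by ring
        rw [e]
        exact dvd_sub ((SumU_cast hi).trans hu2) h1
      · intro h1
        have e : h * u - 1 = (h0 * u - 1) - (h0 - h) * u := by ring
        show ((2 ^ i : ℕ) : OO k t) ∣ h * u - 1
        rw [e]
        exact dvd_sub ((SumU_cast hi).trans hu2) (h1.mul_right _)
    · intro h hh h' hh' he
      exact hinj h (Finset.mem_filter.1 hh).1 h' (Finset.mem_filter.1 hh').1 he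

/-! ## The weights -/

private def SumU_c : ℕ → ℚ
  | 0 => 1
  | i + 1 => 4 ^ (i + 1) - 4 ^ i

private theorem SumU_c_succ (i : ℕ) : SumU_c (i + 1) = 4 ^ (i + 1) - 4 ^ i := rfl

private theorem SumU_c_nonneg (i : ℕ) : 0 ≤ SumU_c i := by
  cases i with
  | zero => exact zero_le_one
  | succ i =>
    rw [SumU_c_succ, pow_succ]
    have : (0 : ℚ) ≤ 4 ^ i := by positivity
    linarith

private theorem SumU_tel (j : ℕ) : ∑ i ∈ Finset.range (j + 1), SumU_c i = 4 ^ j := by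
  induction j with
  | zero => simp [SumU_c]
  | succ j ih =>
    rw [Finset.sum_range_succ, ih, SumU_c_succ]
    ring

private theorem SumU_geo (p : ℕ → Prop) [DecidablePred p] {j N : ℕ} (hj : j < N) (hp : ∀ i, p i ↔ i ≤ j) :
    ∑ i ∈ Finset.range N, (if p i then SumU_c i else 0) = 4 ^ j := by
  rw [← Finset.sum_filter, ← SumU_tel j]
  congr 1
  ext i
  rw [Finset.mem_filter, Finset.mem_range, Finset.mem_range, hp]
  omega

open Classical in
private theorem SumU_val (hPi : C_Pi) [Ine k t] {P : Ideal ZZ} (hP : Ab2 P) {f N : ℕ} {z0 d : ℂ}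
    (hPt : Pt k t f N z0 d) {h0 h : OO k t} (c0 : Cop h0 2) (c1 : Cop h 2)
    (hn : ¬ ((2 ^ N : ℕ) : OO k t) ∣ h0 - h) :
    pH z0 d h0 - pH z0 d h ≠ 0 ∧ vP P (pH z0 d h0 - pH z0 d h) * (3 * 4 ^ (N - 1)) =
      ∑ i ∈ Finset.range N, (if ((2 ^ i : ℕ) : OO k t) ∣ h0 - h then SumU_c i else 0) := by
  obtain ⟨_, _, _, _, _, _, hV, _⟩ := hPi k t P hP f N z0 d hPt
  have hex : ∃ m, ¬ ((2 ^ m : ℕ) : OO k t) ∣ h0 - h := ⟨N, hn⟩
  obtain ⟨m, hm, hmin⟩ : ∃ m, ¬ ((2 ^ m : ℕ) : OO k t) ∣ h0 - h ∧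
      ∀ i < m, ((2 ^ i : ℕ) : OO k t) ∣ h0 - h :=
    ⟨Nat.find hex, Nat.find_spec hex, fun i hi => not_not.1 (Nat.find_min hex hi)⟩
  have hm0 : m ≠ 0 := by
    rintro rfl
    apply hm
    rw [pow_zero, Nat.cast_one]
    exact one_dvd _
  obtain ⟨j, rfl⟩ := Nat.exists_eq_succ_of_ne_zero hm0
  have hjN : j < N := by
    by_contra hc
    exact hn ((SumU_cast (not_lt.1 hc)).trans (hmin j (Nat.lt_succ_self j)))
  obtain ⟨h1, h2⟩ := hV h0 h j c0 c1 hjN (hmin j (Nat.lt_succ_self j)) hm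
  refine ⟨sub_ne_zero.2 h1, ?_⟩
  rw [h2, SumU_geo _ hjN]
  · have e : (4 : ℚ) ^ (N - 1) = 4 ^ j * 4 ^ (N - 1 - j) := by
      rw [← pow_add]
      congr 1
      omega
    rw [e]
    have h4 : (4 : ℚ) ^ (N - 1 - j) ≠ 0 := pow_ne_zero _ (by norm_num)
    field_simp
  · intro i
    constructor
    · intro hi
      by_contra hc
      exact hm ((SumU_cast (by omega : j + 1 ≤ i)).trans hi)
    · intro hi
      exact hmin i (by omega)

open Classical in
private theorem SumU_tot (hPi : C_Pi) [Ine k t] {P : Ideal ZZ} (hP : Ab2 P) {f N : ℕ} {z0 d : ℂ}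
    (hPt : Pt k t f N z0 d) {C : OO k t → Prop} (hG : SumU_Gr f N C) {T : Finset (OO k t)}
    (hT : IsR N C T) {h0 : OO k t} (h0T : h0 ∈ T) :
    ∏ h ∈ T.erase h0, (pH z0 d h0 - pH z0 d h) ≠ 0 ∧
      vP P (∏ h ∈ T.erase h0, (pH z0 d h0 - pH z0 d h)) * (3 * 4 ^ (N - 1)) =
        ∑ i ∈ Finset.range N, SumU_c i *
          (((T.filter (fun h => ((2 ^ i : ℕ) : OO k t) ∣ h0 - h)).card : ℚ) - 1) := by
  have hpr : P.IsPrime := hP.1.1
  have hall : ∀ h ∈ T.erase h0, pH z0 d h0 - pH z0 d h ≠ 0 ∧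
      vP P (pH z0 d h0 - pH z0 d h) * (3 * 4 ^ (N - 1)) =
        ∑ i ∈ Finset.range N, (if ((2 ^ i : ℕ) : OO k t) ∣ h0 - h then SumU_c i else 0) := by
    intro h hh
    obtain ⟨hne, hhT⟩ := Finset.mem_erase.1 hh
    refine SumU_val hPi hP hPt (hG.two _ (hT.mem _ h0T)) (hG.two _ (hT.mem _ hhT)) fun hd => ?_
    exact hne (hT.uni h0 h0T h hhT hd).symm
  refine ⟨Finset.prod_ne_zero_iff.2 fun h hh => (hall h hh).1, ?_⟩
  rw [vP_prod hP.2 _ _ fun h hh => (hall h hh).1, Finset.sum_mul,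
    Finset.sum_congr rfl fun h hh => (hall h hh).2, Finset.sum_comm]
  refine Finset.sum_congr rfl fun i _ => ?_
  rw [← Finset.sum_filter, Finset.sum_const, nsmul_eq_mul, mul_comm]
  congr 1
  have e : (T.erase h0).filter (fun h => ((2 ^ i : ℕ) : OO k t) ∣ h0 - h) =
      (T.filter (fun h => ((2 ^ i : ℕ) : OO k t) ∣ h0 - h)).erase h0 := by
    ext h
    simp only [Finset.mem_filter, Finset.mem_erase]
    tauto
  have hmem : h0 ∈ T.filter (fun h => ((2 ^ i : ℕ) : OO k t) ∣ h0 - h) := by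
    rw [Finset.mem_filter, sub_self]
    exact ⟨h0T, dvd_zero _⟩
  rw [e, Finset.card_erase_of_mem hmem, Nat.cast_pred (Finset.card_pos.2 ⟨h0, hmem⟩)]

/-! ## The sum -/

private theorem SumU_Un {f N : ℕ} (hN : 1 ≤ N) : SumU_Gr (k := k) (t := t) f N (Un f) where
  one h hh := hh.1
  two h hh := hh.2
  mul h h' hh hh' := ⟨SumU_dm hh.1 hh'.1, cop_mul hh.2 hh'.2⟩
  inv h u hh h1 h2 := by
    refine ⟨h2, ?_⟩
    have h3 : Cop (h * u) 2 := SumU_cop hN h1
    unfold Cop at h3 ⊢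
    rw [Nm_mul] at h3
    exact IsCoprime.of_mul_left_right h3

theorem tSumU : S_SumU := by
  classical
  intro hRep hPi k t _ P hP f N z0 d hPt T hT h0 h0T
  obtain ⟨M, rfl⟩ : ∃ M, N = M + 1 := ⟨N - 1, by have := hPt.pos; omega⟩
  obtain ⟨_, _, hR⟩ := hRep k t (M + 1) (by omega)
  obtain ⟨hR3, hR4⟩ := hR f hPt.odd
  have hG : SumU_Gr (k := k) (t := t) f (M + 1) (Un f) := SumU_Un (by omega)
  obtain ⟨hne, hv⟩ := SumU_tot hPi hP hPt hG hT h0T
  refine ⟨hne, ?_⟩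
  obtain ⟨T', hT', hcard⟩ := SumU_tr hG hT h0T
  have hn0 : ((T.filter (fun h => ((2 ^ 0 : ℕ) : OO k t) ∣ h0 - h)).card : ℚ) = 3 * 4 ^ M := by
    have e6 : T.filter (fun h => ((2 ^ 0 : ℕ) : OO k t) ∣ h0 - h) = T := by
      refine Finset.filter_true_of_mem fun h _ => ?_
      rw [pow_zero, Nat.cast_one]
      exact one_dvd _
    rw [e6, hR3 T hT, show M + 1 - 1 = M by omega]
    push_cast
    ring
  have hn1 : ∀ i ∈ Finset.range M,
      ((T.filter (fun h => ((2 ^ (i + 1) : ℕ) : OO k t) ∣ h0 - h)).card : ℚ) = 4 ^ (M - i) := by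
    intro i hi
    rw [Finset.mem_range] at hi
    rw [← hcard (i + 1) (by omega)]
    have h1 : IsR (M + 1) (Uj f (i + 1))
        (T'.filter (fun h => ((2 ^ (i + 1) : ℕ) : OO k t) ∣ h - 1)) := by
      refine ⟨?_, ?_, ?_⟩
      · intro h hh
        rw [Finset.mem_filter] at hh
        exact ⟨(hT'.mem h hh.1).1, hh.2⟩
      · intro v hv'
        obtain ⟨h, hh, h2⟩ := hT'.ex v ⟨hv'.1, SumU_cop (by omega : 1 ≤ i + 1) hv'.2⟩
        refine ⟨h, ?_, h2⟩
        rw [Finset.mem_filter]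
        refine ⟨hh, ?_⟩
        have e7 : h - 1 = (v - 1) - (v - h) := by ring
        rw [e7]
        exact dvd_sub hv'.2 ((SumU_cast (by omega : i + 1 ≤ M + 1)).trans h2)
      · intro h hh h' hh' h2
        exact hT'.uni h (Finset.mem_filter.1 hh).1 h' (Finset.mem_filter.1 hh').1 h2
    rw [hR4 (i + 1) (by omega) _ h1, show M + 1 - (i + 1) = M - i by omega]
    push_cast
    ring
  have hterm : ∀ i ∈ Finset.range M, SumU_c (i + 1) *
      (((T.filter (fun h => ((2 ^ (i + 1) : ℕ) : OO k t) ∣ h0 - h)).card : ℚ) - 1) =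
        3 * 4 ^ M - SumU_c (i + 1) := by
    intro i hi
    rw [hn1 i hi, SumU_c_succ]
    rw [Finset.mem_range] at hi
    have e : (4 : ℚ) ^ M = 4 ^ (M - i) * 4 ^ i := by
      rw [← pow_add]
      congr 1
      omega
    rw [e, pow_succ]
    ring
  have hc : ∑ i ∈ Finset.range M, SumU_c (i + 1) = 4 ^ M - 1 := by
    have h1 := SumU_tel M
    rw [Finset.sum_range_succ'] at h1
    have c0 : SumU_c 0 = 1 := rfl
    rw [c0] at h1
    linarith
  rw [show M + 1 - 1 = M by omega, Finset.sum_range_succ', Finset.sum_congr rfl hterm,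
    Finset.sum_sub_distrib, hc, Finset.sum_const, Finset.card_range, nsmul_eq_mul, hn0] at hv
  have c0 : SumU_c 0 = 1 := rfl
  rw [c0] at hv
  have hpos : (3 : ℚ) * 4 ^ M ≠ 0 := by positivity
  apply mul_right_cancel₀ hpos
  rw [hv]
  push_cast
  ring

end Pool.Agent.DN.GL
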