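import Pool.Agent.Lib.DN.GL.Spec

/-!
# Theorem DN, part GL, module `Sur`: total ramification
-/

set_option autoImplicit false

open scoped Pointwise

noncomputable section

namespace Pool.Agent.DN.GL

open Pool.Agent.MuZ Pool.Agent.FW Pool.Agent.DN
open Pool.Agent.DI (io ofC io_inj exists_io io_ofC ofC_io VP MP UP TP ex)

/-- `1/M` is not a lattice point for `M ≥ 2` -/
private theorem Sur_one_div {k t : ℕ} [SqN k t] {M : ℕ} (hM : 2 ≤ M) : (1 : ℂ) / M ∉ Lam (⊤ : Ideal (OO k t)) := by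
  intro h
  have h1 := (aL6.1 k t (⊤ : Ideal (OO k t)) M top_ne_bot (by omega) (by unfold PrI; rw [top_sup_eq]) 1).1
    (by rw [toC_one]; exact h)
  rw [nat_dvd_iff] at h1
  obtain ⟨h2, -⟩ := h1
  rw [re_one] at h2
  have h3 := Int.le_of_dvd one_pos h2
  omega

private theorem Sur_pt {k t : ℕ} [SqN k t] {f N : ℕ} (hf : Odd f) (h15 : 15 ∣ f) (hN : 1 ≤ N) :
    Pt k t f N (1 / f) (1 / (2 ^ N : ℕ)) where
  odd := hf
  f15 := h15
  pos := hN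
  z := one_div_lam _ hf.pos
  zn := Sur_one_div (by have := Nat.le_of_dvd hf.pos h15; omega)
  dd := by
    have h := one_div_lam (⊤ : Ideal (OO k t)) (N := 2 ^ N) (by positivity)
    push_cast at h ⊢
    exact h
  dn := by
    have h := Sur_one_div (k := k) (t := t) (M := 2) le_rfl
    have e : (2 : ℂ) ^ (N - 1) * (1 / ((2 ^ N : ℕ) : ℂ)) = 1 / ((2 : ℕ) : ℂ) := by
      obtain ⟨j, rfl⟩ := Nat.exists_eq_add_of_le' hN
      rw [Nat.add_sub_cancel]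
      push_cast
      rw [pow_succ]
      field_simp
    rw [e]
    exact h

theorem tSur : S_Sur := by
  intro Gal Ram In Rep Pi k t _ P hP f N hf h15 hN h hh1 hh2
  have hM : 0 < f * 2 ^ N := Nat.mul_pos hf.pos (by positivity)
  obtain ⟨hfd, hnor, -, -⟩ := Gal k t (f * 2 ^ N) hM (h15.mul_right _)
  obtain ⟨S, hS0, hSi, hSu, -, hSv⟩ := Ram (EE k t (f * 2 ^ N)) hfd hnor P hP.1.1 hP.2
  obtain ⟨hp1, hp2, hp3, -⟩ := (Pi k t P hP f N (1 / f) (1 / (2 ^ N : ℕ)) (Sur_pt hf h15 hN)).1 1 (cop_one 2)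
  obtain ⟨j, hj⟩ := hSv _ hp1 hp2
  rw [hp3] at hj
  have hle : 3 * 4 ^ (N - 1) ≤ S.card := by
    have h1 : (0 : ℚ) < 3 * 4 ^ (N - 1) := by positivity
    have h2 : (0 : ℚ) < S.card := by exact_mod_cast hS0
    rw [div_eq_div_iff h1.ne' h2.ne', one_mul] at hj
    have h3 : (S.card : ℤ) = j * (3 * 4 ^ (N - 1)) := by exact_mod_cast hj
    have h4 : (0 : ℤ) < 3 * 4 ^ (N - 1) := by positivity
    have h5 : 0 < j := by
      by_contra h6
      have h7 : j * (3 * 4 ^ (N - 1)) ≤ 0 := mul_nonpos_of_nonpos_of_nonneg (not_lt.1 h6) h4.le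
      rw [← h3] at h7
      omega
    have h6 : (3 * 4 ^ (N - 1) : ℤ) ≤ S.card := by
      rw [h3]
      nlinarith
    exact_mod_cast h6
  obtain ⟨T, hT⟩ := (Rep k t N hN).1 (Un f)
  have hTc := ((Rep k t N hN).2.2 f hf).1 T hT
  obtain ⟨hI1, -, hI3, -, hI5, -⟩ := In k t P hP f N hf h15
  have hch : ∀ τ ∈ S, ∃ g ∈ T, Cls P f N g τ := by
    intro τ hτ
    obtain ⟨g, hg⟩ := hI1 τ (hSi τ hτ)
    obtain ⟨g', hg', hgg⟩ := hT.ex g ⟨hg.one, hg.cop⟩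
    obtain ⟨h1, h2⟩ := hT.mem g' hg'
    refine ⟨g', hg', hI3 τ g g' hg h1 ?_ h2⟩
    rw [← neg_sub]
    exact hgg.neg_right
  choose! c hcT hcc using hch
  have hinj : ∀ τ ∈ S, ∀ τ' ∈ S, c τ = c τ' → τ = τ' := by
    intro τ hτ τ' hτ' he
    refine hSu τ hτ τ' hτ' (hI5 τ τ' (c τ) (hcc τ hτ) ?_)
    rw [he]
    exact hcc τ' hτ'
  have hsur := Finset.surj_on_of_inj_on_of_card_le (fun τ (_ : τ ∈ S) => c τ) (fun τ hτ => hcT τ hτ)
    (fun τ τ' hτ hτ' he => hinj τ hτ τ' hτ' he) (by rw [hTc]; exact hle)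
  obtain ⟨g, hg, hgg⟩ := hT.ex h ⟨hh1, hh2⟩
  obtain ⟨τ, hτ, hc⟩ := hsur g hg
  refine ⟨τ, hI3 τ g h ?_ hh1 hgg hh2⟩
  rw [hc]
  exact hcc τ hτ

end Pool.Agent.DN.GL
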