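import Pool.Agent.Lib.DN.GL.SpecU

set_option autoImplicit false

open scoped Pointwise

noncomputable section

namespace Pool.Agent.DN.GL

open Pool.Agent.MuZ Pool.Agent.FW Pool.Agent.DN
open Pool.Agent.DI (io ofC io_inj exists_io io_ofC ofC_io VP MP UP TP ex)

variable {k t : ℕ}

private theorem T0g_two [SqN k t] : toO (2 : OO k t) = 2 := by
  have := toO_nat (n := k) (t := t) 2
  push_cast at this
  exact this

private theorem T0g_dvd {P : Ideal ZZ} [P.IsPrime] [Ine k t] (h2 : MP P 2) {v : OO k t}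
    (h : MP P (toO v)) : (2 : OO k t) ∣ v := by
  obtain ⟨-, -, h3, -⟩ := aO4 k t
  by_contra hn
  have hc : IsCoprime (Nm v) ((2 : ℕ) : ℤ) := (h3 v).2 hn
  obtain ⟨a, b, hab⟩ := hc
  have h4 : MP P (toO v * toO (cjO v)) := DI.MP.mul_right h (toO_VP _)
  rw [← toO_mul, mul_cjO, toO_int] at h4
  have h5 : MP P ((a : Om) * (Nm v : Om) + (b : Om) * 2) :=
    DI.MP.add (DI.MP.mul_left (DI.VP.int a) h4) (DI.MP.mul_left (DI.VP.int b) h2)
  have e : (a : Om) * (Nm v : Om) + (b : Om) * 2 = 1 := by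
    have := congrArg (fun z : ℤ => (z : Om)) hab
    push_cast at this
    exact this
  rw [e] at h5
  exact DI.MP.one_not h5

theorem tT0g : S_gT0 := by
  intro hUnr hZt
  refine ⟨?_, ?_⟩
  · have h : ∃ y : Om, y ^ 3 = 2 := IsAlgClosed.exists_pow_nat_eq (2 : Om) (n := 3) (by norm_num)
    unfold c3
    rw [dif_pos h]
    exact h.choose_spec
  intro k t _ P hP v u hv hu
  have hPr : P.IsPrime := hP.1.1
  have h2 : MP P 2 := hP.2
  obtain ⟨-, z2, z3, z4, z5⟩ := hZt k t P hP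
  obtain ⟨a1, a2, a3, -⟩ := z2 v hv
  obtain ⟨b1, b2, -, -⟩ := z2 u hu
  have hback : ∀ v u : OO k t, Cop v 2 → Cop u 2 → zt P v = zt P u → (2 : OO k t) ∣ v - u := by
    intro v u hv hu h
    obtain ⟨a1, a2, a3, -⟩ := z2 v hv
    obtain ⟨b1, b2, -, -⟩ := z2 u hu
    refine T0g_dvd h2 ?_
    rw [toO_sub]
    have := DI.MP.sub b2 a2
    have e : zt P u - toO u - (zt P v - toO v) = toO v - toO u := by
      rw [h]
      ring
    rwa [e] at this
  refine ⟨a1, ?_, z4 v u hv hu, ⟨z3 v u hv hu, hback v u hv hu⟩, ?_, ?_⟩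
  · obtain ⟨-, -, -, -, -, h3, -⟩ := aO4 k t
    obtain ⟨w, hw⟩ := h3 v hv
    have hw' : toO v ^ 3 - 1 = 2 * toO w := by
      have := congrArg toO hw
      rwa [toO_sub, toO_pow, toO_one, toO_mul, T0g_two] at this
    have hzu : UP P (zt P v) :=
      DI.UP.of_pow (n := 3) (by norm_num) (by rw [a1]; exact DI.UP.one)
    have hxv : VP P (toO v) := toO_VP v
    have h3u : UP P (3 : Om) := by
      refine DI.UP.congr DI.UP.one ?_
      have e : (3 : Om) - 1 = 2 := by norm_num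
      rw [e]
      exact h2
    have hD : UP P (toO v ^ 2 + toO v * zt P v + zt P v ^ 2) := by
      refine DI.UP.congr (DI.UP.mul h3u (DI.UP.pow hzu 2)) ?_
      have h5 : MP P ((zt P v - toO v) * (-(toO v + 2 * zt P v))) :=
        DI.MP.mul_right a2 (DI.VP.neg (DI.VP.add hxv (DI.VP.mul h2.vp hzu.1)))
      have e : (zt P v - toO v) * (-(toO v + 2 * zt P v)) =
          toO v ^ 2 + toO v * zt P v + zt P v ^ 2 - 3 * zt P v ^ 2 := by ring
      rwa [e] at h5
    have hD0 := hD.ne_zero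
    have e : (zt P v - toO v) / 2 = -(toO w) * (toO v ^ 2 + toO v * zt P v + zt P v ^ 2)⁻¹ := by
      rw [eq_mul_inv_iff_mul_eq₀ hD0]
      linear_combination (1 / 2 : Om) * a1 - (1 / 2 : Om) * hw'
    have h6 : VP P (-(toO w) * (toO v ^ 2 + toO v * zt P v + zt P v ^ 2)⁻¹) :=
      DI.VP.mul (DI.VP.neg (toO_VP w)) (DI.UP.inv hD).1
    rw [← e] at h6
    exact ⟨_, h6, by ring⟩
  · intro hn
    have h1 : zt P v - 1 ≠ 0 := by
      intro h
      refine hn (hback v 1 hv (cop_one 2) ?_)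
      rw [z5]
      exact sub_eq_zero.1 h
    have h3 : (zt P v - 1) * (zt P v ^ 2 + zt P v + 1) = 0 := by linear_combination a1
    exact (mul_eq_zero.1 h3).resolve_left h1
  · intro σ hσ
    obtain ⟨-, f, hf, hf15, hx⟩ := a3
    exact ((hUnr k t P hP).2 f hf hf15 _ hx).1 σ hσ

end Pool.Agent.DN.GL
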