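import Pool.Agent.Lib.DN.GL.SpecU

/-!
# Theorem DN, part GL: the interface statement `S_T1`
-/

set_option autoImplicit false

open scoped Pointwise

noncomputable section

namespace Pool.Agent.DN.GL

open Pool.Agent.MuZ Pool.Agent.FW Pool.Agent.DN
open Pool.Agent.DI (io ofC io_inj exists_io io_ofC ofC_io VP MP UP TP ex)

/-- **T1g.** -/
theorem tT1g : S_gT1 := by
  intro _ hUnr hIn hSur hTc n t _ P hP
  refine ⟨(hUnr n t P hP).1, fun F0 N hodd h15 => ?_⟩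
  obtain ⟨i1, -, -, -, -, i6⟩ := hIn n t P hP F0 N hodd h15
  refine ⟨fun σ hσ => ?_, fun α hα hα2 => ?_, fun σ hσ α hN hα hα2 hpsi => ?_⟩
  · obtain ⟨h, hh⟩ := i1 σ hσ
    exact ⟨h, hh.one, hh.cop, hh.psi⟩
  · obtain ⟨τ, hτ⟩ := hSur n t P hP F0 (N + 1) hodd h15 (by omega) α hα hα2
    have h1 := (hIn n t P hP F0 (N + 1) hodd h15).2.2.2.2.2 τ α F0 N hτ h15 dvd_rfl (by omega)
    exact ⟨τ, h1.ine, h1.psi⟩
  · exact hTc n t P hP F0 N α σ hodd h15 hN ⟨hσ, hα, hα2, hpsi⟩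

end Pool.Agent.DN.GL
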