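import Pool.Agent.Lib.DN.GL.SpecU

/-!
# Theorem DN, part GL, module T2g: statement `S_T2` of the interface (the trace over all classes)
-/

set_option autoImplicit false

open scoped Pointwise

noncomputable section

namespace Pool.Agent.DN.GL

open Pool.Agent.MuZ Pool.Agent.FW Pool.Agent.DN
open Pool.Agent.DI (io ofC io_inj exists_io io_ofC ofC_io VP MP UP TP ex)

variable {k t : ℕ}

private theorem sp_one : sp (1 : OO k t) = (⊤ : Ideal (OO k t)) := Ideal.span_singleton_one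

private theorem one_div_not [SqN k t] {M : ℕ} (hM : 2 ≤ M) : (1 : ℂ) / M ∉ Lam (⊤ : Ideal (OO k t)) := by
  intro h
  have h1 := (aL6.1 k t (⊤ : Ideal (OO k t)) M top_ne_bot (by omega) (by unfold PrI; rw [top_sup_eq]) 1).1
    (by rw [toC_one]; exact h)
  rw [nat_dvd_iff] at h1
  obtain ⟨h2, -⟩ := h1
  rw [re_one] at h2
  have h3 := Int.le_of_dvd one_pos h2
  omega

private theorem pt_one [SqN k t] {f N : ℕ} (hf : Odd f) (h15 : 15 ∣ f) (hN : 1 ≤ N) :
    Pt k t f N (1 / f) (1 / (2 ^ N : ℕ)) where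
  odd := hf
  f15 := h15
  pos := hN
  z := one_div_lam _ hf.pos
  zn := one_div_not (by have := Nat.le_of_dvd hf.pos h15; omega)
  dd := by
    have h := one_div_lam (⊤ : Ideal (OO k t)) (N := 2 ^ N) (by positivity)
    push_cast at h ⊢
    exact h
  dn := by
    have h := one_div_not (k := k) (t := t) (M := 2) le_rfl
    have e : (2 : ℂ) ^ (N - 1) * (1 / ((2 ^ N : ℕ) : ℂ)) = 1 / ((2 : ℕ) : ℂ) := by
      obtain ⟨j, rfl⟩ := Nat.exists_eq_add_of_le' hN
      rw [Nat.add_sub_cancel]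
      push_cast
      rw [pow_succ]
      field_simp
    rw [e]
    exact h

private theorem cop_pow {N : ℕ} {h : OO k t} (hh : Cop h 2) : Cop h (2 ^ N) := by
  unfold Cop at hh ⊢
  push_cast at hh ⊢
  exact hh.pow_right

private theorem un_cancel {N : ℕ} {h a b : OO k t} (hh : Cop h 2)
    (hd : ((2 ^ N : ℕ) : OO k t) ∣ h * a - h * b) : ((2 ^ N : ℕ) : OO k t) ∣ a - b := by
  obtain ⟨c, -, hc⟩ := cop_inv (cop_pow (N := N) hh)
  have e : a - b = c * (h * a - h * b) - (h * c - 1) * (a - b) := by ring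
  rw [e]
  exact dvd_sub (hd.mul_left _) (hc.mul_right _)

private theorem un_mul {f : ℕ} {h h' : OO k t} (a : Un f h) (b : Un f h') : Un f (h * h') := by
  have e : h * h' - 1 = h * (h' - 1) + (h - 1) := by ring
  refine ⟨?_, cop_mul a.2 b.2⟩
  rw [e]
  exact dvd_add (b.1.mul_left _) a.1

private theorem un_one (f : ℕ) : Un f (1 : OO k t) :=
  ⟨by rw [sub_self]; exact dvd_zero _, cop_one 2⟩

private theorem claim (pi : C_Pi) (pol : C_Pol) (mono : C_MonoK) (sumU : C_SumU)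
    [Ine k t] {P : Ideal ZZ} (hP : Ab2 P) {f N : ℕ} (ho : Odd f) (h15 : 15 ∣ f) (hN : 1 ≤ N)
    {T : Finset (OO k t)} {s : OO k t → Gal(Om/ℚ)} (hT : IsR N (Un f) T)
    (hs : ∀ h ∈ T, Cls P f N h (s h)) {x : Om} (hx : FI k t P f N x) (m : ℕ)
    (hm : x ≠ 0 → (m : ℚ) ≤ vP P x + (N - 1 / 3)) : GE P m (∑ h ∈ T, s h x) := by
  classical
  have hPp : P.IsPrime := hP.1.1
  have h2 : MP P 2 := hP.2
  have hf0 : 0 < f := ho.pos
  have hM : 0 < f * 2 ^ N := by positivity
  set z0 : ℂ := 1 / f with hz0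
  set d : ℂ := 1 / (2 ^ N : ℕ) with hd
  have hPt : Pt k t f N z0 d := pt_one ho h15 hN
  obtain ⟨p1, -, -, -, -, p6, -, p8⟩ := pi k t P hP f N z0 d hPt
  have hsum := sumU k t P hP f N z0 d hPt T hT
  have hcop : ∀ h ∈ T, Cop h 2 := fun h hh => (hs h hh).cop
  set π : OO k t → Om := pH z0 d with hπ
  obtain ⟨h1, hh1, hd1⟩ := hT.ex 1 (un_one f)
  -- the representatives of the products
  have hρ : ∀ h ∈ T, ∀ g ∈ T, ∃ r ∈ T, ((2 ^ N : ℕ) : OO k t) ∣ h * g - r := fun h hh g hg =>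
    hT.ex _ (un_mul (hT.mem h hh) (hT.mem g hg))
  choose! ρ hρT hρd using hρ
  -- the images of the conjugates
  have hsπ : ∀ h ∈ T, ∀ g ∈ T, s h (π g) = π (ρ h g) := by
    intro h hh g hg
    rw [hπ, p8 f h g (s h) ho (dvd_refl _) (hs h hh) (hcop g hg)]
    exact p6 _ _ (cop_mul (hcop h hh) (hcop g hg)) (hcop _ (hρT h hh g hg)) (hρd h hh g hg)
  have hρ1 : ∀ h ∈ T, ρ h h1 = h := by
    intro h hh
    refine hT.uni _ (hρT h hh h1 hh1) _ hh ?_
    have e : ρ h h1 - h = -(h * h1 - ρ h h1) - h * (1 - h1) := by ring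
    rw [e]
    exact dvd_sub ((hρd h hh h1 hh1).neg_right) (hd1.mul_left _)
  have hπ1 : π 1 = π h1 := p6 _ _ (cop_one 2) (hcop _ hh1) hd1
  -- the product
  set δ : OO k t → Om := fun h => ∏ g ∈ T.erase h, (π h - π g) with hδ
  have hδ0 : ∀ h ∈ T, δ h ≠ 0 := fun h hh => (hsum h hh).1
  have hδv : vP P (δ h1) = N - 1 / 3 := (hsum h1 hh1).2
  have hsδ : ∀ h ∈ T, s h (δ h1) = δ h := by
    intro h hh
    have hinj : Set.InjOn (fun g => ρ h g) (T.erase h1 : Set (OO k t)) := by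
      intro a ha b hb hab
      have ha' : a ∈ T := Finset.mem_of_mem_erase ha
      have hb' : b ∈ T := Finset.mem_of_mem_erase hb
      refine hT.uni a ha' b hb' (un_cancel (hcop h hh) ?_)
      have hab' : ρ h a = ρ h b := hab
      have e : h * a - h * b = (h * a - ρ h a) - (h * b - ρ h b) := by rw [hab']; ring
      rw [e]
      exact dvd_sub (hρd h hh a ha') (hρd h hh b hb')
    have himg : (T.erase h1).image (fun g => ρ h g) = T.erase h := by
      refine Finset.eq_of_subset_of_card_le ?_ ?_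
      · intro r hr
        obtain ⟨g, hg, rfl⟩ := Finset.mem_image.1 hr
        have hg' : g ∈ T := Finset.mem_of_mem_erase hg
        refine Finset.mem_erase.2 ⟨fun h3 => ?_, hρT h hh g hg'⟩
        refine (Finset.mem_erase.1 hg).1 (hT.uni g hg' h1 hh1 (un_cancel (hcop h hh) ?_))
        have h3' : ρ h g = ρ h h1 := by rw [hρ1 h hh]; exact h3
        have e : h * g - h * h1 = (h * g - ρ h g) - (h * h1 - ρ h h1) := by rw [h3']; ring
        rw [e]
        exact dvd_sub (hρd h hh g hg') (hρd h hh h1 hh1)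
      · rw [Finset.card_image_of_injOn hinj, Finset.card_erase_of_mem hh1, Finset.card_erase_of_mem hh]
    rw [hδ]
    simp only
    rw [map_prod, ← himg, Finset.prod_image hinj]
    refine Finset.prod_congr rfl fun g hg => ?_
    rw [map_sub, hsπ h hh h1 hh1, hsπ h hh g (Finset.mem_of_mem_erase hg), hρ1 h hh]
  by_cases hx0 : x = 0
  · rw [hx0]
    simp only [map_zero, Finset.sum_const_zero]
    exact GE.zero _
  have hc0 : (2 : Om) ^ m ≠ 0 := pow_ne_zero _ two_ne_zero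
  -- the number y
  set y : Om := x * δ h1 / 2 ^ m with hy
  have hyV : VP P y := by
    rw [← vP_nonneg h2 (div_ne_zero (mul_ne_zero hx0 (hδ0 h1 hh1)) hc0),
      vP_div h2 (mul_ne_zero hx0 (hδ0 h1 hh1)) hc0, vP_mul h2 hx0 (hδ0 h1 hh1), vP_two_pow h2, hδv]
    have h3 := hm hx0
    linarith
  have hyE : FI k t P f N y := by
    intro τ hτ hψ
    have hcl : Cls P f N (1 : OO k t) τ :=
      ⟨hτ, by rw [sub_self]; exact dvd_zero _, cop_one 2, by rw [sp_one]; exact hψ⟩
    have h3 : ∀ g ∈ T, τ (π g) = π g := by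
      intro g hg
      have h4 := p8 f 1 g τ ho (dvd_refl _) hcl (hcop g hg)
      rwa [one_mul] at h4
    have h5 : τ (δ h1) = δ h1 := by
      rw [hδ]
      simp only
      rw [map_prod]
      refine Finset.prod_congr rfl fun g hg => ?_
      rw [map_sub, h3 h1 hh1, h3 g (Finset.mem_of_mem_erase hg)]
    rw [hy, map_div₀, map_mul, map_pow, map_ofNat, h5, hx τ hτ hψ]
  obtain ⟨F, hF, hFy⟩ := mono k t P hP f N z0 d hPt f ho (dvd_refl _) y hyE hyV
  have hπV : ∀ h ∈ T, VP P (π h) := by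
    intro h hh
    obtain ⟨-, q1, q2, -⟩ := p1 h (hcop h hh)
    rw [← vP_nonneg h2 q1, q2]
    positivity
  have hsy : ∀ h ∈ T, s h y = F.eval (π h) := by
    intro h hh
    have h3 : s h (F.eval (π h1)) = F.eval (s h (π h1)) := by
      rw [Polynomial.eval_eq_sum_range, Polynomial.eval_eq_sum_range, map_sum]
      refine Finset.sum_congr rfl fun i _ => ?_
      rw [map_mul, map_pow, (hF i).2 (s h) (hs h hh).ine]
    rw [← hFy]
    change s h (F.eval (π 1)) = _
    rw [hπ1, h3, hsπ h hh h1 hh1, hρ1 h hh]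
  have hsx : ∀ h ∈ T, s h x = 2 ^ m * (F.eval (π h) / δ h) := by
    intro h hh
    have e : x = y * 2 ^ m / δ h1 := by
      rw [hy, div_mul_cancel₀ _ hc0, mul_div_cancel_right₀ _ (hδ0 h1 hh1)]
    rw [← hsy h hh, ← hsδ h hh]
    conv_lhs => rw [e]
    rw [map_div₀, map_mul, map_pow, map_ofNat]
    ring
  have hinj : Set.InjOn π (T : Set (OO k t)) := by
    intro a ha b hb hab
    by_contra hne
    have h3 := hδ0 a ha
    rw [hδ] at h3
    exact (Finset.prod_ne_zero_iff.1 h3) b (Finset.mem_erase.2 ⟨Ne.symm hne, hb⟩) (by rw [hab, sub_self])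
  have hpol := (pol P hPp (T.image π) F (by
    intro r hr
    obtain ⟨h, hh, rfl⟩ := Finset.mem_image.1 hr
    exact hπV h hh) fun i => (hF i).1).2
  have hEq : ∑ a ∈ T.image π, F.eval a / ∏ r ∈ (T.image π).erase a, (a - r) =
      ∑ h ∈ T, F.eval (π h) / δ h := by
    rw [Finset.sum_image hinj]
    refine Finset.sum_congr rfl fun h hh => ?_
    congr 1
    have e : (T.image π).erase (π h) = (T.erase h).image π := by
      ext r
      simp only [Finset.mem_erase, Finset.mem_image]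
      constructor
      · rintro ⟨h3, g, hg, rfl⟩
        exact ⟨g, ⟨fun h4 => h3 (by rw [h4]), hg⟩, rfl⟩
      · rintro ⟨g, ⟨h3, hg⟩, rfl⟩
        exact ⟨fun h4 => h3 (hinj hg hh h4), g, hg, rfl⟩
    rw [e, Finset.prod_image (hinj.mono (Finset.coe_subset.2 (Finset.erase_subset _ _)))]
  rw [hEq] at hpol
  rw [Finset.sum_congr rfl hsx, ← Finset.mul_sum]
  exact GE.mul_right h2 (Or.inr (vP_two_pow h2 m).ge) hpol

theorem tT2g : S_gT2 := by
  intro _inn _rep pi pol sumU ztt mono k t _ P hP F0 N A s ho h15 hN hA hs y hy hyV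
  have hPp : P.IsPrime := hP.1.1
  have h2 : MP P 2 := hP.2
  obtain ⟨⟨-, hc0, hcv⟩, -⟩ := ztt k t P hP
  have hcop : IsCoprime ((2 ^ N : ℕ) : OO k t) (F0 : OO k t) := by
    have h3 : IsCoprime ((2 ^ N : ℕ) : ℤ) (F0 : ℤ) :=
      Nat.isCoprime_iff_coprime.2 (Nat.Coprime.pow_left _ (Nat.coprime_two_left.2 ho))
    obtain ⟨a, b, hab⟩ := h3
    refine ⟨(a : OO k t), (b : OO k t), ?_⟩
    have h4 := congrArg (fun z : ℤ => (z : OO k t)) hab
    push_cast at h4 ⊢
    exact h4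
  have hT : IsR N (Un F0) A := by
    refine ⟨fun h hh => hA.mem h hh, fun v hv => ?_, fun h hh h' hh' hd => ?_⟩
    · obtain ⟨α, hα, hd⟩ := hA.ex v hv.1 hv.2
      refine ⟨α, hα, dvd_trans ?_ hd⟩
      push_cast
      exact dvd_mul_left _ _
    · refine hA.uni h hh h' hh' ?_
      have h3 : (F0 : OO k t) ∣ h - h' := by
        have e : h - h' = (h - 1) - (h' - 1) := by ring
        rw [e]
        exact dvd_sub (hA.mem h hh).1 (hA.mem h' hh').1
      have h4 := hcop.mul_dvd hd h3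
      have e : ((F0 * 2 ^ N : ℕ) : OO k t) = ((2 ^ N : ℕ) : OO k t) * (F0 : OO k t) := by
        push_cast
        ring
      rw [e]
      exact h4
  have hs' : ∀ h ∈ A, Cls P F0 N h (s h) := fun h hh =>
    ⟨(hs h hh).1, (hA.mem h hh).1, (hA.mem h hh).2, (hs h hh).2⟩
  have h3 := claim pi pol mono sumU hP ho h15 hN hT hs' (x := y) hy N (by
    intro hy0
    have h4 := (vP_nonneg h2 (div_ne_zero hy0 hc0)).2 hyV
    rw [vP_div h2 hy0 hc0, hcv] at h4
    linarith)
  have h4 : (2 : Om) ^ N ≠ 0 := pow_ne_zero _ two_ne_zero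
  rw [← GE.tp_iff h2 h4, vP_two_pow h2]
  exact h3

end Pool.Agent.DN.GL
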