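import Pool.Agent.Lib.DN.GL.SpecT

/-!
# DN, part GL, module Tc: the action of inertia on `c3` (helper86)
-/

set_option autoImplicit false

open scoped Pointwise

noncomputable section

namespace Pool.Agent.DN.GL

open Pool.Agent.MuZ Pool.Agent.FW Pool.Agent.DN
open Pool.Agent.DI (io ofC io_inj exists_io io_ofC ofC_io VP MP UP TP ex)

variable {k t : ℕ}

private theorem gtop' : G15 (⊤ : Ideal (OO k t)) := ⟨top_ne_bot, top_sup_eq _⟩

private theorem pri_top (N : ℕ) : PrI (⊤ : Ideal (OO k t)) N := top_sup_eq _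

/-- `toC v / 2`, `toC v / 3`. -/
private theorem div_lam [Ine k t] {N : ℕ} (hN : 0 < N) (v : OO k t) :
    toC v / N ∈ Lam (⊤ : Ideal (OO k t)) ↔ (N : OO k t) ∣ v :=
  aL6.1 k t ⊤ N top_ne_bot hN (pri_top N) v

/-- The kernel of the identity `Y ^ 3 + (c a Y + b) ^ 2 = 0`. -/
private theorem unitY {P : Ideal ZZ} [P.IsPrime] {c a b Y : Om} (hc : MP P c) (ha : VP P a)
    (hb : UP P b) (h : Y ^ 3 + (c * a * Y + b) ^ 2 = 0) : UP P Y := by
  have hY0 : Y ≠ 0 := by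
    rintro rfl
    apply hb.ne_zero
    have h1 : b ^ 2 = 0 := by linear_combination h
    exact pow_eq_zero_iff (two_ne_zero) |>.1 h1
  have hVY : VP P Y := by
    by_contra hn
    obtain ⟨-, h1⟩ := DI.VP.not_iff.1 hn
    have h2 : VP P ((c * a + b * Y⁻¹) ^ 2) :=
      ((hc.vp.mul ha).add (hb.1.mul h1.vp)).pow 2
    have h3 := (DI.MP.mul_left h2 h1).neg
    have e : -((c * a + b * Y⁻¹) ^ 2 * Y⁻¹) = 1 := by
      field_simp
      linear_combination -h
    rw [e] at h3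
    exact DI.MP.one_not h3
  have h1 : MP P (Y ^ 3 - -(b ^ 2)) := by
    have e : Y ^ 3 - -(b ^ 2) = -(c * (a * Y * (c * a * Y + 2 * b))) := by
      linear_combination h
    rw [e]
    refine (DI.MP.mul_right hc ((ha.mul hVY).mul (((hc.vp.mul ha).mul hVY).add ?_))).neg
    exact (DI.VP.nat 2).mul hb.1
  exact DI.UP.of_pow (by norm_num : 0 < 3) (DI.UP.congr (hb.pow 2).neg h1)

theorem tTc : S_Tc := by
  classical
  intro hB1 hB2 hB7 hB9 hR1 hR2 hD1 hD2 hAct hZt k t _ P hP f N h τ hf h15 hN hc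
  have hPp : P.IsPrime := hP.1.1
  have h2 : MP P 2 := hP.2
  have gt : G15 (⊤ : Ideal (OO k t)) := gtop'
  obtain ⟨⟨c3a, c3b, c3c⟩, hzt, -, -, -⟩ := hZt k t P hP
  obtain ⟨hGQ, hTP⟩ := (hR2 k t).1 P hP
  obtain ⟨-, ha3, -⟩ := hGQ.2 ⊤ gt
  obtain ⟨a, haV, ha⟩ := hTP ⊤ gt
  obtain ⟨io1, io3, ioX, -⟩ := (hR1.1 k t).1 ⊤ gt
  obtain ⟨hBper, -, -, -, hBwd, hB15⟩ := hB1 k t ⊤ top_ne_bot
  obtain ⟨hfr0, -, -, -, hX3, -⟩ := hB15 (pri_top 15)
  obtain ⟨hD21, -, -, hD24, -, -, -⟩ := hD2 k t P hP ⊤ gt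
  obtain ⟨hD11, -, -, -, hD15, -, -⟩ := hD1 k t P hGQ ⊤ gt
  -- elements
  have h3h : (3 : OO k t) ∣ h - 1 := by
    obtain ⟨u, hu⟩ := hc.one
    obtain ⟨c, rfl⟩ := h15
    refine ⟨((5 * c : ℕ) : OO k t) * u, ?_⟩
    rw [hu]
    push_cast
    ring
  have hh0 : h ≠ 0 := by
    rintro rfl
    have h4 := hc.cop
    unfold Cop at h4
    rw [Nm_zero] at h4
    have h5 : IsUnit ((2 : ℕ) : ℤ) := isCoprime_zero_left.1 h4
    exact absurd (Int.isUnit_iff.1 h5) (by norm_num)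
  have n12 : (1 / 2 : ℂ) ∉ Lam (⊤ : Ideal (OO k t)) := by
    have h4 := div_lam (k := k) (t := t) (N := 2) (by norm_num) 1
    rw [toC_one] at h4
    push_cast at h4
    rw [h4]
    intro h5
    have h6 := ((aO4 k t).2.2.1 1).1 (cop_one 2)
    exact h6 h5
  have nh2 : toC h * (1 / 2 : ℂ) ∉ Lam (⊤ : Ideal (OO k t)) := by
    have h4 := div_lam (k := k) (t := t) (N := 2) (by norm_num) h
    have e : toC h * (1 / 2 : ℂ) = toC h / (2 : ℕ) := by
      push_cast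
      ring
    rw [e, h4]
    have h6 := ((aO4 k t).2.2.1 h).1 hc.cop
    exact_mod_cast h6
  have nh3 : toC h * (1 / 3 : ℂ) ∉ Lam (⊤ : Ideal (OO k t)) := by
    have h4 := div_lam (k := k) (t := t) (N := 3) (by norm_num) h
    have e : toC h * (1 / 3 : ℂ) = toC h / (3 : ℕ) := by
      push_cast
      ring
    rw [e, h4]
    intro h5
    have h5' : (3 : OO k t) ∣ h := by exact_mod_cast h5
    have h6 : (3 : OO k t) ∣ 1 := by
      have h7 := dvd_sub h5' h3h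
      rwa [sub_sub_cancel] at h7
    have h7 : ((3 : ℕ) : OO k t) ∣ 1 := by exact_mod_cast h6
    rw [nat_dvd_iff, re_one] at h7
    have h8 := h7.1
    norm_num at h8
  have t12 : Tor k t (1 / 2) := by
    have h4 := tor_div (n := k) (t := t) (N := 2) (by norm_num) 1
    rw [toC_one] at h4
    exact_mod_cast h4
  have t13 : Tor k t (1 / 3) := by
    have h4 := tor_div (n := k) (t := t) (N := 3) (by norm_num) 1
    rw [toC_one] at h4
    exact_mod_cast h4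
  have l1 : (2 : ℂ) * (1 / 2) ∈ Lam (⊤ : Ideal (OO k t)) := by
    rw [lam_top]
    exact ⟨1, by rw [toC_one]; norm_num⟩
  -- the unit `Y`
  have hWC : WC (⊤ : Ideal (OO k t)) (1 / 2) = 0 := by
    unfold WC
    rw [(hBwd (1 / 2) n12).2 l1, zero_div]
  have hX2 := ((hB2 k t ⊤ top_ne_bot (1 / 2) n12).2 (pri_top 15)).1
  rw [hWC] at hX2
  set X : Om := xO (⊤ : Ideal (OO k t)) (1 / 2) with hX
  have hXeq : 4 * X ^ 3 + (a1O (⊤ : Ideal (OO k t)) * X + a3O (⊤ : Ideal (OO k t))) ^ 2 = 0 := by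
    apply io_inj
    rw [map_zero, map_add, map_mul, map_pow, map_pow, map_add, map_mul, io1, io3, hX, (ioX _ t12).1]
    rw [map_ofNat]
    linear_combination -hX2
  have hc3P : MP P c3 := by
    rw [← vP_pos h2 c3b, c3c]
    norm_num
  set Y : Om := c3 ^ 2 * X with hY
  have hYeq : Y ^ 3 + (c3 * a * Y + a3O (⊤ : Ideal (OO k t))) ^ 2 = 0 := by
    rw [ha] at hXeq
    have e1 : c3 * a * Y = 2 * a * X := by
      rw [hY]
      linear_combination a * X * c3a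
    have e2 : Y ^ 3 = 4 * X ^ 3 := by
      rw [hY]
      linear_combination X ^ 3 * (c3 ^ 3 + 2) * c3a
    rw [e1, e2]
    exact hXeq
  have hYU : UP P Y := unitY hc3P haV ha3 hYeq
  -- the sum formula
  have hsp : sp h ≠ ⊥ := by
    intro h4
    exact hh0 (Ideal.span_singleton_eq_bot.1 h4)
  obtain ⟨R, hR, -⟩ := (aL3 k t (sp h) ⊤ hsp top_ne_bot).2.2
  have hLs : ∀ z : ℂ, z ∈ Lam (sp h * (⊤ : Ideal (OO k t))) ↔ toC h * z ∈ Lam (⊤ : Ideal (OO k t)) :=
    fun z => lam_sp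
  have hwp := (hB9 k t (sp h) ⊤ hsp top_ne_bot R hR).1 (1 / 2) (1 / 3)
    (by rw [hLs]; exact nh2) (by rw [hLs]; exact nh3)
  rw [((hB7 k t ⊤ top_ne_bot).1 h hh0).1 (1 / 2) |>.1, ((hB7 k t ⊤ top_ne_bot).1 h hh0).1 (1 / 3) |>.1]
    at hwp
  have wpX : ∀ z z' : ℂ, wpC (⊤ : Ideal (OO k t)) z - wpC (⊤ : Ideal (OO k t)) z' =
      fr (⊤ : Ideal (OO k t)) ^ 2 * (XC (⊤ : Ideal (OO k t)) z - XC (⊤ : Ideal (OO k t)) z') := by
    intro z z'
    unfold XC
    field_simp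
    ring
  have hX3' : XC (⊤ : Ideal (OO k t)) (toC h * (1 / 3)) = 0 := by
    obtain ⟨c, hc3⟩ := h3h
    have e : toC h * (1 / 3 : ℂ) = 1 / 3 + toC c := by
      have e1 : h = 1 + 3 * c := by rw [← hc3]; ring
      have e2 : toC h = 1 + 3 * toC c := by
        conv_lhs => rw [e1]
        rw [toC_add, toC_mul, toC_one, toC_three]
      rw [e2]
      ring
    rw [e]
    have h4 := (hBper (1 / 3) (toC c) (lam_top.2 ⟨c, rfl⟩)).1
    rw [← hX3]
    unfold XC
    rw [h4]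
  have hsumC : toC h ^ 2 * XC (⊤ : Ideal (OO k t)) (toC h * (1 / 2)) =
      ∑ u ∈ R, (XC (⊤ : Ideal (OO k t)) (1 / 2 + u) - XC (⊤ : Ideal (OO k t)) (1 / 3 + u)) := by
    have h4 : fr (⊤ : Ideal (OO k t)) ^ 2 ≠ 0 := pow_ne_zero _ hfr0
    apply mul_left_cancel₀ h4
    rw [Finset.mul_sum]
    rw [Finset.sum_congr rfl fun u _ => wpX (1 / 2 + u) (1 / 3 + u)] at hwp
    rw [← hwp]
    have h5 := wpX (toC h * (1 / 2)) (toC h * (1 / 3))
    rw [hX3', sub_zero] at h5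
    linear_combination -(toC h ^ 2) * h5
  have tR : ∀ u ∈ R, Tor k t u := by
    intro u hu
    have h4 := hR.mem u hu
    exact tor_lam (mul_ne_zero hsp top_ne_bot) h4
  have hsum : toO h ^ 2 * xO (⊤ : Ideal (OO k t)) (toC h * (1 / 2)) =
      ∑ u ∈ R, (xO (⊤ : Ideal (OO k t)) (1 / 2 + u) - xO (⊤ : Ideal (OO k t)) (1 / 3 + u)) := by
    apply io_inj
    rw [map_mul, map_pow, io_toO, (ioX _ (tor_mul h t12)).1, map_sum, hsumC]
    refine Finset.sum_congr rfl fun u hu => ?_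
    rw [map_sub, (ioX _ (tor_add t12 (tR u hu))).1, (ioX _ (tor_add t13 (tR u hu))).1]
  -- the terms
  have hmh : ¬ MP P (toO h) := by
    intro h4
    have h5 : MP P ((Nm h : ℤ) : Om) := by
      have h6 := DI.MP.mul_right h4 (toO_VP (cjO h))
      rw [← toO_mul, mul_cjO, toO_int] at h6
      exact h6
    have h6 : IsCoprime (Nm h) ((2 : ℕ) : ℤ) := hc.cop
    obtain ⟨p, q, hpq⟩ := h6
    have h7 : MP P ((p : Om) * ((Nm h : ℤ) : Om) + (q : Om) * 2) :=
      (DI.MP.mul_left (DI.VP.int p) h5).add (DI.MP.mul_left (DI.VP.int q) h2)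
    have e : (p : Om) * ((Nm h : ℤ) : Om) + (q : Om) * 2 = 1 := by
      have e1 : (((p * Nm h + q * ((2 : ℕ) : ℤ) : ℤ)) : Om) = ((1 : ℤ) : Om) := by rw [hpq]
      push_cast at e1
      exact e1
    rw [e] at h7
    exact DI.MP.one_not h7
  have hm3 : ¬ MP P (3 : Om) := by
    intro h4
    have h5 := h4.sub h2
    have e : (3 : Om) - 2 = 1 := by norm_num
    rw [e] at h5
    exact DI.MP.one_not h5
  have k12 : IK P (⊤ : Ideal (OO k t)) (-(1 / 2)) := by
    refine hD21 _ 1 ?_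
    have e : (2 : ℂ) ^ 1 * -(1 / 2) = -(2 * (1 / 2)) := by ring
    rw [e]
    exact lam_neg l1
  have hterm : ∀ u ∈ R, u ∉ Lam (⊤ : Ideal (OO k t)) →
      VP P (xO (⊤ : Ideal (OO k t)) (1 / 2 + u) - xO (⊤ : Ideal (OO k t)) (1 / 3 + u)) := by
    intro u hu hu0
    have hhu : toC h * u ∈ Lam (⊤ : Ideal (OO k t)) := (hLs u).1 (hR.mem u hu)
    have g1 : ¬ IK P (⊤ : Ideal (OO k t)) (1 / 2 + u) := by
      intro h4
      have h5 := hD11 _ _ h4 k12
      have e : (1 / 2 + u + -(1 / 2) : ℂ) = u := by ring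
      rw [e] at h5
      have h6 := hD15 u h5 h 1 hmh (by rw [mul_one]; exact hhu)
      rw [toC_one, one_mul] at h6
      exact hu0 h6
    have g2 : ¬ IK P (⊤ : Ideal (OO k t)) (1 / 3 + u) := by
      intro h4
      have h6 := hD15 _ h4 (3 * h) 1 (by
        rw [toO_mul]
        have e : toO (3 : OO k t) = 3 := by
          have := toO_nat (n := k) (t := t) 3
          exact_mod_cast this
        rw [e]
        intro h7
        have v3 : VP P (3 : Om) := by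
          have := DI.VP.nat (P := P) 3
          exact_mod_cast this
        rcases DI.MP.mul_cases v3 (toO_VP h) h7 with h8 | h8
        · exact hm3 h8
        · exact hmh h8) (by
        rw [mul_one, toC_mul, toC_three]
        have e : 3 * toC h * (1 / 3 + u) = toC h + 3 * (toC h * u) := by ring
        rw [e]
        refine lam_add (lam_top.2 ⟨h, rfl⟩) ?_
        have := lam_nat 3 hhu
        exact_mod_cast this)
      rw [toC_one, one_mul] at h6
      have h7 := lam_mul h h6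
      have e : toC h * (1 / 3 + u) = toC h * (1 / 3) + toC h * u := by ring
      rw [e] at h7
      apply nh3
      have h8 := lam_sub h7 hhu
      rwa [add_sub_cancel_right] at h8
    exact (hD24 _ (tor_add t12 (tR u hu)) g1).1.sub (hD24 _ (tor_add t13 (tR u hu)) g2).1
  -- the unit term
  obtain ⟨u0, hu0, hu0'⟩ := hR.ex 0 (lam_zero _)
  have hu0L : u0 ∈ Lam (⊤ : Ideal (OO k t)) := by
    rw [zero_sub] at hu0'
    exact lam_neg_iff.1 hu0'
  have hx13 : xO (⊤ : Ideal (OO k t)) (1 / 3) = 0 := by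
    apply io_inj
    rw [(ioX _ t13).1, hX3, map_zero]
  have xper : ∀ z : ℂ, xO (⊤ : Ideal (OO k t)) (z + u0) = xO (⊤ : Ideal (OO k t)) z := by
    intro z
    have h4 := (hBper z u0 hu0L).1
    unfold xO XC
    rw [h4]
  have hdiff : VP P (toO h ^ 2 * xO (⊤ : Ideal (OO k t)) (toC h * (1 / 2)) - X) := by
    have e : toO h ^ 2 * xO (⊤ : Ideal (OO k t)) (toC h * (1 / 2)) - X =
        ∑ u ∈ R.erase u0,
          (xO (⊤ : Ideal (OO k t)) (1 / 2 + u) - xO (⊤ : Ideal (OO k t)) (1 / 3 + u)) := by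
      rw [hsum, ← Finset.add_sum_erase R _ hu0, xper, xper, hx13, sub_zero, ← hX]
      ring
    rw [e]
    refine DI.VP.sum _ _ fun u hu => ?_
    obtain ⟨hne, huR⟩ := Finset.mem_erase.1 hu
    refine hterm u huR fun h4 => hne ?_
    exact hR.uni u huR u0 hu0 (lam_sub h4 hu0L)
  have hMP1 : MP P (toO h ^ 2 * (c3 ^ 2 * xO (⊤ : Ideal (OO k t)) (toC h * (1 / 2))) - Y) := by
    have e : toO h ^ 2 * (c3 ^ 2 * xO (⊤ : Ideal (OO k t)) (toC h * (1 / 2))) - Y =
        c3 * (c3 * (toO h ^ 2 * xO (⊤ : Ideal (OO k t)) (toC h * (1 / 2)) - X)) := by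
      rw [hY]
      ring
    rw [e]
    exact DI.MP.mul_right hc3P (hc3P.vp.mul hdiff)
  -- the action
  have hτX : τ X = xO (⊤ : Ideal (OO k t)) (toC h * (1 / 2)) := by
    obtain ⟨-, -, -, hx, -, -, -⟩ := hAct k t P hP f N h τ hf h15 hc ⊤ gt
    refine (hx (1 / 2) ?_).1
    have e : ((f * 2 ^ N : ℕ) : ℂ) * (1 / 2) = ((f * 2 ^ (N - 1) : ℕ) : ℂ) * (2 * (1 / 2)) := by
      have e1 : f * 2 ^ N = f * 2 ^ (N - 1) * 2 := by
        rw [mul_assoc, ← pow_succ]
        congr 2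
        omega
      rw [e1]
      push_cast
      ring
    rw [e]
    exact lam_nat _ l1
  obtain ⟨ζ, hζ⟩ : ∃ ζ : Om, ζ = τ c3 / c3 := ⟨_, rfl⟩
  have hζc : τ c3 = ζ * c3 := by
    rw [hζ, div_mul_cancel₀ _ c3b]
  have hζ3 : ζ ^ 3 = 1 := by
    rw [hζ, div_pow, ← map_pow, c3a, map_ofNat]
    exact div_self two_ne_zero
  have hζV : VP P ζ := by
    refine DI.VP.of_pow (by norm_num : 0 < 3) ?_
    rw [hζ3]
    exact DI.VP.one
  have hτY : τ Y = ζ ^ 2 * (c3 ^ 2 * xO (⊤ : Ideal (OO k t)) (toC h * (1 / 2))) := by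
    rw [hY, map_mul, map_pow, hτX, hζc]
    ring
  have hvh : VP P (toO h) := toO_VP h
  have hm1 : MP P ((toO h ^ 2 - ζ ^ 2) * Y) := by
    have g1 : MP P (toO h ^ 2 * (τ Y - Y)) :=
      DI.MP.mul_left (hvh.pow 2) (DI.VP.inertia hc.ine hYU.1)
    have g2 := DI.MP.mul_left (hζV.pow 2) hMP1
    have g3 := g2.sub g1
    have e : ζ ^ 2 * (toO h ^ 2 * (c3 ^ 2 * xO (⊤ : Ideal (OO k t)) (toC h * (1 / 2))) - Y) -
        toO h ^ 2 * (τ Y - Y) = (toO h ^ 2 - ζ ^ 2) * Y := by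
      rw [hτY]
      ring
    rwa [e] at g3
  have hm2 : MP P (toO h ^ 2 - ζ ^ 2) := by
    rcases DI.MP.mul_cases ((hvh.pow 2).sub (hζV.pow 2)) hYU.1 hm1 with h4 | h4
    · exact h4
    · exact absurd h4 hYU.2
  have hm3' : MP P (toO h ^ 3 - 1) := by
    obtain ⟨u, hu⟩ := (aO4 k t).2.2.2.2.2.1 h hc.cop
    have e : toO h ^ 3 - 1 = 2 * toO u := by
      have e1 : toO (h ^ 3 - 1) = toO (2 * u) := by rw [hu]
      rw [toO_sub, toO_pow, toO_one, toO_mul] at e1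
      rw [e1]
      congr 1
      have := toO_nat (n := k) (t := t) 2
      exact_mod_cast this
    rw [e]
    exact DI.MP.mul_right h2 (toO_VP u)
  have hm4 : MP P (ζ - toO h) := by
    have g1 := DI.MP.mul_right hm2 ((hvh.pow 2).add (hζV.pow 2))
    have g2 := DI.MP.mul_left hvh hm3'
    have g3 := g2.sub g1
    have e : toO h * (toO h ^ 3 - 1) - (toO h ^ 2 - ζ ^ 2) * (toO h ^ 2 + ζ ^ 2) = ζ - toO h := by
      linear_combination ζ * hζ3
    rwa [e] at g3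
  rw [hζc, (hzt h hc.cop).2.2.2 ζ hζ3 hm4]

end Pool.Agent.DN.GL
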