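import Pool.Agent.Lib.DN.GL.SpecT

/-!
# Theorem DN, part GL, tame part: the element `θ`
-/

set_option autoImplicit false

open scoped Pointwise

noncomputable section

namespace Pool.Agent.DN.GL

open Pool.Agent.MuZ Pool.Agent.FW Pool.Agent.DN
open Pool.Agent.DI (io ofC io_inj exists_io io_ofC ofC_io VP MP UP TP ex)

variable {k t : ℕ}

private theorem Th_not [Ine k t] {N : ℕ} (hN : 2 ≤ N) : (1 / (N : ℂ)) ∉ Lam (⊤ : Ideal (OO k t)) := by
  intro h
  have hpr : PrI (⊤ : Ideal (OO k t)) N := by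
    unfold PrI
    rw [top_sup_eq]
  have h1 := (aL6.1 k t ⊤ N top_ne_bot (by omega) hpr 1).1 (by rwa [toC_one])
  have h2 := ((nat_dvd_iff N 1).1 h1).1
  rw [re_one] at h2
  have h3 := Int.le_of_dvd one_pos h2
  omega

private theorem Th_pt [Ine k t] {f : ℕ} (hf : Odd f) (h15 : 15 ∣ f) :
    Pt k t f 1 (1 / (f : ℂ)) (1 / ((2 : ℕ) : ℂ)) := by
  have hf0 : (f : ℂ) ≠ 0 := by exact_mod_cast hf.pos.ne'
  have h1 : (1 : ℂ) ∈ Lam (⊤ : Ideal (OO k t)) := lam_top.2 ⟨1, toC_one.symm⟩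
  have hf15 := Nat.le_of_dvd hf.pos h15
  refine ⟨hf, h15, le_rfl, ?_, Th_not (by omega), ?_, ?_⟩
  · rw [mul_one_div_cancel hf0]
    exact h1
  · have e : (2 : ℂ) ^ 1 * (1 / ((2 : ℕ) : ℂ)) = 1 := by
      push_cast
      norm_num
    rw [e]
    exact h1
  · rw [Nat.sub_self, pow_zero, one_mul]
    exact Th_not le_rfl

theorem tTh : S_Th := by
  classical
  intro hLev hGal hUnr hIn hRep hPi hSur hZt hTc k t _ P hP f hf h15
  have hpr : P.IsPrime := hP.1.1
  have h2 : MP P 2 := hP.2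
  obtain ⟨⟨hc3, hc0, hcv⟩, hZ, hZc, hZm, _⟩ := hZt k t P hP
  have hpt := Th_pt (k := k) (t := t) hf h15
  obtain ⟨hPi1, _⟩ := hPi k t P hP f 1 _ _ hpt
  obtain ⟨hyE, hy0, hyv, _⟩ := hPi1 1 (cop_one 2)
  set y : Om := pH (1 / (f : ℂ)) (1 / ((2 : ℕ) : ℂ)) (1 : OO k t) with hy
  have hyv3 : vP P y = 1 / 3 := by
    rw [hyv]
    norm_num
  have hM : 0 < f * 2 ^ 1 := Nat.mul_pos hf.pos (by norm_num)
  have hM15 : 15 ∣ f * 2 ^ 1 := h15.mul_right _
  have hux : UP P (y / c3) := by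
    rw [← vP_zero_iff h2 (div_ne_zero hy0 hc0), vP_div h2 hy0 hc0, hyv3, hcv, sub_self]
  -- third roots of unity
  have hz1 : ∀ v : OO k t, Cop v 2 → zt P v ^ 3 = 1 := fun v hv => (hZ v hv).1
  have hz0 : ∀ v : OO k t, Cop v 2 → zt P v ≠ 0 := by
    intro v hv h0
    have := hz1 v hv
    rw [h0] at this
    norm_num at this
  have h3f : 3 ∣ f := Dvd.dvd.trans (by norm_num) h15
  have hzE : ∀ v : OO k t, Cop v 2 → ∀ M : ℕ, 0 < M → 15 ∣ M → zt P v ∈ EE k t M := by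
    intro v hv M hM0 hM1
    refine (hLev k t M hM0 hM1).2.2.2.1 _ ?_
    obtain ⟨c, hc⟩ : 3 ∣ M := Dvd.dvd.trans (by norm_num) hM1
    rw [hc, pow_mul, hz1 v hv, one_pow]
  have hzfix : ∀ v : OO k t, Cop v 2 → ∀ τ ∈ P.inertia Gal(Om/ℚ), τ (zt P v) = zt P v := by
    intro v hv τ hτ
    exact (((hUnr k t P hP).2 f hf h15 _ (hzE v hv f hf.pos h15)).1 τ hτ)
  -- representatives
  obtain ⟨hR1, _, hR3⟩ := hRep k t 1 le_rfl
  obtain ⟨T, hT⟩ := hR1 (Un f)
  have hcard : T.card = 3 := by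
    rw [(hR3 f hf).1 T hT]
    norm_num
  have hsex : ∀ h : OO k t, Un f h → ∃ τ : Gal(Om/ℚ), Cls P f 1 h τ := fun h hh =>
    hSur k t P hP f 1 hf h15 le_rfl h hh.1 hh.2
  choose! s hs using hsex
  obtain ⟨_, _, hIn3, hIn4, hIn5, hIn6⟩ := hIn k t P hP f 1 hf h15
  -- the values at `y`
  have hmod : ∀ h ∈ T, MP P (zt P h ^ 2 * s h y / y - 1) := by
    intro h hh
    have hC := hs h (hT.mem h hh)
    have hcop := hC.cop
    have htc := hTc k t P hP f 1 h (s h) hf h15 le_rfl hC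
    have h1 := DI.VP.inertia hC.ine hux.1
    have h4 := DI.MP.mul_right h1 (DI.UP.inv hux).1
    have e : (s h (y / c3) - y / c3) * (y / c3)⁻¹ = zt P h ^ 2 * s h y / y - 1 := by
      have hz := hz1 h hcop
      have hzz := hz0 h hcop
      rw [map_div₀, htc]
      field_simp
      linear_combination (-(s h y)) * hz
    rwa [e] at h4
  set θ : Om := ∑ h ∈ T, zt P h ^ 2 * s h y with hθ
  have hθy : MP P (θ / y - 3) := by
    have e : θ / y - 3 = ∑ h ∈ T, (zt P h ^ 2 * s h y / y - 1) := by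
      rw [hθ, Finset.sum_sub_distrib, Finset.sum_const, hcard, Finset.sum_div]
      simp
    rw [e]
    exact DI.MP.sum _ _ hmod
  have hU3 : UP P (3 : Om) := by
    refine DI.UP.congr DI.UP.one ?_
    have e : (3 : Om) - 1 = 2 := by norm_num
    rw [e]
    exact h2
  have hUy : UP P (θ / y) := DI.UP.congr hU3 hθy
  have hUθ : UP P (θ / c3) := by
    have h1 := DI.UP.mul hUy hux
    have e : θ / y * (y / c3) = θ / c3 := by
      field_simp
    rwa [e] at h1
  have hθ0 : θ ≠ 0 := by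
    intro h0
    rw [h0, zero_div] at hUθ
    exact DI.UP.ne_zero hUθ rfl
  have hsE : ∀ h, s h y ∈ EE k t (f * 2 ^ 1) := fun h => (hGal k t _ hM hM15).2.1 (s h) y hyE
  refine ⟨θ, ?_, hθ0, hUθ, ?_⟩
  · have h1 : θ ∈ EE k t (f * 2 ^ 1) := by
      refine sum_mem fun h hh => ?_
      exact mul_mem (pow_mem (hzE h (hT.mem h hh).2 _ hM hM15) 2) (hsE h)
    rwa [pow_one] at h1
  · intro N h0 τ hN hC
    have hC1 : Cls P f 1 h0 τ := by
      obtain ⟨_, _, _, _, _, h6⟩ := hIn k t P hP f N hf h15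
      exact h6 τ h0 f 1 hC h15 (dvd_refl f) hN
    have hτc := hTc k t P hP f N h0 τ hf h15 hN hC
    have hcop0 := hC.cop
    have key : ∀ h ∈ T, ∃ h' ∈ T, ((2 ^ 1 : ℕ) : OO k t) ∣ h0 * h - h' := by
      intro h hh
      refine hT.ex (h0 * h) ⟨?_, cop_mul hcop0 (hT.mem h hh).2⟩
      have e : h0 * h - 1 = (h0 - 1) * h + (h - 1) := by ring
      rw [e]
      exact dvd_add (hC.one.mul_right _) (hT.mem h hh).1
    choose! φ hφT hφ using key
    have hterm : ∀ h ∈ T, τ (zt P h ^ 2 * s h y) = zt P h0 * (zt P (φ h) ^ 2 * s (φ h) y) := by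
      intro h hh
      have hh2 := (hT.mem h hh).2
      have hCh := hs h (hT.mem h hh)
      have hφ' := hT.mem _ (hφT h hh)
      have hCφ := hs (φ h) hφ'
      have h5 : Cls P f 1 (φ h) (τ * s h) := by
        refine hIn3 _ _ _ (hIn4 τ (s h) h0 h hC1 hCh) hφ'.1 ?_ hφ'.2
        rw [← neg_sub]
        exact (dvd_neg).2 (hφ h hh)
      have h6 : (τ * s h) y = s (φ h) y := hIn5 _ _ (φ h) h5 hCφ y hyE
      have h7 : zt P (φ h) = zt P h0 * zt P h := by
        rw [← hZm h0 h hcop0 hh2]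
        refine (hZc _ _ (cop_mul hcop0 hh2) hφ'.2 ?_).symm
        have := hφ h hh
        rw [pow_one] at this
        exact_mod_cast this
      have h8 : τ (s h y) = s (φ h) y := h6
      rw [map_mul, map_pow, hzfix h hh2 τ hC.ine, h8, h7]
      have h9 := hz1 h0 hcop0
      linear_combination (-(zt P h ^ 2 * s (φ h) y)) * h9
    have hinj : ∀ h ∈ T, ∀ h' ∈ T, φ h = φ h' → h = h' := by
      intro h hh h' hh' he
      refine hT.uni h hh h' hh' ?_
      have h5 : ((2 ^ 1 : ℕ) : OO k t) ∣ h0 * (h - h') := by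
        have e : h0 * (h - h') = (h0 * h - φ h) - (h0 * h' - φ h') := by
          rw [he]
          ring
        rw [e]
        exact dvd_sub (hφ h hh) (hφ h' hh')
      obtain ⟨u, _, hu⟩ := cop_inv hcop0
      have hu' : ((2 ^ 1 : ℕ) : OO k t) ∣ h0 * u - 1 := by simpa using hu
      have e : h - h' = h0 * (h - h') * u - (h - h') * (h0 * u - 1) := by ring
      rw [e]
      exact dvd_sub (h5.mul_right _) (hu'.mul_left _)
    have himg : T.image φ = T := by
      refine Finset.eq_of_subset_of_card_le ?_ ?_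
      · intro x hx
        obtain ⟨h, hh, rfl⟩ := Finset.mem_image.1 hx
        exact hφT h hh
      · rw [Finset.card_image_of_injOn hinj]
    have hτθ : τ θ = zt P h0 * θ := by
      rw [hθ, map_sum, Finset.sum_congr rfl hterm, ← Finset.mul_sum]
      congr 1
      have h5 : ∑ x ∈ T.image φ, zt P x ^ 2 * s x y = ∑ h ∈ T, zt P (φ h) ^ 2 * s (φ h) y :=
        Finset.sum_image hinj
      rw [← h5, himg]
    refine ⟨hτθ, ?_⟩
    rw [map_div₀, hτc, hτθ, mul_div_mul_left _ _ (hz0 h0 hcop0)]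

end Pool.Agent.DN.GL
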