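import Pool.Agent.Lib.DN.GL.SpecT

/-!
# DN, part GL, module TrG: the trace for the values of `g` (helper86)
-/

set_option autoImplicit false

open scoped Pointwise

noncomputable section

namespace Pool.Agent.DN.GL

open Pool.Agent.MuZ Pool.Agent.FW Pool.Agent.DN
open Pool.Agent.DI (io ofC io_inj exists_io io_ofC ofC_io VP MP UP TP ex)

variable {k t : ℕ}

theorem tTrG : S_TrG := by
  classical
  intro hLev hAct hSur hTrK k t _ P hP f N hf h15 hN T hT m b hm hb hm2 hm15 hNm z hz hzn hV j hj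
  have hM : 0 < f * 2 ^ N := Nat.mul_pos hf.pos (by positivity)
  obtain ⟨-, -, -, -, hL5⟩ := hLev k t (f * 2 ^ N) hM (h15.mul_right _)
  have hx := (hL5 m b hm hb hm2 hm15 (hNm.mul_right _) z hz).1 hzn
  have hs : ∀ h ∈ T, ∃ τ : Gal(Om/ℚ), Cls P f N h τ := fun h hh =>
    hSur k t P hP f N hf h15 hN h (hT.mem h hh).1 (hT.mem h hh).2
  choose! s hs using hs
  have h1 := (hTrK k t P hP f N hf h15 hN _ hx hV T s hT hs).1 j hj
  have e : ∑ h ∈ T, zt P h ^ j * s h (gO m b z) = ∑ h ∈ T, zt P h ^ j * gO m b (toC h * z) :=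
    Finset.sum_congr rfl fun h hh => by
      rw [((hAct k t P hP f N h (s h) hf h15 (hs h hh) b hb).2.2.2.2.2.2 m hm hm2 hm15 hNm z hz).1 hzn]
  rwa [e] at h1

end Pool.Agent.DN.GL
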