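import Pool.Agent.Lib.DN.GL.Spec

/-!
# Theorem DN, part GL, module Tra: the trace over `H'` (Euler)
-/

set_option autoImplicit false

open scoped Pointwise

noncomputable section

namespace Pool.Agent.DN.GL

open Pool.Agent.MuZ Pool.Agent.FW Pool.Agent.DN
open Pool.Agent.DI (io ofC io_inj exists_io io_ofC ofC_io VP MP UP TP ex)

variable {k t : ℕ}

private theorem hq_mul {f N : ℕ} {h h' : OO k t} (a : Hq f N h) (b : Hq f N h') : Hq f N (h * h') := by
  obtain ⟨a1, a2, a3⟩ := a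
  obtain ⟨b1, b2, b3⟩ := b
  have e : h * h' - 1 = h * (h' - 1) + (h - 1) := by ring
  refine ⟨?_, ?_, ?_⟩
  · rw [e]
    exact dvd_add (b1.mul_left _) a1
  · rw [e]
    exact dvd_add (b2.mul_left _) a2
  · rw [Nm_mul]
    have e' : Nm h * Nm h' - 1 = Nm h * (Nm h' - 1) + (Nm h - 1) := by ring
    rw [e']
    exact dvd_add (b3.mul_left _) a3

private theorem hq_one (f N : ℕ) : Hq f N (1 : OO k t) := by
  refine ⟨?_, ?_, ?_⟩
  · rw [sub_self]; exact dvd_zero _
  · rw [sub_self]; exact dvd_zero _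
  · rw [Nm_one, sub_self]; exact dvd_zero _

private theorem hq_cancel {f N : ℕ} {h a b : OO k t} (hh : Hq f N h)
    (hd : ((2 ^ N : ℕ) : OO k t) ∣ h * a - h * b) : ((2 ^ N : ℕ) : OO k t) ∣ a - b := by
  obtain ⟨c, hc⟩ := hh.2.2
  have e1 : cjO h * (h * a - h * b) = (Nm h : OO k t) * (a - b) := by
    rw [← mul_cjO]
    ring
  have e2 : ((Nm h : ℤ) : OO k t) = 1 + ((2 ^ N : ℕ) : OO k t) * (c : OO k t) := by
    have h3 : Nm h = 1 + 2 ^ N * c := by linarith
    rw [h3]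
    push_cast
    ring
  have e3 : a - b = cjO h * (h * a - h * b) - ((2 ^ N : ℕ) : OO k t) * ((c : OO k t) * (a - b)) := by
    rw [e1, e2]
    ring
  rw [e3]
  exact dvd_sub (hd.mul_left _) (dvd_mul_right _ _)

/-- The systems for `Hq f' N` are systems for `Hq f N`. -/
private theorem hq_change {f f' N : ℕ} {T : Finset (OO k t)} (hN : 2 ≤ N) (ho : Odd f') (hd : f ∣ f')
    (hT : IsR N (Hq f' N) T) : IsR N (Hq f N) T := by
  have hff : (f : OO k t) ∣ (f' : OO k t) := by exact_mod_cast (Nat.cast_dvd_cast hd : (f : OO k t) ∣ f')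
  refine ⟨fun h hh => ?_, fun v hv => ?_, hT.uni⟩
  · obtain ⟨a1, a2, a3⟩ := hT.mem h hh
    exact ⟨hff.trans a1, a2, a3⟩
  · obtain ⟨a1, a2, a3⟩ := hv
    have hcop : IsCoprime ((2 ^ N : ℕ) : ℤ) (f' : ℤ) :=
      Nat.isCoprime_iff_coprime.2 (Nat.Coprime.pow_left _ (Nat.coprime_two_left.2 ho))
    obtain ⟨a, b, hab⟩ := hcop
    have hab' : (a : OO k t) * ((2 ^ N : ℕ) : OO k t) + (b : OO k t) * (f' : OO k t) = 1 := by
      have := congrArg (fun z : ℤ => (z : OO k t)) hab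
      push_cast at this ⊢
      exact this
    set v' : OO k t := v + ((2 ^ N : ℕ) : OO k t) * ((a : OO k t) * (1 - v)) with hv'
    have hvv : ((2 ^ N : ℕ) : OO k t) ∣ v' - v := ⟨(a : OO k t) * (1 - v), by rw [hv']; ring⟩
    have h4 : (4 : OO k t) ∣ ((2 ^ N : ℕ) : OO k t) := by
      obtain ⟨m, rfl⟩ := Nat.exists_eq_add_of_le hN
      exact ⟨2 ^ m, by push_cast; ring⟩
    have hq : Hq f' N v' := by
      refine ⟨⟨(b : OO k t) * (v - 1), ?_⟩, ?_, ?_⟩
      · have e : v' - 1 = (v - 1) * (1 - (a : OO k t) * ((2 ^ N : ℕ) : OO k t)) := by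
          rw [hv']
          ring
        rw [e, ← hab']
        ring
      · have e : v' - 1 = (v' - v) + (v - 1) := by ring
        rw [e]
        exact dvd_add (h4.trans hvv) a2
      · have h5 := Nm_congr hvv
        push_cast at h5
        have e : Nm v' - 1 = (Nm v' - Nm v) + (Nm v - 1) := by ring
        rw [e]
        exact dvd_add h5 a3
    obtain ⟨h, hh, hd'⟩ := hT.ex v' hq
    refine ⟨h, hh, ?_⟩
    have e : v - h = (v' - h) - (v' - v) := by ring
    rw [e]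
    exact dvd_sub hd' hvv

theorem tTra : S_Tra := by
  classical
  intro lev oa inn act rep pi pol mono sum zn k t _ P hP f N z0 d hPt hN f' ho hff x hx hxV T s hT hs
  have hPp : P.IsPrime := hP.1.1
  have h2 : MP P 2 := hP.2
  have h15 : 15 ∣ f' := hPt.f15.trans hff
  have hf0 : 0 < f := hPt.odd.pos
  have hf'0 : 0 < f' := ho.pos
  have hM : 0 < f' * 2 ^ N := by positivity
  have hT' : IsR N (Hq f N) T := hq_change (by omega) ho hff hT
  obtain ⟨p1, -, -, -, -, p6, -, p8⟩ := pi k t P hP f N z0 d hPt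
  have hsum := (sum k t P hP f N z0 d hPt hN).1 T hT'
  have hcop : ∀ h ∈ T, Cop h 2 := fun h hh => (hs h hh).cop
  set π : OO k t → Om := pH z0 d with hπ
  obtain ⟨h1, hh1, hd1⟩ := hT.ex 1 (hq_one f' N)
  -- the representatives of the products
  have hρ : ∀ h ∈ T, ∀ g ∈ T, ∃ r ∈ T, ((2 ^ N : ℕ) : OO k t) ∣ h * g - r := fun h hh g hg =>
    hT.ex _ (hq_mul (hT.mem h hh) (hT.mem g hg))
  choose! ρ hρT hρd using hρ
  -- the images of the conjugates
  have hsπ : ∀ h ∈ T, ∀ g ∈ T, s h (π g) = π (ρ h g) := by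
    intro h hh g hg
    rw [hπ, p8 f' h g (s h) ho hff (hs h hh) (hcop g hg)]
    exact p6 _ _ (cop_mul (hcop h hh) (hcop g hg)) (hcop _ (hρT h hh g hg)) (hρd h hh g hg)
  have hρ1 : ∀ h ∈ T, ρ h h1 = h := by
    intro h hh
    refine hT.uni _ (hρT h hh h1 hh1) _ hh ?_
    have e : ρ h h1 - h = -(h * h1 - ρ h h1) - h * (1 - h1) := by ring
    rw [e]
    exact dvd_sub ((hρd h hh h1 hh1).neg_right) (hd1.mul_left _)
  have hπ1 : π 1 = π h1 := p6 _ _ (cop_one 2) (hcop _ hh1) hd1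
  -- the product
  set δ : OO k t → Om := fun h => ∏ g ∈ T.erase h, (π h - π g) with hδ
  have hδ0 : ∀ h ∈ T, δ h ≠ 0 := fun h hh => (hsum h hh).1
  have hsδ : ∀ h ∈ T, s h (δ h1) = δ h := by
    intro h hh
    have hinj : Set.InjOn (fun g => ρ h g) (T.erase h1 : Set (OO k t)) := by
      intro a ha b hb hab
      have ha' : a ∈ T := Finset.mem_of_mem_erase ha
      have hb' : b ∈ T := Finset.mem_of_mem_erase hb
      refine hT.uni a ha' b hb' (hq_cancel (hT.mem h hh) ?_)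
      have hab' : ρ h a = ρ h b := hab
      have e : h * a - h * b = (h * a - ρ h a) - (h * b - ρ h b) := by rw [hab']; ring
      rw [e]
      exact dvd_sub (hρd h hh a ha') (hρd h hh b hb')
    have himg : (T.erase h1).image (fun g => ρ h g) = T.erase h := by
      refine Finset.eq_of_subset_of_card_le ?_ ?_
      · intro r hr
        obtain ⟨g, hg, rfl⟩ := Finset.mem_image.1 hr
        have hg' : g ∈ T := Finset.mem_of_mem_erase hg
        refine Finset.mem_erase.2 ⟨fun h3 => ?_, hρT h hh g hg'⟩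
        refine (Finset.mem_erase.1 hg).1 (hT.uni g hg' h1 hh1 (hq_cancel (hT.mem h hh) ?_))
        have h3' : ρ h g = ρ h h1 := by rw [hρ1 h hh]; exact h3
        have e : h * g - h * h1 = (h * g - ρ h g) - (h * h1 - ρ h h1) := by rw [h3']; ring
        rw [e]
        exact dvd_sub (hρd h hh g hg') (hρd h hh h1 hh1)
      · rw [Finset.card_image_of_injOn hinj, Finset.card_erase_of_mem hh1, Finset.card_erase_of_mem hh]
    rw [hδ]
    simp only
    rw [map_prod, ← himg, Finset.prod_image hinj]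
    refine Finset.prod_congr rfl fun g hg => ?_
    rw [map_sub, hsπ h hh h1 hh1, hsπ h hh g (Finset.mem_of_mem_erase hg), hρ1 h hh]
  -- the root of unity
  obtain ⟨ζ, hζ⟩ := HasEnoughRootsOfUnity.exists_primitiveRoot Om (2 ^ N)
  obtain ⟨hl0, hlv⟩ := zn P hPp h2 N ζ (by omega) hζ
  set c : ℚ := 2 ^ (N - 1) with hc
  have hc0 : 0 < c := by positivity
  have hcN : (2 : ℚ) ^ N = 2 * c := by
    rw [hc, ← pow_succ']
    congr 1
    omega
  have hc4 : 4 ≤ c := by
    rw [hc]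
    calc (4 : ℚ) = 2 ^ 2 := by norm_num
      _ ≤ 2 ^ (N - 1) := pow_le_pow_right₀ (by norm_num) (by omega)
  have hG : G15 (⊤ : Ideal (OO k t)) := ⟨top_ne_bot, top_sup_eq _⟩
  have hsl : ∀ h ∈ T, s h (1 - ζ) = 1 - ζ := by
    intro h hh
    have h3 := (act k t P hP f' N h (s h) ho h15 (hs h hh) ⊤ hG).2.2.2.2.2.1 ζ hζ.pow_eq_one
    obtain ⟨-, -, b, hb⟩ := hT.mem h hh
    have hnn : 0 ≤ Nm h := Nm_nonneg h
    have h4 : 1 ≤ Nm h := by
      by_contra hlt
      have h5 : Nm h = 0 := by omega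
      have h6 : (2 : ℤ) ^ N ∣ 0 - 1 := h5 ▸ (hT.mem h hh).2.2
      have h7 : (2 : ℤ) ∣ 0 - 1 := (dvd_pow_self 2 (by omega)).trans h6
      omega
    have h8 : 0 ≤ b := by
      by_contra hlt
      have h9 : (2 : ℤ) ^ N * b < 0 := mul_neg_of_pos_of_neg (by positivity) (by omega)
      omega
    obtain ⟨b', rfl⟩ := Int.eq_ofNat_of_zero_le h8
    have h9 : (Nm h).toNat = 1 + 2 ^ N * b' := by
      have h10 : Nm h = ((1 + 2 ^ N * b' : ℕ) : ℤ) := by push_cast; linarith
      rw [h10]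
      exact Int.toNat_natCast _
    rw [map_sub, map_one, h3, h9, pow_add, pow_mul, hζ.pow_eq_one, one_pow, mul_one, pow_one]
  -- the exponent
  set σ : ℚ := vP P (δ h1) with hσ
  have hσ1 : 2 / 3 - 3 / 2 ^ N ≤ σ := (hsum h1 hh1).2
  have hσ0 : 0 ≤ σ := by
    refine le_trans ?_ hσ1
    rw [hcN, sub_nonneg, div_le_div_iff₀ (by positivity) (by norm_num)]
    linarith
  set m : ℕ := ⌊σ * c⌋₊ with hm
  have hm1 : (m : ℚ) ≤ σ * c := Nat.floor_le (by positivity)
  have hm2 : σ * c < m + 1 := Nat.lt_floor_add_one _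
  have hlm0 : (1 - ζ) ^ m ≠ 0 := pow_ne_zero _ hl0
  have hlm : vP P ((1 - ζ) ^ m) = m / c := by
    rw [vP_pow h2 hl0, hlv, mul_one_div]
  have hgoal : 2 / 3 - 5 / 2 ^ N ≤ vP P ((1 - ζ) ^ m) := by
    rw [hlm, hcN]
    rw [hcN] at hσ1
    have h3 : σ - 1 / c < m / c := by
      rw [sub_lt_iff_lt_add, ← add_div, lt_div_iff₀ hc0]
      exact hm2
    have h4 : 5 / (2 * c) = 3 / (2 * c) + 1 / c := by
      field_simp
      norm_num
    linarith
  by_cases hx0 : x = 0
  · rw [hx0]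
    simp only [map_zero, Finset.sum_const_zero]
    exact GE.zero _
  -- the number y
  set y : Om := x * δ h1 / (1 - ζ) ^ m with hy
  have hyV : VP P y := by
    rw [← vP_nonneg h2 (div_ne_zero (mul_ne_zero hx0 (hδ0 h1 hh1)) hlm0),
      vP_div h2 (mul_ne_zero hx0 (hδ0 h1 hh1)) hlm0, vP_mul h2 hx0 (hδ0 h1 hh1), hlm]
    have h3 : (m : ℚ) / c ≤ σ := by
      rw [div_le_iff₀ hc0]
      exact hm1
    have h4 := (vP_nonneg h2 hx0).2 hxV
    linarith
  have hlev := lev k t (f' * 2 ^ N) hM (h15.mul_right _)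
  have hπE : ∀ h ∈ T, π h ∈ EE k t (f' * 2 ^ N) := by
    intro h hh
    refine (lev k t (f * 2 ^ N) (by positivity) (hPt.f15.mul_right _)).1 _ hM
      (mul_dvd_mul_right hff _) (p1 h (hcop h hh)).1
  have hyE : y ∈ EE k t (f' * 2 ^ N) := by
    rw [hy]
    refine div_mem (mul_mem hx (prod_mem fun g hg => sub_mem (hπE h1 hh1)
      (hπE g (Finset.mem_of_mem_erase hg)))) (pow_mem (sub_mem (one_mem _) (hlev.2.2.2.1 ζ ?_)) _)
    rw [mul_comm, pow_mul, hζ.pow_eq_one, one_pow]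
  obtain ⟨F, hF, hFy⟩ := mono k t P hP f N z0 d hPt f' ho hff y hyE hyV
  have hπV : ∀ h ∈ T, VP P (π h) := by
    intro h hh
    obtain ⟨-, q1, q2, -⟩ := p1 h (hcop h hh)
    rw [← vP_nonneg h2 q1, q2]
    positivity
  have hsy : ∀ h ∈ T, s h y = F.eval (π h) := by
    intro h hh
    obtain ⟨-, -, -, -, -, -, -, -, o9⟩ := oa k t P hP
    have h3 := (o9 F hF (π h1) (hπV h1 hh1)).2 (s h) (hs h hh).ine
    rw [← hFy]
    change s h (F.eval (π 1)) = _
    rw [hπ1, h3, hsπ h hh h1 hh1, hρ1 h hh]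
  have hsx : ∀ h ∈ T, s h x = (1 - ζ) ^ m * (F.eval (π h) / δ h) := by
    intro h hh
    have e : x = y * (1 - ζ) ^ m / δ h1 := by
      rw [hy, div_mul_cancel₀ _ hlm0, mul_div_cancel_right₀ _ (hδ0 h1 hh1)]
    rw [← hsy h hh, ← hsδ h hh]
    conv_lhs => rw [e]
    rw [map_div₀, map_mul, map_pow, hsl h hh]
    ring
  have hinj : Set.InjOn π (T : Set (OO k t)) := by
    intro a ha b hb hab
    by_contra hne
    have h3 := hδ0 a ha
    rw [hδ] at h3
    exact (Finset.prod_ne_zero_iff.1 h3) b (Finset.mem_erase.2 ⟨Ne.symm hne, hb⟩) (by rw [hab, sub_self])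
  have hpol := (pol P hPp (T.image π) F (by
    intro r hr
    obtain ⟨h, hh, rfl⟩ := Finset.mem_image.1 hr
    exact hπV h hh) fun i => (hF i).1).2
  have hEq : ∑ a ∈ T.image π, F.eval a / ∏ r ∈ (T.image π).erase a, (a - r) =
      ∑ h ∈ T, F.eval (π h) / δ h := by
    rw [Finset.sum_image hinj]
    refine Finset.sum_congr rfl fun h hh => ?_
    congr 1
    have e : (T.image π).erase (π h) = (T.erase h).image π := by
      ext r
      simp only [Finset.mem_erase, Finset.mem_image]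
      constructor
      · rintro ⟨h3, g, hg, rfl⟩
        exact ⟨g, ⟨fun h4 => h3 (by rw [h4]), hg⟩, rfl⟩
      · rintro ⟨g, ⟨h3, hg⟩, rfl⟩
        exact ⟨fun h4 => h3 (hinj hg hh h4), g, hg, rfl⟩
    rw [e, Finset.prod_image (hinj.mono (Finset.coe_subset.2 (Finset.erase_subset _ _)))]
  rw [hEq] at hpol
  rw [Finset.sum_congr rfl hsx, ← Finset.mul_sum]
  exact (GE.mul_right h2 (Or.inr le_rfl) hpol).mono hgoal

end Pool.Agent.DN.GL
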