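import Pool.Agent.Lib.DN.GL.Spec

/-!
# Theorem DN, part GL: inertia is trivial on the fields of odd level
-/

set_option autoImplicit false

open scoped Pointwise

noncomputable section

namespace Pool.Agent.DN.GL

open Pool.Agent.MuZ Pool.Agent.FW Pool.Agent.DN
open Pool.Agent.DI (io ofC io_inj exists_io io_ofC ofC_io VP MP UP TP ex)

private theorem Unr_GK {k t : ℕ} [Ine k t] {P : Ideal ZZ} (hP : Ab2 P) {τ : Gal(Om/ℚ)}
    (hτ : τ ∈ P.inertia Gal(Om/ℚ)) : τ ∈ GK k t := by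
  have hPp : P.IsPrime := hP.1.1
  have ht : t = 1 := Ine.one k
  have hsq : (wO k t) ^ 2 = t * wO k t - k := wO_sq
  have h1 : (τ (wO k t)) ^ 2 = t * τ (wO k t) - k := by
    rw [← map_pow, hsq, map_sub, map_mul, map_natCast, map_natCast]
  have h3 : (τ (wO k t) - wO k t) * (τ (wO k t) + wO k t - t) = 0 := by
    linear_combination h1 - hsq
  rw [mem_GK_iff]
  rcases mul_eq_zero.1 h3 with h | h
  · exact sub_eq_zero.1 h
  · exfalso
    have hv : VP P (wO k t) := by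
      have h5 : VP P (toO (wI k t)) := toO_VP (wI k t)
      rwa [toO_wI] at h5
    have h4 : MP P (τ (wO k t) - wO k t) := DI.VP.inertia hτ hv
    have h6 : MP P (wO k t * 2) := DI.MP.mul_left hv hP.2
    have h7 := DI.MP.add h4 h6
    apply DI.MP.one_not (P := P)
    have h8 : τ (wO k t) - wO k t + wO k t * 2 = 1 := by
      have h9 : (t : Om) = 1 := by rw [ht]; simp
      rw [h9] at h
      linear_combination h
    rwa [h8] at h7

/-- Inertia acts trivially on the fields of odd level; their value group is `ℤ`. -/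
theorem tUnrA (hE4 : ∀ (n t : ℕ) [Ine n t] (P : Ideal ZZ), Ab2 P → ∀ τ ∈ GK n t,
    τ ∈ P.inertia Gal(Om/ℚ) → ∀ N : ℕ, Odd N → 15 ∣ N → Psi τ N (⊤ : Ideal (OO n t)))
    (hGal : C_Gal) (hRam : C_Ram) : C_Unr := by
  intro k t _ P hP
  have hPp : P.IsPrime := hP.1.1
  have hK : ∀ τ ∈ P.inertia Gal(Om/ℚ), τ ∈ GK k t := fun τ hτ => Unr_GK hP hτ
  refine ⟨hK, fun f hf h15 => ?_⟩
  have hf0 : 0 < f := hf.pos
  have htop : Ray f (⊤ : Ideal (OO k t)) ⊤ := (aO7 k t f hf0).1 ⊤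
  have hfix : ∀ x ∈ EE k t f, ∀ τ ∈ P.inertia Gal(Om/ℚ), τ x = x := by
    intro x hx τ hτ
    exact hx τ (hK τ hτ) ⊤ (hE4 k t P hP τ (hK τ hτ) hτ f hf h15) htop
  obtain ⟨hfd, hno, -, -⟩ := hGal k t f hf0 h15
  obtain ⟨S, hS0, hSi, hSu, -, hSv⟩ := hRam (EE k t f) hfd hno P hPp hP.2
  have hS1 : S.card = 1 := by
    apply le_antisymm _ hS0
    rw [Finset.card_le_one]
    intro a ha b hb
    exact hSu a ha b hb fun x hx => by rw [hfix x hx a (hSi a ha), hfix x hx b (hSi b hb)]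
  intro x hx
  refine ⟨hfix x hx, fun hx0 => ?_⟩
  obtain ⟨j, hj⟩ := hSv x hx hx0
  refine ⟨j, ?_⟩
  rw [hj, hS1]
  simp

theorem tUnr : S_Unr := fun hE4 =>
  tUnrA (fun k t _ P hP τ h1 h2 N hN h15 => (hE4 k t P hP.1 τ h1 h2).1 hP.2 N hN h15)

end Pool.Agent.DN.GL
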