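import Pool.Agent.Lib.DN.GL.Spec

/-!
# Theorem DN, part GL, module Zn: the valuation of `1 - ζ`
-/

set_option autoImplicit false

open scoped Pointwise

noncomputable section

namespace Pool.Agent.DN.GL

open Pool.Agent.MuZ Pool.Agent.FW Pool.Agent.DN
open Pool.Agent.DI (io ofC io_inj exists_io io_ofC ofC_io VP MP UP TP ex)

/-- `1 - y` is divisible by `1 - x` for a power `y` of `x`. -/
private theorem le_of_pow {P : Ideal ZZ} [P.IsPrime] (h2 : MP P 2) {x y : Om} {i : ℕ}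
    (hx : VP P x) (hx1 : 1 - x ≠ 0) (hy1 : 1 - y ≠ 0) (h : y = x ^ i) :
    vP P (1 - x) ≤ vP P (1 - y) := by
  rw [vP_le h2 hx1 hy1]
  have e : (1 - y) / (1 - x) = ∑ j ∈ Finset.range i, x ^ j := by
    rw [div_eq_iff hx1, h]
    exact (geom_sum_mul_neg x i).symm
  rw [e]
  exact DI.VP.sum _ _ fun j _ => DI.VP.pow hx j

theorem tZn : S_Zn := by
  intro P hP h2 N ζ hN
  induction N, hN using Nat.le_induction generalizing ζ with
  | base =>
    intro hζ
    have e : ζ = -1 := by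
      rw [pow_one] at hζ
      exact hζ.eq_neg_one_of_two_right
    have e2 : 1 - ζ = 2 := by rw [e]; norm_num
    rw [e2]
    refine ⟨two_ne_zero, ?_⟩
    rw [vP_two h2]
    norm_num
  | succ N hN ih =>
    intro hζ
    have hp : 0 < 2 ^ (N + 1) := by positivity
    have hN1 : 1 < 2 ^ (N + 1) := Nat.one_lt_two_pow (by omega)
    have hζ0 : ζ ≠ 0 := hζ.ne_zero hp.ne'
    have h1 : 1 - ζ ≠ 0 := by
      intro h
      have e : ζ = 1 := by linear_combination -h
      exact hζ.ne_one hN1 e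
    have hsq : IsPrimitiveRoot (ζ ^ 2) (2 ^ N) := hζ.pow hp (by rw [pow_succ, mul_comm])
    obtain ⟨h3, h4⟩ := ih _ hsq
    have hm : ζ ^ 2 ^ N = -1 :=
      (hζ.pow hp (a := 2 ^ N) (b := 2) (by rw [pow_succ])).eq_neg_one_of_two_right
    have hfac : 1 - ζ ^ 2 = (1 - ζ) * (1 - -ζ) := by ring
    have h1' : 1 - -ζ ≠ 0 := by
      intro h
      rw [hfac, h, mul_zero] at h3
      exact h3 rfl
    have hev : Even (2 ^ N) := Nat.even_pow.2 ⟨even_two, by omega⟩
    have hv : VP P ζ := by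
      refine DI.VP.of_pow hp ?_
      rw [hζ.pow_eq_one]
      exact DI.VP.one
    have e1 : -ζ = ζ ^ (1 + 2 ^ N) := by
      rw [pow_add, hm, pow_one, mul_neg_one]
    have e2 : ζ = (-ζ) ^ (1 + 2 ^ N) := by
      rw [pow_add, hev.neg_pow, hm, pow_one, mul_neg_one, neg_neg]
    have h5 : vP P (1 - -ζ) = vP P (1 - ζ) :=
      le_antisymm (le_of_pow h2 hv.neg h1' h1 e2) (le_of_pow h2 hv h1 h1' e1)
    rw [hfac, vP_mul h2 h1 h1', h5] at h4
    refine ⟨h1, ?_⟩
    have h6 : vP P (1 - ζ) = 1 / 2 ^ (N - 1) / 2 := by linarith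
    rw [h6, div_div, ← pow_succ]
    congr 2
    omega

end Pool.Agent.DN.GL
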