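import Pool.Agent.Lib.DN.GL.SpecT

set_option autoImplicit false

open scoped Pointwise

noncomputable section

namespace Pool.Agent.DN.GL

open Pool.Agent.MuZ Pool.Agent.FW Pool.Agent.DN
open Pool.Agent.DI (io ofC io_inj exists_io io_ofC ofC_io VP MP UP TP ex)

variable {k t : ℕ}

private theorem Zt_up {P : Ideal ZZ} [P.IsPrime] {y : Om} (h : y ^ 3 = 1) : UP P y :=
  DI.UP.of_pow (n := 3) (by norm_num) (by rw [h]; exact DI.UP.one)

/-- Uniqueness. -/
private theorem Zt_uni {P : Ideal ZZ} [P.IsPrime] (h2 : MP P 2) {y y' : Om} (hy : y ^ 3 = 1)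
    (hy' : y' ^ 3 = 1) (h : MP P (y - y')) : y = y' := by
  by_contra hne
  have h0 : y - y' ≠ 0 := sub_ne_zero.2 hne
  have h1 : y ^ 2 + y * y' + y' ^ 2 = 0 := by
    have : (y - y') * (y ^ 2 + y * y' + y' ^ 2) = 0 := by linear_combination hy - hy'
    exact (mul_eq_zero.1 this).resolve_left h0
  have hu := Zt_up (P := P) hy
  have hu' := Zt_up (P := P) hy'
  have h3 : MP P ((y - y') * ((2 * y + y') * y)) := by
    refine DI.MP.mul_right h (DI.VP.mul (DI.VP.add (DI.VP.mul ?_ hu.1) hu'.1) hu.1)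
    exact h2.vp
  have h4 : (y - y') * ((2 * y + y') * y) = 3 := by
    linear_combination 3 * hy - y * h1
  rw [h4] at h3
  have h5 := DI.MP.sub h3 h2
  have h6 : (3 : Om) - 2 = 1 := by norm_num
  rw [h6] at h5
  exact DI.MP.one_not h5

private theorem Zt_two {P : Ideal ZZ} [P.IsPrime] [SqN k t] (h2 : MP P 2) {v : OO k t}
    (h : (2 : OO k t) ∣ v) : MP P (toO v) := by
  obtain ⟨w, rfl⟩ := h
  rw [toO_mul]
  refine DI.MP.mul_right ?_ (toO_VP w)
  have := toO_nat (n := k) (t := t) 2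
  push_cast at this
  rwa [this]

/-- Existence. -/
private theorem Zt_ex {P : Ideal ZZ} [P.IsPrime] [Ine k t] (h2 : MP P 2) {v : OO k t} (hv : Cop v 2) :
    ∃ y : Om, y ^ 3 = 1 ∧ MP P (y - toO v) := by
  obtain ⟨-, -, -, -, -, h3, -⟩ := aO4 k t
  have h4 : MP P (toO v ^ 3 - 1) := by
    have := Zt_two h2 (h3 v hv)
    rwa [toO_sub, toO_pow, toO_one] at this
  obtain ⟨s, hs⟩ := IsAlgClosed.exists_pow_nat_eq (-3 : Om) (n := 2) (by norm_num)
  set w : Om := (-1 + s) / 2 with hw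
  have hw1 : w ^ 2 + w + 1 = 0 := by
    rw [hw]
    linear_combination hs / 4
  have hw3 : w ^ 3 = 1 := by linear_combination (w - 1) * hw1
  have hw3' : (-1 - w) ^ 3 = 1 := by linear_combination -(w + 2) * hw1
  set x := toO v with hx
  have hxv : VP P x := toO_VP v
  have hwv : VP P w := (Zt_up hw3).1
  have hwv' : VP P (-1 - w) := (Zt_up hw3').1
  have e : x ^ 3 - 1 = (x - 1) * ((x - w) * (x - (-1 - w))) := by
    linear_combination (x - 1) * hw1
  rw [e] at h4
  have a1 : VP P (x - 1) := DI.VP.sub hxv DI.VP.one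
  have a2 : VP P (x - w) := DI.VP.sub hxv hwv
  have a3 : VP P (x - (-1 - w)) := DI.VP.sub hxv hwv'
  rcases DI.MP.mul_cases a1 (DI.VP.mul a2 a3) h4 with h | h
  · refine ⟨1, by norm_num, ?_⟩
    have := h.neg
    rwa [neg_sub] at this
  · rcases DI.MP.mul_cases a2 a3 h with h | h
    · refine ⟨w, hw3, ?_⟩
      have := h.neg
      rwa [neg_sub] at this
    · refine ⟨-1 - w, hw3', ?_⟩
      have := h.neg
      rwa [neg_sub] at this

private theorem Zt_spec {P : Ideal ZZ} [P.IsPrime] [Ine k t] (h2 : MP P 2) {v : OO k t} (hv : Cop v 2) :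
    zt P v ^ 3 = 1 ∧ MP P (zt P v - toO v) := by
  have h := Zt_ex h2 hv
  unfold zt
  rw [dif_pos h]
  exact h.choose_spec

private theorem Zt_eq {P : Ideal ZZ} [P.IsPrime] [Ine k t] (h2 : MP P 2) {v : OO k t} (hv : Cop v 2)
    {y : Om} (hy : y ^ 3 = 1) (hyv : MP P (y - toO v)) : y = zt P v := by
  obtain ⟨h1, h3⟩ := Zt_spec h2 hv
  refine Zt_uni h2 hy h1 ?_
  have := DI.MP.sub hyv h3
  have e : y - toO v - (zt P v - toO v) = y - zt P v := by ring
  rwa [e] at this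

theorem tZt : S_Zt := by
  intro hLev _ k t _ P hP
  have hPr : P.IsPrime := hP.1.1
  have h2 : MP P 2 := hP.2
  have hc : c3 ^ 3 = 2 := by
    have h : ∃ y : Om, y ^ 3 = 2 := IsAlgClosed.exists_pow_nat_eq (2 : Om) (n := 3) (by norm_num)
    unfold c3
    rw [dif_pos h]
    exact h.choose_spec
  have hc0 : c3 ≠ 0 := by
    intro h
    rw [h] at hc
    norm_num at hc
  refine ⟨⟨hc, hc0, ?_⟩, ?_, ?_, ?_, ?_⟩
  · have h1 := vP_pow h2 hc0 3
    rw [hc, vP_two h2] at h1
    push_cast at h1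
    linarith
  · intro v hv
    obtain ⟨h1, h3⟩ := Zt_spec h2 hv
    refine ⟨h1, h3, ⟨(Zt_up h1).1, 15, ⟨7, by norm_num⟩, dvd_rfl, ?_⟩, fun y hy hyv => Zt_eq h2 hv hy hyv⟩
    refine (hLev k t 15 (by norm_num) dvd_rfl).2.2.2.1 _ ?_
    have : zt P v ^ 15 = (zt P v ^ 3) ^ 5 := by rw [← pow_mul]
    rw [this, h1, one_pow]
  · intro v v' hv hv' hd
    obtain ⟨h1, h3⟩ := Zt_spec h2 hv
    refine Zt_eq h2 hv' h1 ?_
    have h4 := Zt_two h2 hd
    rw [toO_sub] at h4
    have := DI.MP.add h3 h4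
    have e : zt P v - toO v + (toO v - toO v') = zt P v - toO v' := by ring
    rwa [e] at this
  · intro v v' hv hv'
    obtain ⟨h1, h3⟩ := Zt_spec h2 hv
    obtain ⟨h1', h3'⟩ := Zt_spec h2 hv'
    symm
    refine Zt_eq h2 (cop_mul hv hv') ?_ ?_
    · rw [mul_pow, h1, h1', one_mul]
    · rw [toO_mul]
      have a1 := DI.MP.mul_left (Zt_up (P := P) h1).1 h3'
      have a2 := DI.MP.mul_right h3 (toO_VP (P := P) v')
      have := DI.MP.add a1 a2
      have e : zt P v * (zt P v' - toO v') + (zt P v - toO v) * toO v' =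
          zt P v * zt P v' - toO v * toO v' := by ring
      rwa [e] at this
  · symm
    refine Zt_eq h2 (cop_one 2) (one_pow 3) ?_
    rw [toO_one, sub_self]
    exact DI.MP.zero

end Pool.Agent.DN.GL
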