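import Pool.Agent.Lib.DN.B.All
import Pool.Agent.Lib.DN.GL.Lev
import Pool.Agent.Lib.DN.GL.Gal
import Pool.Agent.Lib.DN.GL.Ram
import Pool.Agent.Lib.DN.GL.Unr
import Pool.Agent.Lib.DN.GL.Oa
import Pool.Agent.Lib.DN.GL.In
import Pool.Agent.Lib.DN.GL.Act
import Pool.Agent.Lib.DN.GL.Rep
import Pool.Agent.Lib.DN.GL.Pi
import Pool.Agent.Lib.DN.GL.Sur
import Pool.Agent.Lib.DN.GL.Pol
import Pool.Agent.Lib.DN.GL.Ext
import Pool.Agent.Lib.DN.GL.Mono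
import Pool.Agent.Lib.DN.GL.Hj
import Pool.Agent.Lib.DN.GL.Sum
import Pool.Agent.Lib.DN.GL.Der0
import Pool.Agent.Lib.DN.GL.Der
import Pool.Agent.Lib.DN.GL.Fix
import Pool.Agent.Lib.DN.GL.Zn
import Pool.Agent.Lib.DN.GL.Tra
import Pool.Agent.Lib.DN.GL.Zt
import Pool.Agent.Lib.DN.GL.Tc
import Pool.Agent.Lib.DN.GL.Th
import Pool.Agent.Lib.DN.GL.SumU
import Pool.Agent.Lib.DN.GL.TrK
import Pool.Agent.Lib.DN.GL.TrG
import Pool.Agent.Lib.DN.GL.K0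
import Pool.Agent.Lib.DN.GL.MonoK
import Pool.Agent.Lib.DN.GL.T0g
import Pool.Agent.Lib.DN.GL.T1g
import Pool.Agent.Lib.DN.GL.T2g
import Pool.Agent.Lib.DN.GL.Pz
import Pool.Agent.Lib.DN.GL.TrZ

/-!
# Theorem DN, part GL: the assembly (author helper66)

`GLA`: the inputs of the local part, from the parts R, D, E. `S_E4a` (helper39) is written out. Outputs: `GLA.out : GLOut`,
`GLA.pol : C_Pol`, `GLA.gt : GTOut`, `GLA.gu : GUOut`.
-/

set_option autoImplicit false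

open scoped Pointwise

noncomputable section

namespace Pool.Agent.DN.GL

open Pool.Agent.MuZ Pool.Agent.FW Pool.Agent.DN
open Pool.Agent.DI (io ofC io_inj exists_io io_ofC ofC_io VP MP UP TP ex)

/-- The inputs of the local part. -/
structure GLA : Prop where
  R1 : S_R1
  R2 : S_R2
  D1 : S_D1
  D2 : S_D2
  D8 : S_D8
  D10 : S_D10
  E1 : S_E1
  /-- `S_E4a` of `DN/E/SpecA.lean`. -/
  E4 : ∀ (n t : ℕ) [Ine n t] (P : Ideal ZZ), Ab2 P → ∀ τ ∈ GK n t,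
    τ ∈ P.inertia Gal(Om/ℚ) → ∀ N : ℕ, Odd N → 15 ∣ N → Psi τ N (⊤ : Ideal (OO n t))
  E6 : S_E6
  E7 : S_E7
  E8 : S_E8
  E10 : S_E10

/-- Part GL, first file. -/
theorem GLA.out (i : GLA) : GLOut :=
  have Lev := tLev i.E1 i.E6 i.E10
  have Gal := tGal i.R1 i.E1 i.E7 i.E8
  have Unr := tUnrA i.E4 Gal tRam
  have Oa := tOa Lev Unr
  have In := tInA i.E1 i.E4 Gal Unr
  have Act := tAct aB1 aB7 i.R1 i.D8 i.E1 i.E6 i.E10 Unr
  have Rep := tRep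
  have Pi := tPi aB1 i.R1 i.R2 i.D1 i.D2 i.D10 Lev Act
  have Sur := tSur Gal tRam In Rep Pi
  have Ext := tExt i.E1 Gal In Sur
  have Mono := tMono Lev Gal Unr In Rep Pi Sur Ext
  have Hj := tHj Rep
  have Sm := tSum Rep Pi Hj
  have Der0 := tDer0 Oa Rep Pi Sur tPol Sm
  { Lev := Lev
    Gal := Gal
    Unr := Unr
    Oa := Oa
    In := In
    Act := Act
    Rep := Rep
    Pi := Pi
    Sur := Sur
    Ext := Ext
    Mono := Mono
    Sum := Sm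
    Der := tDer aB2 i.R1 Lev Oa Pi Mono Der0
    Fix := tFix Oa Rep Pi Sur tPol Sm
    Zn := tZn
    Tra := tTra Lev Oa In Act Rep Pi tPol Mono Sm tZn }

/-- Part GL, second file (tame part). -/
theorem GLA.gt (i : GLA) : GTOut := by
  have o := i.out
  have Zt := tZt o.Lev o.Unr
  have Tc := tTc aB1 aB2 aB7 aB9 i.R1 i.R2 i.D1 i.D2 o.Act Zt
  have Th := tTh o.Lev o.Gal o.Unr o.In o.Rep o.Pi o.Sur Zt Tc
  have SU := tSumU o.Rep o.Pi
  have TrK := tTrK o.Lev o.Oa o.In o.Rep o.Pi tPol o.Mono SU Zt Th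
  exact ⟨Zt, Tc, Th, TrK, tTrG o.Lev o.Act o.Sur TrK⟩

/-- Part GL, third file (part T of the interface, trace lemma). -/
theorem GLA.gu (i : GLA) : GUOut := by
  have o := i.out
  have t := i.gt
  have SU := tSumU o.Rep o.Pi
  have MK := tMonoK tK0 i.E1 o.In o.Rep o.Pi o.Sur
  exact ⟨tK0, MK, tT0g o.Unr t.Zt, tT1g i.E1 o.Unr o.In o.Sur t.Tc,
    tT2g o.In o.Rep o.Pi tPol SU t.Zt MK, tTrZ tK0 o.Zn tPz⟩

end Pool.Agent.DN.GL
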