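import Pool.Agent.Lib.DN.GL.SpecB

/-!
# Theorem DN, part GL: the isogeny formulas for `X_c(h z)`
-/

set_option autoImplicit false

open scoped Pointwise

noncomputable section

namespace Pool.Agent.DN.GL

open Pool.Agent.MuZ Pool.Agent.FW Pool.Agent.DN
open Pool.Agent.DI (io ofC io_inj exists_io io_ofC ofC_io VP MP UP TP ex sqr sqr_sq kap)
open Pool.Agent.DI.GL (Fx StP xx mem_of_Fx Fx.mul Fx.inv Fx.one)

variable {k t : ℕ}

private theorem g15_top [SqN k t] : G15 (⊤ : Ideal (OO k t)) where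
  ne := top_ne_bot
  cop := by unfold PrI; exact top_sup_eq _

private theorem spne [SqN k t] {h : OO k t} {c : Ideal (OO k t)} (hh : h ≠ 0) (hc : c ≠ ⊥) :
    sp h * c ≠ ⊥ := by
  intro h0
  rcases Ideal.mul_eq_bot.1 h0 with h1 | h1
  · exact hh (Ideal.span_singleton_eq_bot.1 h1)
  · exact hc h1

theorem tIso : S_Iso := by
  intro hB1 hB7 hB9 hR1 k t _ c h hc hh R hR z z' hz hz' hzl hzl'
  have ht : G15 (⊤ : Ideal (OO k t)) := g15_top
  have hne : sp h * c ≠ ⊥ := spne hh hc.ne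
  have hf1 : fr (⊤ : Ideal (OO k t)) ≠ 0 := ((hB1 k t ⊤ ht.ne).2.2.2.2.2 ht.cop).1
  have hf2 : fr c ≠ 0 := ((hB1 k t c hc.ne).2.2.2.2.2 hc.cop).1
  obtain ⟨hR1a, -⟩ := hR1
  obtain ⟨hRt, -⟩ := hR1a k t
  obtain ⟨-, -, hxt, hrt⟩ := hRt ⊤ ht
  obtain ⟨-, -, hxc, -⟩ := hRt c hc
  have hr := (hrt c hc).1
  have hR' : ∀ u ∈ R, Tor k t u := by
    intro u hu
    have h1 := hR.mem u hu
    rw [Ideal.mul_top] at h1
    exact tor_lam hne h1
  obtain ⟨h91, h92, -⟩ := hB9 k t (sp h * c) ⊤ hne ht.ne R hR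
  rw [Ideal.mul_top] at h91 h92
  have h7 := (((hB7 k t c hc.ne).1 h hh).1)
  constructor
  · apply io_inj
    rw [map_mul, map_pow, map_mul, map_sub, map_sum, io_toO, hr, (hxc _ (tor_mul h hz)).1,
      (hxc _ (tor_mul h hz')).1]
    have e1 : ∀ u ∈ R, io (xO (⊤ : Ideal (OO k t)) (z + u) - xO (⊤ : Ideal (OO k t)) (z' + u)) =
        (wpC (⊤ : Ideal (OO k t)) (z + u) - wpC (⊤ : Ideal (OO k t)) (z' + u)) /
          fr (⊤ : Ideal (OO k t)) ^ 2 := by
      intro u hu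
      rw [map_sub, (hxt _ (tor_add hz (hR' u hu))).1, (hxt _ (tor_add hz' (hR' u hu))).1]
      unfold XC
      ring
    rw [Finset.sum_congr rfl e1, ← Finset.sum_div, ← h91 z z' hzl hzl', (h7 z).1, (h7 z').1]
    unfold XC
    field_simp
    ring
  · apply io_inj
    rw [map_mul, map_pow, map_mul, map_sum, io_toO, hr, (hxc _ (tor_mul h hz)).2]
    have e1 : ∀ u ∈ R, io (vO (⊤ : Ideal (OO k t)) (z + u)) =
        wdC (⊤ : Ideal (OO k t)) (z + u) / fr (⊤ : Ideal (OO k t)) ^ 3 := by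
      intro u hu
      rw [(hxt _ (tor_add hz (hR' u hu))).2]
      rfl
    rw [Finset.sum_congr rfl e1, ← Finset.sum_div, ← h92 z hzl, (h7 z).2.1]
    unfold WC
    field_simp

end Pool.Agent.DN.GL
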