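import Pool.Agent.Lib.DN.GL.SpecB

set_option autoImplicit false

open scoped Pointwise

noncomputable section

namespace Pool.Agent.DN.GL

open Pool.Agent.MuZ Pool.Agent.FW Pool.Agent.DN
open Pool.Agent.DI (io ofC io_inj exists_io io_ofC ofC_io VP MP UP TP ex sqr sqr_sq kap)
open Pool.Agent.DI.GL (Fx StP xx mem_of_Fx Fx.mul Fx.inv Fx.one)

variable {k t : ℕ}

theorem tLDr : S_LDr := by
  intro hLev hDer k t _ P hP f N z0 d hpt hN
  have hPr : P.IsPrime := hP.1.1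
  have h2 : MP P 2 := hP.2
  obtain ⟨d1, -, d3, d4, d5, d6, -, -⟩ := hDer k t P hP f N z0 d hpt hN
  have hup : ∀ f' f'' : ℕ, Odd f' → f ∣ f' → Odd f'' → f' ∣ f'' → ∀ x ∈ EE k t (f' * 2 ^ N),
      x ∈ EE k t (f'' * 2 ^ N) := by
    intro f' f'' ho hd ho' hd' x hx
    have h15 : 15 ∣ f' * 2 ^ N := (hpt.f15.trans hd).mul_right _
    refine (hLev k t (f' * 2 ^ N) (Nat.mul_pos ho.pos (by positivity)) h15).1 (f'' * 2 ^ N)
      (Nat.mul_pos ho'.pos (by positivity)) (Nat.mul_dvd_mul_right hd' _) hx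
  have c1 : ∀ a : Om, OA k t P a → UP P a → LD k t P f N z0 d a 0 := by
    intro a ha hu
    obtain ⟨-, f1, hf1, hf15, hx⟩ := id ha
    refine ⟨hu, DI.VP.zero, ⟨f * f1, hpt.odd.mul hf1, dvd_mul_right _ _, ?_⟩, ?_⟩
    · refine (hLev k t f1 hf1.pos hf15).1 (f * f1 * 2 ^ N)
        (Nat.mul_pos (Nat.mul_pos hpt.odd.pos hf1.pos) (by positivity)) ?_ hx
      exact (dvd_mul_left f1 f).mul_right _
    · rw [mul_zero]
      exact d4 a ha
  have c2 : ∀ x y x' y' : Om, LD k t P f N z0 d x y → LD k t P f N z0 d x' y' →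
      LD k t P f N z0 d (x * x') (y + y') := by
    rintro x y x' y' ⟨u1, v1, ⟨f1, ho1, hd1, hx1⟩, D1⟩ ⟨u2, v2, ⟨f2, ho2, hd2, hx2⟩, D2⟩
    refine ⟨DI.UP.mul u1 u2, DI.VP.add v1 v2, ⟨f1 * f2, ho1.mul ho2, hd1.mul_right _, ?_⟩, ?_⟩
    · exact mul_mem (hup f1 (f1 * f2) ho1 hd1 (ho1.mul ho2) (dvd_mul_right _ _) x hx1)
        (hup f2 (f1 * f2) ho2 hd2 (ho1.mul ho2) (dvd_mul_left _ _) x' hx2)
    · have h := (d5 _ _ _ _ D1 D2).2.2
      have e : x * (x' * y') + x' * (x * y) = x * x' * (y + y') := by ring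
      rwa [e] at h
  have c0 : LD k t P f N z0 d 1 0 := by
    refine c1 1 ⟨DI.VP.one, 15, ⟨7, by norm_num⟩, dvd_rfl, one_mem _⟩ DI.UP.one
  refine ⟨c1, c2, ?_, ?_, ?_, ?_, ?_⟩
  · rintro x y ⟨u1, v1, ⟨f1, ho1, hd1, hx1⟩, D1⟩
    refine ⟨DI.UP.inv u1, DI.VP.neg v1, ⟨f1, ho1, hd1, inv_mem hx1⟩, ?_⟩
    have h := d6 f1 x _ ho1 hd1 hx1 u1 D1
    have hx0 := u1.ne_zero
    have e : -(x * y / x ^ 2) = x⁻¹ * -y := by
      field_simp
    rwa [e] at h
  · intro x y j h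
    induction j with
    | zero =>
      rw [pow_zero, Nat.cast_zero, zero_mul]
      exact c0
    | succ j ih =>
      have h1 := c2 _ _ _ _ ih h
      have e : (j : Om) * y + y = ((j + 1 : ℕ) : Om) * y := by
        push_cast
        ring
      rw [pow_succ]
      rwa [e] at h1
  · intro ι S x y
    classical
    induction S using Finset.induction_on with
    | empty =>
      intro _
      rw [Finset.prod_empty, Finset.sum_empty]
      exact c0
    | insert a S ha ih =>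
      intro h
      rw [Finset.prod_insert ha, Finset.sum_insert ha]
      exact c2 _ _ _ _ (h a (Finset.mem_insert_self a S))
        (ih fun i hi => h i (Finset.mem_insert_of_mem hi))
  · intro f' x y ho hd hx hu hD
    refine ⟨hu, ?_, ⟨f', ho, hd, hx⟩, ?_⟩
    · rw [div_eq_mul_inv]
      exact DI.VP.mul (d3 x y hD).2 (DI.UP.inv hu).1
    · rwa [mul_div_cancel₀ _ hu.ne_zero]
  · rintro x y y' ⟨u1, -, -, D1⟩ ⟨-, -, -, D2⟩
    have h := GE.mul_left h2 (DI.UP.inv u1).1 (d1 _ _ _ D1 D2)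
    have hx0 := u1.ne_zero
    have e : x⁻¹ * (x * y - x * y') = y - y' := by
      field_simp
    rwa [e] at h

end Pool.Agent.DN.GL
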