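import Pool.Agent.Lib.DN.GL.SpecB
import Pool.Agent.Lib.DK.GL.RR
import Pool.Agent.Lib.DK.GL.Lin
import Pool.Agent.Lib.DI.G.L.Kap
import Pool.Agent.Lib.DI.G.L.Arch

/-!
# Theorem DN, part GL, module LSS: the local step up to the exact sum
-/

set_option autoImplicit false

open scoped Pointwise

noncomputable section

namespace Pool.Agent.DN.GL

open Pool.Agent.MuZ Pool.Agent.FW Pool.Agent.DN
open Pool.Agent.DI (io ofC io_inj exists_io io_ofC ofC_io VP MP UP TP ex sqr sqr_sq kap)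
open Pool.Agent.DI.GL (Fx StP xx mem_of_Fx Fx.mul Fx.inv Fx.one)

variable {k t : ℕ}

/-- The decomposition of a sum over `D`. -/
private theorem LSS_split {ι : Type} {n : ℕ} (D : Finset ι) (χ : ι → Om) (b : Fin n → ι)
    (c : Fin n → ι → ℕ) (C : ι → Om) : ∑ v ∈ D, χ v * C v =
      ∑ v ∈ D, (χ v - ∑ i, (c i v : Om) * χ (b i)) * C v +
        ∑ i, χ (b i) * ∑ v ∈ D, (c i v : Om) * C v := by
  have h1 : ∑ i, χ (b i) * ∑ v ∈ D, (c i v : Om) * C v =
      ∑ v ∈ D, (∑ i, (c i v : Om) * χ (b i)) * C v := by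
    simp only [Finset.mul_sum, Finset.sum_mul]
    rw [Finset.sum_comm]
    refine Finset.sum_congr rfl fun v _ => Finset.sum_congr rfl fun i _ => ?_
    ring
  rw [h1, ← Finset.sum_add_distrib]
  refine Finset.sum_congr rfl fun v _ => ?_
  ring

private theorem LSS_kid (d : Gal(Om/ℚ)) : kap 1 d = 0 :=
  (DI.GL.tKap.1 1 1 d (one_pow 2)).2 (map_one d)

private theorem LSS_kpow (u : Om) (d : Gal(Om/ℚ)) (hu : u ≠ 0) (h : d u = u)
    (c : ℕ) : kap (u ^ c) d = (c : ZMod 2) * kap u d := by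
  induction c with
  | zero => rw [pow_zero, LSS_kid, Nat.cast_zero, zero_mul]
  | succ c ih =>
    rw [pow_succ, DI.GL.tKap.2.1 _ _ d (pow_ne_zero c hu) hu (by rw [map_pow, h]) h, ih,
      Nat.cast_succ]
    ring

/-- `kap` of a product, arbitrary index type. -/
private theorem LSS_kprod {ι : Type} (s : Finset ι) (u : ι → Om) (c : ι → ℕ)
    (d : Gal(Om/ℚ)) : (∀ v ∈ s, u v ≠ 0 ∧ d (u v) = u v) →
    kap (∏ v ∈ s, u v ^ c v) d = ∑ v ∈ s, (c v : ZMod 2) * kap (u v) d := by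
  classical
  induction s using Finset.induction_on with
  | empty =>
    intro _
    rw [Finset.prod_empty, Finset.sum_empty]
    exact LSS_kid d
  | insert a s ha ih =>
    intro h
    have h1 := ih fun v hv => h v (Finset.mem_insert_of_mem hv)
    obtain ⟨h2, h3⟩ := h a (Finset.mem_insert_self a s)
    rw [Finset.prod_insert ha, Finset.sum_insert ha, ← h1, ← LSS_kpow (u a) d h2 h3 (c a)]
    apply DI.GL.tKap.2.1
    · exact pow_ne_zero _ h2
    · exact Finset.prod_ne_zero_iff.2 fun v hv =>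
        pow_ne_zero _ (h v (Finset.mem_insert_of_mem hv)).1
    · rw [map_pow, h3]
    · rw [map_prod]
      refine Finset.prod_congr rfl fun v hv => ?_
      rw [map_pow, (h v (Finset.mem_insert_of_mem hv)).2]

private theorem LSS_nine {P : Ideal ZZ} [hP : P.IsPrime] (h2 : MP P 2) : UP P (-9 : Om) := by
  have h : MP P ((9 : Om) - 1) := by
    have h3 : MP P ((4 : ℕ) * 2 : Om) := DI.MP.mul_left (DI.VP.nat 4) h2
    have e : ((4 : ℕ) * 2 : Om) = 9 - 1 := by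
      push_cast
      norm_num
    rwa [e] at h3
  exact DI.UP.neg (DI.UP.congr DI.UP.one h)

theorem tLSS : S_LSS := by
  intro hG3 hLDr hPnt hUn4 hRes k t _ f m χ P hFM hχ hP N T D hN hT hD hsum
  have hPi : P.IsPrime := hP.1.1
  have h2 : MP P 2 := hP.2
  obtain ⟨z0, d, hPt, hzd, hz0⟩ := hPnt k t f N hFM.odd hFM.dvd (by omega)
  obtain ⟨-, -, -, hL4, hL5, -, -⟩ := hLDr k t P hP f N z0 d hPt hN
  have hU : ∀ c ∈ D, LD k t P f N z0 d (uN f N m T c) (SN f N m T c) ∧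
      GE P (2 / 3 - 3 / 2 ^ N) (SN f N m T c) := fun c hc =>
    hUn4 k t P hP f N m T hFM hN hT z0 d hPt hzd hz0 c (hD c hc).1 (hD c hc).2
  have hG : ∀ c ∈ D, uN f N m T c ∈ Mn k t f N ∧ UP P (uN f N m T c) := fun c hc => by
    obtain ⟨h3, -, h4, -⟩ := hG3 k t f m N T hFM.odd hFM.dvd hFM.ne hFM.two hFM.cop (by omega) hT c
      (hD c hc).1 (hD c hc).2
    exact ⟨h3, h4 P hP.1⟩
  obtain ⟨m', hm', hχ'⟩ := hχ.odd
  have hχ1 : ∀ c, χ c = 0 ∨ χ c ^ m' = 1 := by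
    intro c
    by_cases h : c = ⊥ ∨ ¬ PrI c (2 * f)
    · exact Or.inl (hχ.zero c h)
    · rw [not_or, not_not] at h
      exact Or.inr (hχ' c h.1 h.2)
  have hV : ∀ v, VP P (χ v) := by
    intro v
    rcases hχ1 v with h | h
    · rw [h]
      exact DI.VP.zero
    · refine DI.VP.of_pow hm'.pos ?_
      rw [h]
      exact DI.VP.one
  obtain ⟨n, b, e, hind, he⟩ := DK.GL.tLin P hPi h2 (Ideal (OO k t)) χ hV D
  have hRR := DK.GL.tRR fun P hP h2 => (DI.GL.tArch P hP h2).2.1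
  have hρ : ∀ c ∈ D, GE P 1 (χ c - ∑ i, (e i c : Om) * χ (b i)) := by
    intro v hv
    refine (GE.two_iff h2).2 (hRR _ χ m' hm' hχ1 P hPi h2 _ ?_ (he v hv))
    refine sub_mem (Algebra.subset_adjoin ⟨v, rfl⟩) (sum_mem fun i _ => ?_)
    exact mul_mem (natCast_mem _ _) (Algebra.subset_adjoin ⟨b i, rfl⟩)
  have hw1 : ∀ i, (∏ c ∈ D, uN f N m T c ^ e i c) ∈ Mn k t f N := fun i =>
    prod_mem fun v hv => pow_mem (hG v hv).1 _
  have hkap : ∀ i, ∀ g : Gal(Om/ℚ), DD (Mn k t f) P g →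
      kap (∏ c ∈ D, uN f N m T c ^ e i c) g = 0 := by
    intro i g hg
    have h3 := hsum g ⟨hg.1, fun n => hg.2.1 n, hg.2.2⟩
    rw [LSS_split D χ b e] at h3
    have h4 : MP P (∑ v ∈ D, (χ v - ∑ i, (e i v : Om) * χ (b i)) *
        ((kap (uN f N m T v) g).val : Om)) :=
      DI.MP.sum D _ fun v hv => DI.MP.mul_right (he v hv) (DI.VP.nat _)
    have h5 := h3.sub h4
    rw [add_sub_cancel_left] at h5
    have h6 : ∑ i, χ (b i) * ∑ v ∈ D, (e i v : Om) * ((kap (uN f N m T v) g).val : Om) =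
        ∑ i, ((∑ v ∈ D, e i v * (kap (uN f N m T v) g).val : ℕ) : Om) * χ (b i) := by
      refine Finset.sum_congr rfl fun i _ => ?_
      push_cast
      ring
    rw [h6] at h5
    have h7 := hind _ h5 i
    rw [LSS_kprod D (uN f N m T) (e i) g
      (fun v hv => ⟨(hG v hv).2.ne_zero, hg.2.1 N _ (hG v hv).1⟩)]
    have h8 := (ZMod.natCast_eq_zero_iff _ 2).2 h7
    push_cast at h8
    simpa only [ZMod.natCast_zmod_val] using h8
  have hwi : ∀ i, GE P (5 / 3 - 3 / 2 ^ N) (∑ c ∈ D, (e i c : Om) * SN f N m T c) := fun i =>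
    hRes k t P hP f N z0 d hPt hN _ (hw1 i) (hkap i) _
      (hL5 (Ideal (OO k t)) D (fun c => uN f N m T c ^ e i c)
        (fun c => (e i c : Om) * SN f N m T c) fun c hc => hL4 _ _ _ (hU c hc).1)
  have hq : (1 : ℚ) + (2 / 3 - 3 / 2 ^ N) = 5 / 3 - 3 / 2 ^ N := by ring
  have key : GE P (5 / 3 - 3 / 2 ^ N) (∑ c ∈ D, χ c * SN f N m T c) := by
    rw [LSS_split D χ b e]
    refine GE.add h2 (GE.sum h2 _ _ fun c hc => ?_) (GE.sum h2 _ _ fun i _ =>
      GE.mul_left h2 (hV _) (hwi i))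
    have h3 := GE.mul h2 (hρ c hc) (hU c hc).2
    rwa [hq] at h3
  have h9 := LSS_nine h2
  have hfin : (-9 : Om)⁻¹ * ∑ c ∈ D, χ c * SN f N m T c =
      ∑ c ∈ D, χ c * (rO (⊤ : Ideal (OO k t)) c *
        ∑ h ∈ T, toO h * gO m c (toC h / (f * 2 ^ N : ℕ))) := by
    rw [Finset.mul_sum]
    refine Finset.sum_congr rfl fun c _ => ?_
    unfold SN
    have h0 : (-9 : Om) ≠ 0 := h9.ne_zero
    rw [mul_left_comm (χ c) (-9 : Om), ← mul_assoc, inv_mul_cancel₀ h0, one_mul]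
  rw [← hfin]
  exact GE.mul_left h2 (DI.UP.inv h9).1 key

end Pool.Agent.DN.GL
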