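import Pool.Agent.Lib.DN.GL.SpecB

/-!
# Theorem DN, part GL: inertia and the fields `Mf`, `Mn`
-/

set_option autoImplicit false

open scoped Pointwise

noncomputable section

namespace Pool.Agent.DN.GL

open Pool.Agent.MuZ Pool.Agent.FW Pool.Agent.DN
open Pool.Agent.DI (io ofC io_inj exists_io io_ofC ofC_io VP MP UP TP ex sqr sqr_sq kap)
open Pool.Agent.DI.GL (Fx StP xx mem_of_Fx Fx.mul Fx.inv Fx.one)

private theorem Mnf_ne {k t : ℕ} {h : OO k t} (hc : Cop h 2) : h ≠ 0 := by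
  rintro rfl
  unfold Cop at hc
  rw [Nm_zero] at hc
  have h1 := isCoprime_zero_left.1 hc
  rw [Int.isUnit_iff] at h1
  norm_num at h1

private theorem Mnf_two {k t f : ℕ} (hf : Odd f) {h : OO k t} (h1 : (f : OO k t) ∣ h - 1)
    (h4 : (4 : OO k t) ∣ h - 1) : ((2 * f : ℕ) : OO k t) ∣ h - 1 := by
  have h2 : ((2 : ℕ) : OO k t) ∣ h - 1 := by
    refine Dvd.dvd.trans ?_ h4
    exact ⟨2, by norm_num⟩
  obtain ⟨a1, a2⟩ := (nat_dvd_iff _ _).1 h1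
  obtain ⟨b1, b2⟩ := (nat_dvd_iff _ _).1 h2
  have hc : IsCoprime ((2 : ℕ) : ℤ) (f : ℤ) :=
    Nat.isCoprime_iff_coprime.2 (Nat.coprime_two_left.2 hf)
  rw [nat_dvd_iff]
  push_cast
  push_cast at hc b1 b2
  exact ⟨hc.mul_dvd b1 a1, hc.mul_dvd b2 a2⟩

/-- **Mnf.** -/
theorem tMnf : S_Mnf := by
  intro hE1 hGM hUnr hIn k t _ P hP f hodd h15
  have hf0 : 0 < f := hodd.pos
  obtain ⟨⟨g1, -, g3, -⟩, g5, -⟩ := hGM k t f hodd h15
  refine ⟨?_, ?_, ?_, ?_⟩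
  · intro x hx τ hτ a hpsi hray
    have e : f * 2 ^ 1 = 2 * f := by ring
    rw [e] at hpsi hray
    have h1 := (aO7 k t (2 * f) (by omega)).2.1 _ _ hray
    exact hx τ hτ a hpsi (g3 _ _ g1 h1)
  · intro N hN x hx τ hτ a hpsi hray
    obtain ⟨p1, -, p3, -⟩ := g5 N hN
    have h1 := (aO7 k t (f * 2 ^ N) (Nat.mul_pos hf0 (pow_pos two_pos N))).2.1 _ _ hray
    exact hx τ hτ a hpsi (p3 _ _ p1 h1)
  · intro x hx τ hτ a hpsi hHP
    obtain ⟨v, hv, hHf, hray⟩ := hHP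
    have h2f : 0 < 2 * f := by omega
    have hd : f * 2 ^ 0 ∣ 2 * f := by
      rw [pow_zero, mul_one]
      exact dvd_mul_left f 2
    have h1 : Psi τ (f * 2 ^ 0) a := by
      refine (hE1 k t (2 * f) h2f (h15.mul_left 2)).2.2.2.2 τ _ a hpsi hd ?_
      rwa [pow_zero, mul_one]
    have h2 : Ray (f * 2 ^ 0) a (sp v) := (aO7 k t (2 * f) h2f).2.2.2.2.2.2.1 _ _ _ hd hray
    exact hx τ hτ a h1 ⟨v, hv, ⟨hHf, Or.inl (by rw [pow_zero]; exact one_dvd _)⟩, h2⟩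
  · intro f' N h τ hN hodd' hff hcls hHq x hx
    have h15' : 15 ∣ f' := h15.trans hff
    have hτ : τ ∈ GK k t := (hUnr k t P hP).1 τ hcls.ine
    have h1 := (hIn k t P hP f' N hodd' h15').2.2.2.2.2 τ h f N hcls h15 hff le_rfl
    obtain ⟨q1, q2, q3⟩ := hHq
    have h2f : ((2 * f : ℕ) : OO k t) ∣ h - 1 := Mnf_two hodd h1.one q2
    have hcop : Cop h (2 * f) := by
      refine cop_congr ?_ (cop_one (2 * f))
      rw [← neg_sub, dvd_neg]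
      exact h2f
    refine hx τ hτ (sp h) h1.psi ⟨h, Mnf_ne h1.cop, ⟨⟨hcop, 0, ?_⟩, Or.inl q3⟩, ?_⟩
    · rw [pow_zero, pow_one]
      exact h2f
    · exact (aO7 k t (f * 2 ^ N) (Nat.mul_pos hf0 (pow_pos two_pos N))).1 _

end Pool.Agent.DN.GL
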