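import Pool.Agent.Lib.DN.GL.SpecB

/-!
# Theorem DN, part GL, second half: the point `1/(f 2^N)`
-/

set_option autoImplicit false

open scoped Pointwise

noncomputable section

namespace Pool.Agent.DN.GL

open Pool.Agent.MuZ Pool.Agent.FW Pool.Agent.DN
open Pool.Agent.DI (io ofC io_inj exists_io io_ofC ofC_io VP MP UP TP ex sqr sqr_sq kap)
open Pool.Agent.DI.GL (Fx StP xx mem_of_Fx Fx.mul Fx.inv Fx.one)

variable {k t : ℕ}

private theorem Pnt_not [Ine k t] {a : Ideal (OO k t)} (ha : a ≠ ⊥) {N : ℕ} (hN : 0 < N)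
    (hp : PrI a N) {j : ℤ} (hj : ¬ (N : ℤ) ∣ j) : ((j : ℂ) / N) ∉ Lam a := by
  intro h
  have h1 := (aL6.1 k t a N ha hN hp (j : OO k t)).1 (by rwa [toC_int])
  have h2 := ((nat_dvd_iff N _).1 h1).1
  exact hj (by simpa using h2)

theorem tPnt : S_Pnt := by
  intro k t _ f N hf h15 hN
  have hf15 := Nat.le_of_dvd hf.pos h15
  have hcop : Nat.Coprime (2 ^ N) f := Nat.Coprime.pow_left N (Nat.coprime_two_left.2 hf)
  obtain ⟨a0, c0, hac⟩ : ∃ a0 c0 : ℤ, a0 * 2 ^ N + c0 * f = 1 := by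
    obtain ⟨a, b, h⟩ := Nat.isCoprime_iff_coprime.2 hcop
    exact ⟨a, b, by push_cast at h; exact h⟩
  have hf0 : (f : ℂ) ≠ 0 := by exact_mod_cast hf.pos.ne'
  have h20 : (2 : ℂ) ^ N ≠ 0 := pow_ne_zero _ two_ne_zero
  have hac' : (a0 : ℂ) * 2 ^ N + c0 * f = 1 := by exact_mod_cast hac
  have hfa : ¬ (f : ℤ) ∣ a0 := by
    intro h
    have h1 : (f : ℤ) ∣ 1 := by
      rw [← hac]
      exact dvd_add (h.mul_right _) (dvd_mul_left _ _)
    have h2 := Int.le_of_dvd one_pos h1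
    omega
  have h2c : ¬ ((2 : ℕ) : ℤ) ∣ c0 := by
    intro h
    have h1 : ((2 : ℕ) : ℤ) ∣ 1 := by
      rw [← hac]
      refine dvd_add (Dvd.dvd.mul_left ?_ _) (h.mul_right _)
      exact_mod_cast dvd_pow_self (2 : ℤ) (by omega : N ≠ 0)
    omega
  have hkey : ∀ a : Ideal (OO k t), a ≠ ⊥ → PrI a f → (a0 : ℂ) / f ∉ Lam a :=
    fun a ha hp => Pnt_not ha hf.pos hp hfa
  have htop : ∀ M : ℕ, PrI (⊤ : Ideal (OO k t)) M := fun M => by
    unfold PrI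
    rw [top_sup_eq]
  refine ⟨a0 / f, c0 / 2 ^ N, ⟨hf, h15, hN, ?_, ?_, ?_, ?_⟩, ?_, hkey⟩
  · rw [mul_div_cancel₀ _ hf0]
    exact lam_top.2 ⟨(a0 : OO k t), (toC_int a0).symm⟩
  · exact hkey ⊤ top_ne_bot (htop f)
  · rw [mul_div_cancel₀ _ h20]
    exact lam_top.2 ⟨(c0 : OO k t), (toC_int c0).symm⟩
  · have e : (2 : ℂ) ^ (N - 1) * (c0 / 2 ^ N) = (c0 : ℂ) / ((2 : ℕ) : ℂ) := by
      obtain ⟨M, rfl⟩ : ∃ M, N = M + 1 := ⟨N - 1, by omega⟩
      rw [Nat.add_sub_cancel, pow_succ]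
      have h2M : (2 : ℂ) ^ M ≠ 0 := pow_ne_zero _ two_ne_zero
      push_cast
      field_simp
    rw [e]
    exact Pnt_not top_ne_bot (by norm_num) (htop 2) h2c
  · push_cast
    field_simp
    linear_combination hac'

end Pool.Agent.DN.GL
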