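import Pool.Agent.Lib.DN.GL.SpecB

/-!
# Theorem DN, part GL: the square root modulo `4` and the logarithmic derivative (author helper47)
-/

set_option autoImplicit false

open scoped Pointwise

noncomputable section

namespace Pool.Agent.DN.GL

open Pool.Agent.MuZ Pool.Agent.FW Pool.Agent.DN
open Pool.Agent.DI (io ofC io_inj exists_io io_ofC ofC_io VP MP UP TP ex sqr sqr_sq kap)
open Pool.Agent.DI.GL (Fx StP xx mem_of_Fx Fx.mul Fx.inv Fx.one)

theorem tRes : S_Res := by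
  intro hLev hOa hDer hFix hMnf hSitM k t _ P hP f N z0 d hPt hN w hw hd y hLD
  have := hP.1.1
  have h2 : MP P 2 := hP.2
  obtain ⟨hUw, hVy, -, hDw⟩ := hLD
  obtain ⟨-, hM2, -, hM4⟩ := hMnf k t P hP f hPt.odd hPt.f15
  obtain ⟨D1, -, -, D4, D5, -, D7, -, -⟩ := hDer k t P hP f N z0 d hPt hN
  obtain ⟨-, O1, Oadd, -, -⟩ := hOa k t P hP
  obtain ⟨e, he, hsq⟩ := tSq (Mf k t f) (Mn k t f) P (hSitM k t P hP f hPt.odd hPt.f15) N
    (by omega) w hw hUw hd
  obtain ⟨r, hr, s, hs, hws⟩ := hsq 2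
  have hOe : OA k t P e := by
    rcases he with rfl | rfl
    · exact O1
    · exact (Oadd 1 1 O1 O1).2.2
  have hUe : UP P e := by
    rcases he with rfl | rfl
    · exact DI.UP.one
    · exact DI.UP.neg DI.UP.one
  have hEe : e ∈ EE k t (f * 2 ^ N) := by
    rcases he with rfl | rfl
    · exact one_mem _
    · exact neg_mem (one_mem _)
  have hO4 : OA k t P 4 := by
    have h := (Oadd _ _ (Oadd 1 1 O1 O1).1 (Oadd 1 1 O1 O1).1).1
    have e4 : (1 + 1 + (1 + 1) : Om) = 4 := by norm_num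
    rwa [e4] at h
  have hwE := hM2 N (by omega) hw
  have hrE := hM2 N (by omega) hr
  have h4E : (4 : Om) ∈ EE k t (f * 2 ^ N) := ofNat_mem _ 4
  have hsE : s ∈ EE k t (f * 2 ^ N) := by
    have e1 : s = (w * e - r ^ 2) / 4 := by
      rw [hws]
      field_simp
      norm_num
    rw [e1]
    exact div_mem (sub_mem (mul_mem hwE hEe) (pow_mem hrE 2)) h4E
  have hVr : VP P r := by
    refine DI.VP.of_pow (n := 2) two_pos ?_
    have e1 : r ^ 2 = w * e - 2 ^ 2 * s := by rw [← hws]; ring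
    rw [e1]
    exact (hUw.1.mul hUe.1).sub ((DI.VP.pow (DI.MP.vp h2) 2).mul hs)
  obtain ⟨y1, hy1⟩ := D7 f r hPt.odd dvd_rfl hrE hVr
  obtain ⟨y2, hy2⟩ := D7 f s hPt.odd dvd_rfl hsE hs
  have hA := (D5 w (w * y) e 0 hDw (D4 e hOe)).2.2
  have hB := (D5 _ _ _ _ (D5 r y1 r y1 hy1 hy1).2.2 (D5 4 0 s y2 (D4 4 hO4) hy2).2.2).1
  have e2 : r * r + 4 * s = w * e := by
    have h3 : w * e = r ^ 2 + 2 ^ 2 * s := by rw [← hws]; ring
    rw [h3]
    ring
  rw [e2] at hB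
  have hC := D1 _ _ _ hA hB
  have h4 : GE P 2 (4 * y2) := by
    refine GE.mul_right h2 (Or.inr ?_) ?_
    · have h5 := vP_two_pow (P := P) h2 2
      have e4 : (2 : Om) ^ 2 = 4 := by norm_num
      rw [e4] at h5
      rw [h5]
      norm_num
    · obtain ⟨F, hF, hFe, hFd⟩ := hy2
      have hv := (hDer k t P hP f N z0 d hPt hN).2.2.1 s y2 ⟨F, hF, hFe, hFd⟩
      exact hv.2
  have hpos : (0 : ℚ) < 3 / 2 ^ N := by positivity
  have hE := (hC.add h2 h4).mono (q' := 5 / 3 - 3 / 2 ^ N) (by linarith)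
  have hF1 := hFix k t P hP f N z0 d hPt hN f hPt.odd dvd_rfl r y1 hy1
    (fun h τ hc hh => hM4 f N h τ (by omega) hPt.odd dvd_rfl hc hh r hr)
  have hG := GE.mul_left h2 hVr (GE.mul h2 (Or.inr (vP_two h2).ge) hF1)
  have hH := hE.add h2 (hG.mono (q' := 5 / 3 - 3 / 2 ^ N) (by linarith))
  have hI := GE.mul_left h2 (DI.UP.inv (hUe.mul hUw)).1 hH
  have hne : e * w ≠ 0 := (hUe.mul hUw).ne_zero
  have e5 : (e * w)⁻¹ * (w * 0 + e * (w * y) - (r * y1 + r * y1 + (4 * y2 + s * 0)) + 4 * y2 +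
      r * (2 * y1)) = y := by
    have e6 : w * 0 + e * (w * y) - (r * y1 + r * y1 + (4 * y2 + s * 0)) + 4 * y2 +
      r * (2 * y1) = (e * w) * y := by ring
    rw [e6, inv_mul_cancel_left₀ hne]
  rwa [e5] at hI

end Pool.Agent.DN.GL
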