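import Pool.Agent.Lib.DN.GL.SpecB

/-!
# Theorem DN, part GL: the abstract tower applies to `L'`, `L'_N` (helper28)
-/

set_option autoImplicit false

open scoped Pointwise

noncomputable section

namespace Pool.Agent.DN.GL

open Pool.Agent.MuZ Pool.Agent.FW Pool.Agent.DN
open Pool.Agent.DI (io ofC io_inj exists_io io_ofC ofC_io VP MP UP TP ex sqr sqr_sq kap)
open Pool.Agent.DI.GL (Fx StP xx mem_of_Fx Fx.mul Fx.inv Fx.one)

variable {k t : ℕ}

private theorem sitm_pwm {z : Om} {M a b : ℕ} (hz : z ^ M = 1) (h : a ≡ b [MOD M]) :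
    z ^ a = z ^ b := by
  have h1 : a ≡ b [MOD orderOf z] := h.of_dvd (orderOf_dvd_of_pow_eq_one hz)
  rw [← pow_mod_orderOf z a, ← pow_mod_orderOf z b]
  exact congrArg _ h1

private theorem sitm_upw (m u : ℕ) (hu : Odd u) : 1 ≡ u ^ 2 ^ m [MOD 2 ^ m] := by
  rw [Nat.modEq_iff_dvd]
  push_cast
  induction m with
  | zero => simp
  | succ m ih =>
    obtain ⟨c, hc⟩ := ih
    have hu' : Odd (u : ℤ) := by exact_mod_cast hu
    have hodd : Odd ((u : ℤ) ^ 2 ^ m) := hu'.pow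
    obtain ⟨d, hd⟩ : (2 : ℤ) ∣ (u : ℤ) ^ 2 ^ m + 1 := (hodd.add_odd odd_one).two_dvd
    refine ⟨c * d, ?_⟩
    have e : (u : ℤ) ^ 2 ^ (m + 1) - 1 = ((u : ℤ) ^ 2 ^ m - 1) * ((u : ℤ) ^ 2 ^ m + 1) := by
      rw [pow_succ 2 m, pow_mul]
      ring
    rw [e, hc, hd, pow_succ]
    ring

/-- On the roots of unity of order `2 ^ m` the exponent `u` is a third power. -/
private theorem sitm_exU (m u : ℕ) (hu : Odd u) :
    ∃ v : ℕ, Odd v ∧ ∀ z : Om, z ^ 2 ^ m = 1 → ((z ^ v) ^ v) ^ v = z ^ u := by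
  obtain ⟨e, he⟩ : (2 + 1 : ℕ) ∣ 2 ^ (2 * m + 1) + 1 ^ (2 * m + 1) :=
    Odd.nat_add_dvd_pow_add_pow 2 1 ⟨m, rfl⟩
  refine ⟨u ^ e, hu.pow, fun z hz => ?_⟩
  rw [← pow_mul, ← pow_mul]
  refine sitm_pwm hz ?_
  have h1 : u ^ e * u ^ e * u ^ e = (u ^ 2 ^ m) ^ 2 ^ (m + 1) * u := by
    rw [← pow_add, ← pow_add, ← pow_mul, ← pow_succ, ← pow_add]
    congr 1
    rw [one_pow] at he
    have h2 : m + (m + 1) = 2 * m + 1 := by ring
    rw [h2, he]
    ring
  have h3 := ((sitm_upw m u hu).pow (2 ^ (m + 1))).mul_right u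
  rw [one_pow, one_mul] at h3
  rw [show u ^ e * (u ^ e * u ^ e) = (u ^ 2 ^ m) ^ 2 ^ (m + 1) * u by rw [← h1]; ring]
  exact h3.symm

/-- There is no element of `L'` of valuation `1 / 2`. -/
private theorem sitm_nhf [hI : Ine k t] {P : Ideal ZZ} (hP : Ab2 P) {f : ℕ} (hf : Odd f)
    (hf15 : 15 ∣ f) (E9 : S_E9) (Unr : C_Unr) (In : C_In) (Sur : C_Sur) (Ext : C_Ext)
    (Mnf : C_Mnf) : ∀ x ∈ Mf k t f, ¬ UP P (x ^ 2 / 2) := by
  intro x hx hU
  have hPp := hP.1.1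
  have h2 := hP.2
  have hx0 : x ≠ 0 := by
    rintro rfl
    refine hU.ne_zero ?_
    simp
  have hv : vP P x = 1 / 2 := by
    have h := vP_eq (P := P) h2 (x := x) (b := 2) (a := 1) (by norm_num) (by rwa [zpow_one])
    rw [h]
    norm_num
  obtain ⟨-, -, hcop2, -, h2dvd, -, -, h8, -⟩ := aO4 k t
  obtain ⟨j, hj⟩ := hf
  have hf : Odd f := ⟨j, hj⟩
  set h : OO k t := ⟨1 - (f : ℤ), f⟩ with hh
  have hre : h.re = 1 - (f : ℤ) := rfl
  have him : h.im = f := rfl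
  have hone : (f : OO k t) ∣ h - 1 := by
    rw [nat_dvd_iff, QuadraticAlgebra.re_sub, QuadraticAlgebra.im_sub, re_one, im_one, hre, him]
    exact ⟨⟨-1, by ring⟩, ⟨1, by ring⟩⟩
  have hw : (2 : OO k t) ∣ h - wI k t := by
    rw [h2dvd, QuadraticAlgebra.re_sub, QuadraticAlgebra.im_sub, hre, him]
    change (2 : ℤ) ∣ 1 - (f : ℤ) - 0 ∧ (2 : ℤ) ∣ (f : ℤ) - 1
    constructor <;> omega
  have hcop : Cop h 2 := by
    rw [hcop2, h2dvd, him]
    omega
  obtain ⟨σ, hσ⟩ := Sur k t P hP f 1 hf hf15 le_rfl h hone hcop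
  have hσI := hσ.ine
  have hσx : σ x ≠ 0 := (map_ne_zero σ).2 hx0
  have hσσx : σ (σ x) ≠ 0 := (map_ne_zero σ).2 hσx
  obtain ⟨E1, -, -, -, E5, -, -⟩ := E9 k t f hf hf15
  set y : Om := x * σ x * σ (σ x) with hy
  have hy0 : y ≠ 0 := mul_ne_zero (mul_ne_zero hx0 hσx) hσσx
  have hσy : σ y = y := by
    rw [hy, map_mul, map_mul, E5 P hP σ hσI x hx]
    ring
  have hyM : y ∈ Mf k t f := mul_mem (mul_mem hx (E1 σ x hx)) (E1 σ _ (E1 σ x hx))
  obtain ⟨M1, -, -, -⟩ := Mnf k t P hP f hf hf15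
  have hyE : y ∈ EE k t (f * 2 ^ 1) := M1 hyM
  have hvy : vP P y = 3 / 2 := by
    rw [hy, vP_mul h2 (mul_ne_zero hx0 hσx) hσσx, vP_mul h2 hx0 hσx, vP_inertia h2 hσI hσx,
      vP_inertia h2 hσI hx0, hv]
    norm_num
  obtain ⟨I1, -, I3, I4, I5, -⟩ := In k t P hP f 1 hf hf15
  have e2 : ((2 ^ 1 : ℕ) : OO k t) = 2 := by
    rw [pow_one]
    norm_num
  have hfix : ∀ τ ∈ P.inertia Gal(Om/ℚ), τ y = y := by
    intro τ hτ
    obtain ⟨h', hτ'⟩ := I1 τ hτ
    rcases h8 h' hτ'.cop with h9 | h9 | h9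
    · have h10 : Cls P f 1 h (τ * σ) := by
        refine I3 (τ * σ) (h' * h) h (I4 τ σ h' h hτ' hσ) hone ?_ hcop
        rw [e2]
        have e : h - h' * h = -((h' - 1) * h) := by ring
        rw [e]
        exact (h9.mul_right h).neg_right
      have h11 := I5 (τ * σ) σ h h10 hσ y hyE
      rwa [AlgEquiv.mul_apply, hσy] at h11
    · have h10 : Cls P f 1 h τ := by
        refine I3 τ h' h hτ' hone ?_ hcop
        rw [e2]
        have e : h - h' = (h - wI k t) - (h' - wI k t) := by ring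
        rw [e]
        exact dvd_sub hw h9
      rw [I5 τ σ h h10 hσ y hyE, hσy]
    · have h10 : Cls P f 1 (h * h) τ := by
        refine I3 τ h' (h * h) hτ' ?_ ?_ (cop_mul hcop hcop)
        · have e : h * h - 1 = (h - 1) * (h + 1) := by ring
          rw [e]
          exact hone.mul_right _
        · rw [e2]
          have e : h * h - h' = (h - wI k t) * (h + wI k t) - (h' - (1 + wI k t)) +
              (wI k t * wI k t - (1 + wI k t)) := by ring
          rw [e]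
          refine dvd_add (dvd_sub (hw.mul_right _) h9) ?_
          rw [h2dvd, QuadraticAlgebra.re_sub, QuadraticAlgebra.im_sub, re_mul, im_mul,
            QuadraticAlgebra.re_add, QuadraticAlgebra.im_add, re_one, im_one]
          change (2 : ℤ) ∣ 0 * 0 - (k : ℤ) * 1 * 1 - (1 + 0) ∧
            (2 : ℤ) ∣ 0 * 1 + 1 * 0 + (t : ℤ) * 1 * 1 - (0 + 1)
          have ht := hI.one
          have hk := hI.odd
          constructor <;> omega
      rw [I5 τ (σ * σ) (h * h) h10 (I4 σ σ h h hσ hσ) y hyE, AlgEquiv.mul_apply, hσy, hσy]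
  obtain ⟨i, hi⟩ := ((Unr k t P hP).2 f hf hf15 y (Ext k t P hP f 1 hf hf15 le_rfl y hyE hfix)).2 hy0
  rw [hvy, div_eq_iff (by norm_num)] at hi
  have h12 : (3 : ℤ) = i * 2 := by exact_mod_cast hi
  omega

theorem tSitM : S_SitM := by
  intro E9 GM _ Unr In Sur Ext Mnf k t hI P hP f hf hf15
  have hE := E9 k t f hf hf15
  have hM := Mnf k t P hP f hf hf15
  have hG := GM k t f hf hf15
  exact {
    prime := hP.1.1
    two := hP.2
    nrm := hE.1
    lnn := hE.2.1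
    iul := by
      intro m u hu
      obtain ⟨v, hv, hvz⟩ := sitm_exU m u hu
      obtain ⟨ι, hι, hιz⟩ := DI.GL.tIu P hP.1.1 hP.2 m v hv
      refine ⟨ι * ι * ι, mul_mem (mul_mem hι hι) hι, fun x hx => ?_, fun z hz => ?_⟩
      · rw [AlgEquiv.mul_apply, AlgEquiv.mul_apply]
        exact hE.2.2.2.2.1 P hP ι hι x hx
      · rw [AlgEquiv.mul_apply, AlgEquiv.mul_apply, hιz z hz, map_pow, map_pow, hιz z hz, map_pow,
          hιz z hz]
        exact hvz z hz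
    nhf := sitm_nhf hP hf hf15 E9 Unr In Sur Ext Mnf
    lze := fun τ hτ x hx => hτ x (hM.2.2.1 hx)
    lnx := hG.2.2.2.2.2.2.2 }

end Pool.Agent.DN.GL
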