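import Pool.Agent.Lib.DN.GL.SpecB

/-!
# Theorem DN, part GL, module Trh: the derivation on `X_c(h z)`
-/

set_option autoImplicit false

open scoped Pointwise

noncomputable section

namespace Pool.Agent.DN.GL

open Pool.Agent.MuZ Pool.Agent.FW Pool.Agent.DN
open Pool.Agent.DI (io ofC io_inj exists_io io_ofC ofC_io VP MP UP TP ex sqr sqr_sq kap)
open Pool.Agent.DI.GL (Fx StP xx mem_of_Fx Fx.mul Fx.inv Fx.one)

variable {k t : ℕ}

private theorem up_toO [SqN k t] {P : Ideal ZZ} [P.IsPrime] (h2 : MP P 2) {h : OO k t}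
    (hV : VP P (toO h)) (hV' : VP P (toO (cjO h))) (hh : Cop h 2) : UP P (toO h) := by
  refine ⟨hV, fun hM => ?_⟩
  obtain ⟨a, b, hab⟩ := hh
  have h3 : MP P ((Nm h : ℤ) : Om) := by
    rw [← toO_int (n := k) (t := t), ← mul_cjO, toO_mul]
    exact DI.MP.mul_right hM hV'
  have h4 : MP P ((a : Om) * ((Nm h : ℤ) : Om) + (b : Om) * 2) :=
    DI.MP.add (DI.MP.mul_left (DI.VP.int a) h3) (DI.MP.mul_left (DI.VP.int b) h2)
  have e : (a : Om) * ((Nm h : ℤ) : Om) + (b : Om) * 2 = 1 := by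
    have h5 := congrArg (fun z : ℤ => (z : Om)) hab
    push_cast at h5
    exact h5
  rw [e] at h4
  exact DI.MP.one_not h4

theorem tTrh : S_Trh := by
  classical
  intro d2 lev oa der odq tru iso k t _ P hP f N z0 d hPt hN c h hc hc2 hh0 hhc hz0
  have hPp : P.IsPrime := hP.1.1
  have h2 : MP P 2 := hP.2
  have hG : G15 (⊤ : Ideal (OO k t)) := ⟨top_ne_bot, top_sup_eq _⟩
  have hf0 : 0 < f := hPt.odd.pos
  -- the ideal `a = h c`
  have hsp0 : sp h ≠ ⊥ := by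
    rw [Ne, Ideal.span_singleton_eq_bot]
    exact hh0
  have ha0 : sp h * c ≠ ⊥ := mul_ne_zero hsp0 hc.ne
  obtain ⟨o1, -, o3, o4, -⟩ := aO6 k t
  have haPr : PrI (sp h * c) 2 := (o1 2 _ _).2 ⟨(o4 2 h two_pos).2 hhc, hc2⟩
  have haC : (NI (sp h * c)).Coprime 2 := (o3 2 _ two_pos).1 haPr
  have haO : Odd (NI (sp h * c)) := Nat.coprime_two_right.1 haC
  have haN : ((NI (sp h * c) : ℕ) : OO k t) ∈ sp h * c := by
    have h3 := (aO3 k t).2.2.1 (sp h * c)
    have h4 : ((NI (sp h * c) : ℕ) : OO k t) ∈ (sp h * c) * cjI (sp h * c) := by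
      rw [h3.2.2]
      exact Ideal.mem_span_singleton_self _
    have h5 : (sp h * c) * cjI (sp h * c) ≤ sp h * c := Ideal.mul_le_left
    exact h5 h4
  set f' : ℕ := f * NI (sp h * c) with hf'
  have hf'o : Odd f' := hPt.odd.mul haO
  have hff : f ∣ f' := dvd_mul_right _ _
  obtain ⟨R, hR, -⟩ := (aL3 k t (sp h * c) ⊤ ha0 top_ne_bot).2.2
  have ho := oa k t P hP
  obtain ⟨D1, D2', D3, D4, D5, -, -, D8, -⟩ := der k t P hP f N z0 d hPt hN
  -- the points `u`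
  have hu1 : ∀ u ∈ R, (f' : ℂ) * u ∈ Lam (⊤ : Ideal (OO k t)) := by
    intro u hu
    have h3 := lam_prod.1 (hR.mem u hu) _ haN
    rw [toC_nat] at h3
    have h4 := lam_nat f h3
    rw [hf']
    push_cast
    rw [mul_assoc]
    exact h4
  have hu2 : ∀ u ∈ R, z0 + u ∉ Lam (⊤ : Ideal (OO k t)) := by
    intro u hu h3
    have h4 : z0 + u ∈ Lam ((sp h * c) * ⊤) := lam_mono h3
    have h5 := lam_sub h4 (hR.mem u hu)
    rw [add_sub_cancel_right, Ideal.mul_top] at h5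
    exact hz0 h5
  have hDu : ∀ u ∈ R, Der k t P z0 d (xO (⊤ : Ideal (OO k t)) (z0 + d + u))
      (vO (⊤ : Ideal (OO k t)) (z0 + d + u)) := fun u hu =>
    tru k t P hP f N z0 d hPt hN f' u hf'o hff (hu1 u hu) (hu2 u hu)
  have hfz : (f' : ℂ) * z0 ∈ Lam (⊤ : Ideal (OO k t)) := by
    rw [hf', mul_comm f]
    push_cast
    rw [mul_assoc]
    exact lam_nat _ hPt.z
  have hOu : ∀ u ∈ R, OA k t P (xO (⊤ : Ideal (OO k t)) (z0 + u)) := by
    intro u hu
    refine (odq k t P hP ⊤ hG f' N (z0 + u) d hf'o (hPt.f15.trans hff) ?_ (hu2 u hu) hPt.dd).2.2.2.2.2.2.1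
    rw [mul_add]
    exact lam_add hfz (hu1 u hu)
  -- the point `h z0`
  have hcs : ∀ z : ℂ, z ∈ Lam (⊤ : Ideal (OO k t)) → z ∈ Lam c := by
    intro z hz
    have h3 : z ∈ Lam (c * ⊤) := lam_mono hz
    rwa [Ideal.mul_top] at h3
  have hq := odq k t P hP c hc f N (toC h * z0) (toC h * d) hPt.odd hPt.f15
    (by
      have e : (f : ℂ) * (toC h * z0) = toC h * (f * z0) := by ring
      rw [e]
      exact lam_mul h (hcs _ hPt.z))
    (fun h3 => hz0 (lam_sp.2 h3))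
    (by
      have e : (2 : ℂ) ^ N * (toC h * d) = toC h * (2 ^ N * d) := by ring
      rw [e]
      exact lam_mul h (hcs _ hPt.dd))
  have hzA : z0 + d ∉ Lam (sp h * c) := by
    intro h3
    have h4 := lam_sp.1 h3
    rw [mul_add] at h4
    exact hq.2.2.2.1 h4
  have hOz : OA k t P (xO c (toC h * z0)) := hq.2.2.2.2.2.2.1
  -- the factor `r`
  set r : Om := toO h * rO (⊤ : Ideal (OO k t)) c with hr
  have hU2 : UP P (rO (⊤ : Ideal (OO k t)) c) := by
    have h3 := (d2 k t P hP ⊤ hG).2.2.2.2.2.2 c hc.ne hc2 hc.cop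
    rwa [Ideal.mul_top] at h3
  have hO2 : OA k t P (rO (⊤ : Ideal (OO k t)) c) :=
    ⟨hU2.1, 15, by decide, dvd_rfl, ((lev k t 15 (by norm_num) dvd_rfl).2.2.1 ⊤ hG).2.2.2 c hc⟩
  have hOh : OA k t P (toO h) := ho.2.2.2.1 h
  have hUh : UP P (toO h) := up_toO h2 hOh.1 (ho.2.2.2.1 (cjO h)).1 hhc
  have hrU : UP P r := DI.UP.mul hUh hU2
  have hrO : OA k t P r := (ho.2.2.1 _ _ hOh hO2).2.1
  have hr2O : OA k t P (r ^ 2) := by
    rw [pow_two]
    exact (ho.2.2.1 _ _ hrO hrO).2.1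
  have hκ : OA k t P (r ^ 2)⁻¹ := (ho.2.2.2.2.1 _ hr2O).2.2 (DI.UP.pow hrU 2)
  have hr0 : r ≠ 0 := DI.UP.ne_zero hrU
  -- the isogeny
  have hT0 : Tor k t z0 := by
    have h3 := (odq k t P hP ⊤ hG f N z0 0 hPt.odd hPt.f15 hPt.z hPt.zn
      (by rw [mul_zero]; exact lam_zero _)).2.2.1
    rwa [add_zero] at h3
  have hT : Tor k t (z0 + d) :=
    (odq k t P hP ⊤ hG f N z0 d hPt.odd hPt.f15 hPt.z hPt.zn hPt.dd).2.2.1
  obtain ⟨i1, i2⟩ := iso k t c h hc hh0 R hR (z0 + d) z0 hT hT0 hzA hz0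
  rw [← hr] at i1 i2
  -- the derivative of the sum
  have hsum : ∀ S : Finset ℂ, S ⊆ R → Der k t P z0 d
      (∑ u ∈ S, (xO (⊤ : Ideal (OO k t)) (z0 + d + u) - xO (⊤ : Ideal (OO k t)) (z0 + u)))
      (∑ u ∈ S, vO (⊤ : Ideal (OO k t)) (z0 + d + u)) := by
    intro S
    induction S using Finset.induction_on with
    | empty =>
      intro _
      rw [Finset.sum_empty, Finset.sum_empty]
      exact D4 0 ho.1
    | insert a S ha ih =>
      intro hS
      have haR : a ∈ R := hS (Finset.mem_insert_self a S)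
      rw [Finset.sum_insert ha, Finset.sum_insert ha]
      refine (D5 _ _ _ _ ?_ (ih fun x hx => hS (Finset.mem_insert_of_mem hx))).1
      have h3 := (D5 _ _ _ _ (hDu a haR) (D4 _ (hOu a haR))).2.1
      rwa [sub_zero] at h3
  have hS := hsum R (Finset.Subset.refl R)
  have h3 := (D5 _ _ _ _ (D5 _ _ _ _ (D4 _ hκ) hS).2.2 (D4 _ hOz)).1
  rw [← i1, ← i2] at h3
  have e1 : (r ^ 2)⁻¹ * (r ^ 2 * (xO c (toC h * (z0 + d)) - xO c (toC h * z0))) + xO c (toC h * z0) =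
      xO c (toC h * (z0 + d)) := by
    rw [inv_mul_cancel_left₀ (pow_ne_zero 2 hr0)]
    ring
  have e2 : (r ^ 2)⁻¹ * (r ^ 3 * vO c (toC h * (z0 + d))) +
      r ^ 2 * (xO c (toC h * (z0 + d)) - xO c (toC h * z0)) * 0 + 0 = r * vO c (toC h * (z0 + d)) := by
    field_simp
    ring
  rw [e1, e2] at h3
  exact h3

end Pool.Agent.DN.GL
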