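import Pool.Agent.Lib.DN.GL.SpecB

/-!
# DN, part GL, module Tru: the derivation on `X(z + u)`, `u` of odd order (helper86)
-/

set_option autoImplicit false

open scoped Pointwise

noncomputable section

namespace Pool.Agent.DN.GL

open Pool.Agent.MuZ Pool.Agent.FW Pool.Agent.DN
open Pool.Agent.DI (io ofC io_inj exists_io io_ofC ofC_io VP MP UP TP ex sqr sqr_sq kap)
open Pool.Agent.DI.GL (Fx StP xx mem_of_Fx Fx.mul Fx.inv Fx.one)

variable {k t : ℕ}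

private theorem der_congr {P : Ideal ZZ} {z0 d : ℂ} {x y x' y' : Om} (h : Der k t P z0 d x y)
    (hx : x = x') (hy : y = y') : Der k t P z0 d x' y' := by
  subst hx hy
  exact h

theorem tTru : S_Tru := by
  classical
  intro hB1 hR1 hLev hOa hPi hDer hOdq hKud k t _ P hP f N z0 d hp hN f' u hf' hff' hu hz0u
  have hPp : P.IsPrime := hP.1.1
  have h2 : MP P 2 := hP.2
  have gt : G15 (⊤ : Ideal (OO k t)) := ⟨top_ne_bot, top_sup_eq _⟩
  have h15 : 15 ∣ f' := hp.f15.trans hff'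
  obtain ⟨hper, -⟩ := hB1 k t ⊤ top_ne_bot
  obtain ⟨d1, d2, -, d4, d5, -, d7, d8, -⟩ := hDer k t P hP f N z0 d hp hN
  by_cases huL : u ∈ Lam (⊤ : Ideal (OO k t))
  · refine der_congr d8 ?_ ?_
    · unfold xO XC
      rw [(hper (z0 + d) u huL).1]
    · unfold vO WC
      rw [(hper (z0 + d) u huL).2]
  -- the points
  have hz0 : (f' : ℂ) * z0 ∈ Lam (⊤ : Ideal (OO k t)) := by
    obtain ⟨c, rfl⟩ := hff'
    have e : ((f * c : ℕ) : ℂ) * z0 = (c : ℂ) * (f * z0) := by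
      push_cast
      ring
    rw [e]
    exact lam_nat c hp.z
  have hzu : (f' : ℂ) * (z0 + u) ∈ Lam (⊤ : Ideal (OO k t)) := by
    rw [mul_add]
    exact lam_add hz0 hu
  obtain ⟨-, -, tz, nz, -, uW, -, -, -⟩ := hOdq k t P hP ⊤ gt f' N z0 d hf' h15 hz0 hp.zn hp.dd
  obtain ⟨-, -, -, nzu, vX', -, -, -, -⟩ := hOdq k t P hP ⊤ gt f' N (z0 + u) d hf' h15 hzu hz0u hp.dd
  obtain ⟨-, -, -, -, -, -, oU, oV, uV⟩ := hOdq k t P hP ⊤ gt f' N u d hf' h15 hu huL hp.dd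
  have tu : Tor k t u := (tor_iff top_ne_bot).2 ⟨f', hf'.pos, hu⟩
  have e1 : z0 + u + d = z0 + d + u := by ring
  rw [e1] at nzu vX'
  have nzm : z0 + d - u ∉ Lam (⊤ : Ideal (OO k t)) := by
    intro h
    apply hp.dn
    have h3 : ((f' * 2 ^ (N - 1) : ℕ) : ℂ) * (z0 + d - u) ∈ Lam (⊤ : Ideal (OO k t)) := lam_nat _ h
    have h4 : ((f' : ℕ) : ℂ) * (2 ^ (N - 1) * d) ∈ Lam (⊤ : Ideal (OO k t)) := by
      have e : ((f' : ℕ) : ℂ) * (2 ^ (N - 1) * d) = ((f' * 2 ^ (N - 1) : ℕ) : ℂ) * (z0 + d - u) -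
          ((2 ^ (N - 1) : ℕ) : ℂ) * (f' * z0) + ((2 ^ (N - 1) : ℕ) : ℂ) * (f' * u) := by
        push_cast
        ring
      rw [e]
      exact lam_add (lam_sub h3 (lam_nat _ hz0)) (lam_nat _ hu)
    have h5 : ((2 : ℕ) : ℂ) * (2 ^ (N - 1) * d) ∈ Lam (⊤ : Ideal (OO k t)) := by
      have e : ((2 : ℕ) : ℂ) * (2 ^ (N - 1) * d) = 2 ^ N * d := by
        have e2 : (2 : ℂ) ^ N = 2 * 2 ^ (N - 1) := by
          rw [← pow_succ']
          congr 1
          have := hp.pos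
          omega
        rw [e2]
        push_cast
        ring
      rw [e]
      exact hp.dd
    obtain ⟨j, hj⟩ := hf'
    have e : (2 : ℂ) ^ (N - 1) * d = ((f' : ℕ) : ℂ) * (2 ^ (N - 1) * d) -
        (j : ℂ) * (((2 : ℕ) : ℂ) * (2 ^ (N - 1) * d)) := by
      rw [hj]
      push_cast
      ring
    rw [e]
    exact lam_sub h4 (lam_nat j h5)
  obtain ⟨k1, k2, k3⟩ := hKud k t ⊤ gt (z0 + d) u tz tu nz huL nzu nzm _ _ _ _ _ _ _ _ rfl rfl rfl rfl rfl
    rfl rfl rfl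
  obtain ⟨-, -, oa, oc, -, -, -, -⟩ := hPi k t P hP f N z0 d hp
  have o0 : OA k t P 0 := (hOa k t P hP).1
  -- the element `X'`
  have hM : 0 < f' * 2 ^ N := Nat.mul_pos hf'.pos (by positivity)
  have hX'E : xO (⊤ : Ideal (OO k t)) (z0 + d + u) ∈ EE k t (f' * 2 ^ N) := by
    obtain ⟨-, -, hL, -, -⟩ := hLev k t (f' * 2 ^ N) hM (h15.mul_right _)
    obtain ⟨-, -, hLx, -⟩ := hL ⊤ gt
    refine (hLx _ ?_).1
    have e : ((f' * 2 ^ N : ℕ) : ℂ) * (z0 + d + u) =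
        ((2 ^ N : ℕ) : ℂ) * (f' * z0) + (f' : ℂ) * (2 ^ N * d) + ((2 ^ N : ℕ) : ℂ) * (f' * u) := by
      push_cast
      ring
    rw [e]
    exact lam_add (lam_add (lam_nat _ hz0) (lam_nat _ hp.dd)) (lam_nat _ hu)
  obtain ⟨y, hy⟩ := d7 f' _ hf' hff' hX'E vX'
  have hU := d4 _ oU
  have ha := d4 _ oa
  have hc := d4 _ oc
  have add : ∀ {x y x' y' : Om}, Der k t P z0 d x y → Der k t P z0 d x' y' →
      Der k t P z0 d (x + x') (y + y') := fun h h' => (d5 _ _ _ _ h h').1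
  have sub : ∀ {x y x' y' : Om}, Der k t P z0 d x y → Der k t P z0 d x' y' →
      Der k t P z0 d (x - x') (y - y') := fun h h' => (d5 _ _ _ _ h h').2.1
  have mul : ∀ {x y x' y' : Om}, Der k t P z0 d x y → Der k t P z0 d x' y' →
      Der k t P z0 d (x * x') (x * y' + x' * y) := fun h h' => (d5 _ _ _ _ h h').2.2
  have q1 := mul (mul (sub d8 hU) (sub d8 hU)) (mul hy hy)
  have xu := mul d8 hU
  have s := add d8 hU
  have p1 := mul xu s
  have hA := add (add (add (add p1 p1) (mul (mul ha ha) xu)) (mul (mul ha hc) s)) (mul hc hc)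
  have q2 := mul hA hy
  have q3 := sub (sub (mul xu xu) (mul (mul ha hc) xu)) (mul (mul hc hc) s)
  have q := add (sub q1 q2) q3
  have q' : Der k t P z0 d 0 (vO (⊤ : Ideal (OO k t)) (z0 + d) * vO (⊤ : Ideal (OO k t)) u *
      (vO (⊤ : Ideal (OO k t)) (z0 + d + u) - y)) := by
    refine der_congr q ?_ ?_
    · linear_combination k1
    · linear_combination k3 + y * k2
  have g := d1 _ _ _ q' (d4 0 o0)
  rw [sub_zero] at g
  have hWV : UP P (vO (⊤ : Ideal (OO k t)) (z0 + d) * vO (⊤ : Ideal (OO k t)) u) := uW.mul uV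
  have g2 := GE.mul_left h2 hWV.inv.1 g
  rw [inv_mul_cancel_left₀ hWV.ne_zero] at g2
  exact d2 _ _ _ hy g2

end Pool.Agent.DN.GL
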