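import Pool.Agent.Lib.DN.GL.SpecB

/-!
# Theorem DN, part GL, module `Un4`: the logarithmic derivative of the elliptic unit
-/

set_option autoImplicit false

open scoped Pointwise

noncomputable section

namespace Pool.Agent.DN.GL

open Pool.Agent.MuZ Pool.Agent.FW Pool.Agent.DN
open Pool.Agent.DI (io ofC io_inj exists_io io_ofC ofC_io VP MP UP TP ex sqr sqr_sq kap)
open Pool.Agent.DI.GL (Fx StP xx mem_of_Fx Fx.mul Fx.inv Fx.one)

variable {k t : ℕ}

private theorem pri_dvd [SqN k t] {f M : ℕ} {a : Ideal (OO k t)} (h : PrI a f) (hd : M ∣ f) :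
    PrI a M := by
  obtain ⟨g, rfl⟩ := hd
  exact (((aO6 k t).2.1 M g a).1 h).1

private theorem ne_of_cop {h : OO k t} (hh : Cop h 2) : h ≠ 0 := by
  rintro rfl
  unfold Cop at hh
  rw [Nm_zero, isCoprime_zero_left, Int.isUnit_iff] at hh
  omega

theorem tUn4 : S_Un4 := by
  intro g3 fix mnf ldr tht k t _ P hP f N m T hm hN hT z0 d hPt hzd hz0 c hc hc2
  have hPp : P.IsPrime := hP.1.1
  have h2 : MP P 2 := hP.2
  have hf0 : 0 < f := hm.odd.pos
  have hcf : PrI c f := pri_dvd hc2 (Dvd.intro_left _ rfl)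
  have hG : G15 c := ⟨hc, pri_dvd hcf hm.dvd⟩
  have hLD : LD k t P f N z0 d (uN f N m T c) (SN f N m T c) := by
    have h1 : ∀ h ∈ T, LD k t P f N z0 d (Theta m c (toC h / (f * 2 ^ N : ℕ)))
        (-9 * (toO h * rO (⊤ : Ideal (OO k t)) c * gO m c (toC h / (f * 2 ^ N : ℕ)))) := by
      intro h hh
      have hH := (hT.mem h hh).1.1
      have hh2 : Cop h 2 := cop_dvd hH (Dvd.intro _ rfl)
      have hhf : Cop h f := cop_dvd hH (Dvd.intro_left _ rfl)
      have hne := ne_of_cop hh2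
      have hsp : sp h ≠ ⊥ := fun h3 => hne (Ideal.span_singleton_eq_bot.1 h3)
      have ha : m * (sp h * c) ≠ ⊥ := mul_ne_zero hm.ne (mul_ne_zero hsp hc)
      have hpa : PrI (m * (sp h * c)) f := by
        rw [(aO6 k t).1, (aO6 k t).1]
        exact ⟨hm.cop, ((aO6 k t).2.2.2.1 f h hf0).2 hhf, hcf⟩
      have h3 := tht k t P hP f N z0 d hPt hN m c h hm.ne hm.two (pri_dvd hm.cop hm.dvd) hG
        (pri_dvd hc2 (Dvd.intro _ rfl)) hne hh2 (hz0 _ ha hpa)
      rwa [hzd, mul_one_div] at h3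
    have h3 := (ldr k t P hP f N z0 d hPt hN).2.2.2.2.1 (OO k t) T _ _ h1
    have e : SN f N m T c = ∑ h ∈ T,
        -9 * (toO h * rO (⊤ : Ideal (OO k t)) c * gO m c (toC h / (f * 2 ^ N : ℕ))) := by
      unfold SN
      rw [Finset.mul_sum, Finset.mul_sum]
      refine Finset.sum_congr rfl fun h _ => ?_
      ring
    rw [e]
    exact h3
  refine ⟨hLD, ?_⟩
  have hM := (g3 k t f m N T hm.odd hm.dvd hm.ne hm.two hm.cop (by omega) hT c hc hc2).1
  have h4 := fix k t P hP f N z0 d hPt hN f hm.odd (dvd_refl f) _ _ hLD.2.2.2 (fun h τ h5 h6 =>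
    (mnf k t P hP f hm.odd hm.dvd).2.2.2 f N h τ (by omega) hm.odd (dvd_refl f) h5 h6 _ hM)
  have h5 := GE.mul_left h2 (DI.UP.inv hLD.1).1 h4
  rwa [inv_mul_cancel_left₀ (DI.UP.ne_zero hLD.1)] at h5

end Pool.Agent.DN.GL
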