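import Pool.Agent.Lib.DN.GL.Odq
import Pool.Agent.Lib.DN.GL.Kud
import Pool.Agent.Lib.DN.GL.Tru
import Pool.Agent.Lib.DN.GL.Iso
import Pool.Agent.Lib.DN.GL.Trh
import Pool.Agent.Lib.DN.GL.LDr
import Pool.Agent.Lib.DN.GL.Tht
import Pool.Agent.Lib.DN.GL.Pnt
import Pool.Agent.Lib.DN.GL.Mnf
import Pool.Agent.Lib.DN.GL.Un4
import Pool.Agent.Lib.DN.GL.SitM
import Pool.Agent.Lib.DN.GL.Res
import Pool.Agent.Lib.DN.GL.LSS

/-!
# Theorem DN, part GL, second half: the composition (author helper89)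
-/

set_option autoImplicit false

noncomputable section

namespace Pool.Agent.DN.GL

/-- The local step up to the exact sum. -/
theorem aLSS (i : GLIn) (j : GLInB) (o : GLOut) : C_LSS :=
  asmGLB i j o tOdq tKud tTru tIso tTrh tLDr tTht tPnt tMnf tUn4 tSitM tRes tLSS

end Pool.Agent.DN.GL
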