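import Pool.Agent.Lib.DN.GL.Tam
import Pool.Agent.Lib.MuZ.QZ

set_option autoImplicit false

/-!
# Abstract tower, tame case: TCpt (port of the module of DK/GL)
-/

open scoped Pointwise

noncomputable section

namespace Pool.Agent.DN.GL

open Pool.Agent.MuZ Pool.Agent.FW Pool.Agent.DI
open Pool.Agent.DI.GL (Fx StP xx mem_of_Fx Fx.mul Fx.inv Fx.one)

theorem tTCpt : C_TCpt := by
  intro L LN P hSit r hr
  have hStb := DI.GL.tStb
  by_contra hcon
  push Not at hcon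
  obtain ⟨-, -, -, hcl⟩ := hStb P hSit.prime hSit.two
  let C : ℕ → Set Gal(Om/ℚ) := fun m => ({d | StP P d} ∩
    ⋂ x : {x : Om // x ∈ L}, {d : Gal(Om/ℚ) | d x.1 = x.1}) ∩
    ((⋂ z : {z : Om // z ^ 2 ^ m = 1}, {d : Gal(Om/ℚ) | d z.1 = z.1}) ∩
      {d : Gal(Om/ℚ) | d r ≠ r})
  have hmem : ∀ m (d : Gal(Om/ℚ)), d ∈ C m ↔ DL L P m d ∧ d r ≠ r := by
    intro m d
    simp only [C, Set.mem_inter_iff, Set.mem_iInter, Subtype.forall, Set.mem_ofPred_eq, DL, Fx]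
    tauto
  have hmono : ∀ (m m' : ℕ), m ≤ m' → ∀ d : Gal(Om/ℚ), DL L P m' d → DL L P m d := by
    intro m m' hmm d hd
    refine ⟨hd.1, hd.2.1, fun z hz => hd.2.2 z ?_⟩
    obtain ⟨k, rfl⟩ := Nat.exists_eq_add_of_le hmm
    rw [pow_add, pow_mul, hz, one_pow]
  have hopen : IsClosed {d : Gal(Om/ℚ) | d r ≠ r} := by
    have h1 := stabilizer_isOpen_of_isIntegral (K := ℚ) r
    have h2 : {d : Gal(Om/ℚ) | d r ≠ r} = (MulAction.stabilizer Gal(Om/ℚ) r : Set Gal(Om/ℚ))ᶜ := by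
      ext d
      exact Iff.rfl
    rw [h2]
    exact h1.isClosed_compl
  have hCcl : ∀ m, IsClosed (C m) := by
    intro m
    exact (hcl.inter (isClosed_iInter fun x : {x : Om // x ∈ L} =>
      QZ.eq_closed' x.1 x.1)).inter
      ((isClosed_iInter fun z : {z : Om // z ^ 2 ^ m = 1} =>
        QZ.eq_closed' z.1 z.1).inter hopen)
  have hne : (⋂ n, C n).Nonempty := by
    apply IsCompact.nonempty_iInter_of_sequence_nonempty_isCompact_isClosed
    · intro n x hx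
      rw [hmem] at hx ⊢
      exact ⟨hmono n (n + 1) (Nat.le_succ n) x hx.1, hx.2⟩
    · intro n
      obtain ⟨m, hm, d, hd, hdr⟩ := hcon n
      exact ⟨d, (hmem n d).2 ⟨hmono n m hm d hd, hdr⟩⟩
    · exact (hCcl 0).isCompact
    · exact hCcl
  obtain ⟨d, hd⟩ := hne
  rw [Set.mem_iInter] at hd
  have h1 : ∀ n, DL L P n d := fun n => ((hmem n d).1 (hd n)).1
  apply ((hmem 0 d).1 (hd 0)).2
  apply hr
  refine ⟨(h1 0).1, fun n => ?_, fun i hi => ?_⟩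
  · rcases Nat.eq_zero_or_pos n with rfl | hn
    · exact hSit.lze d (h1 0).2.1
    obtain ⟨ζ, hζ⟩ := HasEnoughRootsOfUnity.exists_primitiveRoot Om (2 ^ n)
    exact (hSit.lnx n ζ hn hζ d).2 ⟨(h1 0).2.1, Or.inl ((h1 n).2.2 ζ hζ.pow_eq_one)⟩
  · apply (h1 2).2.2
    have e : i ^ 2 ^ 2 = (i ^ 2) ^ 2 := by ring
    rw [e, hi]
    norm_num

end Pool.Agent.DN.GL
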