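import Pool.Agent.Lib.DN.GL.Tam

/-!
# Abstract tower, tame case: TG8a (port of the module of DK/GL)
-/

set_option autoImplicit false

open scoped Pointwise

noncomputable section

namespace Pool.Agent.DN.GL

open Pool.Agent.MuZ Pool.Agent.FW Pool.Agent.DI
open Pool.Agent.DI.GL (Fx StP xx mem_of_Fx Fx.mul Fx.inv Fx.one)

private theorem TG8a_mono {L : IntermediateField ℚ Om} {P : Ideal ZZ} {m m' : ℕ} (h : m ≤ m') {d : Gal(Om/ℚ)}
    (hd : DL L P m' d) : DL L P m d :=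
  ⟨hd.1, hd.2.1, fun z hz => hd.2.2 z (by
    obtain ⟨k, rfl⟩ := Nat.exists_eq_add_of_le h
    rw [pow_add, pow_mul, hz, one_pow])⟩

private theorem TG8a_z0 {N m : ℕ} (hN : 1 ≤ N) (hm : N ≤ m) {ζ : Om}
    (hζ : IsPrimitiveRoot ζ (2 ^ N)) :
    ∃ z0 : Om, IsPrimitiveRoot z0 (2 ^ m) ∧ z0 ^ 2 ^ (m - N) = ζ := by
  obtain ⟨z0, hz0⟩ := IsAlgClosed.exists_pow_nat_eq ζ (n := 2 ^ (m - N)) (by positivity)
  refine ⟨z0, ?_, hz0⟩
  obtain ⟨n, rfl⟩ : ∃ n, m = n + 1 := ⟨m - 1, by omega⟩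
  obtain ⟨k, rfl⟩ : ∃ k, N = k + 1 := ⟨N - 1, by omega⟩
  have : Fact (Nat.Prime 2) := ⟨Nat.prime_two⟩
  have e1 : z0 ^ 2 ^ n = ζ ^ 2 ^ k := by
    rw [← hz0, ← pow_mul, ← pow_add]
    congr 2
    omega
  have e2 : z0 ^ 2 ^ (n + 1) = 1 := by
    rw [pow_succ, pow_mul, e1, ← pow_mul, ← pow_succ]
    exact hζ.pow_eq_one
  have e3 : ¬ z0 ^ 2 ^ n = 1 := by
    rw [e1]
    intro h
    have h1 := (hζ.pow_eq_one_iff_dvd _).1 h
    have h2 := (Nat.pow_dvd_pow_iff_le_right (x := 2) (by norm_num)).1 h1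
    omega
  rw [← orderOf_eq_prime_pow e3 e2]
  exact IsPrimitiveRoot.orderOf z0

private theorem TG8a_dec : ∀ a : ZMod 2, a ≠ 0 → a = 1 := by decide

private theorem TG8a_kap1 (hK : DI.GL.S_Kap) (d : Gal(Om/ℚ)) : kap 1 d = 0 :=
  (hK.1 1 1 d (one_pow 2)).2 (map_one d)

private theorem TG8a_kap (hK : DI.GL.S_Kap) {w x e : Om} {b : ℕ} {d : Gal(Om/ℚ)} (hw : w ≠ 0)
    (hx : x ≠ 0) (hdw : d w = w) (hdx : d x = x) (he : e = 1 ∨ e = -1) (hb : b = 0 ∨ b = 1) :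
    (e * x ^ b ≠ 0 ∧ d (e * x ^ b) = e * x ^ b) ∧
      kap (w * (e * x ^ b)) d = kap w d + (kap e d + (b : ZMod 2) * kap x d) := by
  have he0 : e ≠ 0 := by
    rcases he with rfl | rfl
    · exact one_ne_zero
    · exact neg_ne_zero.2 one_ne_zero
  have hde : d e = e := by
    rcases he with rfl | rfl
    · exact map_one d
    · rw [map_neg, map_one]
  have hxb : x ^ b ≠ 0 := pow_ne_zero _ hx
  have hdxb : d (x ^ b) = x ^ b := by rw [map_pow, hdx]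
  have h1 : e * x ^ b ≠ 0 := mul_ne_zero he0 hxb
  have h2 : d (e * x ^ b) = e * x ^ b := by rw [map_mul, hde, hdxb]
  refine ⟨⟨h1, h2⟩, ?_⟩
  rw [hK.2.1 w (e * x ^ b) d hw h1 hdw h2, hK.2.1 e (x ^ b) d he0 hxb hde hdxb]
  congr 2
  rcases hb with rfl | rfl
  · rw [pow_zero, TG8a_kap1 hK, Nat.cast_zero, zero_mul]
  · rw [pow_one, Nat.cast_one, one_mul]

private theorem TG8a_fxpow {M : IntermediateField ℚ Om} {σ : Gal(Om/ℚ)} (h : Fx M σ) (n : ℕ) :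
    Fx M (σ ^ n) := by
  induction n with
  | zero => rw [pow_zero]; exact Fx.one
  | succ n ih => rw [pow_succ]; exact ih.mul h

private theorem TG8a_kpow (hK : DI.GL.S_Kap) {M : IntermediateField ℚ Om} {w : Om} {σ : Gal(Om/ℚ)}
    (h : Fx M σ) (hw : w ∈ M) (hw0 : w ≠ 0) (hk : kap w σ = 0) (n : ℕ) : kap w (σ ^ n) = 0 := by
  induction n with
  | zero =>
    rw [pow_zero]
    exact (hK.1 w (sqr w) 1 (sqr_sq w)).2 rfl
  | succ n ih =>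
    rw [pow_succ, hK.2.2.1 w (σ ^ n) σ hw0 (TG8a_fxpow h n w hw) (h w hw), ih, hk, add_zero]

/-- The case of an element which fixes `ζ`. -/
private theorem TG8a_key (hSt : DI.GL.S_Stb) (hK : DI.GL.S_Kap) (hP : DI.GL.S_Pw) {L : IntermediateField ℚ Om} {LN : ℕ → IntermediateField ℚ Om}
    {P : Ideal ZZ} (hS : SitT L LN P) {N m : ℕ} (hN : 2 ≤ N) {ζ z0 : Om}
    (hζ : IsPrimitiveRoot ζ (2 ^ N)) (hz0 : IsPrimitiveRoot z0 (2 ^ m))
    (hz : z0 ^ 2 ^ (m - N) = ζ) {w : Om} (hw : w ∈ LN N) (hw0 : w ≠ 0) {d2 : Gal(Om/ℚ)}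
    (hd2s : StP P d2) (hd2 : Fx (LN N) d2) (hd2z : d2 z0 = z0 ^ (1 + 2 ^ N))
    (hk2 : kap w d2 = 0) (hk : ∀ d : Gal(Om/ℚ), DL L P m d → kap w d = 0)
    {d : Gal(Om/ℚ)} (hds : StP P d) (hd : Fx (LN N) d) (hdz : d ζ = ζ) : kap w d = 0 := by
  have : P.IsPrime := hS.prime
  have hst := (hSt P hS.prime hS.two).2.1
  have hz01 : z0 ^ 2 ^ m = 1 := hz0.pow_eq_one
  have : NeZero (2 ^ m) := ⟨by positivity⟩
  obtain ⟨c, -, hc⟩ := hz0.eq_pow_of_pow_eq_one (ξ := d z0) (by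
    rw [← map_pow, hz01, map_one])
  -- `ζ ^ c = ζ`
  have hζc : ζ ^ c = ζ := by
    have h1 : d ζ = ζ ^ c := by
      rw [← hz, map_pow, ← hc, ← pow_mul, ← pow_mul, mul_comm]
    rw [← h1, hdz]
  have hζ0 : ζ ≠ 0 := hζ.ne_zero (by positivity)
  have hc1 : c ≡ 1 [MOD 2 ^ N] := by
    have h1 : ζ ^ ((c : ℤ) - 1) = 1 := by
      rw [zpow_sub₀ hζ0, zpow_natCast, hζc, zpow_one, div_self hζ0]
    have h2 := (hζ.zpow_eq_one_iff_dvd _).1 h1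
    refine ((Nat.modEq_iff_dvd).2 ?_).symm
    push_cast at h2 ⊢
    exact h2
  obtain ⟨t, ht⟩ := hP N hN m c hc1
  have hpow : ∀ t : ℕ, (d2 ^ t) z0 = z0 ^ ((1 + 2 ^ N) ^ t) := by
    intro t
    induction t with
    | zero => rw [pow_zero, pow_zero, pow_one]; rfl
    | succ n ih =>
      rw [pow_succ', AlgEquiv.mul_apply, ih, map_pow, hd2z, ← pow_mul, ← pow_succ']
  have he : (d2 ^ t) z0 = d z0 := by
    rw [hpow t, ← hc, pow_eq_pow_mod _ hz01, pow_eq_pow_mod c hz01]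
    congr 1
    exact ht.symm
  have hft : Fx (LN N) (d2 ^ t) := TG8a_fxpow hd2 t
  obtain ⟨g, hg⟩ : ∃ g : Gal(Om/ℚ), g = (d2 ^ t)⁻¹ * d := ⟨_, rfl⟩
  have hgz : g z0 = z0 := by
    rw [hg, AlgEquiv.mul_apply, ← he, ← AlgEquiv.mul_apply, inv_mul_cancel, AlgEquiv.one_apply]
  have hgf : Fx (LN N) g := by rw [hg]; exact hft.inv.mul hd
  have hDL : DL L P m g := by
    refine ⟨?_, ?_, ?_⟩
    · rw [hst, hg]
      exact Subgroup.mul_mem _ (Subgroup.inv_mem _ (Subgroup.pow_mem _ ((hst d2).1 hd2s) t))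
        ((hst d).1 hds)
    · exact ((hS.lnx N ζ (by omega) hζ g).1 hgf).1
    · intro z hz1
      obtain ⟨j, -, rfl⟩ := hz0.eq_pow_of_pow_eq_one hz1
      rw [map_pow, hgz]
  have hdg : d = d2 ^ t * g := by rw [hg, mul_inv_cancel_left]
  rw [hdg, hK.2.2.1 w (d2 ^ t) g hw0 (hft w hw) (hgf w hw),
    TG8a_kpow hK hd2 hw hw0 hk2 t, hk g hDL, add_zero]

theorem tTG8a : C_TG8a := by
  intro L LN P hS N hN ζ hζ w hw hw0 m₀ hm₀
  have hX := DI.GL.tX0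
  have hSt := DI.GL.tStb
  have hK := DI.GL.tKap
  have hPw := DI.GL.tPw
  have : P.IsPrime := hS.prime
  obtain ⟨m, hmN, hmm⟩ : ∃ m : ℕ, N + 1 ≤ m ∧ m₀ ≤ m := ⟨max (N + 1) m₀, le_max_left _ _,
    le_max_right _ _⟩
  have hkw : ∀ d : Gal(Om/ℚ), DL L P m d → kap w d = 0 := fun d hd => hm₀ d (TG8a_mono hmm hd)
  obtain ⟨z0, hz0, hz⟩ := TG8a_z0 (by omega : 1 ≤ N) (by omega : N ≤ m) hζ
  have hz01 : z0 ^ 2 ^ m = 1 := hz0.pow_eq_one
  have hz00 : z0 ≠ 0 := hz0.ne_zero (by positivity)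
  -- the two inertia elements
  have hodd1 : Odd (2 ^ m - 1) := by
    refine ⟨2 ^ (m - 1) - 1, ?_⟩
    have h1 : 2 ^ m = 2 * 2 ^ (m - 1) := by
      rw [← pow_succ']
      congr 1
      omega
    have h2 : 1 ≤ 2 ^ (m - 1) := Nat.one_le_two_pow
    omega
  have hodd2 : Odd (1 + 2 ^ N) := by
    rw [add_comm]
    exact Even.add_one (Nat.even_pow.2 ⟨even_two, by omega⟩)
  obtain ⟨d1, hd1i, hd1L, hd1⟩ := hS.iul m (2 ^ m - 1) hodd1
  obtain ⟨d2, hd2i, hd2L, hd2⟩ := hS.iul m (1 + 2 ^ N) hodd2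
  have hd1' : ∀ z : Om, z ^ 2 ^ m = 1 → d1 z = z⁻¹ := by
    intro z hz1
    rw [hd1 z hz1]
    refine eq_inv_of_mul_eq_one_left ?_
    rw [← pow_succ, Nat.sub_add_cancel Nat.one_le_two_pow]
    exact hz1
  have hst := hSt P hS.prime hS.two
  have hs1 : StP P d1 := hst.2.2.1 d1 hd1i
  have hs2 : StP P d2 := hst.2.2.1 d2 hd2i
  have hζ0 : ζ ≠ 0 := hζ.ne_zero (by positivity)
  have hζm : ζ ^ 2 ^ m = 1 := by
    obtain ⟨k, hk⟩ := Nat.exists_eq_add_of_le (by omega : N ≤ m)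
    rw [hk, pow_add, pow_mul, hζ.pow_eq_one, one_pow]
  have hd1ζ : d1 ζ = ζ⁻¹ := hd1' ζ hζm
  have hd2ζ : d2 ζ = ζ := by
    rw [hd2 ζ hζm, pow_add, pow_one, hζ.pow_eq_one, mul_one]
  have hf1 : Fx (LN N) d1 := (hS.lnx N ζ (by omega) hζ d1).2 ⟨hd1L, Or.inr hd1ζ⟩
  have hf2 : Fx (LN N) d2 := (hS.lnx N ζ (by omega) hζ d2).2 ⟨hd2L, Or.inl hd2ζ⟩
  -- `x`, `y`, `i`
  obtain ⟨hx0, -, -, -, hX5⟩ := hX P hS.prime hS.two N hN ζ hζ
  obtain ⟨ζ1, hζ1e⟩ : ∃ ζ1 : Om, ζ1 = z0 ^ 2 ^ (m - N - 1) := ⟨_, rfl⟩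
  have hζ1 : ζ1 ^ 2 = ζ := by
    rw [hζ1e, ← pow_mul, ← pow_succ, ← hz]
    congr 2
    omega
  have hm1 : z0 ^ 2 ^ (m - 1) = -1 := by
    have h1 : IsPrimitiveRoot (z0 ^ 2 ^ (m - 1)) 2 := by
      refine hz0.pow (by positivity) ?_
      rw [← pow_succ]
      congr 1
      omega
    exact h1.eq_neg_one_of_two_right
  have hζ1N : ζ1 ^ 2 ^ N = -1 := by
    rw [hζ1e, ← pow_mul, ← pow_add, ← hm1]
    congr 2
    omega
  have hζ1m : ζ1 ^ 2 ^ m = 1 := by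
    rw [hζ1e, ← pow_mul, mul_comm, pow_mul, hz01, one_pow]
  have hζ10 : ζ1 ≠ 0 := by rw [hζ1e]; exact pow_ne_zero _ hz00
  obtain ⟨y, hy⟩ : ∃ y : Om, y = ζ1 + ζ1⁻¹ := ⟨_, rfl⟩
  have hy2 : y ^ 2 = xx ζ := by rw [hy]; exact (hX5 ζ1 hζ1).1
  have hy0 : y ≠ 0 := by
    rintro rfl
    apply hx0
    rw [← hy2, zero_pow (by norm_num)]
  have hd1y : d1 y = y := by
    rw [hy, map_add, map_inv₀, hd1' ζ1 hζ1m, inv_inv, add_comm]
  have hd2y : d2 y = -y := by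
    have h1 : d2 ζ1 = -ζ1 := by
      rw [hd2 ζ1 hζ1m, pow_add, pow_one, hζ1N]
      ring
    rw [hy, map_add, map_inv₀, h1, inv_neg]
    ring
  obtain ⟨i, hi⟩ : ∃ i : Om, i = z0 ^ 2 ^ (m - 2) := ⟨_, rfl⟩
  have hi2 : i ^ 2 = -1 := by
    rw [hi, ← pow_mul, ← pow_succ, ← hm1]
    congr 2
    omega
  have him : i ^ 2 ^ m = 1 := by
    rw [hi, ← pow_mul, mul_comm, pow_mul, hz01, one_pow]
  have hi0 : i ≠ 0 := by rw [hi]; exact pow_ne_zero _ hz00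
  have hd1i' : d1 i = -i := by
    rw [hd1' i him]
    refine inv_eq_of_mul_eq_one_right ?_
    have h1 : i * -i = -(i ^ 2) := by ring
    rw [h1, hi2, neg_neg]
  have hi4 : i ^ 2 ^ N = 1 := by
    obtain ⟨k, rfl⟩ := Nat.exists_eq_add_of_le hN
    rw [pow_add, pow_mul]
    have h1 : i ^ 2 ^ 2 = 1 := by
      have : i ^ 2 ^ 2 = (i ^ 2) ^ 2 := by ring
      rw [this, hi2]
      ring
    rw [h1, one_pow]
  have hd2i' : d2 i = i := by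
    rw [hd2 i him, pow_add, pow_one, hi4, mul_one]
  have hneg : ∀ z : Om, z ≠ 0 → -z ≠ z := by
    intro z hz h
    apply hz
    have h1 : 2 * z = 0 := by linear_combination (-1 : Om) * h
    exact (mul_eq_zero.1 h1).resolve_left two_ne_zero
  have k1 : kap (-1) d1 = 1 := by
    refine TG8a_dec _ fun h => ?_
    have h1 := (hK.1 (-1) i d1 hi2).1 h
    rw [hd1i'] at h1
    exact hneg i hi0 h1
  have k2 : kap (-1) d2 = 0 := (hK.1 (-1) i d2 hi2).2 hd2i'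
  have k3 : kap (xx ζ) d1 = 0 := (hK.1 (xx ζ) y d1 hy2).2 hd1y
  have k4 : kap (xx ζ) d2 = 1 := by
    refine TG8a_dec _ fun h => ?_
    have h1 := (hK.1 (xx ζ) y d2 hy2).1 h
    rw [hd2y] at h1
    exact hneg y hy0 h1
  -- `x ∈ L_N`
  have hxm : xx ζ ∈ LN N := by
    refine mem_of_Fx fun τ hτ => ?_
    rcases ((hS.lnx N ζ (by omega) hζ τ).1 hτ).2 with h | h
    · unfold xx
      rw [map_add, map_add, map_inv₀, h, map_ofNat]
    · unfold xx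
      rw [map_add, map_add, map_inv₀, h, map_ofNat, inv_inv]
      ring
  -- choice of `e`, `b`
  obtain ⟨e, he, hek⟩ : ∃ e : Om, (e = 1 ∨ e = -1) ∧ kap w d1 + kap e d1 = 0 := by
    by_cases h : kap w d1 = 0
    · exact ⟨1, Or.inl rfl, by rw [h, TG8a_kap1 hK, add_zero]⟩
    · refine ⟨-1, Or.inr rfl, ?_⟩
      rw [TG8a_dec _ h, k1]
      decide
  obtain ⟨b, hb, hbk⟩ : ∃ b : ℕ, (b = 0 ∨ b = 1) ∧ kap w d2 + (b : ZMod 2) = 0 := by
    by_cases h : kap w d2 = 0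
    · exact ⟨0, Or.inl rfl, by rw [h, Nat.cast_zero, add_zero]⟩
    · refine ⟨1, Or.inr rfl, ?_⟩
      rw [TG8a_dec _ h, Nat.cast_one]
      decide
  refine ⟨e, b, he, hb, ?_⟩
  have hke2 : kap e d2 = 0 := by
    rcases he with rfl | rfl
    · exact TG8a_kap1 hK d2
    · exact k2
  obtain ⟨w', hw'⟩ : ∃ w' : Om, w' = w * (e * xx ζ ^ b) := ⟨_, rfl⟩
  have hK1 := TG8a_kap hK hw0 hx0 (hf1 w hw) (hf1 _ hxm) he hb
  have hK2 := TG8a_kap hK hw0 hx0 (hf2 w hw) (hf2 _ hxm) he hb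
  have hw'0 : w' ≠ 0 := by rw [hw']; exact mul_ne_zero hw0 hK1.1.1
  have hw'm : w' ∈ LN N := by
    refine mem_of_Fx fun τ hτ => ?_
    rw [hw', map_mul, hτ w hw, (TG8a_kap hK hw0 hx0 (hτ w hw) (hτ _ hxm) he hb).1.2]
  have q1 : kap w' d1 = 0 := by
    rw [hw', hK1.2, k3, mul_zero, add_zero]
    exact hek
  have q2 : kap w' d2 = 0 := by
    rw [hw', hK2.2, k4, mul_one, hke2, zero_add]
    exact hbk
  have q3 : ∀ d : Gal(Om/ℚ), DL L P m d → kap w' d = 0 := by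
    intro d hd
    have hζd : d ζ = ζ := hd.2.2 ζ hζm
    have hfd : Fx (LN N) d := (hS.lnx N ζ (by omega) hζ d).2 ⟨hd.2.1, Or.inl hζd⟩
    have hdi : d i = i := hd.2.2 i him
    have hdy : d y = y := by
      rw [hy, map_add, map_inv₀, hd.2.2 ζ1 hζ1m]
    have hke : kap e d = 0 := by
      rcases he with rfl | rfl
      · exact TG8a_kap1 hK d
      · exact (hK.1 (-1) i d hi2).2 hdi
    rw [hw', (TG8a_kap hK hw0 hx0 (hfd w hw) (hfd _ hxm) he hb).2, hkw d hd, hke,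
      (hK.1 (xx ζ) y d hy2).2 hdy, mul_zero, add_zero, add_zero]
  have hd2z : d2 z0 = z0 ^ (1 + 2 ^ N) := hd2 z0 hz01
  have hkey : ∀ d : Gal(Om/ℚ), StP P d → Fx (LN N) d → d ζ = ζ → kap w' d = 0 :=
    fun d hds hd hdz => TG8a_key hSt hK hPw hS hN hζ hz0 hz hw'm hw'0 hs2 hf2
      hd2z q2 q3 hds hd hdz
  intro r hr d hds hd
  rw [← hw'] at hr
  refine (hK.1 w' r d hr).1 ?_
  rcases ((hS.lnx N ζ (by omega) hζ d).1 hd).2 with h | h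
  · exact hkey d hds hd h
  · have h1 : StP P (d1 * d) := by
      rw [hst.2.1]
      exact Subgroup.mul_mem _ ((hst.2.1 d1).1 hs1) ((hst.2.1 d).1 hds)
    have h2 : Fx (LN N) (d1 * d) := hf1.mul hd
    have h3 : (d1 * d) ζ = ζ := by
      rw [AlgEquiv.mul_apply, h, map_inv₀, hd1ζ, inv_inv]
    have h4 := hkey (d1 * d) h1 h2 h3
    rw [hK.2.2.1 w' d1 d hw'0 (hf1 w' hw'm) (hd w' hw'm), q1, zero_add] at h4
    exact h4

end Pool.Agent.DN.GL
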