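import Pool.Agent.Lib.DN.GL.Spec
import Pool.Agent.Lib.DN.GL.Sq
import Pool.Agent.Lib.DN.IfaceL

/-!
# Theorem DN, part GL, second half (author helper89): the elliptic units and the local step

`z = z0 + d` as in `GL/Spec.lean` (`Pt k t f N z0 d`): `z0` of odd order `f`, `d` of exact order `2 ^ N`. `Der` is the derivation modulo `4`
of `GL/Spec.lean` (`X(z) ↦ W(z)` for the curve `ℂ / O`). This file: the derivation on the numbers `X(z + u)`, `X_c(h z)`, `Theta(c, h z)` and on the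
elliptic units `uN f N m T c`; the result is `LSS` (last statement), the local step up to the sum `∑ χ(c) (fr(c)/fr(1)) ∑ h g(c, h z_N)`.

Tools: `GL/Va.lean` (the valuation `vP P`, `GE P q x`: `vP_mul`, `vP_inv`, `vP_pow`, `vP_nonneg`, `vP_of_up`, `vP_inertia`, `vP_eq`, `GE.add`, `GE.sub`, `GE.neg`, `GE.mul`, `GE.mul_left`,
`GE.mul_right`, `GE.sum`, `GE.mono`, `GE.vp_iff`, `GE.two_iff`, `GE.div`), `DN/Base.lean` (`lam_add`, `lam_neg`, `lam_sub`, `lam_mul`, `lam_sp`, `lam_prod`, `lam_top`, `lam_mono`, `tor_iff`,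
`toC_..`, `toO_..`, `cop_..`), `DI/Val.lean` (`VP.add`, `UP.mul`, `MP.of_pow`, ...). The instance `P.IsPrime`: `have := hP.1.1` for `hP : Ab2 P`; `hP.2 : MP P 2`. THE PARTS O AND L ARE PROVED: `DN/O/All.lean` (imported):
`aO1 .. aO12`, `aL1 .. aL7` (statements `S_O1 ..` in `DN/Iface.lean` and `DN/O/Spec.lean`): use them directly. The abstract tower (`GL/Sq.lean`, imported) is proved: `tSq : C_Sq`.

RULES: the statement `S_X` is to be proved as `theorem tX : S_X` in the module `Pool/Agent/Lib/DN/GL/X.lean` with the first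
lines `import Pool.Agent.Lib.DN.GL.SpecB`, `set_option autoImplicit false`, `open scoped Pointwise`, `noncomputable section`,
`namespace Pool.Agent.DN.GL` and the `open` lines of this file. Auxiliary declarations are `private`. Every `C_X` is a statement, `S_X` the
implication from the statements used to `C_X`. All modules are independent.
-/

set_option autoImplicit false

open scoped Pointwise

noncomputable section

namespace Pool.Agent.DN.GL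

open Pool.Agent.MuZ Pool.Agent.FW Pool.Agent.DN
open Pool.Agent.DI (io ofC io_inj exists_io io_ofC ofC_io VP MP UP TP ex sqr sqr_sq kap)
open Pool.Agent.DI.GL (Fx StP xx mem_of_Fx Fx.mul Fx.inv Fx.one)

variable {k t : ℕ}

/-! ## Definitions -/

/-- `x` is a unit of level `f' 2^N` (`f'` an odd multiple of `f`), `y` is its logarithmic derivative modulo `4`. -/
def LD (k t : ℕ) (P : Ideal ZZ) (f N : ℕ) (z0 d : ℂ) (x y : Om) : Prop :=
  UP P x ∧ VP P y ∧ (∃ f' : ℕ, Odd f' ∧ f ∣ f' ∧ x ∈ EE k t (f' * 2 ^ N)) ∧ Der k t P z0 d x (x * y)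

/-- The logarithmic derivative of the elliptic unit: `-9 (fr(c)/fr(1)) ∑ h g(c, h z_N)`. -/
def SN (f N : ℕ) (m : Ideal (OO k t)) (T : Finset (OO k t)) (c : Ideal (OO k t)) : Om :=
  -9 * (rO (⊤ : Ideal (OO k t)) c * ∑ h ∈ T, toO h * gO m c (toC h / (f * 2 ^ N : ℕ)))

/-! ## Points -/

/-- The points `z + d`, `z` of odd order (`z ∉ Lam b`), `d` of order a power of two (also `d = 0`). -/
def C_Odq : Prop :=
  ∀ (k t : ℕ) [Ine k t] (P : Ideal ZZ), Ab2 P → ∀ b : Ideal (OO k t), G15 b → ∀ (f N : ℕ) (z d : ℂ), Odd f →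
    15 ∣ f → (f : ℂ) * z ∈ Lam b → z ∉ Lam b → (2 : ℂ) ^ N * d ∈ Lam b →
    ¬ Qp P b (z + d) ∧ ¬ IK P b (z + d) ∧ Tor k t (z + d) ∧ z + d ∉ Lam b ∧ VP P (xO b (z + d)) ∧
      UP P (vO b (z + d)) ∧ OA k t P (xO b z) ∧ OA k t P (vO b z) ∧ UP P (vO b z)

/-- (80 lines) **Odq** (from D2, Lev). PROOF. `Qp`: suppose `Qp P b (z + d)`. Take `α = f` (`¬ MP P (toO f)`: `toO f = f` is odd and `MP P 2`: `1 = f - 2 j`), `β = 2^N`: `toC (α β) (z + d) = 2^N (f z) + f (2^N d) ∈ Lam b`,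
so `2^N (z + d) ∈ Lam b`, `2^N z ∈ Lam b`; with `f z ∈ Lam b` and `a 2^N + c f = 1` (integers; `Nat.Coprime`, Bezout) `z ∈ Lam b`: contradiction. `Tor`: `tor_iff` (`b ≠ ⊥`) with `f * 2^N`. `z + d ∉ Lam b`: otherwise `Qp P b (z + d)` holds (`lam_mul`).
`¬ IK`: S_D2 (5); `VP`, `UP`: S_D2 (4). The same for `d := 0` (`N` arbitrary) gives `VP P (xO b z)`, `UP P (vO b z)`; `xO b z`, `vO b z ∈ EE k t f` by Lev (3) (`f z ∈ Lam b`): `OA` with the level `f`. -/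
def S_Odq : Prop := S_D2 → C_Lev → C_Odq

/-- The Kummer relation between `X(z)` and `X(z + u)`, its discriminant and its derivative. -/
def C_Kud : Prop :=
  ∀ (k t : ℕ) [Ine k t] (b : Ideal (OO k t)), G15 b → ∀ z u : ℂ, Tor k t z → Tor k t u → z ∉ Lam b →
    u ∉ Lam b → z + u ∉ Lam b → z - u ∉ Lam b → ∀ X X' U W W' V a c : Om, X = xO b z →
      X' = xO b (z + u) → U = xO b u → W = vO b z → W' = vO b (z + u) → V = vO b u → a = a1O b → c = a3O b →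
      (X - U) ^ 2 * X' ^ 2 - (2 * X * U * (X + U) + a ^ 2 * (X * U) + a * c * (X + U) + c ^ 2) * X' +
        (X ^ 2 * U ^ 2 - a * c * (X * U) - c ^ 2 * (X + U)) = 0 ∧
      2 * (X - U) ^ 2 * X' - (2 * X * U * (X + U) + a ^ 2 * (X * U) + a * c * (X + U) + c ^ 2) = -(W * V) ∧
      (2 * (X - U) * X' ^ 2 - (4 * X * U + 2 * U ^ 2 + a ^ 2 * U + a * c) * X' +
        (2 * X * U ^ 2 - a * c * U - c ^ 2)) * W = W * V * W'

/-- (120 lines) **Kud** (from B2, B3, R1). PROOF. By `io_inj` and S_R1 everything may be proved for the complex numbers `XC b z` etc. (`io (xO b z) = XC b z`, `io (vO b z) = WC b z`, `io (a1O b) = A1 b`, ...; `PrI b 15` is `G15.cop`). Let `X'' = XC b (z - u)`, `A = 2XU(X + U) + a²XU + ac(X + U) + c²`,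
`B = X²U² - acXU - c²(X + U)`. S_B3: `(X' + X'')(X - U)² = A`, `X' X'' (X - U)² = B`, `(X' - X'')(X - U)² = -W V`. (1): `(X - U)² X'² - A X' + B = 0` (`linear_combination`). (2): `2 (X - U)² X' - A = (X' - X'')(X - U)²`. (3): the points `s` with `s, s + u, s - u ∉ Lam b` are an open set which contains `z` (`Lam b` is the lattice of `LP b` (`aL1`), it is closed: `PeriodPair.isClosed_lattice` or as in `DN/B/`: grep `isClosed`),
so the function `s ↦ (X(s) - U)² X(s + u)² - A(s) X(s + u) + B(s)` vanishes near `z` and its derivative at `z` is `0`; by S_B2 (3) (`HasDerivAt (XC b) (fr b * WC b s) s`; for `s ↦ X(s + u)`: `HasDerivAt.comp_add_const` or `HasDerivAt.comp`) it is `fr b` times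
`2 (X - U) W X'² + (X - U)² 2 X' W' - (4XU + 2U² + a²U + ac) W X' - A W' + (2XU² - acU - c²) W`; `fr b ≠ 0` (S_B1 (6)). So with (2): `W Q - W V W' = 0`, `Q` the first factor in (3). -/
def S_Kud : Prop := S_B1 → S_B2 → S_B3 → S_R1 → C_Kud

/-! ## The derivation on `X(z + u)` and `X_c(h z)` -/

/-- Translation by points of odd order. -/
def C_Tru : Prop :=
  ∀ (k t : ℕ) [Ine k t] (P : Ideal ZZ), Ab2 P → ∀ (f N : ℕ) (z0 d : ℂ), Pt k t f N z0 d → 3 ≤ N →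
    ∀ (f' : ℕ) (u : ℂ), Odd f' → f ∣ f' → (f' : ℂ) * u ∈ Lam (⊤ : Ideal (OO k t)) →
      z0 + u ∉ Lam (⊤ : Ideal (OO k t)) →
      Der k t P z0 d (xO (⊤ : Ideal (OO k t)) (z0 + d + u)) (vO (⊤ : Ideal (OO k t)) (z0 + d + u))

/-- (130 lines) **Tru** (from B1, R1, Lev, Oa, Pi, Der, Odq, Kud). PROOF. `z = z0 + d`; `G15 ⊤`. If `u ∈ Lam ⊤`: periodicity (S_B1 (1) through S_R1, or directly: `xO b (z + u) = ofC (XC b (z + u))`, `XC b (z + u) = XC b z` by S_B1) and Der (8). Otherwise: `z0`, `u`, `z0 + u` have odd order dividing `f'` and are not in `Lam ⊤`. Odq: `UP P (vO ⊤ u)`, `OA (xO ⊤ u)`, `OA (vO ⊤ u)`;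
`VP P (xO ⊤ (z0 + u + d))`, `z0 + u + d ∉ Lam ⊤`; `z ∉ Lam ⊤`. `z - u ∉ Lam ⊤`: otherwise `f' 2^(N-1) (z - u) ∈ Lam ⊤`, so `f' 2^(N-1) d ∈ Lam ⊤` and (`2^N d ∈ Lam ⊤`, `f'` odd) `2^(N-1) d ∈ Lam ⊤`, against `Pt.dn`. Kud with `b = ⊤`: `X, X', U, W, W', V, a, c`. `X' ∈ EE k t (f' 2^N)` (Lev (3): `f' 2^N (z + u) ∈ Lam ⊤`), `VP P X'`: Der (7): `y` with `Der X' y`. By the rules
(4), (5), (8) (`U`, `a`, `c` are in `OA`: derivative `0`; `a`, `c`: Pi) the left side of Kud (1) has the derivative `2 (X - U) W X'² + 2 (X - U)² X' y - (4XU + 2U² + a²U + ac) W X' - A y + (2XU² - acU - c²) W`, and it is `0`, so this is `0` modulo `4` (Der (1), with (4) for the constant `0`). By Kud (2), (3) it is `W V W' - W V y`. `W` is a unit (Pi, `h = 1`: `toC 1 * d = d`), `V` is a unit: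
`GE P 2 (W' - y)` (`GE.mul_left` with `(W V)⁻¹`); Der (2). HINT: prove Der for the polynomial expression step by step with the explicit derivatives, and finish with one `linear_combination`-like `GE` argument. -/
def S_Tru : Prop := S_B1 → S_R1 → C_Lev → C_Oa → C_Pi → C_Der → C_Odq → C_Kud → C_Tru

/-- Isogenies and multiplication: the lattice `Lam c` and the point `h z`. -/
def C_Trh : Prop :=
  ∀ (k t : ℕ) [Ine k t] (P : Ideal ZZ), Ab2 P → ∀ (f N : ℕ) (z0 d : ℂ), Pt k t f N z0 d → 3 ≤ N →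
    ∀ (c : Ideal (OO k t)) (h : OO k t), G15 c → PrI c 2 → h ≠ 0 → Cop h 2 → z0 ∉ Lam (sp h * c) →
      Der k t P z0 d (xO c (toC h * (z0 + d)))
        (toO h * rO (⊤ : Ideal (OO k t)) c * vO c (toC h * (z0 + d)))

/-- The formulas for the isogeny. `R` is a system for `Lam (h c) / O`. -/
def C_Iso : Prop :=
  ∀ (k t : ℕ) [Ine k t] (c : Ideal (OO k t)) (h : OO k t), G15 c → h ≠ 0 → ∀ R : Finset ℂ,
    IsSys (sp h * c) (⊤ : Ideal (OO k t)) R → ∀ z z' : ℂ, Tor k t z → Tor k t z' → z ∉ Lam (sp h * c) →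
    z' ∉ Lam (sp h * c) →
    (toO h * rO (⊤ : Ideal (OO k t)) c) ^ 2 * (xO c (toC h * z) - xO c (toC h * z')) =
      ∑ u ∈ R, (xO (⊤ : Ideal (OO k t)) (z + u) - xO (⊤ : Ideal (OO k t)) (z' + u)) ∧
    (toO h * rO (⊤ : Ideal (OO k t)) c) ^ 3 * vO c (toC h * z) =
      ∑ u ∈ R, vO (⊤ : Ideal (OO k t)) (z + u)

/-- (80 lines) **Iso** (from B1, B7, B9, R1). PROOF. Through `io` (S_R1; `io (toO h) = toC h`: `io_toO`; `Tor`: `u ∈ Lam (sp h * c * ⊤)` is a torsion point, `tor_lam`, `tor_add`, `tor_mul`). S_B7 (1) for the lattice `c`, `α = h`: `wpC (sp h * c) z = toC h ^ 2 * wpC c (toC h * z)`, `wdC (sp h * c) z = toC h ^ 3 * wdC c (toC h * z)`. S_B9 for `a = sp h * c`, `b = ⊤`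
(`a * ⊤ = a`: `Ideal.mul_top`; `R` is `IsSys a ⊤`): `wpC a z - wpC a z' = ∑ (wpC ⊤ (z + u) - wpC ⊤ (z' + u))`, `wdC a z = ∑ wdC ⊤ (z + u)`. With `XC b z = (wpC b z - wpC b (1/3))/fr b ^ 2`, `WC b z = wdC b z / fr b ^ 3`, `io (rO ⊤ c) = fr c / fr ⊤`, `fr c ≠ 0`, `fr ⊤ ≠ 0` (S_B1 (6)): `(h fr c / fr ⊤)² (XC c (h z) - XC c (h z')) = h² (wpC c (h z) - wpC c (h z'))/fr ⊤ ²`. -/
def S_Iso : Prop := S_B1 → S_B7 → S_B9 → S_R1 → C_Iso

/-- (120 lines) **Trh** (from R1, D2, Lev, Oa, Pi, Der, Odq, Tru, Iso). PROOF. `z = z0 + d`, `a = sp h * c ≠ ⊥`, `NI a = Nm h * NI c` is odd (`aO2`, `aO6` (3), `Cop h 2`). `f' = f * NI a`. `R` with `IsSys a ⊤ R` (`aL3`). Every `u ∈ R` is in `Lam (a * ⊤) = Lam a`, so `NI a * u ∈ Lam ⊤` (`(NI a : O) ∈ a`: `a * cjI a = sp (NI a)`, `aO3`; `lam_prod`), `f' u ∈ Lam ⊤`;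
`z0 + u ∉ Lam ⊤` (otherwise `z0 ∈ Lam a`: `lam_mono`). Tru: `Der (X(z + u)) (W(z + u))`. `X(z0 + u) ∈ OA` (Odq, `f' (z0 + u) ∈ Lam ⊤`). `h z0`: `f (h z0) ∈ Lam ⊤ ⊆ Lam c`, `h z0 ∉ Lam c` (`lam_sp`): Odq for `b = c`: `xO c (h z0) ∈ OA`, `h z0 + h d ∉ Lam c`, so `z ∉ Lam a`. `r = toO h * rO ⊤ c` is a unit in `OA`
(Lev (2), (3); S_D2 (7) with `b = ⊤`, `a = c`, `c * ⊤ = c`; `UP P (toO h)`: `Cop h 2`: `toO h * toO (cjO h) = Nm h` odd), so `κ = (r²)⁻¹ ∈ OA` (Oa (5)). Iso (1) for `z, z0`: `xO c (h z) = κ ∑_u (X(z + u) - X(z0 + u)) + xO c (h z0)`, so by Der (4), (5) (induction over `R`: `Finset.induction_on`) its derivative is `κ ∑_u W(z + u)`, which is `κ r³ vO c (h z) = r vO c (h z)` (Iso (2)). -/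
def S_Trh : Prop := S_D2 → C_Lev → C_Oa → C_Der → C_Odq → C_Tru → C_Iso → C_Trh

/-! ## Logarithmic derivatives -/

/-- The rules for logarithmic derivatives. -/
def C_LDr : Prop :=
  ∀ (k t : ℕ) [Ine k t] (P : Ideal ZZ), Ab2 P → ∀ (f N : ℕ) (z0 d : ℂ), Pt k t f N z0 d → 3 ≤ N →
    (∀ a : Om, OA k t P a → UP P a → LD k t P f N z0 d a 0) ∧
    (∀ x y x' y' : Om, LD k t P f N z0 d x y → LD k t P f N z0 d x' y' →
      LD k t P f N z0 d (x * x') (y + y')) ∧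
    (∀ x y : Om, LD k t P f N z0 d x y → LD k t P f N z0 d x⁻¹ (-y)) ∧
    (∀ (x y : Om) (j : ℕ), LD k t P f N z0 d x y → LD k t P f N z0 d (x ^ j) (j * y)) ∧
    (∀ (ι : Type) (S : Finset ι) (x y : ι → Om), (∀ i ∈ S, LD k t P f N z0 d (x i) (y i)) →
      LD k t P f N z0 d (∏ i ∈ S, x i) (∑ i ∈ S, y i)) ∧
    (∀ (f' : ℕ) (x y : Om), Odd f' → f ∣ f' → x ∈ EE k t (f' * 2 ^ N) → UP P x → Der k t P z0 d x y →
      LD k t P f N z0 d x (y / x)) ∧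
    ∀ x y y' : Om, LD k t P f N z0 d x y → LD k t P f N z0 d x y' → GE P 2 (y - y')

/-- (100 lines) **LDr** (from Lev, Der). PROOF. The level of a product: `f'`, `f''` odd multiples of `f`, `f' f''` is a multiple of both (Lev (1); `f' * 2^N ∣ f' * f'' * 2^N`). Products: Der (5): `x (x' y') + x' (x y) = x x' (y + y')`. Inverse: Der (6): `-((x y)/x²) = x⁻¹ (-y)`. Constants: Der (4), the level of `a ∈ OA`: `a ∈ EE k t f1`, take `f' = f * f1`. `VP P y`: in the last but one `Der` (3). Powers,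
finite products: induction (`x ^ 0 = 1`: constants with `OA 1`: `VP.one`, `one_mem (EE k t 15)`). Last: Der (1) and `UP P x`: `GE P 2 (x (y - y'))`, `GE.mul_left` with `x⁻¹`. -/
def S_LDr : Prop := C_Lev → C_Der → C_LDr

/-- **Tht.** The logarithmic derivative of `Theta`. -/
def C_Tht : Prop :=
  ∀ (k t : ℕ) [Ine k t] (P : Ideal ZZ), Ab2 P → ∀ (f N : ℕ) (z0 d : ℂ), Pt k t f N z0 d → 3 ≤ N →
    ∀ (m c : Ideal (OO k t)) (h : OO k t), m ≠ ⊥ → PrI m 2 → PrI m 15 → G15 c → PrI c 2 → h ≠ 0 →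
      Cop h 2 → z0 ∉ Lam (m * (sp h * c)) →
        LD k t P f N z0 d (Theta m c (toC h * (z0 + d)))
          (-9 * (toO h * rO (⊤ : Ideal (OO k t)) c * gO m c (toC h * (z0 + d))))

/-- (170 lines) **Tht** (from B14, R1, D2, D9, Lev, Oa, Der, Odq, Trh, LDr). PROOF. `z = z0 + d`, `x = xO c (h z)`, `r = toO h * rO ⊤ c`, `v = vO c (h z)`. `z0 ∉ Lam (sp h * c)` (`lam_mono`), so Trh: `Der x (r v)`. `Theta m c (h z) = ∏_(u ∈ hs m c) (W2 c u * ((x - xO c u)^3)⁻¹)^3` (definition). `u ∈ hs m c`: `u ∈ Lam (m c)`, `u ∉ Lam c` (S_B14 (1), `IsHalf.mem`; `PrI m 2`);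
`NI m * u ∈ Lam c` (`(NI m : O) ∈ m`: `m * cjI m = sp (NI m)`, `aO3`, `lam_prod`; `NI m` odd: `aO6` (3)). Put `f' = f * NI m` (odd, `15 ∣ f'`, `f ∣ f'`). Odq for `b = c`: `OA (xO c u)`, `OA (vO c u)`, `UP P (vO c u)`, and `¬ IK P c u` (`d := 0`). `h z0 ∉ Lam (m c)` (`Lam (m * (sp h * c)) = Lam (sp h * (m * c))`: `mul_left_comm`, `lam_sp`), so `h z0 ± u ∉ Lam c` (`lam_mono`: `u ∈ Lam (m c)`),
`f' (h z0 ± u) ∈ Lam c`, `2^N (h d) ∈ Lam c` (`Lam ⊤ ⊆ Lam c`). Odq: `¬ Qp P c (h z ± u)`, `¬ IK P c (h z)`: S_D2 (6): `UP P (x - xO c u)`. `W2 c u = vO c u ^ 2` (the curve: S_B2 (2) through S_R1): a unit in `OA`. `x - xO c u ∈ EE k t (f' 2^N)` (Lev). LDr (6) for `x - xO c u` with `Der (x - xO c u) (r v - 0)`: the logarithmic derivative is `r v / (x - xO c u)`;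
LDr: the factor has `3 (0 - 3 r v/(x - xO c u))`, the product `-9 r ∑_u v (x - xO c u)⁻¹ = -9 r gO m c (h z)` by S_D9 (for all `u' ∈ Lam (m c)`: `¬ Qp P c (h z + u')`, as before by Odq with the odd number `f'`). -/
def S_Tht : Prop :=
  S_B2 → S_B14 → S_R1 → S_D2 → S_D9 → C_Lev → C_Oa → C_Der → C_Odq → C_Trh → C_LDr → C_Tht

/-! ## The elliptic units -/

/-- The point `1/(f 2^N)`. -/
def C_Pnt : Prop :=
  ∀ (k t : ℕ) [Ine k t] (f N : ℕ), Odd f → 15 ∣ f → 1 ≤ N → ∃ z0 d : ℂ, Pt k t f N z0 d ∧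
    z0 + d = 1 / (f * 2 ^ N : ℕ) ∧ ∀ a : Ideal (OO k t), a ≠ ⊥ → PrI a f → z0 ∉ Lam a

/-- (60 lines) **Pnt**. PROOF. `a0 2^N + c0 f = 1` (integers; `f` odd), `z0 = a0/f`, `d = c0/2^N`: `z0 + d = (a0 2^N + c0 f)/(f 2^N)`. `f z0 = a0`, `2^N d = c0` are in `Lam ⊤` (`lam_top`, `toC_int`). `z0 = toC (a0 : O)/f ∈ Lam a` iff `f ∣ (a0 : O)` (`aL6` (1)) iff `f ∣ a0` in `ℤ` (`nat_dvd_iff`), impossible since `c0 f + a0 2^N = 1`, `15 ∣ f` (`f ≠ 1`). `Pt.zn`: `a = ⊤`. `Pt.dn`: `2^(N-1) d = c0/2`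
`= toC (c0 : O)/2 ∈ Lam ⊤` iff `2 ∣ c0` (`aL6` (1) for `N := 2`), but `c0 f = 1 - a0 2^N` is odd. -/
def S_Pnt : Prop := C_Pnt

/-- Inertia and the fields `L'`, `L'_N`. -/
def C_Mnf : Prop :=
  ∀ (k t : ℕ) [Ine k t] (P : Ideal ZZ), Ab2 P → ∀ f : ℕ, Odd f → 15 ∣ f →
    Mf k t f ≤ EE k t (f * 2 ^ 1) ∧ (∀ N : ℕ, 1 ≤ N → Mn k t f N ≤ EE k t (f * 2 ^ N)) ∧
    Mn k t f 0 ≤ Mf k t f ∧
    ∀ (f' N : ℕ) (h : OO k t) (τ : Gal(Om/ℚ)), 1 ≤ N → Odd f' → f ∣ f' → Cls P f' N h τ → Hq f' N h →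
      ∀ x ∈ Mn k t f N, τ x = x

/-- (90 lines) **Mnf** (from E1, GM, Unr, In). PROOF. `FixI M H`, `EE k t M = FixI M (Ray · ⊤)`. (1) `x ∈ Mf`, `τ ∈ GK`, `Psi τ (f 2^1) a`, `Ray (f 2^1) a ⊤` (`f * 2 ^ 1 = 2 * f`): `HP f a` by S_GM ((1): `HP f ⊤` and invariance, `Ray` is symmetric: `aO7`), so `τ x = x`. (2) The same with `HPN f N`. (3) `x ∈ Mn k t f 0`; let `τ ∈ GK`, `Psi τ (2 f) a`, `HP f a`: `Ray (2 f) a (sp v)`, `Hf f v`, `v ≠ 0`. `Psi τ f a`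
(S_E1 (5); `f * 2 ^ 0 = f`), `Ray f a (sp v)` (`aO7` (7)), `HN f 0 v` (`2 ^ 0 = 1` divides everything): `HPN f 0 a`, `τ x = x` by the definition of `Mn k t f 0 = FixI (f * 2 ^ 0) (HPN f 0)`. (4) `τ ∈ GK` (Unr (1)); `Cls P f N h τ` (In (6)), so `Psi τ (f 2^N) (sp h)`. `HPN f N (sp h)`: `v = h` (`h ≠ 0` by `Cop h 2`), `Ray` reflexive; `HN f N h`: `Nm h = 1` modulo `2^N` (`Hq`; `2 ^ N` divides `Nm h - 1`), `Hf f h` with `j = 0`:
`2 f ∣ h - 1` (`f ∣ f' ∣ h - 1`, `4 ∣ h - 1`, `f` odd), `Cop h (2 f)` (`cop_congr` with `1`). S_GM (the claim on `Psi τ (f 2^N) a`, direction `←`). -/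
def S_Mnf : Prop := S_E1 → S_GM → C_Unr → C_In → C_Mnf

/-- **Un4.** The logarithmic derivative of the elliptic unit, and its valuation. -/
def C_Un4 : Prop :=
  ∀ (k t : ℕ) [Ine k t] (P : Ideal ZZ), Ab2 P → ∀ (f N : ℕ) (m : Ideal (OO k t)) (T : Finset (OO k t)),
    FM f m → 3 ≤ N → IsRep f N T → ∀ z0 d : ℂ, Pt k t f N z0 d → z0 + d = 1 / (f * 2 ^ N : ℕ) →
    (∀ a : Ideal (OO k t), a ≠ ⊥ → PrI a f → z0 ∉ Lam a) → ∀ c : Ideal (OO k t), c ≠ ⊥ → PrI c (2 * f) →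
      LD k t P f N z0 d (uN f N m T c) (SN f N m T c) ∧ GE P (2 / 3 - 3 / 2 ^ N) (SN f N m T c)

/-- (100 lines) **Un4** (from G3, Fix, Mnf, LDr, Tht). PROOF. `uN f N m T c = ∏_(h ∈ T) Theta m c (toC h / (f 2^N))`, `toC h / (f 2^N) = toC h * (z0 + d)`. `h ∈ T`: `HN f N h`, so `Cop h (2 f)`, `h ≠ 0`. `a = m * (sp h * c)` is nonzero and prime to `f` (`aO6`), so `z0 ∉ Lam a`. `G15 c`, `PrI c 2`, `PrI m 15` (`aO6` (2), `15 ∣ f`). Tht for each `h`, LDr (5); the sum of the logarithmic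
derivatives is `SN` (`Finset.mul_sum`, `toC h * (z0 + d) = toC h / ..`). VALUATION: `uN ∈ Mn k t f N` (S_G3 (1)) is fixed by the inertia elements with `Hq f' N h` (Mnf (4) with `f' = f`), `Der (uN) (uN * SN)`: Fix with `f' = f`: `GE (2/3 - 3/2^N) (uN * SN)`; `uN` is a unit (`GE.mul_left` with the inverse). -/
def S_Un4 : Prop := S_G3 → C_Fix → C_Mnf → C_LDr → C_Tht → C_Un4

/-! ## The tower `L'_N` -/

/-- The abstract tower applies. -/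
def C_SitM : Prop :=
  ∀ (k t : ℕ) [Ine k t] (P : Ideal ZZ), Ab2 P → ∀ f : ℕ, Odd f → 15 ∣ f → SitT (Mf k t f) (Mn k t f) P

/-- (140 lines) **SitM** (from E9, GM, Unr, In, Sur, Ext, Mnf). PROOF. `prime`, `two`: `hP.1.1`, `hP.2`. `nrm`, `lnn`: S_E9 (1), (2). `lnx`: S_GM (last). `lze`: Mnf (3). `iul`: `u' = u ^ e` with `3 e ≡ 1` modulo `2^m` (`Nat.exists_mul_emod_eq_one_of_coprime` or e.g. `e = 3 ^ (2 ^ m - 1)`-like; any `e` with `2^m ∣ 3 e - 1`, `1 ≤ e`): `u'^3 = u ^ (3 e) = u * (u ^ (2^m)) ^ j ≡ u` modulo `2^m`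
(`u ^ 2^m ≡ 1` modulo `2^m` for odd `u`: `Nat.ModEq.pow_totient`, `φ(2^m) ∣ 2^m`). `DI.GL.tIu` gives `ι0 ∈ P.inertia` with `ι0 z = z ^ u'` if `z ^ 2^m = 1`; `ι = ι0 * ι0 * ι0`: `ι z = z ^ (u'^3) = z ^ u`, and `ι x = x` for `x ∈ Mf` by S_E9 (5). `nhf`: suppose `x ∈ Mf`, `UP P (x² / 2)`: `x ≠ 0`, `vP P x = 1/2` (`vP_eq`). Let `h = ⟨1 - f, f⟩ = 1 + f (w - 1)`
(so `f ∣ h - 1`, `2 ∣ h - wI` as `f` is odd; `Cop h 2`: `aO4`), `σ` an inertia element with `Cls P f 1 h σ` (Sur, `N = 1`). `y = x * σ x * σ (σ x)`: `σ y = y` by S_E9 (5), `y ∈ Mf` (S_E9 (1)) `⊆ EE k t (f 2^1)` (Mnf (1)), `vP P y = 3/2` (`vP_inertia`, `vP_mul`). Every inertia element `τ` fixes `y`: `Cls P f 1 h' τ` (In (1)), `h'` is congruent modulo `2` to `1`, `wI` or `1 + wI` (`aO4` (8)), i.e. to `1`, `h` or `h²`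
(`w² = w - k`, `k` odd), so by In (3), (4), (5) (`Cls P f 1 1 1`: In (1) for `τ = 1` and In (3), or directly) `τ` acts on `EE k t (f 2^1)` as `1`, `σ` or `σ * σ`. Ext (`N = 1`): `y ∈ EE k t f`, so `vP P y ∈ ℤ` (Unr (2)): contradiction (`3/2 = j`). -/
def S_SitM : Prop := S_E9 → S_GM → C_Gal → C_Unr → C_In → C_Sur → C_Ext → C_Mnf → C_SitM

/-- **Res.** If the Kummer character of the unit `w` of `L'_N` vanishes on `D_P ∩ Gal(Om/L'_∞(i))`, then its logarithmic derivative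
has valuation at least `5/3 - 3/2^N`. -/
def C_Res : Prop :=
  ∀ (k t : ℕ) [Ine k t] (P : Ideal ZZ), Ab2 P → ∀ (f N : ℕ) (z0 d : ℂ), Pt k t f N z0 d → 3 ≤ N →
    ∀ w ∈ Mn k t f N, (∀ g : Gal(Om/ℚ), DD (Mn k t f) P g → kap w g = 0) → ∀ y : Om,
      LD k t P f N z0 d w y → GE P (5 / 3 - 3 / 2 ^ N) y

/-- (80 lines) **Res** (from Der, Fix, Mnf, SitM). PROOF. `tSq` (GL/Sq.lean) with SitM: `e = ± 1` and, for `M = 2`, `r ∈ Mn k t f N` with `w e - r² = 2 ^ 2 * s`, `VP P s`. `r, s ∈ EE k t (f 2^N)` (Mnf (2); `s = (w e - r²)/4`), `VP P r` (`r² = w e - 4 s`, `VP.of_pow`). Der (7): `Der r y1`, `Der s y2`. `Der w (w y)` gives `Der (w e) (w y e)` (Der (5), (4): `e` is a constant; or `± `), and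
`w e = r * r + 4 * s` has the derivative `2 r y1 + 4 y2` (constants `4`), so `GE P 2 (e w y - 2 r y1 - 4 y2)` (Der (1)), `GE P 2 (e w y - 2 r y1)` (`GE P 2 (4 y2)`: `vP P 4 = 2`, `GE.mul_right`). Fix for `r` (Mnf (4), `f' = f`): `GE P (2/3 - 3/2^N) y1`, so `GE P (5/3 - 3/2^N) (2 r y1)` (`GE P 1 2`, `GE.mul`), `5/3 - 3/2^N ≤ 2`. Divide by the unit `e w` (`UP`: `GE.mul_left` with `(e w)⁻¹`). -/
def S_Res : Prop := C_Lev → C_Oa → C_Der → C_Fix → C_Mnf → C_SitM → C_Res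

/-! ## The result -/

/-- **LSS.** The local step: from the Kummer characters to the sum `∑ χ(c) (fr(c)/fr(1)) ∑ h g(c, h z_N)`. -/
def C_LSS : Prop :=
  ∀ (k t : ℕ) [Ine k t] (f : ℕ) (m : Ideal (OO k t)) (χ : Ideal (OO k t) → Om) (P : Ideal ZZ), FM f m →
    IsChi (2 * f) χ → Ab2 P → ∀ (N : ℕ) (T : Finset (OO k t)) (D : Finset (Ideal (OO k t))), 3 ≤ N →
    IsRep f N T → (∀ c ∈ D, c ≠ ⊥ ∧ PrI c (2 * f)) →
    (∀ d : Gal(Om/ℚ), IsD k t f P d → MP P (∑ c ∈ D, χ c * ((kap (uN f N m T c) d).val : Om))) →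
    GE P (5 / 3 - 3 / 2 ^ N)
      (∑ c ∈ D, χ c * (rO (⊤ : Ideal (OO k t)) c * ∑ h ∈ T, toO h * gO m c (toC h / (f * 2 ^ N : ℕ))))

/-- (180 lines) **LSS** (from G3, LDr, Pnt, Un4, Res). Compare `DK/GL/G9.lean` (`S_G9`); `import Pool.Agent.Lib.DK.GL.RR`, `Pool.Agent.Lib.DK.GL.Lin`: `DK.GL.tRR : S_RR`, `DK.GL.tLin : S_Lin` are proved, `DI.GL.tKap : DI.GL.S_Kap`, and the first hypothesis of `S_RR` is the second part of `DI.GL.tArch`. PROOF. Pnt: `z0, d`. Un4 for `c ∈ D`: `LD (u c) (s c)`, `GE P (2/3 - 3/2^N) (s c)`, `u c = uN f N m T c`,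
`s c = SN f N m T c`. `VP P (χ c)` (`χ c = 0` or `χ c ^ m' = 1`, `m'` odd: IsChi). Lin: `n, b, e` (`e i c : ℕ`). For `c ∈ D` the element `ρ c = χ c - ∑ i, e i c * χ (b i)` is in `Algebra.adjoin ℤ (Set.range χ)` and in `M_P`, so `TP P 2 (ρ c)` (RR). `w i = ∏_(c ∈ D) u c ^ e i c`: in `Mn k t f N`, a unit (S_G3 (1), (3)). For `g` with `DD (Mn k t f) P g` (this is `IsD k t f P g`; then `g (u c) = u c`):
`∑ χ c * (kap (u c) g).val = ∑ ρ c * (..) + ∑ i, (∑_(c ∈ D) e i c * (kap (u c) g).val : ℕ) * χ (b i)`, so the last sum is in `M_P` and by Lin `2 ∣ ∑_(c ∈ D) e i c * (kap (u c) g).val` for all `i`; in `ZMod 2` this is `kap (w i) g = 0` (the fourth part of `tKap` is for `OO`-indexed families of `DI`: prove the formula `kap (∏ u c ^ e c) g = ∑ e c * kap (u c) g` by induction from the parts 1, 2, as in `DK/GL/G9.lean`).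
LDr (4), (5): `LD (w i) (∑_(c ∈ D) e i c * s c)`; Res: `GE P (5/3 - 3/2^N) (∑_c e i c * s c)`. So `∑ χ c * s c = ∑ ρ c * s c + ∑ i, χ (b i) * ∑_c e i c * s c` is in `GE P (5/3 - 3/2^N)`: the first sum by `GE P 1 (ρ c)` (`GE.two_iff`) and `GE.mul`. Finally `s c = -9 * (..)`: divide by the unit `-9` (`9` is odd). -/
def S_LSS : Prop := S_G3 → C_LDr → C_Pnt → C_Un4 → C_Res → C_LSS

/-! ## The composition -/

/-- The inputs of this part (besides `GLIn`, `GLOut`). -/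
structure GLInB : Prop where
  B3 : S_B3
  B9 : S_B9
  B14 : S_B14
  D9 : S_D9
  E9 : S_E9
  GM : S_GM
  G3 : S_G3

theorem asmGLB (i : GLIn) (j : GLInB) (o : GLOut) (odq : S_Odq) (kud : S_Kud) (tru : S_Tru) (iso : S_Iso)
    (trh : S_Trh) (ldr : S_LDr) (tht : S_Tht) (pnt : S_Pnt) (mnf : S_Mnf) (un4 : S_Un4) (sitm : S_SitM)
    (res : S_Res) (lss : S_LSS) : C_LSS :=
  have Odq := odq i.D2 o.Lev
  have Kud := kud i.B1 i.B2 j.B3 i.R1
  have Tru := tru i.B1 i.R1 o.Lev o.Oa o.Pi o.Der Odq Kud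
  have Iso := iso i.B1 i.B7 j.B9 i.R1
  have Trh := trh i.D2 o.Lev o.Oa o.Der Odq Tru Iso
  have LDr := ldr o.Lev o.Der
  have Tht := tht i.B2 j.B14 i.R1 i.D2 j.D9 o.Lev o.Oa o.Der Odq Trh LDr
  have Mnf := mnf i.E1 j.GM o.Unr o.In
  have Un4 := un4 j.G3 o.Fix Mnf LDr Tht
  have SitM := sitm j.E9 j.GM o.Gal o.Unr o.In o.Sur o.Ext Mnf
  have Res := res o.Lev o.Oa o.Der o.Fix Mnf SitM
  lss j.G3 LDr pnt Un4 Res

end Pool.Agent.DN.GL
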