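import Pool.Agent.Lib.DN.GL.SpecT
import Pool.Agent.Lib.DN.IfaceC

/-!
# Theorem DN, part GL (author helper66), third file: part T of the interface (`S_T0`, `S_T1`, `S_T2`) and the trace lemma for `ζ`

Elements of `Om` which are not in a field of the tower: `KI P x`: `x` is fixed by the whole inertia group (then `v(x) ∈ ℤ`, `C_K0`);
`FI k t P f N x`: `x` is fixed by the inertia elements which are trivial on the points of order `f 2 ^ N`.

RULES as in `GL/Spec.lean`: `theorem tX : S_gX` in the module `Pool/Agent/Lib/DN/GL/X.lean` (names `T0g, T1g, T2g, K0, MonoK, Pz, TrZ`) with the first line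
`import Pool.Agent.Lib.DN.GL.SpecU`. All modules are independent. The parts O, L, B are proved (`DN/O/All.lean`: `aO1 ..`, `aL1 ..`; `DN/B/All.lean`: `aB1 ..`): they may be imported and used directly.
-/

set_option autoImplicit false

open scoped Pointwise

noncomputable section

namespace Pool.Agent.DN.GL

open Pool.Agent.MuZ Pool.Agent.FW Pool.Agent.DN
open Pool.Agent.DI (io ofC io_inj exists_io io_ofC ofC_io VP MP UP TP ex)

variable {k t : ℕ}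

/-- `x` is fixed by the inertia group. -/
def KI (P : Ideal ZZ) (x : Om) : Prop := ∀ τ ∈ P.inertia Gal(Om/ℚ), τ x = x

/-- `x` is fixed by the inertia elements which are trivial on the points of order `f 2 ^ N`. -/
def FI (k t : ℕ) (P : Ideal ZZ) (f N : ℕ) (x : Om) : Prop :=
  ∀ τ ∈ P.inertia Gal(Om/ℚ), Psi τ (f * 2 ^ N) (⊤ : Ideal (OO k t)) → τ x = x

/-- The fixed field of the inertia group is unramified: its value group is `ℤ`. -/
def C_K0 : Prop :=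
  ∀ P : Ideal ZZ, P.IsPrime → MP P 2 → ∀ x : Om, KI P x → x ≠ 0 → ∃ j : ℤ, vP P x = j

/-- (150 lines) **K0.** PROOF. Let `E` be the normal closure of `ℚ(x)` (finite, Galois over `ℚ`), `w = P ∩ 𝓞 E`, `I = w.asIdeal.inertia Gal(E/ℚ)`, `F = E^I` (`IntermediateField.fixedField`). `x ∈ F`: every `σ ∈ I` is the restriction of an element `τ ∈ P.inertia Gal(Om/ℚ)` (`tEIne`, as in `DT/GL/UnrT.lean` and `DN/GL/Ram.lean`, helper99), and `τ x = x`.
The inertia group of `w` in `Gal(E/F)` is `I` again, so by `Ideal.card_inertia_eq_ramificationIdxIn` for `E/ℚ` and for `E/F`: `e(E/ℚ) = card I = e(E/F)`, hence `e(F/ℚ) = 1` at `w ∩ 𝓞 F` (`Ideal.ramificationIdx_tower`, or compare directly: `w.valuation E 2 = exp (-card I)`, and for `y ∈ F` the valuation `w.valuation E y` is a power of `exp (-card I)` because `E/F` has ramification index `card I`).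
So `w.valuation E x = exp (-(card I) j)`, `j : ℤ`; then `x / 2 ^ j` is a unit at `w`, hence at `P` (theorem `com` of `GL/Va.lean`), and `vP P x = j` (`vP_eq`). -/
def S_K0 : Prop := C_K0

/-- **MonoK.** Every `P`-integral element of `Om` fixed by the inertia elements of level `f' 2^N` is a polynomial in `π` whose coefficients are `P`-integral and fixed by inertia. -/
def C_MonoK : Prop :=
  ∀ (k t : ℕ) [Ine k t] (P : Ideal ZZ), Ab2 P → ∀ (f N : ℕ) (z0 d : ℂ), Pt k t f N z0 d →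
    ∀ f' : ℕ, Odd f' → f ∣ f' → ∀ x : Om, FI k t P f' N x → VP P x →
      ∃ F : Polynomial Om, (∀ i : ℕ, VP P (F.coeff i) ∧ KI P (F.coeff i)) ∧
        F.eval (pH z0 d (1 : OO k t)) = x

/-- (200 lines) **MonoK** (from K0, E1, In, Rep, Pi, Sur). PROOF. As `DN/GL/Mono.lean` (helper25; proof in the docstring of S_Mono), simpler: the coefficients need not be in a field. `T` a system for `Un f'` modulo `2^N` (Rep), `s_h` inertia with `Cls P f' N h s_h` (Sur), `x_h = s_h x`. If `s, s'` are inertia elements with the same class `h` then `s x = s' x`: `s⁻¹ s'` is an inertia element with `Psi (s⁻¹ * s') (f' 2^N) ⊤`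
(S_E1: `Psi s⁻¹ M a''` exists, `Ray (a'' * sp h) ⊤` from `Psi 1 M ⊤`, see the docstring of S_Gal), so it fixes `x`; and `s_h s_h' x = s_(h'') x` if `2^N ∣ h h' - h''` (In (3), (4)). The coefficients of the Lagrange interpolation polynomial `F` (nodes `π_h`, values `x_h`, degree `< n = 3 * 4^(N-1)`) are fixed by every inertia element (it permutes the pairs `(π_h, x_h)`), so they are `KI` and have valuations in `ℤ` (K0); the numbers
`v(a_j) + j/n` are pairwise different, `v(x) = min`, so all `v(a_j) > -1`, `v(a_j) ≥ 0`. -/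
def S_MonoK : Prop := C_K0 → S_E1 → C_In → C_Rep → C_Pi → C_Sur → C_MonoK

/-- (60 lines) **T0g.** PROOF of `S_T0` from Zt. `TP P 2 (zt P v - toO v)`: `toO v - zt = (toO v ^ 3 - 1)/(toO v ^ 2 + toO v * zt + zt ^ 2)` (`zt^3 = 1`), the denominator is `3 zt^2` modulo `P`, a unit; `2 ∣ v^3 - 1` (`aO4`). `2 ∣ v - u ↔ zt v = zt u`: Zt (3), and conversely `MP P (toO v - toO u)`, so `v - u` is not prime to `2` (norm), `2 ∣ v - u` (`aO4`). `¬ 2 ∣ v - 1`: `zt v ≠ 1` (as `zt 1 = 1`), `zt^3 = 1`.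
The last item: `OA` (Oa or Unr: fixed by inertia). -/
def S_gT0 : Prop := C_Unr → C_Zt → S_T0

/-- (50 lines) **T1g.** PROOF of `S_T1` from E1, Unr, In, Sur, Tc. `Cls P F0 N h σ` is the conjunction of `ine, one, cop, psi`. For `N = 0` in the third item: `σ = 1`, `Psi 1 F0 ⊤` and `Ray F0 ⊤ (sp α)` (S_E1 (3)). -/
def S_gT1 : Prop := S_E1 → C_Unr → C_In → C_Sur → C_Tc → S_T1

/-- (150 lines) **T2g.** PROOF of `S_T2` from Rep, In, Pi, Pol, SumU, Zt, MonoK. `F0 = f`, `z0 = 1/f`, `d = 1/2^N`, `Pt k t f N z0 d` (`aL6`). `A` (`IsG F0 N A`) is a system `IsR N (Un F0) A` (modulo `F0 2^N` and modulo `2^N` is the same for elements `1` modulo `F0`, `F0` odd). `δ_h = ∏_(h' ∈ A, h' ≠ h) (π_h - π_h')`, `v(δ_h) = N - 1/3` (SumU).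
`h1 ∈ A` with `2^N ∣ h1 - 1`, `π = π_(h1)`; `y' = 2^(-N) y δ_(h1)`: `v(y') ≥ 1/3 + N - 1/3 - N = 0` (`vP P c3 = 1/3`: Zt), and it is `FI` (`y` is; the `π_h` are in the field of level `F0 2^N`: an inertia element `τ` with `Psi τ (F0 2^N) ⊤` is `Cls P F0 N 1 τ`, Pi last item). MonoK: `y' = F(π)`, `s_h y' = F(π_h)` (the coefficients are fixed by inertia; Pi), `s_h δ_(h1) = δ_h`
(`h' ↦` representative of `h h'` is a bijection of `A` with `h1 ↦ h`). So `∑ s_h y = 2^N ∑ F(π_h)/δ_h ∈ 2^N V_P` (Pol (2)), `TP` by `GE.tp_iff`. -/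
def S_gT2 : Prop := C_In → C_Rep → C_Pi → C_Pol → C_SumU → C_Zt → C_MonoK → S_T2

/-! ## The trace lemma for `ζ` -/

/-- The half system of the odd numbers modulo `2 ^ N`, up to sign. -/
def od (N : ℕ) : Finset ℕ := (Finset.range (2 ^ (N - 1))).filter (fun a => a % 2 = 1)

/-- Pure algebra: the traces of the powers of `ϖ = ζ + ζ⁻¹ - 2`. -/
def C_Pz : Prop :=
  ∀ (N : ℕ) (ζ : Om), 3 ≤ N → IsPrimitiveRoot ζ (2 ^ N) →
    (∀ j : ℕ, j < 2 ^ (N - 2) → ∑ a ∈ od N, (ζ ^ a + (ζ ^ a)⁻¹ - 2) ^ j =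
      (-1) ^ j * 2 ^ (N - 2) * (Nat.choose (2 * j) j : Om)) ∧
    (∀ j : ℕ, 1 ≤ j → 2 ∣ Nat.choose (2 * j) j) ∧ (od N).card = 2 ^ (N - 2) ∧
    (∀ a ∈ od N, ∀ a' ∈ od N, ζ ^ a + (ζ ^ a)⁻¹ = ζ ^ a' + (ζ ^ a')⁻¹ → a = a') ∧
    ∀ c : ℕ, c % 2 = 1 → ∀ a ∈ od N, ∃ a' ∈ od N, ζ ^ (c * a) = ζ ^ a' ∨ ζ ^ (c * a) = (ζ ^ a')⁻¹

/-- (130 lines) **Pz.** PROOF. `x (x + x⁻¹ - 2) = (x - 1)^2`, so `(x + x⁻¹ - 2)^j = x^(-j) (x - 1)^(2j) = ∑_(i ≤ 2j) (-1)^i binom(2j, i) x^(j-i)` (`zpow`). Sum over `a ∈ od N` and pair `i` with `2j - i`: for `m = j - i ≠ 0`, `|m| < 2^(N-2)`: `∑_(a ∈ od N) (ζ^(am) + ζ^(-am)) = ∑_(a odd modulo 2^N) ζ^(am) = 0`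
(`∑_(a < 2^(N-1)) ζ^((2a+1) m) = ζ^m ∑ (ζ^(2m))^a`, geometric sum, `ζ^(2m) ≠ 1`, `ζ^(2^N m) = 1`), the term `m = 0` gives `(-1)^j binom(2j, j) card (od N)`, `card (od N) = 2^(N-2)`. `binom(2j, j) = 2 binom(2j - 1, j)` (`Nat.succ_dvd_centralBinom`, `Nat.two_dvd_centralBinom_of_one_le`). Injectivity: `x + x⁻¹ = y + y⁻¹` gives `x = y` or `x y = 1`. Last item: `c a` modulo `2^N` is odd, it or its negative is below `2^(N-1)`. -/
def S_Pz : Prop := C_Pz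

/-- **TrZ.** The trace lemma (note 4240, (9.1)). -/
def C_TrZ : Prop :=
  ∀ P : Ideal ZZ, P.IsPrime → MP P 2 → ∀ (N : ℕ) (ζ z : Om) (s : ℕ → Gal(Om/ℚ)), 3 ≤ N →
    IsPrimitiveRoot ζ (2 ^ N) → (∀ a ∈ od N, s a ∈ P.inertia Gal(Om/ℚ) ∧ s a ζ = ζ ^ a) →
    (∀ τ ∈ P.inertia Gal(Om/ℚ), (τ ζ = ζ ∨ τ ζ = ζ⁻¹) → τ z = z) → MP P z →
      GE P (N - 1) (∑ a ∈ od N, s a z)

/-- (200 lines) **TrZ** (from K0, Zn, Pz). PROOF. `ϖ = ζ + ζ⁻¹ - 2 = -(1 - ζ)(1 - ζ⁻¹)`, `vP P ϖ = 1/2^(N-2)` (Zn for `ζ` and `ζ⁻¹`). `ϖ_a = s_a ϖ = ζ^a + ζ^(-a) - 2`, `a ∈ od N`: `n = 2^(N-2)` different numbers (Pz). `F` = the Lagrange interpolation polynomial with `F(ϖ_a) = s_a z`, degree `< n`. An inertia element `τ`: `τ ζ = ζ^c`, `c` odd; for `a ∈ od N` let `a' ∈ od N` with `ζ^(c a) = ζ^(±a')` (Pz):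
`τ ϖ_a = ϖ_(a')` and `τ s_a z = s_(a') z` since `s_(a')⁻¹ τ s_a` is inertia and maps `ζ` to `ζ^(±1)` (careful: `s_a ζ = ζ^a` gives `τ s_a ζ = ζ^(c a)`, `s_(a') ζ^(±1) = ζ^(±a')`). So `τ` permutes the pairs: the coefficients `c_j` of `F` are `KI`, `v(c_j) ∈ ℤ` (K0). `z = F(ϖ_1)` (`s_1` fixes `ζ`, so `s_1 z = z`): the numbers `v(c_j) + j/n` are pairwise different, so `v(z) = min`, and `v(z) > 0` gives
`v(c_j) ≥ 0` for all `j`, `v(c_0) ≥ 1`. `∑ s_a z = ∑_j c_j ∑_a ϖ_a^j = ∑_j c_j (-1)^j 2^(N-2) binom(2j, j)` (Pz): every term has valuation `≥ N - 1` (`j = 0`: `v(c_0) ≥ 1`; `j ≥ 1`: the binomial coefficient is even). -/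
def S_TrZ : Prop := C_K0 → C_Zn → C_Pz → C_TrZ

/-- The output of this file. -/
structure GUOut : Prop where
  K0 : C_K0
  MonoK : C_MonoK
  T0 : S_T0
  T1 : S_T1
  T2 : S_T2
  TrZ : C_TrZ

/-- The composition. -/
theorem asmGU (e1 : S_E1) (i : GTIn) (o : GLOut) (pol : C_Pol) (zt : S_Zt) (tc : S_Tc) (sumU : S_SumU)
    (k0 : S_K0) (mk : S_MonoK) (t0 : S_gT0) (t1 : S_gT1) (t2 : S_gT2) (pz : S_Pz) (trz : S_TrZ) : GUOut := by
  have Zt := zt o.Lev o.Unr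
  have Tc := tc i.B1 i.B2 i.B7 i.B9 i.R1 i.R2 i.D1 i.D2 o.Act Zt
  have SU := sumU o.Rep o.Pi
  have MK := mk k0 e1 o.In o.Rep o.Pi o.Sur
  exact ⟨k0, MK, t0 o.Unr Zt, t1 e1 o.Unr o.In o.Sur Tc, t2 o.In o.Rep o.Pi pol SU Zt MK, trz k0 o.Zn pz⟩

end Pool.Agent.DN.GL
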