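import Pool.Agent.Lib.DN.GL.SpecU
import Pool.Agent.Lib.FW.E.Ine

/-!
# DN, part GL, module K0: the fixed field of inertia is unramified (helper63)

Adapted from `DN/GL/Ram.lean` (helper99).
-/

set_option autoImplicit false

open scoped Pointwise

noncomputable section

namespace Pool.Agent.DN.GL

open Pool.Agent.MuZ Pool.Agent.FW Pool.Agent.DN
open Pool.Agent.DI (io ofC io_inj exists_io io_ofC ofC_io VP MP UP TP ex)
open IsDedekindDomain
open scoped NumberField WithZero

/-- An element fixed by the inertia group `I` of `w`: its valuation is a `card I`-th power. -/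
private theorem K0_val (L : Type) [Field L] [NumberField L] [IsGalois ℚ L]
    (w : HeightOneSpectrum (𝓞 L)) (y : L)
    (hy : ∀ σ ∈ w.asIdeal.inertia Gal(L/ℚ), σ y = y) :
    ∃ u : ℤᵐ⁰, w.valuation L y = u ^ Nat.card (w.asIdeal.inertia Gal(L/ℚ)) := by
  let H : Subgroup Gal(L/ℚ) := w.asIdeal.inertia Gal(L/ℚ)
  let F : IntermediateField ℚ L := FixedPoints.intermediateField H
  have hyF : y ∈ F := fun σ => hy σ σ.2
  have hG : IsGaloisGroup H F L := IsGaloisGroup.subgroup Gal(L/ℚ) ℚ L H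
  have hG' : IsGaloisGroup H (𝓞 F) (𝓞 L) := IsGaloisGroup.of_isFractionRing H (𝓞 F) (𝓞 L) F L
  have hwP : w.asIdeal.IsPrime := w.isPrime
  have hvb : w.asIdeal.under (𝓞 F) ≠ ⊥ := by
    intro h
    exact w.ne_bot (Ideal.eq_bot_of_comap_eq_bot h)
  let v : HeightOneSpectrum (𝓞 F) := ⟨w.asIdeal.under (𝓞 F), inferInstance, hvb⟩
  have hlies : w.asIdeal.LiesOver v.asIdeal := ⟨rfl⟩
  have hvP : v.asIdeal.IsPrime := v.isPrime
  have hin : w.asIdeal.inertia H = ⊤ := by
    rw [eq_top_iff]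
    rintro ⟨σ, hσ⟩ -
    exact hσ
  have h3 : Nat.card (w.asIdeal.inertia H) = Ideal.ramificationIdxIn v.asIdeal (𝓞 L) :=
    Ideal.card_inertia_eq_ramificationIdxIn v.asIdeal w.asIdeal
  have h4 := Ideal.ramificationIdxIn_eq_ramificationIdx v.asIdeal w.asIdeal H
  have h5 : v.asIdeal.ramificationIdx' w.asIdeal = w.asIdeal.ramificationIdx (𝓞 F) :=
    Ideal.ramificationIdx'_eq_ramificationIdx v.asIdeal w.asIdeal v.ne_bot
  have h6 := HeightOneSpectrum.valuation_liesOver L v w (⟨y, hyF⟩ : F)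
  refine ⟨v.valuation F ⟨y, hyF⟩, ?_⟩
  have h7 : Nat.card (w.asIdeal.inertia Gal(L/ℚ)) = v.asIdeal.ramificationIdx' w.asIdeal := by
    rw [h5, ← h4, ← h3, hin]
    exact (Nat.card_congr Subgroup.topEquiv.toEquiv).symm
  rw [h7, h6]
  rfl

/-- The valuation of `2` at a prime above `2` of a Galois extension of `ℚ`. -/
private theorem K0_two (L : Type) [Field L] [NumberField L] [IsGalois ℚ L]
    (w : HeightOneSpectrum (𝓞 L)) (h2 : (2 : 𝓞 L) ∈ w.asIdeal) :
    w.valuation L (2 : L) = WithZero.exp (-1 : ℤ) ^ Nat.card (w.asIdeal.inertia Gal(L/ℚ)) := by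
  have hp2 : Prime (2 : ℤ) := Int.prime_two
  have hv : Ideal.span {(2 : ℤ)} ≠ ⊥ := by
    rw [Ne, Ideal.span_singleton_eq_bot]
    exact two_ne_zero
  let v : HeightOneSpectrum ℤ :=
    ⟨Ideal.span {2}, (Ideal.span_singleton_prime two_ne_zero).2 hp2, hv⟩
  have hwP : w.asIdeal.IsPrime := w.isPrime
  have hvP : v.asIdeal.IsPrime := v.isPrime
  have hlies : w.asIdeal.LiesOver v.asIdeal := by
    refine (Ideal.liesOver_span_iff hwP.ne_top hp2).2 ?_
    rw [map_ofNat]
    exact h2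
  have hgg : IsGaloisGroup Gal(L/ℚ) ℤ (𝓞 L) :=
    IsGaloisGroup.of_isFractionRing Gal(L/ℚ) ℤ (𝓞 L) ℚ L
  have h3 : Nat.card (w.asIdeal.inertia Gal(L/ℚ)) = Ideal.ramificationIdxIn v.asIdeal (𝓞 L) :=
    Ideal.card_inertia_eq_ramificationIdxIn v.asIdeal w.asIdeal
  have h4 := Ideal.ramificationIdxIn_eq_ramificationIdx v.asIdeal w.asIdeal Gal(L/ℚ)
  have h5 : v.asIdeal.ramificationIdx' w.asIdeal = w.asIdeal.ramificationIdx ℤ :=
    Ideal.ramificationIdx'_eq_ramificationIdx v.asIdeal w.asIdeal v.ne_bot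
  have h6 := HeightOneSpectrum.intValuation_liesOver v w (2 : ℤ)
  have h9 : algebraMap ℤ (𝓞 L) 2 = 2 := map_ofNat _ 2
  rw [h5, ← h4, ← h3,
    HeightOneSpectrum.intValuation_singleton v two_ne_zero rfl, h9] at h6
  have h7 := HeightOneSpectrum.valuation_of_algebraMap (K := L) w (2 : 𝓞 L)
  have h8 : (2 : L) = algebraMap (𝓞 L) L (2 : 𝓞 L) := (map_ofNat _ 2).symm
  rw [h8, h7, ← h6]

theorem tK0 : S_K0 := by
  classical
  intro P hP h2P x hxI hx0
  have : P.IsPrime := hP
  have hNF0 : NumberField (IntermediateField.adjoin ℚ {x}) := DI.numberField_adjoin x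
  let E : IntermediateField ℚ Om :=
    IntermediateField.normalClosure ℚ (IntermediateField.adjoin ℚ {x}) Om
  have hxE : x ∈ E := by
    have h1 : IntermediateField.adjoin ℚ {x} ≤ E := IntermediateField.le_normalClosure _
    exact h1 (IntermediateField.mem_adjoin_simple_self ℚ x)
  have hfd : FiniteDimensional ℚ E := inferInstance
  have hNF : NumberField E := NumberField.mk
  have hN0 : @Normal ℚ E _ _ (IntermediateField.algebra' E) :=
    normalClosure.normal ℚ (IntermediateField.adjoin ℚ {x}) Om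
  have hN : Normal ℚ E := by
    convert hN0
    exact Subsingleton.elim _ _
  have hG : IsGalois ℚ E := ⟨⟩
  -- the prime `w`
  have h2Z : (2 : ZZ) ∈ P := by
    have h1 := (DI.MP.nat_iff (P := P) 2).1 (by exact_mod_cast h2P)
    exact_mod_cast h1
  have hwp : (P.comap (iO E)).IsPrime := Ideal.comap_isPrime _ _
  have h2w : (2 : 𝓞 E) ∈ P.comap (iO E) := by
    rw [Ideal.mem_comap, map_ofNat]
    exact h2Z
  have hwb : P.comap (iO E) ≠ ⊥ := by
    intro h
    rw [h, Ideal.mem_bot] at h2w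
    have h1 := congrArg (fun t : 𝓞 E => ((t : E) : Om)) h2w
    exact (two_ne_zero : (2 : Om) ≠ 0) h1
  let w : HeightOneSpectrum (𝓞 E) := ⟨P.comap (iO E), hwp, hwb⟩
  set y : E := ⟨x, hxE⟩ with hy
  have hyI : ∀ σ ∈ w.asIdeal.inertia Gal(E/ℚ), σ y = y := by
    intro σ hσ
    let σ' : Gal(Om/ℚ) := σ.liftNormal Om
    have hσ' : ∀ z : E, σ' (z : Om) = ((σ z : E) : Om) := fun z =>
      σ.liftNormal_commutes Om z
    obtain ⟨τ, hτ, hτL⟩ := tEIne E P hP σ' (by
      intro y hy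
      have hyi : IsIntegral ℤ (⟨(y : Om), hy⟩ : E) := by
        have h1 : IsIntegral ℤ (y : Om) := y.2
        exact (isIntegral_algHom_iff ((algebraMap E Om).toIntAlgHom)
          (algebraMap E Om).injective).1 h1
      let z : 𝓞 E := ⟨⟨(y : Om), hy⟩, hyi⟩
      have h3 : iO E (σ • z - z) = σ' • y - y := by
        apply Subtype.ext
        rw [map_sub]
        change ((iO E (σ • z) : ZZ) : Om) - ((iO E z : ZZ) : Om) = σ' (y : Om) - (y : Om)
        rw [show (y : Om) = (((⟨(y : Om), hy⟩ : E)) : Om) from rfl, hσ']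
        rfl
      rw [← h3]
      exact hσ z)
    apply Subtype.ext
    rw [← hσ' y, ← hτL _ hxE]
    exact hxI τ hτ
  obtain ⟨u, hu⟩ := K0_val E w y hyI
  have hw2 := K0_two E w h2w
  set n : ℕ := Nat.card (w.asIdeal.inertia Gal(E/ℚ)) with hn
  have hpos : 0 < n := Nat.card_pos
  have hfrac : ∀ (z : E) (a d : 𝓞 E),
      z * algebraMap (𝓞 E) E d = algebraMap (𝓞 E) E a →
      ((z : E) : Om) * ((iO E d : ZZ) : Om) = ((iO E a : ZZ) : Om) := by
    intro z a d h
    exact congrArg (fun t : E => (t : Om)) h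
  have hVP : ∀ z : E, w.valuation E z ≤ 1 → VP P (z : Om) := by
    intro z hz
    obtain ⟨a, d, hd⟩ := w.exists_primeCompl_mul_eq_of_integer z hz
    exact ⟨iO E a, iO E d, fun h => d.2 h, hfrac z a d hd⟩
  have hy0 : y ≠ 0 := fun h => hx0 (congrArg Subtype.val h)
  have hvy0 : w.valuation E y ≠ 0 := (Valuation.ne_zero_iff _).2 hy0
  have hv20 : w.valuation E (2 : E) ≠ 0 := (Valuation.ne_zero_iff _).2 two_ne_zero
  have hu0 : u ≠ 0 := by
    rintro rfl
    exact hvy0 (by rw [hu, zero_pow hpos.ne'])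
  obtain ⟨j, hj⟩ : ∃ j : ℤ, j = -WithZero.log u := ⟨_, rfl⟩
  have hlog2 : WithZero.log (w.valuation E (2 : E)) = -(n : ℤ) := by
    rw [hw2, WithZero.log_pow, WithZero.log_exp, nsmul_eq_mul, mul_neg, mul_one]
  have hlogy : WithZero.log (w.valuation E y) = -(n : ℤ) * j := by
    rw [hu, WithZero.log_pow, nsmul_eq_mul, hj]
    ring
  have hval : w.valuation E (y / 2 ^ j) = 1 := by
    have h1 : w.valuation E (y / 2 ^ j) ≠ 0 :=
      (Valuation.ne_zero_iff _).2 (div_ne_zero hy0 (zpow_ne_zero _ two_ne_zero))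
    have h4 : WithZero.log (w.valuation E (y / 2 ^ j)) = 0 := by
      rw [map_div₀, map_zpow₀, WithZero.log_div hvy0 (zpow_ne_zero _ hv20),
        WithZero.log_zpow, hlogy, hlog2]
      simp only [smul_eq_mul]
      ring
    rw [← WithZero.exp_log h1, h4, WithZero.exp_zero]
  refine ⟨j, ?_⟩
  have h5 : UP P (x ^ 1 / 2 ^ j) := by
    rw [pow_one]
    refine DI.UP.iff.2 ⟨div_ne_zero hx0 (zpow_ne_zero _ two_ne_zero), ?_, ?_⟩
    · have h := hVP _ hval.le
      push_cast at h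
      exact h
    · have h := hVP (y / 2 ^ j)⁻¹ (by rw [map_inv₀, hval, inv_one])
      push_cast at h
      exact h
  rw [vP_eq h2P one_pos h5, Nat.cast_one, div_one]

end Pool.Agent.DN.GL
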