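import Pool.Agent.Lib.DN.GL.Spec

/-!
# Theorem DN, part GL, module Mono: every `P`-integral element is a polynomial in the uniformizer
-/

set_option autoImplicit false

open scoped Pointwise

noncomputable section

namespace Pool.Agent.DN.GL

open Pool.Agent.MuZ Pool.Agent.FW Pool.Agent.DN
open Pool.Agent.DI (io ofC io_inj exists_io io_ofC ofC_io VP MP UP TP ex)

variable {k t : ℕ}

/-- The values of the terms `a_j π^j`, `v(a_j)` integral, `v(π) = 1/n`, `j < n`. -/
private theorem Mono_val {P : Ideal ZZ} [P.IsPrime] (h2 : MP P 2) {n : ℕ} (hn : 0 < n) {w : Om}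
    (hw : w ≠ 0) (hv : vP P w = 1 / n) (a : ℕ → Om)
    (ha : ∀ j, a j ≠ 0 → ∃ i : ℤ, vP P (a j) = i) (m : ℕ) (hm : m ≤ n) :
    (∀ j < m, a j = 0) ∨ (∑ j ∈ Finset.range m, a j * w ^ j ≠ 0 ∧
      (∃ j0 < m, a j0 ≠ 0 ∧
        vP P (∑ j ∈ Finset.range m, a j * w ^ j) = vP P (a j0) + (j0 : ℚ) / n) ∧
      ∀ j < m, a j ≠ 0 →
        vP P (∑ j ∈ Finset.range m, a j * w ^ j) ≤ vP P (a j) + (j : ℚ) / n) := by
  have hn0 : (0 : ℚ) < n := by exact_mod_cast hn
  have hterm : ∀ j, a j ≠ 0 → vP P (a j * w ^ j) = vP P (a j) + (j : ℚ) / n := by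
    intro j hj
    rw [vP_mul h2 hj (pow_ne_zero _ hw), vP_pow h2 hw, hv]
    ring
  induction m with
  | zero => exact Or.inl fun j hj => absurd hj (Nat.not_lt_zero j)
  | succ m ih =>
    rw [Finset.sum_range_succ]
    by_cases ham : a m = 0
    · rw [ham, zero_mul, add_zero]
      rcases ih (by omega) with h | ⟨h1, ⟨j0, hj0, h3, h4⟩, h5⟩
      · left
        intro j hj
        rcases Nat.lt_succ_iff_lt_or_eq.1 hj with h6 | h6
        · exact h j h6
        · rw [h6]; exact ham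
      · right
        refine ⟨h1, ⟨j0, by omega, h3, h4⟩, fun j hj hja => ?_⟩
        rcases Nat.lt_succ_iff_lt_or_eq.1 hj with h6 | h6
        · exact h5 j h6 hja
        · rw [h6] at hja; exact absurd ham hja
    · right
      have htm : a m * w ^ m ≠ 0 := mul_ne_zero ham (pow_ne_zero _ hw)
      rcases ih (by omega) with h | ⟨h1, ⟨j0, hj0, h3, h4⟩, h5⟩
      · have hs : ∑ j ∈ Finset.range m, a j * w ^ j = 0 := by
          apply Finset.sum_eq_zero
          intro j hj
          rw [h j (Finset.mem_range.1 hj), zero_mul]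
        rw [hs, zero_add]
        refine ⟨htm, ⟨m, by omega, ham, hterm m ham⟩, fun j hj hja => ?_⟩
        rcases Nat.lt_succ_iff_lt_or_eq.1 hj with h6 | h6
        · exact absurd (h j h6) hja
        · rw [h6, hterm m ham]
      · obtain ⟨i0, hi0⟩ := ha j0 h3
        obtain ⟨im, him⟩ := ha m ham
        have hne : vP P (∑ j ∈ Finset.range m, a j * w ^ j) ≠ vP P (a m * w ^ m) := by
          rw [h4, hterm m ham, hi0, him]
          intro h
          have h6 : ((m : ℤ) - j0 : ℤ) = (i0 - im) * n := by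
            have h7 : ((m : ℚ) - j0) = (i0 - im) * n := by
              field_simp at h
              linarith
            exact_mod_cast h7
          have h8 : (0 : ℤ) < (i0 - im) * n := by
            rw [← h6]
            omega
          have h9 : (i0 - im) * (n : ℤ) < n := by
            rw [← h6]
            omega
          have hnz : (0 : ℤ) < n := by exact_mod_cast hn
          have h10 : 1 ≤ i0 - im := by
            by_contra hc
            have h11 := mul_nonpos_of_nonpos_of_nonneg (show i0 - im ≤ 0 by omega) hnz.le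
            linarith
          have h12 := mul_le_mul_of_nonneg_right h10 hnz.le
          linarith
        rcases lt_or_gt_of_ne hne with h6 | h6
        · obtain ⟨h7, h8⟩ := vP_add_lt h2 h1 (Or.inr h6)
          refine ⟨h7, ⟨j0, by omega, h3, ?_⟩, fun j hj hja => ?_⟩
          · rw [h8, h4]
          · rw [h8]
            rcases Nat.lt_succ_iff_lt_or_eq.1 hj with h9 | h9
            · exact h5 j h9 hja
            · rw [h9, ← hterm m ham]
              exact h6.le
        · have h6' : vP P (a m * w ^ m) < vP P (∑ j ∈ Finset.range m, a j * w ^ j) := h6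
          obtain ⟨h7, h8⟩ := vP_add_lt h2 htm (Or.inr h6')
          rw [add_comm] at h7 h8
          refine ⟨h7, ⟨m, by omega, ham, ?_⟩, fun j hj hja => ?_⟩
          · rw [h8, hterm m ham]
          · rw [h8]
            rcases Nat.lt_succ_iff_lt_or_eq.1 hj with h9 | h9
            · exact h6'.le.trans (h5 j h9 hja)
            · rw [h9, ← hterm m ham]

/-- The coefficients are integral. -/
private theorem Mono_int {P : Ideal ZZ} [P.IsPrime] (h2 : MP P 2) {n : ℕ} (hn : 0 < n) {w : Om}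
    (hw : w ≠ 0) (hv : vP P w = 1 / n) (a : ℕ → Om)
    (ha : ∀ j, a j ≠ 0 → ∃ i : ℤ, vP P (a j) = i)
    (hx : VP P (∑ j ∈ Finset.range n, a j * w ^ j)) (j : ℕ) (hj : j < n) : VP P (a j) := by
  by_cases h0 : a j = 0
  · rw [h0]
    exact DI.VP.zero
  rcases Mono_val h2 hn hw hv a ha n le_rfl with h | ⟨h1, -, h5⟩
  · exact absurd (h j hj) h0
  · have h3 := h5 j hj h0
    have h4 := (vP_nonneg h2 h1).2 hx
    rw [← vP_nonneg h2 h0]
    obtain ⟨i, hi⟩ := ha j h0
    rw [hi] at h3 ⊢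
    have hn0 : (0 : ℚ) < n := by exact_mod_cast hn
    have h6 : (j : ℚ) / n < 1 := by
      rw [div_lt_one hn0]
      exact_mod_cast hj
    have h7 : (-1 : ℚ) < i := by linarith
    have h8 : (-1 : ℤ) < i := by exact_mod_cast h7
    have h9 : (0 : ℤ) ≤ i := by omega
    exact_mod_cast h9

/-- An automorphism which permutes nodes and values fixes the interpolation polynomial. -/
private theorem Mono_perm {ι : Type} [DecidableEq ι] (T : Finset ι) (p : ι → Om) (x : ι → Om)
    (hp : Set.InjOn p T) (τ : Gal(Om/ℚ))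
    (hτ : ∀ h ∈ T, ∃ h' ∈ T, τ (p h') = p h ∧ τ (x h') = x h) (i : ℕ) :
    τ ((Lagrange.interpolate T p x).coeff i) = (Lagrange.interpolate T p x).coeff i := by
  have h1 : (Lagrange.interpolate T p x).map ((τ : Om ≃ₐ[ℚ] Om) : Om →+* Om) =
      Lagrange.interpolate T p x := by
    apply Lagrange.eq_interpolate_of_eval_eq x hp
    · rw [Polynomial.degree_map]
      exact Lagrange.degree_interpolate_lt x hp
    · intro h hh
      obtain ⟨h', hh', e1, e2⟩ := hτ h hh
      have e3 : Polynomial.eval (p h) ((Lagrange.interpolate T p x).map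
          ((τ : Om ≃ₐ[ℚ] Om) : Om →+* Om)) =
          τ (Polynomial.eval (p h') (Lagrange.interpolate T p x)) := by
        rw [← e1]
        exact Polynomial.eval_map_apply ((τ : Om ≃ₐ[ℚ] Om) : Om →+* Om) (p h')
      rw [e3, Lagrange.eval_interpolate_at_node x hp hh', e2]
  have h2 := congrArg (fun F : Polynomial Om => F.coeff i) h1
  simp only [Polynomial.coeff_map] at h2
  exact h2

private theorem Mono_top (N : ℕ) : Psi 1 N (⊤ : Ideal (OO k t)) where
  ne := top_ne_bot
  cop := by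
    unfold PrI
    rw [top_sup_eq]
  a1 := fun b _ _ => by rw [Ideal.top_mul]; rfl
  a3 := fun b _ _ => by rw [Ideal.top_mul]; rfl
  xx := fun b _ _ z _ => by rw [Ideal.top_mul]; rfl

/-- The exact power of `2`. -/
private theorem Mono_exact {v : OO k t} {N : ℕ} (h : ¬ ((2 ^ N : ℕ) : OO k t) ∣ v) :
    ∃ j < N, ((2 ^ j : ℕ) : OO k t) ∣ v ∧ ¬ ((2 ^ (j + 1) : ℕ) : OO k t) ∣ v := by
  classical
  have hex : ∃ N : ℕ, ¬ ((2 ^ N : ℕ) : OO k t) ∣ v := ⟨N, h⟩
  obtain ⟨i, hi⟩ : ∃ i, Nat.find hex = i + 1 := by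
    refine Nat.exists_eq_succ_of_ne_zero fun h0 => ?_
    have h1 := Nat.find_spec hex
    rw [h0] at h1
    apply h1
    rw [pow_zero, Nat.cast_one]
    exact one_dvd _
  have h1 := Nat.find_spec hex
  rw [hi] at h1
  refine ⟨i, ?_, ?_, h1⟩
  · have := Nat.find_min' hex h
    omega
  · by_contra h2
    have := Nat.find_min' hex h2
    omega

theorem tMono : S_Mono := by
  classical
  intro hLev hGal hUnr hIn hRep hPi hSur hExt k t _ P hP f N z0 d hpt f' hf' hff' x hx hxv
  have := hP.1.1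
  have h2 : MP P 2 := hP.2
  have hN := hpt.pos
  have h15 : 15 ∣ f' := hpt.f15.trans hff'
  have hf0 : 0 < f' := hf'.pos
  have hf0' : 0 < f := hpt.odd.pos
  have hM : 0 < f' * 2 ^ N := Nat.mul_pos hf0 (by positivity)
  have hM15 : 15 ∣ f' * 2 ^ N := h15.mul_right _
  obtain ⟨hex, -, hcard⟩ := hRep k t N hN
  obtain ⟨T, hT⟩ := hex (Un f')
  have hTc : T.card = 3 * 4 ^ (N - 1) := (hcard f' hf').1 T hT
  obtain ⟨hIn1, -, hIn3, hIn4, hIn5, -⟩ := hIn k t P hP f' N hf' h15
  obtain ⟨hPi1, -, -, -, -, hPi5, hPi6, hPi7⟩ := hPi k t P hP f N z0 d hpt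
  have hs : ∀ h : OO k t, ∃ τ : Gal(Om/ℚ), Un f' h → Cls P f' N h τ := by
    intro h
    by_cases hh : Un f' h
    · obtain ⟨τ, hτ⟩ := hSur k t P hP f' N hf' h15 hN h hh.1 hh.2
      exact ⟨τ, fun _ => hτ⟩
    · exact ⟨1, fun h' => absurd h' hh⟩
  choose s hs using hs
  have hsT : ∀ h ∈ T, Cls P f' N h (s h) := fun h hh => hs h (hT.mem h hh)
  have hcT : ∀ h ∈ T, Cop h 2 := fun h hh => (hT.mem h hh).2
  have hle : EE k t (f * 2 ^ N) ≤ EE k t (f' * 2 ^ N) :=
    (hLev k t (f * 2 ^ N) (Nat.mul_pos hf0' (by positivity)) (hpt.f15.mul_right _)).1 _ hM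
      (mul_dvd_mul_right hff' _)
  have hpE : ∀ h ∈ T, pH z0 d h ∈ EE k t (f' * 2 ^ N) := fun h hh => hle (hPi1 h (hcT h hh)).1
  have hinj : Set.InjOn (fun h : OO k t => pH z0 d h) (T : Set (OO k t)) := by
    intro h hh h' hh' e
    by_contra hne
    have h3 : ¬ ((2 ^ N : ℕ) : OO k t) ∣ h - h' := fun h4 => hne (hT.uni h hh h' hh' h4)
    obtain ⟨j, hj, h4, h5⟩ := Mono_exact h3
    exact (hPi6 h h' j (hcT h hh) (hcT h' hh') hj h4 h5).1 e
  obtain ⟨F, hF⟩ : ∃ F, F = Lagrange.interpolate T (fun h => pH z0 d h) (fun h => s h x) :=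
    ⟨_, rfl⟩
  have hFdeg : F.degree < T.card := by
    rw [hF]
    exact Lagrange.degree_interpolate_lt _ hinj
  -- the value at `π`
  have hU1 : Un f' (1 : OO k t) := ⟨by rw [sub_self]; exact dvd_zero _, cop_one 2⟩
  obtain ⟨h1, hh1, hd1⟩ := hT.ex 1 hU1
  have hC1 : Cls P f' N (1 : OO k t) (1 : Gal(Om/ℚ)) := by
    refine ⟨one_mem _, hU1.1, hU1.2, ?_⟩
    have e : sp (1 : OO k t) = ⊤ := Ideal.span_singleton_one
    rw [e]
    exact Mono_top _
  have hC1' : Cls P f' N (1 : OO k t) (s h1) := hIn3 _ _ _ (hsT h1 hh1) hU1.1 hd1 hU1.2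
  have hev : F.eval (pH z0 d (1 : OO k t)) = x := by
    rw [hPi5 1 h1 hU1.2 (hcT h1 hh1) hd1, hF]
    have h3 := Lagrange.eval_interpolate_at_node (s := T) (v := fun h => pH z0 d h)
      (fun h => s h x) hinj hh1
    have h4 : s h1 x = x := hIn5 _ _ _ hC1' hC1 x hx
    exact h3.trans h4
  -- the coefficients are in `EE k t (f' * 2 ^ N)`
  have hcE : ∀ i, F.coeff i ∈ EE k t (f' * 2 ^ N) := by
    intro i
    apply (hGal k t (f' * 2 ^ N) hM hM15).2.2.2
    intro τ hτ a ha hr
    rw [hF]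
    apply Mono_perm T _ _ hinj τ
    intro h hh
    refine ⟨h, hh, hpE h hh τ hτ a ha hr, ?_⟩
    exact (hGal k t (f' * 2 ^ N) hM hM15).2.1 (s h) x hx τ hτ a ha hr
  -- they are fixed by inertia
  have hfix : ∀ i, ∀ τ ∈ P.inertia Gal(Om/ℚ), τ (F.coeff i) = F.coeff i := by
    intro i τ hτ
    obtain ⟨h0, hh0⟩ := hIn1 τ hτ
    rw [hF]
    apply Mono_perm T _ _ hinj τ
    intro h hh
    have hUh := hT.mem h hh
    have hcop : Cop h0 (f' * 2 ^ N) := by
      have e1 : Cop h0 f' := by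
        refine cop_congr (j := f') (a := 1) ?_ (cop_one f')
        rw [← neg_sub]
        exact (dvd_neg).2 hh0.one
      have e2 : Cop h0 2 := hh0.cop
      unfold Cop at e1 e2 ⊢
      push_cast
      exact e1.mul_right (e2.pow_right (n := N))
    obtain ⟨β, hβ, hβd⟩ := cop_inv hcop
    have hd3 : (f' : OO k t) ∣ h0 * β - 1 := by
      refine dvd_trans ?_ hβd
      push_cast
      exact dvd_mul_right _ _
    have hd4 : ((2 ^ N : ℕ) : OO k t) ∣ h0 * β - 1 := by
      refine dvd_trans ?_ hβd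
      push_cast
      exact dvd_mul_left _ _
    have hβ1 : (f' : OO k t) ∣ β - 1 := by
      have e : β - 1 = (h0 * β - 1) - (h0 - 1) * β := by ring
      rw [e]
      exact dvd_sub hd3 (hh0.one.mul_right β)
    have hβ2 : Cop β 2 := by
      refine cop_dvd hβ ?_
      refine Dvd.dvd.mul_left ?_ _
      exact dvd_pow_self 2 (by omega)
    have hUv : Un f' (β * h) := by
      refine ⟨?_, cop_mul hβ2 hUh.2⟩
      have e : β * h - 1 = (β - 1) * h + (h - 1) := by ring
      rw [e]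
      exact dvd_add (hβ1.mul_right h) hUh.1
    obtain ⟨h', hh', hd'⟩ := hT.ex (β * h) hUv
    have hd5 : ((2 ^ N : ℕ) : OO k t) ∣ h0 * h' - h := by
      have e : h0 * h' - h = (h0 * β - 1) * h - h0 * (β * h - h') := by ring
      rw [e]
      exact dvd_sub (hd4.mul_right h) (hd'.mul_left h0)
    have hc2 : Cop (h0 * h') 2 := cop_mul hh0.cop (hcT h' hh')
    refine ⟨h', hh', ?_, ?_⟩
    · rw [hPi7 f' h0 h' τ hf' hff' hh0 (hcT h' hh')]
      exact hPi5 _ _ hc2 hUh.2 hd5
    · have e1 : Cls P f' N (h0 * h') (τ * s h') := hIn4 _ _ _ _ hh0 (hsT h' hh')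
      have e2 : Cls P f' N h (τ * s h') := by
        refine hIn3 _ _ _ e1 hUh.1 ?_ hUh.2
        rw [← neg_sub]
        exact (dvd_neg).2 hd5
      exact hIn5 _ _ _ e2 (hsT h hh) x hx
  have hcf : ∀ i, F.coeff i ∈ EE k t f' := fun i =>
    hExt k t P hP f' N hf' h15 hN _ (hcE i) (hfix i)
  have hval : ∀ i, F.coeff i ≠ 0 → ∃ j : ℤ, vP P (F.coeff i) = j := fun i =>
    (((hUnr k t P hP).2 f' hf' h15) _ (hcf i)).2
  -- the values
  have hTpos : 0 < T.card := Finset.card_pos.2 ⟨h1, hh1⟩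
  obtain ⟨-, hπ0, hπv, -⟩ := hPi1 1 hU1.2
  have hπv' : vP P (pH z0 d (1 : OO k t)) = 1 / (T.card : ℚ) := by
    rw [hπv, hTc]
    push_cast
    ring
  have hFnat : F.natDegree < T.card := by
    by_cases hF0 : F = 0
    · rw [hF0, Polynomial.natDegree_zero]
      exact hTpos
    · exact (Polynomial.natDegree_lt_iff_degree_lt hF0).2 hFdeg
  have hsum : ∑ i ∈ Finset.range T.card, F.coeff i * pH z0 d (1 : OO k t) ^ i = x := by
    rw [← Polynomial.eval_eq_sum_range' hFnat, hev]
  refine ⟨F, fun i => ⟨?_, f', hf', h15, hcf i⟩, hev⟩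
  by_cases hi : i < T.card
  · refine Mono_int h2 hTpos hπ0 hπv' (fun i => F.coeff i) hval ?_ i hi
    rw [hsum]
    exact hxv
  · rw [Polynomial.coeff_eq_zero_of_natDegree_lt (by omega)]
    exact DI.VP.zero

end Pool.Agent.DN.GL
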