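import Pool.Agent.Lib.DI.Val

/-!
# Theorem DN, part GL: the valuation `vP P : Om → ℚ`, `v(2) = 1`, at a prime `P` above `2` (author helper66)

`GE P q x`: `v(x) ≥ q` (or `x = 0`). Everything here is proved (from `MP P 2`).
-/

set_option autoImplicit false

open scoped Pointwise

noncomputable section

namespace Pool.Agent.DN.GL

open Pool.Agent.MuZ Pool.Agent.FW NumberField IsDedekindDomain
open Pool.Agent.DI (VP MP UP TP)

/-- Some power of `x ≠ 0` is a unit times a power of `2`. -/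
theorem com {P : Ideal ZZ} [hP : P.IsPrime] (h2 : MP P 2) {x : Om} (hx0 : x ≠ 0) :
    ∃ (b : ℕ) (a : ℤ), 0 < b ∧ UP P (x ^ b / 2 ^ a) := by
  classical
  set E : IntermediateField ℚ Om := IntermediateField.adjoin ℚ {x} with hE
  have : NumberField E := DI.numberField_adjoin x
  have hxE : x ∈ E := IntermediateField.mem_adjoin_simple_self ℚ x
  set y : E := ⟨x, hxE⟩ with hy
  have hy0 : y ≠ 0 := fun h => hx0 (congrArg Subtype.val h)
  have hfrac : ∀ (z : E) (a d : 𝓞 E), z * algebraMap (𝓞 E) E d = algebraMap (𝓞 E) E a →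
      ((z : E) : Om) * ((iO E d : ZZ) : Om) = ((iO E a : ZZ) : Om) := by
    intro z a d h
    exact congrArg (fun t : E => (t : Om)) h
  have h2P : (2 : ZZ) ∈ P := by
    have := (DI.MP.nat_iff (P := P) 2).1 (by simpa using h2)
    simpa using this
  have h2c : (2 : 𝓞 E) ∈ P.comap (iO E) := by
    rw [Ideal.mem_comap, map_ofNat]
    exact h2P
  have hp : P.comap (iO E) ≠ ⊥ := by
    intro h
    rw [h] at h2c
    exact two_ne_zero ((Submodule.mem_bot _).1 h2c)
  set v : HeightOneSpectrum (𝓞 E) := ⟨P.comap (iO E), inferInstance, hp⟩ with hv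
  have hvp : ∀ z : E, v.valuation E z ≤ 1 → VP P (z : Om) := by
    intro z hz
    obtain ⟨a, d, hd⟩ := v.exists_primeCompl_mul_eq_of_integer z hz
    exact ⟨iO E a, iO E d, fun h => d.2 h, hfrac z a d hd⟩
  have hv2 : v.valuation E (2 : E) < 1 := by
    have h : v.valuation E (algebraMap (𝓞 E) E (2 : 𝓞 E)) < 1 :=
      (HeightOneSpectrum.valuation_lt_one_iff_mem (K := E) v (2 : 𝓞 E)).2 h2c
    have e : algebraMap (𝓞 E) E (2 : 𝓞 E) = 2 := map_ofNat (algebraMap (𝓞 E) E) 2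
    exact e ▸ h
  have hv20 : v.valuation E (2 : E) ≠ 0 := (Valuation.ne_zero_iff _).2 two_ne_zero
  have hvy0 : v.valuation E y ≠ 0 := (Valuation.ne_zero_iff _).2 hy0
  have he : WithZero.log (v.valuation E (2 : E)) < 0 := by
    have h := (WithZero.log_lt_log hv20 one_ne_zero).2 hv2
    rwa [WithZero.log_one] at h
  obtain ⟨b, hb⟩ := Int.eq_ofNat_of_zero_le (a := -WithZero.log (v.valuation E (2 : E))) (by omega)
  obtain ⟨a, ha⟩ : ∃ a : ℤ, a = -WithZero.log (v.valuation E y) := ⟨_, rfl⟩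
  have hbpos : 0 < b := by omega
  have hval : v.valuation E (y ^ b / 2 ^ a) = 1 := by
    have h1 : v.valuation E (y ^ b / 2 ^ a) ≠ 0 :=
      (Valuation.ne_zero_iff _).2 (div_ne_zero (pow_ne_zero _ hy0) (zpow_ne_zero _ two_ne_zero))
    have h4 : WithZero.log (v.valuation E (y ^ b / 2 ^ a)) = 0 := by
      rw [map_div₀, map_pow, map_zpow₀,
        WithZero.log_div (pow_ne_zero _ hvy0) (zpow_ne_zero _ hv20), WithZero.log_pow,
        WithZero.log_zpow]
      simp only [smul_eq_mul, nsmul_eq_mul]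
      have h3 : WithZero.log (v.valuation E (2 : E)) = -(b : ℤ) := by
        rw [← hb, neg_neg]
      rw [h3, ha]
      ring
    rw [← WithZero.exp_log h1, h4, WithZero.exp_zero]
  refine ⟨b, a, hbpos, DI.UP.iff.2 ⟨?_, ?_, ?_⟩⟩
  · exact div_ne_zero (pow_ne_zero _ hx0) (zpow_ne_zero _ two_ne_zero)
  · have h := hvp _ hval.le
    push_cast at h
    exact h
  · have h := hvp (y ^ b / 2 ^ a)⁻¹ (by rw [map_inv₀, hval, inv_one])
    push_cast at h
    exact h

/-- The valuation, `v(2) = 1` (`0` for `x = 0`). -/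
def vP (P : Ideal ZZ) (x : Om) : ℚ := by
  classical
  exact if h : ∃ q : ℚ, ∃ (b : ℕ) (a : ℤ), 0 < b ∧ q = a / b ∧ UP P (x ^ b / 2 ^ a) then
    h.choose else 0

/-- `v(x) ≥ q`, or `x = 0`. -/
def GE (P : Ideal ZZ) (q : ℚ) (x : Om) : Prop := x = 0 ∨ q ≤ vP P x

section

variable {P : Ideal ZZ} [hP : P.IsPrime]

include hP

theorem vp_two (h2 : MP P 2) (a : ℤ) : VP P ((2 : Om) ^ a) ↔ 0 ≤ a := by
  constructor
  · intro h
    by_contra hn
    obtain ⟨k, hk⟩ := Int.eq_ofNat_of_zero_le (a := -a - 1) (by omega)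
    have h3 : MP P ((2 : Om) ^ a * (2 ^ k * 2)) :=
      DI.MP.mul_left h (DI.MP.mul_left (by simpa using DI.VP.pow (DI.MP.vp h2) k) h2)
    have e : (2 : Om) ^ a * (2 ^ k * 2) = 1 := by
      have h5 : (2 : Om) ^ k * 2 = 2 ^ (-a) := by
        rw [← pow_succ, ← zpow_natCast]
        congr 1
        push_cast
        omega
      rw [h5, ← zpow_add₀ two_ne_zero, add_neg_cancel, zpow_zero]
    rw [e] at h3
    exact DI.MP.one_not h3
  · intro h
    obtain ⟨k, rfl⟩ := Int.eq_ofNat_of_zero_le h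
    rw [zpow_natCast]
    exact DI.VP.pow (DI.MP.vp h2) k

theorem mp_two (h2 : MP P 2) (a : ℤ) : MP P ((2 : Om) ^ a) ↔ 0 < a := by
  constructor
  · intro h
    by_contra hn
    have h3 := (vp_two h2 (-a)).2 (by omega)
    have h4 := DI.MP.mul_left h3 h
    rw [← zpow_add₀ two_ne_zero, neg_add_cancel, zpow_zero] at h4
    exact DI.MP.one_not h4
  · intro h
    have h3 := (vp_two h2 (a - 1)).2 (by omega)
    have h4 := DI.MP.mul_left h3 h2
    rwa [← zpow_add_one₀ two_ne_zero, sub_add_cancel] at h4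

theorem up_two (h2 : MP P 2) (a : ℤ) : UP P ((2 : Om) ^ a) ↔ a = 0 := by
  constructor
  · rintro ⟨h3, h4⟩
    rw [vp_two h2] at h3
    rw [mp_two h2] at h4
    omega
  · rintro rfl
    rw [zpow_zero]
    exact DI.UP.one

theorem vP_eq (h2 : MP P 2) {x : Om} {b : ℕ} {a : ℤ} (hb : 0 < b) (h : UP P (x ^ b / 2 ^ a)) :
    vP P x = a / b := by
  classical
  have hex : ∃ q : ℚ, ∃ (b : ℕ) (a : ℤ), 0 < b ∧ q = a / b ∧ UP P (x ^ b / 2 ^ a) :=
    ⟨_, b, a, hb, rfl, h⟩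
  have hd : vP P x = hex.choose := by
    unfold vP
    rw [dif_pos hex]
  rw [hd]
  obtain ⟨b', a', hb', hq, h'⟩ := hex.choose_spec
  rw [hq]
  have hx : x ≠ 0 := by
    rintro rfl
    have := DI.UP.ne_zero h
    rw [zero_pow hb.ne', zero_div] at this
    exact this rfl
  have h3 : UP P ((x ^ b / 2 ^ a) ^ b' / (x ^ b' / 2 ^ a') ^ b) :=
    DI.UP.div (DI.UP.pow h b') (DI.UP.pow h' b)
  have e : (x ^ b / 2 ^ a) ^ b' / (x ^ b' / 2 ^ a') ^ b = (2 : Om) ^ (a' * b - a * b') := by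
    rw [zpow_sub₀ two_ne_zero, zpow_mul, zpow_mul, div_pow, div_pow, ← pow_mul, ← pow_mul,
      mul_comm b' b, zpow_natCast, zpow_natCast]
    have hx' : x ^ (b * b') ≠ 0 := pow_ne_zero _ hx
    field_simp
  rw [e, up_two h2] at h3
  have hb0 : (b : ℚ) ≠ 0 := by positivity
  have hb0' : (b' : ℚ) ≠ 0 := by positivity
  rw [div_eq_div_iff hb0' hb0]
  have h4 : a' * b = a * b' := by omega
  exact_mod_cast h4

theorem vP_spec (h2 : MP P 2) {x : Om} (hx : x ≠ 0) :
    ∃ (b : ℕ) (a : ℤ), 0 < b ∧ vP P x = a / b ∧ UP P (x ^ b / 2 ^ a) := by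
  obtain ⟨b, a, hb, h⟩ := com h2 hx
  exact ⟨b, a, hb, vP_eq h2 hb h, h⟩

theorem vP_mul (h2 : MP P 2) {x y : Om} (hx : x ≠ 0) (hy : y ≠ 0) :
    vP P (x * y) = vP P x + vP P y := by
  obtain ⟨b, a, hb, hq, h⟩ := vP_spec h2 hx
  obtain ⟨b', a', hb', hq', h'⟩ := vP_spec h2 hy
  have h3 : UP P ((x * y) ^ (b * b') / 2 ^ (a * b' + a' * b)) := by
    have h4 := DI.UP.mul (DI.UP.pow h b') (DI.UP.pow h' b)
    have e : (x ^ b / 2 ^ a) ^ b' * (y ^ b' / 2 ^ a') ^ b =
        (x * y) ^ (b * b') / 2 ^ (a * b' + a' * b) := by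
      rw [zpow_add₀ two_ne_zero, zpow_mul, zpow_mul, div_pow, div_pow, ← pow_mul, ← pow_mul,
        mul_comm b' b, zpow_natCast, zpow_natCast, mul_pow]
      field_simp
    rwa [e] at h4
  rw [vP_eq h2 (Nat.mul_pos hb hb') h3, hq, hq']
  have hb0 : (b : ℚ) ≠ 0 := by positivity
  have hb0' : (b' : ℚ) ≠ 0 := by positivity
  push_cast
  field_simp

theorem vP_two (h2 : MP P 2) : vP P 2 = 1 := by
  have h : UP P ((2 : Om) ^ 1 / 2 ^ (1 : ℤ)) := by
    rw [pow_one, zpow_one, div_self two_ne_zero]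
    exact DI.UP.one
  rw [vP_eq h2 one_pos h]
  norm_num

theorem vP_nonneg (h2 : MP P 2) {x : Om} (hx : x ≠ 0) : 0 ≤ vP P x ↔ VP P x := by
  obtain ⟨b, a, hb, hq, h⟩ := vP_spec h2 hx
  have hb0 : (0 : ℚ) < b := by positivity
  have hz : (2 : Om) ^ a ≠ 0 := zpow_ne_zero _ two_ne_zero
  rw [hq, le_div_iff₀ hb0, zero_mul]
  have e : VP P x ↔ VP P ((2 : Om) ^ a) := by
    constructor
    · intro h3
      have h4 := DI.VP.mul (DI.VP.pow h3 b) (DI.UP.inv h).1
      rwa [inv_div, mul_div_cancel₀ _ (pow_ne_zero _ hx)] at h4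
    · intro h3
      have h4 := DI.VP.mul h.1 h3
      rw [div_mul_cancel₀ _ hz] at h4
      exact DI.VP.of_pow hb h4
  rw [e, vp_two h2]
  exact_mod_cast Iff.rfl

theorem vP_pos (h2 : MP P 2) {x : Om} (hx : x ≠ 0) : 0 < vP P x ↔ MP P x := by
  obtain ⟨b, a, hb, hq, h⟩ := vP_spec h2 hx
  have hb0 : (0 : ℚ) < b := by positivity
  have hz : (2 : Om) ^ a ≠ 0 := zpow_ne_zero _ two_ne_zero
  rw [hq, lt_div_iff₀ hb0, zero_mul]
  have e : MP P x ↔ MP P ((2 : Om) ^ a) := by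
    constructor
    · intro h3
      have h3' : MP P (x ^ b) := by
        obtain ⟨m, rfl⟩ : ∃ m, b = m + 1 := ⟨b - 1, by omega⟩
        rw [pow_succ]
        exact DI.MP.mul_left (DI.VP.pow h3.vp m) h3
      have h4 := DI.MP.mul_right h3' (DI.UP.inv h).1
      rwa [inv_div, mul_div_cancel₀ _ (pow_ne_zero _ hx)] at h4
    · intro h3
      have h4 := DI.MP.mul_left h.1 h3
      rw [div_mul_cancel₀ _ hz] at h4
      exact DI.MP.of_pow h4
  rw [e, mp_two h2]
  exact_mod_cast Iff.rfl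

theorem vP_zero_iff (h2 : MP P 2) {x : Om} (hx : x ≠ 0) : vP P x = 0 ↔ UP P x := by
  constructor
  · intro h
    exact ⟨(vP_nonneg h2 hx).1 h.ge, fun h3 => ((vP_pos h2 hx).2 h3).ne' h⟩
  · rintro ⟨h3, h4⟩
    exact le_antisymm (not_lt.1 fun h5 => h4 ((vP_pos h2 hx).1 h5)) ((vP_nonneg h2 hx).2 h3)

theorem vP_of_up (h2 : MP P 2) {x : Om} (h : UP P x) : vP P x = 0 :=
  (vP_zero_iff h2 (DI.UP.ne_zero h)).2 h

theorem vP_one (h2 : MP P 2) : vP P 1 = 0 := vP_of_up h2 DI.UP.one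

theorem vP_inv (h2 : MP P 2) {x : Om} (hx : x ≠ 0) : vP P x⁻¹ = -vP P x := by
  have h := vP_mul h2 hx (inv_ne_zero hx)
  rw [mul_inv_cancel₀ hx, vP_one h2] at h
  linarith

theorem vP_div (h2 : MP P 2) {x y : Om} (hx : x ≠ 0) (hy : y ≠ 0) :
    vP P (x / y) = vP P x - vP P y := by
  rw [div_eq_mul_inv, vP_mul h2 hx (inv_ne_zero hy), vP_inv h2 hy, sub_eq_add_neg]

theorem vP_pow (h2 : MP P 2) {x : Om} (hx : x ≠ 0) (n : ℕ) : vP P (x ^ n) = n * vP P x := by
  induction n with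
  | zero => rw [pow_zero, vP_one h2]; simp
  | succ n ih => rw [pow_succ, vP_mul h2 (pow_ne_zero _ hx) hx, ih]; push_cast; ring

theorem vP_two_pow (h2 : MP P 2) (n : ℕ) : vP P (2 ^ n) = n := by
  rw [vP_pow h2 two_ne_zero, vP_two h2, mul_one]

theorem vP_neg (h2 : MP P 2) {x : Om} (hx : x ≠ 0) : vP P (-x) = vP P x := by
  have h : vP P (-1) = 0 := vP_of_up h2 (DI.UP.neg DI.UP.one)
  rw [← neg_one_mul, vP_mul h2 (neg_ne_zero.2 one_ne_zero) hx, h, zero_add]

theorem vP_prod (h2 : MP P 2) {ι : Type*} (s : Finset ι) (f : ι → Om) (h : ∀ i ∈ s, f i ≠ 0) :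
    vP P (∏ i ∈ s, f i) = ∑ i ∈ s, vP P (f i) := by
  classical
  induction s using Finset.induction_on with
  | empty => rw [Finset.prod_empty, Finset.sum_empty, vP_one h2]
  | insert a s ha ih =>
    rw [Finset.prod_insert ha, Finset.sum_insert ha, vP_mul h2 (h a (Finset.mem_insert_self a s))
      (Finset.prod_ne_zero_iff.2 fun i hi => h i (Finset.mem_insert_of_mem hi)),
      ih fun i hi => h i (Finset.mem_insert_of_mem hi)]

theorem vP_le (h2 : MP P 2) {x y : Om} (hx : x ≠ 0) (hy : y ≠ 0) :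
    vP P x ≤ vP P y ↔ VP P (y / x) := by
  rw [← vP_nonneg h2 (div_ne_zero hy hx), vP_div h2 hy hx, sub_nonneg]

theorem vP_add (h2 : MP P 2) {x y : Om} (hx : x ≠ 0) (hy : y ≠ 0) (hxy : x + y ≠ 0) :
    min (vP P x) (vP P y) ≤ vP P (x + y) := by
  have key : ∀ {x y : Om}, x ≠ 0 → y ≠ 0 → x + y ≠ 0 → vP P x ≤ vP P y →
      vP P x ≤ vP P (x + y) := by
    intro x y hx hy hxy h
    rw [vP_le h2 hx hxy, add_div, div_self hx]
    exact DI.VP.add DI.VP.one ((vP_le h2 hx hy).1 h)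
  rcases le_total (vP P x) (vP P y) with h | h
  · rw [min_eq_left h]
    exact key hx hy hxy h
  · rw [min_eq_right h, add_comm]
    exact key hy hx (by rwa [add_comm]) h

/-- Different valuations: the sum is not zero and has the smaller valuation. -/
theorem vP_add_lt (h2 : MP P 2) {x y : Om} (hx : x ≠ 0)
    (hne : y = 0 ∨ vP P x < vP P y) : x + y ≠ 0 ∧ vP P (x + y) = vP P x := by
  rcases hne with rfl | hlt
  · rw [add_zero]
    exact ⟨hx, rfl⟩
  · by_cases hy0 : y = 0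
    · rw [hy0, add_zero]
      exact ⟨hx, rfl⟩
    have h0 : x + y ≠ 0 := by
      intro h
      have : y = -x := by linear_combination h
      rw [this, vP_neg h2 hx] at hlt
      exact lt_irrefl _ hlt
    refine ⟨h0, le_antisymm ?_ ?_⟩
    · by_contra hn
      push Not at hn
      have h3 := vP_add h2 h0 (neg_ne_zero.2 hy0) (by rwa [add_neg_cancel_right])
      rw [add_neg_cancel_right, vP_neg h2 hy0] at h3
      exact absurd h3 (not_le.2 (lt_min hn hlt))
    · have h3 := vP_add h2 hx hy0 h0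
      rwa [min_eq_left hlt.le] at h3

theorem vP_stab {σ : Gal(Om/ℚ)} (h2 : MP P 2) (hσ : σ ∈ MulAction.stabilizer Gal(Om/ℚ) P) {x : Om}
    (hx : x ≠ 0) : vP P (σ x) = vP P x := by
  obtain ⟨b, a, hb, hq, h⟩ := vP_spec h2 hx
  have h3 : UP P (σ x ^ b / 2 ^ a) := by
    have e : σ x ^ b / 2 ^ a = σ (x ^ b / 2 ^ a) := by
      rw [map_div₀, map_pow, map_zpow₀, map_ofNat]
    rw [e]
    exact ⟨(DI.VP.stab hσ).2 h.1, fun h4 => h.2 ((DI.MP.stab hσ).1 h4)⟩
  rw [vP_eq h2 hb h3, hq]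

theorem vP_inertia {σ : Gal(Om/ℚ)} (h2 : MP P 2) (hσ : σ ∈ P.inertia Gal(Om/ℚ)) {x : Om}
    (hx : x ≠ 0) : vP P (σ x) = vP P x := by
  obtain ⟨b, a, hb, hq, h⟩ := vP_spec h2 hx
  have h3 : UP P (σ x ^ b / 2 ^ a) := by
    have e : σ x ^ b / 2 ^ a = σ (x ^ b / 2 ^ a) := by
      rw [map_div₀, map_pow, map_zpow₀, map_ofNat]
    rw [e]
    exact DI.UP.congr h (DI.VP.inertia hσ h.1)
  rw [vP_eq h2 hb h3, hq]

/-! ## `GE` -/

omit hP in
theorem GE.zero (q : ℚ) : GE P q 0 := Or.inl rfl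

omit hP in
theorem GE.mono {q q' : ℚ} {x : Om} (h : GE P q x) (hq : q' ≤ q) : GE P q' x :=
  h.imp_right fun h3 => hq.trans h3

theorem GE.vp_iff (h2 : MP P 2) {x : Om} : GE P 0 x ↔ VP P x := by
  by_cases hx : x = 0
  · rw [hx]
    exact ⟨fun _ => DI.VP.zero, fun _ => Or.inl rfl⟩
  · constructor
    · rintro (h | h)
      · exact absurd h hx
      · exact (vP_nonneg h2 hx).1 h
    · intro h
      exact Or.inr ((vP_nonneg h2 hx).2 h)

theorem GE.mp (h2 : MP P 2) {q : ℚ} {x : Om} (h : GE P q x) (hq : 0 < q) : MP P x := by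
  rcases h with rfl | h
  · exact DI.MP.zero
  · by_cases hx : x = 0
    · rw [hx]; exact DI.MP.zero
    · exact (vP_pos h2 hx).1 (hq.trans_le h)

theorem GE.neg (h2 : MP P 2) {q : ℚ} {x : Om} (h : GE P q x) : GE P q (-x) := by
  rcases h with rfl | h
  · rw [neg_zero]; exact Or.inl rfl
  · by_cases hx : x = 0
    · rw [hx, neg_zero]; exact Or.inl rfl
    · right
      rwa [vP_neg h2 hx]

theorem GE.add (h2 : MP P 2) {q : ℚ} {x y : Om} (hx : GE P q x) (hy : GE P q y) :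
    GE P q (x + y) := by
  by_cases hx0 : x = 0
  · rw [hx0, zero_add]; exact hy
  by_cases hy0 : y = 0
  · rw [hy0, add_zero]; exact hx
  by_cases hxy : x + y = 0
  · rw [hxy]; exact Or.inl rfl
  right
  exact (le_min (hx.resolve_left hx0) (hy.resolve_left hy0)).trans (vP_add h2 hx0 hy0 hxy)

theorem GE.sub (h2 : MP P 2) {q : ℚ} {x y : Om} (hx : GE P q x) (hy : GE P q y) :
    GE P q (x - y) := by
  rw [sub_eq_add_neg]
  exact hx.add h2 (hy.neg h2)

theorem GE.mul (h2 : MP P 2) {q q' : ℚ} {x y : Om} (hx : GE P q x) (hy : GE P q' y) :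
    GE P (q + q') (x * y) := by
  by_cases hx0 : x = 0
  · rw [hx0, zero_mul]; exact Or.inl rfl
  by_cases hy0 : y = 0
  · rw [hy0, mul_zero]; exact Or.inl rfl
  right
  rw [vP_mul h2 hx0 hy0]
  exact add_le_add (hx.resolve_left hx0) (hy.resolve_left hy0)

theorem GE.mul_left (h2 : MP P 2) {q : ℚ} {x y : Om} (hx : VP P x) (hy : GE P q y) :
    GE P q (x * y) := by
  have h := ((GE.vp_iff h2).2 hx).mul h2 hy
  rwa [zero_add] at h

theorem GE.mul_right (h2 : MP P 2) {q : ℚ} {x y : Om} (hx : GE P q x) (hy : VP P y) :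
    GE P q (x * y) := by
  rw [mul_comm]
  exact GE.mul_left h2 hy hx

theorem GE.sum (h2 : MP P 2) {q : ℚ} {ι : Type*} (s : Finset ι) (f : ι → Om)
    (h : ∀ i ∈ s, GE P q (f i)) : GE P q (∑ i ∈ s, f i) := by
  classical
  induction s using Finset.induction_on with
  | empty => rw [Finset.sum_empty]; exact Or.inl rfl
  | insert a s ha ih =>
    rw [Finset.sum_insert ha]
    exact (h a (Finset.mem_insert_self a s)).add h2
      (ih fun i hi => h i (Finset.mem_insert_of_mem hi))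

/-- `GE P (v t) x` means that `x` is in `t V_P`. -/
theorem GE.tp_iff (h2 : MP P 2) {t x : Om} (ht : t ≠ 0) : GE P (vP P t) x ↔ TP P t x := by
  constructor
  · intro h
    refine ⟨x / t, ?_, (mul_div_cancel₀ x ht).symm⟩
    by_cases hx : x = 0
    · rw [hx, zero_div]; exact DI.VP.zero
    · exact (vP_le h2 ht hx).1 (h.resolve_left hx)
  · rintro ⟨y, hy, rfl⟩
    exact GE.mul_right h2 (Or.inr le_rfl) hy

theorem GE.two_iff (h2 : MP P 2) {x : Om} : GE P 1 x ↔ TP P 2 x := by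
  rw [← GE.tp_iff h2 two_ne_zero, vP_two h2]

theorem GE.inertia (h2 : MP P 2) {σ : Gal(Om/ℚ)} (hσ : σ ∈ P.inertia Gal(Om/ℚ)) {q : ℚ} {x : Om}
    (h : GE P q x) : GE P q (σ x) := by
  by_cases hx : x = 0
  · rw [hx, map_zero]; exact Or.inl rfl
  · right
    rw [vP_inertia h2 hσ hx]
    exact h.resolve_left hx

theorem GE.div (h2 : MP P 2) {q : ℚ} {x y : Om} (hx : GE P q x) (hy : y ≠ 0) :
    GE P (q - vP P y) (x / y) := by
  by_cases hx0 : x = 0
  · rw [hx0, zero_div]; exact Or.inl rfl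
  right
  rw [vP_div h2 hx0 hy]
  have := hx.resolve_left hx0
  linarith

end

end Pool.Agent.DN.GL
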