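import Pool.Agent.Lib.DN.O.All
import Pool.Agent.Lib.DN.GL.Va

/-!
# Theorem DN, part GL (author helper66): the fields `K(f 2^N)` at a prime above `2`, `2` inert

`P` above `2`. `EE M` is the field of the `M`-torsion (`15 ∣ M`), for odd `f` it is unramified at `P`, and
`EE (f 2^N) / EE f` is totally ramified at `P` of degree `3 * 4 ^ (N - 1)` (supersingular reduction).
`z = z0 + d`, `z0` of odd order `f`, `d` of exact order `2 ^ N` modulo `O = Lam ⊤`: `pH z0 d 1 = X(z) - X(z0)` is a uniformizer,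
its conjugates are the numbers `pH z0 d h = X(z0 + h d) - X(z0)`.

Tools: `GL/Va.lean` (all proved): the valuation `vP P : Om → ℚ` with `vP P 2 = 1`, `GE P q x` (`v(x) ≥ q` or `x = 0`): `vP_mul`, `vP_inv`,
`vP_div`, `vP_pow`, `vP_prod`, `vP_add`, `vP_add_lt`, `vP_nonneg`, `vP_pos`, `vP_zero_iff`, `vP_of_up`, `vP_inertia`, `vP_stab`, `vP_eq`, `GE.add`, `GE.sub`,
`GE.neg`, `GE.mul`, `GE.mul_left`, `GE.mul_right`, `GE.sum`, `GE.mono`, `GE.vp_iff`, `GE.two_iff`, `GE.tp_iff`, `GE.mp`, `GE.inertia`, `GE.div`; `DN/Base.lean`, `DI/Val.lean`. The instance `P.IsPrime`: `have := hP.1.1` for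
`hP : Ab2 P`; `hP.2 : MP P 2`. THE PARTS O AND L ARE PROVED: `DN/O/All.lean` (imported): `aO1 .. aO12`, `aL1 .. aL7` (statements `S_O1 ..` in `DN/Iface.lean` and `DN/O/Spec.lean`): use them directly.

RULES: the statement `S_X` is to be proved as `theorem tX : S_X` in the module `Pool/Agent/Lib/DN/GL/X.lean` with the first
lines `import Pool.Agent.Lib.DN.GL.Spec`, `set_option autoImplicit false`, `open scoped Pointwise`, `noncomputable section`,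
`namespace Pool.Agent.DN.GL` and the `open` lines of this file. Auxiliary declarations are `private`. Every `C_X` is a statement, `S_X` the
implication from the statements used to `C_X`. All modules are independent.
-/

set_option autoImplicit false

open scoped Pointwise

noncomputable section

namespace Pool.Agent.DN.GL

open Pool.Agent.MuZ Pool.Agent.FW Pool.Agent.DN
open Pool.Agent.DI (io ofC io_inj exists_io io_ofC ofC_io VP MP UP TP ex)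

variable {k t : ℕ}

/-! ## Definitions -/

/-- The field of the `M`-torsion (`15 ∣ M`): the ray class field modulo `M`. -/
def EE (k t M : ℕ) : IntermediateField ℚ Om := FixI M (fun a : Ideal (OO k t) => Ray M a ⊤)

/-- `a` is `P`-integral and in a field of odd level. -/
def OA (k t : ℕ) (P : Ideal ZZ) (a : Om) : Prop := VP P a ∧ ∃ f : ℕ, Odd f ∧ 15 ∣ f ∧ a ∈ EE k t f

/-- The polynomials with coefficients in `OA`. -/
def PA (k t : ℕ) (P : Ideal ZZ) (F : Polynomial Om) : Prop := ∀ i : ℕ, OA k t P (F.coeff i)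

/-- The inertia element `s` acts on the torsion of level `f 2 ^ N` as `h`, `h = 1` modulo `f`. -/
structure Cls (P : Ideal ZZ) (f N : ℕ) (h : OO k t) (s : Gal(Om/ℚ)) : Prop where
  ine : s ∈ P.inertia Gal(Om/ℚ)
  one : (f : OO k t) ∣ h - 1
  cop : Cop h 2
  psi : Psi s (f * 2 ^ N) (sp h)

/-- The point `z0 + d`: `z0` of odd order, `d` of exact order `2 ^ N`. -/
structure Pt (k t f N : ℕ) (z0 d : ℂ) : Prop where
  odd : Odd f
  f15 : 15 ∣ f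
  pos : 1 ≤ N
  z : (f : ℂ) * z0 ∈ Lam (⊤ : Ideal (OO k t))
  zn : z0 ∉ Lam (⊤ : Ideal (OO k t))
  dd : (2 : ℂ) ^ N * d ∈ Lam (⊤ : Ideal (OO k t))
  dn : (2 : ℂ) ^ (N - 1) * d ∉ Lam (⊤ : Ideal (OO k t))

/-- The conjugates of the uniformizer: `X(z0 + h d) - X(z0)`. -/
def pH (z0 d : ℂ) (h : OO k t) : Om :=
  xO (⊤ : Ideal (OO k t)) (z0 + toC h * d) - xO (⊤ : Ideal (OO k t)) z0

/-- `T` is a system of representatives modulo `2 ^ N` of the elements with the property `C`. -/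
structure IsR (N : ℕ) (C : OO k t → Prop) (T : Finset (OO k t)) : Prop where
  mem : ∀ h ∈ T, C h
  ex : ∀ v : OO k t, C v → ∃ h ∈ T, ((2 ^ N : ℕ) : OO k t) ∣ v - h
  uni : ∀ h ∈ T, ∀ h' ∈ T, ((2 ^ N : ℕ) : OO k t) ∣ h - h' → h = h'

/-- The units: `h = 1` modulo `f`, `h` prime to `2`. -/
def Un (f : ℕ) (h : OO k t) : Prop := (f : OO k t) ∣ h - 1 ∧ Cop h 2

/-- The group `1 + 2 ^ j O`: `h = 1` modulo `f` and modulo `2 ^ j`. -/
def Uj (f j : ℕ) (h : OO k t) : Prop := (f : OO k t) ∣ h - 1 ∧ ((2 ^ j : ℕ) : OO k t) ∣ h - 1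

/-- The group `H'`: `h = 1` modulo `f` and modulo `4`, `N h = 1` modulo `2 ^ N`. -/
def Hq (f N : ℕ) (h : OO k t) : Prop :=
  (f : OO k t) ∣ h - 1 ∧ (4 : OO k t) ∣ h - 1 ∧ (2 : ℤ) ^ N ∣ Nm h - 1

/-- **The derivation modulo `4`**: `x = F(π)` and `y = F'(π) W(z)` modulo `4`, `π = X(z) - X(z0)`, `z = z0 + d`. -/
def Der (k t : ℕ) (P : Ideal ZZ) (z0 d : ℂ) (x y : Om) : Prop :=
  ∃ F : Polynomial Om, PA k t P F ∧ F.eval (pH z0 d (1 : OO k t)) = x ∧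
    GE P 2 (y - F.derivative.eval (pH z0 d (1 : OO k t)) * vO (⊤ : Ideal (OO k t)) (z0 + d))

/-- `Y = (W - A1 X - A3)/2`. -/
def yO (b : Ideal (OO k t)) (z : ℂ) : Om := (vO b z - a1O b * xO b z - a3O b) / 2

/-! ## The fields `EE M` -/

/-- Levels and elements. -/
def C_Lev : Prop :=
  ∀ (k t : ℕ) [Ine k t] (M : ℕ), 0 < M → 15 ∣ M →
    (∀ M' : ℕ, 0 < M' → M ∣ M' → EE k t M ≤ EE k t M') ∧
    (∀ v : OO k t, toO v ∈ EE k t M) ∧
    (∀ b : Ideal (OO k t), G15 b → a1O b ∈ EE k t M ∧ a3O b ∈ EE k t M ∧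
      (∀ z : ℂ, (M : ℂ) * z ∈ Lam b → xO b z ∈ EE k t M ∧ vO b z ∈ EE k t M) ∧
      ∀ c : Ideal (OO k t), G15 c → rO b c ∈ EE k t M) ∧
    (∀ ζ : Om, ζ ^ M = 1 → ζ ∈ EE k t M) ∧
    ∀ m b : Ideal (OO k t), m ≠ ⊥ → G15 b → PrI m 2 → PrI m 15 → NI m ∣ M →
      ∀ z : ℂ, (M : ℂ) * z ∈ Lam b →
        (z ∉ Lam (m * b) → gO m b z ∈ EE k t M) ∧ Theta m b z ∈ EE k t M

/-- (110 lines) **Lev** (from E1, E6, E10). PROOF. `x ∈ EE k t M` means: `τ x = x` for all `τ ∈ GK k t` and `a` with `Psi τ M a`, `Ray M a ⊤`. (1) `Psi τ M' a`, `Ray M' a ⊤` give `Psi τ M a` (S_E1, 5) and `Ray M a ⊤` (S_O7, 7). (2) `τ ∈ GK`: `τ (toO v) = toO v` (`GK_toO`).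
(3)-(5) By S_E1 (3) with S_O7 (symmetry) `Psi τ M ⊤`; `Psi.a1`, `Psi.a3`, `Psi.xx` with `⊤ * b = b`; `vO`, `rO`, `gO`, `Theta` by S_E10; `ζ` by S_E6 with `NI ⊤ = 1` (`NI`: `Nat.card` of the trivial quotient). -/
def S_Lev : Prop := S_E1 → S_E6 → S_E10 → C_Lev

/-- Galois theory of `EE M`. -/
def C_Gal : Prop :=
  ∀ (k t : ℕ) [Ine k t] (M : ℕ), 0 < M → 15 ∣ M →
    FiniteDimensional ℚ (EE k t M) ∧ (∀ τ : Gal(Om/ℚ), ∀ x ∈ EE k t M, τ x ∈ EE k t M) ∧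
    (∀ τ ∈ GK k t, ∀ τ' ∈ GK k t, ∀ a a' : Ideal (OO k t), Psi τ M a → Psi τ' M a' → Ray M a a' →
      ∀ x ∈ EE k t M, τ x = τ' x) ∧
    ∀ x : Om, (∀ τ ∈ GK k t, ∀ a : Ideal (OO k t), Psi τ M a → Ray M a ⊤ → τ x = x) → x ∈ EE k t M

/-- (150 lines) **Gal** (from R1, E1, E7, E8). PROOF. (4) is the definition. (1) S_E8 with `H a := Ray M a ⊤` (its four hypotheses: S_O7; `Ray M a ⊤` gives `a ≠ ⊥`, `PrI a M`: S_O7 (6), `PrI ⊤ M`). (3) Let `σ = τ'⁻¹ * τ ∈ GK`, `Psi τ'⁻¹ M a''` (S_E1, 1: existence; `GK` is a subgroup);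
`Psi (τ'⁻¹ * τ') M (a'' a')` and `Psi 1 M ⊤` (all fields trivial, `⊤ * b = b`) give `Ray M (a'' a') ⊤` (S_E1, 2); `Psi σ M (a'' a)`, `Ray M (a'' a) (a'' a')`, so `Ray M (a'' a) ⊤` and `σ x = x`. (2) As in `DK/E` (S_E9, first half): for `τ ∈ GK`: `σ ∈ GK`, `Psi σ M a`, `Ray M a ⊤`; `τ⁻¹ σ τ ∈ GK`
has the class of `a` (S_E1 (4), commutativity of ideals, cancellation as in (3)), so fixes `x`, i.e. `σ (τ x) = τ x`. For the complex conjugation `c` (S_R1, 2): `c⁻¹ σ c ∈ GK` (`GK` is normal: index two; or directly `c (wO) = t - wO`) and `Psi (c⁻¹ σ c) M (cjI a)` from S_R1 and S_O3 (`cjI` of a product, `Lam (cjI b)`), `Ray M (cjI a) ⊤`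
(S_O3; `cjI ⊤ = ⊤`). Every `τ` is in `GK` or `c * GK`. -/
def S_Gal : Prop := S_R1 → S_E1 → S_E7 → S_E8 → C_Gal

/-! ## Ramification -/

/-- The value group of a finite normal field is generated by `1/e`, `e` the number of restrictions of inertia elements. -/
def C_Ram : Prop :=
  ∀ E : IntermediateField ℚ Om, FiniteDimensional ℚ E → (∀ τ : Gal(Om/ℚ), ∀ x ∈ E, τ x ∈ E) →
    ∀ P : Ideal ZZ, P.IsPrime → MP P 2 → ∃ S : Finset Gal(Om/ℚ), 0 < S.card ∧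
      (∀ τ ∈ S, τ ∈ P.inertia Gal(Om/ℚ)) ∧
      (∀ τ ∈ S, ∀ τ' ∈ S, (∀ x ∈ E, τ x = τ' x) → τ = τ') ∧
      (∀ τ ∈ P.inertia Gal(Om/ℚ), ∃ τ' ∈ S, ∀ x ∈ E, τ x = τ' x) ∧
      ∀ x ∈ E, x ≠ 0 → ∃ j : ℤ, vP P x = j / S.card

/-- (220 lines) **Ram.** PROOF. Adapt `DT/GL/UnrT.lean` (and `GL/Va.lean`, theorem `com`). `w = P ∩ 𝓞 E`, `I = w.asIdeal.inertia Gal(E/ℚ)`, `e = Nat.card I` is the ramification index: `w.valuation E 2 = exp (-e)` (as `UnrT_three`, with equality: `Ideal.card_inertia_eq_ramificationIdxIn`, `intValuation_liesOver`, `intValuation_singleton`).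
For `x ∈ E`, `x ≠ 0`, `w.valuation E x = exp (-j)`: `x ^ e / 2 ^ j` has valuation `1`, so it is a unit at `P` (as in `com`) and `vP P x = j / e` (`vP_eq`). `S`: for every `σ ∈ I` choose an inertia element `τ ∈ P.inertia` with the same action on `E` (`tEIne`, exactly as in `UnrT`); this map `I → Gal(Om/ℚ)` is injective, `S` is its image,
`S.card = e`. An element `τ ∈ P.inertia` restricts to an element of `I`. -/
def S_Ram : Prop := C_Ram

/-- Inertia acts trivially on the fields of odd level; their value group is `ℤ`. -/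
def C_Unr : Prop :=
  ∀ (k t : ℕ) [Ine k t] (P : Ideal ZZ), Ab2 P → (∀ τ ∈ P.inertia Gal(Om/ℚ), τ ∈ GK k t) ∧
    ∀ f : ℕ, Odd f → 15 ∣ f → ∀ x ∈ EE k t f, (∀ τ ∈ P.inertia Gal(Om/ℚ), τ x = x) ∧
      (x ≠ 0 → ∃ j : ℤ, vP P x = j)

/-- (70 lines) **Unr** (from E4, Gal, Ram). PROOF. `τ` inertia: `τ (wO)` is a root of `y² = t y - k`, `t = 1` (`Ine.one`), so it is `wO` or `1 - wO`; `τ wO - wO ∈ P` (`DI.VP.inertia`); `1 - 2 wO ∈ P` is impossible (`MP P 2`, `VP P wO`). So `τ ∈ GK` (`mem_GK_iff`). S_E4: `Psi τ f ⊤`, so `τ x = x` for `x ∈ EE k t f` (definition, `Ray f ⊤ ⊤` by S_O7).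
Ram for `E = EE k t f` (Gal): all `τ ∈ S` agree on `E` (they are trivial on it), so `S.card = 1`. -/
def S_Unr : Prop := S_E4 → C_Gal → C_Ram → C_Unr

/-- `OA`: a ring, fixed by inertia, integral values. -/
def C_Oa : Prop :=
  ∀ (k t : ℕ) [Ine k t] (P : Ideal ZZ), Ab2 P →
    OA k t P 0 ∧ OA k t P 1 ∧ (∀ x y : Om, OA k t P x → OA k t P y → OA k t P (x + y) ∧ OA k t P (x * y) ∧
      OA k t P (-x)) ∧ (∀ v : OO k t, OA k t P (toO v)) ∧
    (∀ x : Om, OA k t P x → (∀ τ ∈ P.inertia Gal(Om/ℚ), τ x = x) ∧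
      (x ≠ 0 → ∃ j : ℕ, vP P x = j) ∧ (UP P x → OA k t P x⁻¹)) ∧
    (∀ F G : Polynomial Om, PA k t P F → PA k t P G →
      PA k t P (F + G) ∧ PA k t P (F * G) ∧ PA k t P (-F) ∧ PA k t P F.derivative) ∧
    (∀ x : Om, OA k t P x → PA k t P (Polynomial.C x)) ∧ PA k t P Polynomial.X ∧
    ∀ F : Polynomial Om, PA k t P F → ∀ x : Om, VP P x → VP P (F.eval x) ∧
      ∀ τ ∈ P.inertia Gal(Om/ℚ), τ (F.eval x) = F.eval (τ x)

/-- (110 lines) **Oa** (from Lev, Unr). PROOF. Two elements of levels `f, f'` are in the field of level `f f'` (odd, divisible by `15`; Lev). `vP P x = j` with `j ≥ 0` by `vP_nonneg`. Coefficients of sums, products (`Polynomial.coeff_mul`, a finite sum), derivatives (`Polynomial.coeff_derivative`). Evaluation: `Polynomial.eval_eq_sum_range`. -/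
def S_Oa : Prop := C_Lev → C_Unr → C_Oa

/-! ## Inertia elements and points -/

/-- Every inertia element has a class. -/
def C_In : Prop :=
  ∀ (k t : ℕ) [Ine k t] (P : Ideal ZZ), Ab2 P → ∀ f N : ℕ, Odd f → 15 ∣ f →
    (∀ τ ∈ P.inertia Gal(Om/ℚ), ∃ h : OO k t, Cls P f N h τ) ∧
    (∀ (τ : Gal(Om/ℚ)) (h h' : OO k t), Cls P f N h τ → Cls P f N h' τ → ((2 ^ N : ℕ) : OO k t) ∣ h - h') ∧
    (∀ (τ : Gal(Om/ℚ)) (h h' : OO k t), Cls P f N h τ → (f : OO k t) ∣ h' - 1 →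
      ((2 ^ N : ℕ) : OO k t) ∣ h' - h → Cop h' 2 → Cls P f N h' τ) ∧
    (∀ (τ τ' : Gal(Om/ℚ)) (h h' : OO k t), Cls P f N h τ → Cls P f N h' τ' → Cls P f N (h * h') (τ * τ')) ∧
    (∀ (τ τ' : Gal(Om/ℚ)) (h : OO k t), Cls P f N h τ → Cls P f N h τ' →
      ∀ x ∈ EE k t (f * 2 ^ N), τ x = τ' x) ∧
    ∀ (τ : Gal(Om/ℚ)) (h : OO k t) (f' N' : ℕ), Cls P f N h τ → 15 ∣ f' → f' ∣ f → N' ≤ N →
      Cls P f' N' h τ

/-- (130 lines) **In** (from E1, E4, Gal, Unr). PROOF. (1) `τ ∈ GK` (Unr); `Psi τ (f 2^N) a` (S_E1 (1)), so `Psi τ f a` (S_E1 (5)), and `Psi τ f ⊤` (S_E4), so `Ray f a ⊤` (S_E1 (2)): `sp α * a = sp α' * ⊤`, `α, α'` nonzero, prime to `f`, `f ∣ α - α'`. `a ≠ ⊥` is prime to `f 2^N` (`Psi.cop`). By `aO6` (5) there is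
`x ∈ a`, `x ≠ 0`, `f 2^N ∣ x - 1`. `α x ∈ sp α * a = sp α'`: `α x = α' y`. So `sp α * (sp y * a) = sp y * sp α' = sp α * sp x`, `sp y * a = sp x` (cancel). `y` is prime to `f 2^N` (`Nm y` divides `Nm x`: `aO2`), `y = 1` modulo `f` (`α x = α' y`, `x = 1`, `α = α'` invertible modulo `f`). Let `y h = 1` modulo `f 2^N` (`cop_inv`), so `h = 1` modulo `f`,
`Cop h 2` if `N ≥ 1` (for `N = 0` take `h = 1`). `Ray (f 2^N) a (sp h)` with the elements `y h` and `x`: `sp (y h) * a = sp x * sp h`, `f 2^N ∣ y h - x`. So `Psi τ (f 2^N) (sp h)` (S_E1 (3)). (2) `Ray (f 2^N) (sp h) (sp h')` (S_E1 (2)) gives a unit `e` with `f 2^N ∣ h - e h'` (`aO7` (8)), `f ∣ 1 - e`, `e = 1` (`aO7` (9)), `f` odd. (3) `f 2^N ∣ h' - h` (`nat_dvd_iff`,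
coprime), so `Ray (f 2^N) (sp h) (sp h')` (`aO7` (8), `e = 1`), S_E1 (3). (4) S_E1 (4), `sp (h h') = sp h * sp h'`. (5) Gal (3). (6) S_E1 (5). -/
def S_In : Prop := S_E1 → S_E4 → C_Gal → C_Unr → C_In

/-- The action on points. -/
def C_Act : Prop :=
  ∀ (k t : ℕ) [Ine k t] (P : Ideal ZZ), Ab2 P → ∀ (f N : ℕ) (h : OO k t) (τ : Gal(Om/ℚ)), Odd f → 15 ∣ f →
    Cls P f N h τ → ∀ b : Ideal (OO k t), G15 b →
      τ (a1O b) = a1O b ∧ τ (a3O b) = a3O b ∧ (∀ c : Ideal (OO k t), G15 c → τ (rO b c) = rO b c) ∧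
      (∀ z : ℂ, ((f * 2 ^ N : ℕ) : ℂ) * z ∈ Lam b →
        τ (xO b z) = xO b (toC h * z) ∧ τ (vO b z) = vO b (toC h * z)) ∧
      (∀ z : ℂ, (f : ℂ) * z ∈ Lam b → τ (xO b z) = xO b z ∧ τ (vO b z) = vO b z) ∧
      (∀ ζ : Om, ζ ^ 2 ^ N = 1 → τ ζ = ζ ^ (Nm h).toNat) ∧
      ∀ m : Ideal (OO k t), m ≠ ⊥ → PrI m 2 → PrI m 15 → NI m ∣ f →
        ∀ z : ℂ, ((f * 2 ^ N : ℕ) : ℂ) * z ∈ Lam b →
          (z ∉ Lam (m * b) → τ (gO m b z) = gO m b (toC h * z)) ∧ τ (Theta m b z) = Theta m b (toC h * z)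

/-- (130 lines) **Act** (from B1, B7, R1, D8, E1, E6, E10, Unr). PROOF. `Psi.xx`: `τ (xO b z) = xO (sp h * b) z`, and `XC (sp h * b) z = XC b (toC h * z)`, `WC`, `A1`, `A3`, `fr (sp h * b) = toC h * fr b` by S_B7 (3) (`3 ∣ h - 1`, `5 ∣ h - 1` since `15 ∣ f ∣ h - 1`); apply `ofC`. `rO`: S_E10 and `fr (sp h * c) / fr (sp h * b) = fr c / fr b`.
`vO`: S_E10. `gO`: S_E10 and `gC m (sp h * b) z = gC m b (toC h * z)`: `KC (sp h * b') z = toC h * KC b' (toC h * z)` (S_B7) for `b' = m * b` (`m * (sp h * b) = sp h * (m * b)`) and `b' = b`. `Theta`: S_E10, S_D8 (3). `z` with `f z ∈ Lam b`: `toC h * z - z = toC (h - 1) * z ∈ Lam b` (`f ∣ h - 1`), periods S_B1. `ζ`: S_E6 with `ζ ^ (f 2^N) = 1`, `NI (sp h) = Nm h` (S_O2). -/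
def S_Act : Prop := S_B1 → S_B7 → S_R1 → S_D8 → S_E1 → S_E6 → S_E10 → C_Unr → C_Act

/-- Finite sets of representatives. -/
def C_Rep : Prop :=
  ∀ (k t : ℕ) [Ine k t] (N : ℕ), 1 ≤ N → (∀ C : OO k t → Prop, ∃ T : Finset (OO k t), IsR N C T) ∧
    (∀ (C : OO k t → Prop) (T T' : Finset (OO k t)), IsR N C T → IsR N C T' → T.card = T'.card) ∧
    ∀ f : ℕ, Odd f → (∀ T : Finset (OO k t), IsR N (Un f) T → T.card = 3 * 4 ^ (N - 1)) ∧
      ∀ j : ℕ, j ≤ N → ∀ T : Finset (OO k t), IsR N (Uj f j) T → T.card = 4 ^ (N - j)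

/-- (170 lines) **Rep**. PROOF. `O/2^N` is finite: the map `v ↦ (v.re, v.im)` modulo `2^N` is injective on classes (`nat_dvd_iff`). For every class which meets `C` choose an element. (2) The obvious bijection. (3) `h ↦ (h.re, h.im)` modulo `2^N` maps `T` bijectively onto the pairs in `(ZMod (2^N))²` which are not both even (`Cop h 2` iff not `2 ∣ h` iff not both even: S_O4; the condition modulo `f` can always be
satisfied: `h + 2^N c`, `f` odd): `4^N - 4^(N-1)` pairs. (4) Pairs congruent to `(1, 0)` modulo `2^j`: `(2^(N-j))²`. (For the counting one may replace `T` by explicit systems and use (2).) -/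
def S_Rep : Prop := C_Rep

/-- Valuations at the conjugates. -/
def C_Pi : Prop :=
  ∀ (k t : ℕ) [Ine k t] (P : Ideal ZZ), Ab2 P → ∀ (f N : ℕ) (z0 d : ℂ), Pt k t f N z0 d →
    (∀ h : OO k t, Cop h 2 → pH z0 d h ∈ EE k t (f * 2 ^ N) ∧ pH z0 d h ≠ 0 ∧
      vP P (pH z0 d h) = 1 / (3 * 4 ^ (N - 1)) ∧
      ¬ IK P (⊤ : Ideal (OO k t)) (z0 + toC h * d) ∧ VP P (xO (⊤ : Ideal (OO k t)) (z0 + toC h * d)) ∧
      UP P (vO (⊤ : Ideal (OO k t)) (z0 + toC h * d))) ∧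
    OA k t P (xO (⊤ : Ideal (OO k t)) z0) ∧ OA k t P (a1O (⊤ : Ideal (OO k t))) ∧
    OA k t P (a3O (⊤ : Ideal (OO k t))) ∧ UP P (a3O (⊤ : Ideal (OO k t))) ∧
    (∀ h h' : OO k t, Cop h 2 → Cop h' 2 → ((2 ^ N : ℕ) : OO k t) ∣ h - h' → pH z0 d h = pH z0 d h') ∧
    (∀ (h h' : OO k t) (j : ℕ), Cop h 2 → Cop h' 2 → j < N → ((2 ^ j : ℕ) : OO k t) ∣ h - h' →
      ¬ ((2 ^ (j + 1) : ℕ) : OO k t) ∣ h - h' →
      pH z0 d h ≠ pH z0 d h' ∧ vP P (pH z0 d h - pH z0 d h') = 1 / (3 * 4 ^ (N - 1 - j))) ∧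
    ∀ (f' : ℕ) (h h' : OO k t) (τ : Gal(Om/ℚ)), Odd f' → f ∣ f' → Cls P f' N h τ → Cop h' 2 →
      τ (pH z0 d h') = pH z0 d (h * h')

/-- (190 lines) **Pi** (from B1, R1, R2, D1, D2, D10, Lev, Act). PROOF. `toC h * d` has exact order `2^N`: `2^(N-1) h d ∈ O` and `2^(N-1) (2 d) ∈ O` with `h` prime to `2` give `2^(N-1) d ∈ O` (`cop_inv`: `h h' = 1 + 2 y`). In general: `2^i v d ∈ O` iff `2^N ∣ 2^i v` (annihilator of `d`: `{v | v d ∈ O}` is an ideal which contains `2^N`, not `2^(N-1)`; it is `(2^N)` since `(2)` is prime (S_O4):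
if `v d ∈ O`, `v = 2^i v'`, `v'` prime to `2`, `i < N`, then `2^i d ∈ O`, contradiction). `z0` is not in the kernel of reduction: by S_D2 (fifth item) it is enough that `z0` is not `P`-primary: `f z0 ∈ O` (`¬ MP P f`, `f` odd) and `z0 ∉ O` (take `α = f`, `β = 1` in `Qp`). `h d` is in the kernel (S_D2 (1)), so `z0 + h d` is not (S_D1: `IK` is a group) and S_D2 (4) gives `VP`, `UP`. S_D10 at `z0` with the point `h d` (exact order `2^N`, `j = N - 1`)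
gives `UP P (pH ^ (3 * 4^(N-1)) / 2)`, hence `vP` (`vP_eq`) and `≠ 0`. `OA`: Lev, S_R2 (`GQ`). Different `h, h'`: `z0 + h d = (z0 + h' d) + (h - h') d` and `(h - h') d` has exact order `2^(N-j)`: S_D10 at `z0 + h' d`. Equal classes: `(h - h') d ∈ O`, periods (S_B1). The action: Act for `b = ⊤` at `z0 + h' d` (`f' 2^N` kills it): `h (z0 + h' d) = z0 + h h' d` modulo `O`, and `τ (xO ⊤ z0) = xO ⊤ z0`. -/
def S_Pi : Prop :=
  S_B1 → S_R1 → S_R2 → S_D1 → S_D2 → S_D10 → C_Lev → C_Act → C_Pi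

/-- **Total ramification**: every class is the class of an inertia element. -/
def C_Sur : Prop :=
  ∀ (k t : ℕ) [Ine k t] (P : Ideal ZZ), Ab2 P → ∀ f N : ℕ, Odd f → 15 ∣ f → 1 ≤ N →
    ∀ h : OO k t, (f : OO k t) ∣ h - 1 → Cop h 2 → ∃ τ : Gal(Om/ℚ), Cls P f N h τ

/-- (110 lines) **Sur** (from Gal, Ram, In, Rep, Pi). PROOF. `z0 = 1/f`, `d = 1/2^N`: `Pt k t f N z0 d` (S_L6 for `b = ⊤`). Ram for `E = EE k t (f 2^N)`: the set `S`; `vP P (pH z0 d 1) = 1/(3 * 4^(N-1)) = j/S.card` with an integer `j` (Pi), so `3 * 4^(N-1) ∣ S.card`.. in any case `3 * 4^(N-1) ≤ S.card`. Every `τ ∈ S` has a class `h_τ` (In), let `T` be a system for `Un f`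
(Rep) and replace `h_τ` by its representative in `T` (In (3)). `τ ↦ h_τ ∈ T` is injective: equal classes give equal actions on `E` (In (5)), so `τ = τ'`. `T.card = 3 * 4^(N-1)`, so the map is onto: every `h ∈ T` occurs, then every `h` (In (3)). -/
def S_Sur : Prop := C_Gal → C_Ram → C_In → C_Rep → C_Pi → C_Sur

/-! ## Polynomials -/

open Classical in
/-- Factor lemma and Euler's lemma. -/
def C_Pol : Prop :=
  ∀ P : Ideal ZZ, P.IsPrime → ∀ (S : Finset Om) (F : Polynomial Om), (∀ r ∈ S, VP P r) →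
    (∀ i, VP P (F.coeff i)) →
    (∀ c : Om, VP P c → (∀ r ∈ S, F.eval r = c) → ∀ a ∈ S, ∃ y : Om, VP P y ∧
      F.derivative.eval a = (∏ r ∈ S.erase a, (a - r)) * y) ∧
    VP P (∑ a ∈ S, F.eval a / ∏ r ∈ S.erase a, (a - r))

/-- (130 lines) **Pol.** PROOF. `Q = ∏_(r ∈ S) (X - C r)` is monic with coefficients in `V_P`; division with remainder by a monic polynomial stays in the subring `V_P` (work in `Polynomial V`, `V` the subring of `Om` of the `x` with `VP P x`; or induction on the degree of `F`): `F = Q * G + R`, all coefficients in `V_P`, `deg R < card S`. (1) For `F - C c` the remainder vanishes at the `card S` points of `S`, so `R = 0`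
(`Polynomial.eq_zero_of_degree_lt_of_eval_finset_eq_zero`), `F - C c = Q * G`, derivative at `a`: `Q'(a) G(a)`, `Q'(a) = ∏_(r ≠ a) (a - r)` (`Polynomial.eval_derivative..`, or `Q = (X - C a) * Q1`). Remark: alternatively divide successively by `X - C r` (`Polynomial.divX`-like synthetic division keeps the coefficients in `V_P`). (2) `∑ F(a)/∏ (a - r) = ∑ R(a)/∏ (a - r)` is the coefficient of `X ^ (card S - 1)` of `R`
(Lagrange interpolation, `Lagrange.sum_..`/`Lagrange.eq_interpolate`: the coefficient of `X^(n-1)` of the basis polynomial of `a` is `∏ (a - r)⁻¹`). -/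
def S_Pol : Prop := C_Pol

/-- An element of level `f' 2^N` fixed by all inertia elements has level `f'`. -/
def C_Ext : Prop :=
  ∀ (k t : ℕ) [Ine k t] (P : Ideal ZZ), Ab2 P → ∀ f N : ℕ, Odd f → 15 ∣ f → 1 ≤ N →
    ∀ x ∈ EE k t (f * 2 ^ N), (∀ τ ∈ P.inertia Gal(Om/ℚ), τ x = x) → x ∈ EE k t f

/-- (90 lines) **Ext** (from E1, Gal, In, Sur). PROOF. By Gal (4) for `M = f`: let `g ∈ GK`, `Psi g f a`, `Ray f a ⊤`. `Psi g (f 2^N) a'` (S_E1), `Ray f a' ⊤`. The ideal computation in the proof of In (1) (docstring of S_In; copy it) gives `h`, `f ∣ h - 1`, `Cop h 2`, `Ray (f 2^N) a' (sp h)`, so `Psi g (f 2^N) (sp h)`. Sur: an inertia element `s` with `Cls P f N h s`; `g x = s x = x` (Gal (3)). -/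
def S_Ext : Prop := S_E1 → C_Gal → C_In → C_Sur → C_Ext

/-- **Mono.** Every `P`-integral element of level `f' 2^N` is a polynomial in `π` with coefficients in `OA`. -/
def C_Mono : Prop :=
  ∀ (k t : ℕ) [Ine k t] (P : Ideal ZZ), Ab2 P → ∀ (f N : ℕ) (z0 d : ℂ), Pt k t f N z0 d →
    ∀ f' : ℕ, Odd f' → f ∣ f' → ∀ x ∈ EE k t (f' * 2 ^ N), VP P x →
      ∃ F : Polynomial Om, PA k t P F ∧ F.eval (pH z0 d (1 : OO k t)) = x

/-- (230 lines) **Mono** (from Lev, Gal, Unr, In, Rep, Pi, Sur, Ext). PROOF. `T` a system for `Un f'` modulo `2^N` (Rep), `n = card T = 3 * 4^(N-1)`, `s_h` inertia with `Cls P f' N h s_h` (Sur, for `f'`), `π_h = pH z0 d h` (pairwise different, Pi), `x_h = s_h x` (`P`-integral, `DI.VP.inertia_vp`). Lagrange: `F = ∑_(h ∈ T) C x_h * ∏_(h' ≠ h) C (π_h - π_h')⁻¹ * (X - C π_h')`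
(`Lagrange.interpolate` with nodes `π_h`), `F(π_h) = x_h`, `deg F < n`; for the `h1 ∈ T` with `2^N ∣ 1 - h1`: `π_(h1) = π_1`, `s_(h1) x = x` (In (5) with `Cls P f' N 1 1`), so `F(π) = x`. COEFFICIENTS in `EE k t f'`: by Ext it is enough that they are in `EE k t (f' 2^N)` (clear: `π_h`, `x_h` are, normality: Gal) and fixed by every inertia element `s`, `Cls P f' N h0 s` (In). `s` maps `π_h` to `π_(h0 h)` and `x_h` to `x_(h0 h)` (In (4), (5)), i.e. permutes the terms (`h ↦` representative of `h0 h` is a bijection of `T`): the interpolation polynomial is mapped to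
itself (uniqueness of the interpolation polynomial of degree `< n`). VALUES: `F = ∑_(j<n) a_j X^j`, `a_j ∈ EE k t f'`, `v(a_j) ∈ ℤ` (Unr), `v(π^j) = j/n` (Pi): the numbers `v(a_j π^j) = v(a_j) + j/n` (`a_j ≠ 0`) are pairwise different, so `v(x) = min` of them (`vP_add_lt`; induction or: take the
index with the least value, the rest has larger value). `v(x) ≥ 0` gives `v(a_j) ≥ - j/n > -1`, `v(a_j) ≥ 0`. -/
def S_Mono : Prop := C_Lev → C_Gal → C_Unr → C_In → C_Rep → C_Pi → C_Sur → C_Ext → C_Mono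

/-! ## Sums of valuations -/

open Classical in
/-- The group `H'` is large (pigeonhole for the norm). -/
def C_Hj : Prop :=
  ∀ (k t : ℕ) [Ine k t] (f N : ℕ), Odd f → ∀ j : ℕ, 2 ≤ j → j ≤ N → ∀ T : Finset (OO k t),
    IsR N (Hq f N) T → 2 ^ (N - j) ≤ (T.filter (fun h => ((2 ^ j : ℕ) : OO k t) ∣ h - 1)).card

/-- (120 lines) **Hj** (from Rep). PROOF. `U` a system for `Uj f j` modulo `2^N`, `card U = 4^(N-j)` (Rep). The norm maps `U` to the integers `1` modulo `2^j`, modulo `2^N`: `2^(N-j)` classes. Some class has at least `2^(N-j)` elements of `U` (`Finset.exists_le_card_fiber_of_..`): fix `u0` in it; for the others `u` let `u'` be an element with `f ∣ u' - 1`, `2^N ∣ u' u0 - u` (inverse of `u0` modulo `2^N f`: `cop_inv`): `u'` is `1` modulo `2^j`, `Nm u' Nm u0 = Nm u = Nm u0` modulo `2^N`,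
so `Nm u' = 1` modulo `2^N`: `Hq f N u'` (`4 ∣ u' - 1` as `j ≥ 2`). Its representative in `T` is `1` modulo `2^j` too, and the map is injective. -/
def S_Hj : Prop := C_Rep → C_Hj

open Classical in
/-- The sums of the valuations of the differences of the conjugates. -/
def C_Sum : Prop :=
  ∀ (k t : ℕ) [Ine k t] (P : Ideal ZZ), Ab2 P → ∀ (f N : ℕ) (z0 d : ℂ), Pt k t f N z0 d → 3 ≤ N →
    (∀ T : Finset (OO k t), IsR N (Hq f N) T → ∀ h0 ∈ T,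
      ∏ h ∈ T.erase h0, (pH z0 d h0 - pH z0 d h) ≠ 0 ∧
      2 / 3 - 3 / 2 ^ N ≤ vP P (∏ h ∈ T.erase h0, (pH z0 d h0 - pH z0 d h))) ∧
    ∀ T : Finset (OO k t), IsR N (Uj f (N - 2)) T → ∀ h0 ∈ T,
      ∏ h ∈ T.erase h0, (pH z0 d h0 - pH z0 d h) ≠ 0 ∧
      vP P (∏ h ∈ T.erase h0, (pH z0 d h0 - pH z0 d h)) = 2

/-- (200 lines) **Sum** (from Rep, Pi, Hj). PROOF. `vP_prod`: sums of the `vP P (π_(h0) - π_h) = 4^j/(3 * 4^(N-1))` (Pi), `j = j(h) < N` maximal with `2^j ∣ h0 - h`. `h ↦ ` (representative of) `h h0⁻¹` is a bijection of `T` to a system which maps `h0` to `1` (`T` is a group modulo `2^N`) and `2^j ∣ h0 - h` iff `2^j ∣ h h0⁻¹ - 1`: we may assume that `2^N ∣ h0 - 1`. (2) `N - 2 ≤ j(h) ≤ N - 1`;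
`4` elements of `T` with `2^(N-1) ∣ h - 1` and `16` in all (Rep, (4)): `12 * 4^(N-2) + 3 * 4^(N-1) = 6 * 4^(N-1)`, divided by `3 * 4^(N-1)`: `2`. (1) With `n_j = #{h ∈ T : 2^j ∣ h - 1} ≥ 2^(N-j)` (Hj): `∑_(h ≠ 1) 4^(j(h)) = 16 (n_2 - 1) + ∑_(3 ≤ j < N) (4^j - 4^(j-1)) (n_j - 1) ≥ 16 (2^(N-2) - 1) + ∑_(3 ≤ j < N) 3 * 4^(j-1) (2^(N-j) - 1) = 2 * 4^(N-1) - 2 * 2^N`
(Abel summation: `4^(j(h)) = 16 + ∑_(3 ≤ i ≤ j(h)) (4^i - 4^(i-1))`; exchange the sums); divide by `3 * 4^(N-1)`: `2/3 - (8/3)/2^N`. -/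
def S_Sum : Prop := C_Rep → C_Pi → C_Hj → C_Sum

/-! ## The derivation modulo `4` -/

/-- `F(π) = 0` gives `F'(π) = 0` modulo `4`. -/
def C_Der0 : Prop :=
  ∀ (k t : ℕ) [Ine k t] (P : Ideal ZZ), Ab2 P → ∀ (f N : ℕ) (z0 d : ℂ), Pt k t f N z0 d → 3 ≤ N →
    ∀ F : Polynomial Om, PA k t P F → F.eval (pH z0 d (1 : OO k t)) = 0 →
      GE P 2 (F.derivative.eval (pH z0 d (1 : OO k t)))

/-- (70 lines) **Der0** (from Oa, Rep, Pi, Sur, Pol, Sum). PROOF. `T` a system for `Uj f (N-2)` modulo `2^N` (Rep), `S` the image of `T` under `π_h = pH z0 d h` (injective, Pi). For `h ∈ T` an inertia element `s` of class `h` (Sur; `Cop h 2` since `N ≥ 3`): `F(π_h) = s (F(π)) = 0` (Oa). Pol (1) with `c = 0`, `a = π_(h1)`, `h1 ∈ T`, `2^N ∣ h1 - 1` (so `π_(h1) = π_1`): `F'(π) = ∏ (..) y`, Sum (2). -/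
def S_Der0 : Prop := C_Oa → C_Rep → C_Pi → C_Sur → C_Pol → C_Sum → C_Der0

/-- **Der.** The rules. -/
def C_Der : Prop :=
  ∀ (k t : ℕ) [Ine k t] (P : Ideal ZZ), Ab2 P → ∀ (f N : ℕ) (z0 d : ℂ), Pt k t f N z0 d → 3 ≤ N →
    (∀ x y y' : Om, Der k t P z0 d x y → Der k t P z0 d x y' → GE P 2 (y - y')) ∧
    (∀ x y y' : Om, Der k t P z0 d x y → GE P 2 (y' - y) → Der k t P z0 d x y') ∧
    (∀ x y : Om, Der k t P z0 d x y → VP P x ∧ VP P y) ∧
    (∀ a : Om, OA k t P a → Der k t P z0 d a 0) ∧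
    (∀ x y x' y' : Om, Der k t P z0 d x y → Der k t P z0 d x' y' →
      Der k t P z0 d (x + x') (y + y') ∧ Der k t P z0 d (x - x') (y - y') ∧
      Der k t P z0 d (x * x') (x * y' + x' * y)) ∧
    (∀ (f' : ℕ) (x y : Om), Odd f' → f ∣ f' → x ∈ EE k t (f' * 2 ^ N) → UP P x → Der k t P z0 d x y →
      Der k t P z0 d x⁻¹ (-(y / x ^ 2))) ∧
    (∀ (f' : ℕ) (x : Om), Odd f' → f ∣ f' → x ∈ EE k t (f' * 2 ^ N) → VP P x →
      ∃ y : Om, Der k t P z0 d x y) ∧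
    Der k t P z0 d (xO (⊤ : Ideal (OO k t)) (z0 + d)) (vO (⊤ : Ideal (OO k t)) (z0 + d)) ∧
    Der k t P z0 d (yO (⊤ : Ideal (OO k t)) (z0 + d))
      (3 * xO (⊤ : Ideal (OO k t)) (z0 + d) ^ 2 -
        a1O (⊤ : Ideal (OO k t)) * yO (⊤ : Ideal (OO k t)) (z0 + d))

/-- (200 lines) **Der** (from B2, R1, Lev, Oa, Pi, Mono, Der0). PROOF. (1) `F(π) = G(π)`: Der0 for `F - G`, `vO` is a unit (Pi, `h = 1`). (2), (3) clear (`VP`: Oa). (4) `F = C a`. (5) `F ± G`, `F * G` (Leibniz). (6) `H(π) = x⁻¹` with `H` of PA (Mono); `H F - 1` vanishes at `π`: Der0: `H'(π) F(π) + H(π) F'(π)` is in `4 V`; multiply by `W(z) x⁻¹`. (7) Mono. (8) `F = X + C (xO ⊤ z0)`. (9) `Y := yO ⊤ z` satisfies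
`Y² + A1 X Y + A3 Y = X³` (S_B2 (2) through `io`, S_R1: `W² = 4X³ + (A1 X + A3)²`), so it is integral over `V_P`: `VP P Y` (`DI.VP.of_integral`), `Y ∈ EE k t (f 2^N)` (Lev): `Y = G(π)` (Mono), `Der Y y` with `y = G'(π) W`. By (4), (5), (8) the left side minus `X³` has the derivative `2 Y y + A1 (X y + Y W) + A3 y - 3 X² W` and is `0 = C 0`: by (1) (with (4) for `a = 0`) `(2Y + A1 X + A3) y = W (3X² - A1 Y)` modulo `4`, `W = 2Y + A1 X + A3` is a unit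
(Pi): `y = 3X² - A1 Y` modulo `4`; use (2). -/
def S_Der : Prop := S_B2 → S_R1 → C_Lev → C_Oa → C_Pi → C_Mono → C_Der0 → C_Der

/-- **Fix.** If `x` is fixed by the inertia elements with class in `H'` then its derivative has valuation at least `2/3 - 3/2^N`. -/
def C_Fix : Prop :=
  ∀ (k t : ℕ) [Ine k t] (P : Ideal ZZ), Ab2 P → ∀ (f N : ℕ) (z0 d : ℂ), Pt k t f N z0 d → 3 ≤ N →
    ∀ f' : ℕ, Odd f' → f ∣ f' → ∀ x y : Om, Der k t P z0 d x y →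
      (∀ (h : OO k t) (τ : Gal(Om/ℚ)), Cls P f' N h τ → Hq f' N h → τ x = x) →
      GE P (2 / 3 - 3 / 2 ^ N) y

/-- (80 lines) **Fix** (from Oa, Rep, Pi, Sur, Pol, Sum). PROOF. `x = F(π)`, `T` a system for `Hq f' N` modulo `2^N` (Rep); it is one for `Hq f N` too (`f ∣ f'`; change the representatives modulo `2^N`: `f'` odd). For `h ∈ T` an inertia element `s` of class `h` (Sur for `f'`): `F(π_h) = s (F(π)) = s x = x` (Oa). Pol (1) with `c = x` (`VP P x`, Oa), `S = {π_h}`, `a = π_(h1) = π`, and Sum (1); `y = F'(π) W` modulo `4`, `2 ≥ 2/3`. -/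
def S_Fix : Prop := C_Oa → C_Rep → C_Pi → C_Sur → C_Pol → C_Sum → C_Fix

/-- The numbers `1 - ζ`. -/
def C_Zn : Prop :=
  ∀ P : Ideal ZZ, P.IsPrime → MP P 2 → ∀ (N : ℕ) (ζ : Om), 1 ≤ N → IsPrimitiveRoot ζ (2 ^ N) →
    1 - ζ ≠ 0 ∧ vP P (1 - ζ) = 1 / 2 ^ (N - 1)

/-- (70 lines) **Zn.** PROOF. Induction on `N`: `N = 1`: `ζ = -1`. `N + 1`: `1 - ζ² = (1 - ζ)(1 + ζ)`, `ζ²` is primitive of order `2^N`, and `(1 + ζ)/(1 - ζ) = (1 - (-ζ))/(1 - ζ)` is a unit: `-ζ = ζ^(1 + 2^N)`, `(1 - ζ^i)/(1 - ζ)` is a sum of powers, and the same with the roles exchanged (`-ζ` is primitive; `ζ = (-ζ)^(1 + 2^N)`). So `vP (1 - ζ²) = 2 vP (1 - ζ)`. -/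
def S_Zn : Prop := C_Zn

/-- **Tra.** The trace over `H'`. -/
def C_Tra : Prop :=
  ∀ (k t : ℕ) [Ine k t] (P : Ideal ZZ), Ab2 P → ∀ (f N : ℕ) (z0 d : ℂ), Pt k t f N z0 d → 3 ≤ N →
    ∀ f' : ℕ, Odd f' → f ∣ f' → ∀ x ∈ EE k t (f' * 2 ^ N), VP P x →
      ∀ (T : Finset (OO k t)) (s : OO k t → Gal(Om/ℚ)), IsR N (Hq f' N) T →
        (∀ h ∈ T, Cls P f' N h (s h)) → GE P (2 / 3 - 5 / 2 ^ N) (∑ h ∈ T, s h x)

/-- (160 lines) **Tra** (from Lev, Oa, In, Act, Rep, Pi, Pol, Mono, Sum, Zn). PROOF. `δ = ∏_(h ∈ T, h ≠ h1) (π - π_h)`, `h1 ∈ T` with `2^N ∣ h1 - 1`, `σ = v(δ) ≥ 2/3 - 3/2^N` (Sum; `Hq f' N` and `Hq f N` have the same systems modulo `2^N`). `ζ` primitive of order `2^N`, `λ = 1 - ζ`, `v(λ) = 1/2^(N-1)` (Zn); `m` = the largest natural number with `m/2^(N-1) ≤ σ` (`σ ≥ 0`: if `2/3 - 3/2^N < 0` the claim with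
`5/2^N` follows from `VP`), so `v(λ^m) > σ - 1/2^(N-1) ≥ 2/3 - 5/2^N`. `s_h λ = λ` for `h ∈ T` (Act: `s_h ζ = ζ^(Nm h)`, `Nm h = 1` modulo `2^N`, `Nm h ≥ 0`). `y = x δ/λ^m` is `P`-integral and in `EE k t (f' 2^N)` (Lev, Pi), so `y = F(π)` (Mono); `s_h y = F(π_h)` (Oa, Pi: `s_h π = π_h`), `s_h δ = ∏_(h' ≠ h) (π_h - π_h')` (`h' ↦` representative of `h h'` is a bijection of `T` which maps `h1` to `h`). So
`∑ s_h x = λ^m ∑ s_h y / s_h δ = λ^m ∑ F(π_h)/∏_(h' ≠ h) (π_h - π_h') ∈ λ^m V_P` (Pol (2) with `S` the image of `T`). -/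
def S_Tra : Prop :=
  C_Lev → C_Oa → C_In → C_Act → C_Rep → C_Pi → C_Pol → C_Mono → C_Sum → C_Zn → C_Tra

/-! ## The composition -/

/-- The inputs of part GL. -/
structure GLIn : Prop where
  B1 : S_B1
  B2 : S_B2
  B7 : S_B7
  R1 : S_R1
  R2 : S_R2
  D1 : S_D1
  D2 : S_D2
  D8 : S_D8
  D10 : S_D10
  E1 : S_E1
  E4 : S_E4
  E6 : S_E6
  E7 : S_E7
  E8 : S_E8
  E10 : S_E10

/-- The output of part GL. -/
structure GLOut : Prop where
  Lev : C_Lev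
  Gal : C_Gal
  Unr : C_Unr
  Oa : C_Oa
  In : C_In
  Act : C_Act
  Rep : C_Rep
  Pi : C_Pi
  Sur : C_Sur
  Ext : C_Ext
  Mono : C_Mono
  Sum : C_Sum
  Der : C_Der
  Fix : C_Fix
  Zn : C_Zn
  Tra : C_Tra

theorem asmGL (i : GLIn) (lev : S_Lev) (gal : S_Gal) (ram : S_Ram) (unr : S_Unr) (oa : S_Oa) (inn : S_In)
    (act : S_Act) (rep : S_Rep) (pi : S_Pi) (sur : S_Sur) (pol : S_Pol) (ext : S_Ext) (mono : S_Mono)
    (hj : S_Hj) (sm : S_Sum) (der0 : S_Der0) (der : S_Der) (fix : S_Fix) (zn : S_Zn) (tra : S_Tra) :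
    GLOut :=
  have Lev := lev i.E1 i.E6 i.E10
  have Gal := gal i.R1 i.E1 i.E7 i.E8
  have Unr := unr i.E4 Gal ram
  have Oa := oa Lev Unr
  have In := inn i.E1 i.E4 Gal Unr
  have Act := act i.B1 i.B7 i.R1 i.D8 i.E1 i.E6 i.E10 Unr
  have Rep := rep
  have Pi := pi i.B1 i.R1 i.R2 i.D1 i.D2 i.D10 Lev Act
  have Sur := sur Gal ram In Rep Pi
  have Ext := ext i.E1 Gal In Sur
  have Mono := mono Lev Gal Unr In Rep Pi Sur Ext
  have Hj := hj Rep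
  have Sm := sm Rep Pi Hj
  have Der0 := der0 Oa Rep Pi Sur pol Sm
  { Lev := Lev
    Gal := Gal
    Unr := Unr
    Oa := Oa
    In := In
    Act := Act
    Rep := Rep
    Pi := Pi
    Sur := Sur
    Ext := Ext
    Mono := Mono
    Sum := Sm
    Der := der i.B2 i.R1 Lev Oa Pi Mono Der0
    Fix := fix Oa Rep Pi Sur pol Sm
    Zn := zn
    Tra := tra Lev Oa In Act Rep Pi pol Mono Sm zn }

end Pool.Agent.DN.GL
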