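import Pool.Agent.Lib.DN.GL.Spec

/-!
# Theorem DN, part GL (author helper66), second file: the tame part

`c3 ^ 3 = 2`, `zt P v` the third root of unity congruent to `v` modulo `P`: `τ c3 = zt P h * c3` for the inertia elements `τ` of class
`h`; the trace over ALL classes modulo `2 ^ N`, twisted by `zt ^ j`: `c3 ^ j ∑ zt(h)^j s_h x` is divisible by `2 ^ N` (`j = 1, 2`).

RULES as in `GL/Spec.lean`: `theorem tX : S_X` in the module `Pool/Agent/Lib/DN/GL/X.lean` with the first line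
`import Pool.Agent.Lib.DN.GL.SpecT`. All modules are independent. The parts O, L, B are proved (`DN/O/All.lean`: `aO1 ..`, `aL1 ..`; `DN/B/All.lean`: `aB1 ..`): they may be imported and used directly.
-/

set_option autoImplicit false

open scoped Pointwise

noncomputable section

namespace Pool.Agent.DN.GL

open Pool.Agent.MuZ Pool.Agent.FW Pool.Agent.DN
open Pool.Agent.DI (io ofC io_inj exists_io io_ofC ofC_io VP MP UP TP ex)

variable {k t : ℕ}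

/-- The third roots of unity `zt P v` and `c3`. -/
def C_Zt : Prop :=
  ∀ (k t : ℕ) [Ine k t] (P : Ideal ZZ), Ab2 P →
    (c3 ^ 3 = 2 ∧ c3 ≠ 0 ∧ vP P c3 = 1 / 3) ∧
    (∀ v : OO k t, Cop v 2 → zt P v ^ 3 = 1 ∧ MP P (zt P v - toO v) ∧ OA k t P (zt P v) ∧
      ∀ y : Om, y ^ 3 = 1 → MP P (y - toO v) → y = zt P v) ∧
    (∀ v v' : OO k t, Cop v 2 → Cop v' 2 → (2 : OO k t) ∣ v - v' → zt P v = zt P v') ∧
    (∀ v v' : OO k t, Cop v 2 → Cop v' 2 → zt P (v * v') = zt P v * zt P v') ∧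
    zt P (1 : OO k t) = 1

/-- (90 lines) **Zt** (from Lev, Unr). PROOF. `c3`: `Om` is algebraically closed; `vP P (c3 ^ 3) = vP P 2 = 1`. `v` prime to `2`: `2 ∣ v^3 - 1` (`aO4`), so `toO v ^ 3 - 1` is in `P` (`VP P (toO v)`, `DN/Base.lean`). Let `ω` be a primitive third root of unity in `Om`: `x^3 - 1 = (x - 1)(x - ω)(x - ω^2)`, so one of the factors for `x = toO v` is in `P`: existence, hence (definition of `zt`) the first two claims.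
Uniqueness: the difference of two different third roots of unity divides `3` (up to a unit), which is not in `P`. `OA`: `ζ^3 = 1` gives `ζ^15 = 1`, `ζ ∈ EE k t 15` (Lev), `VP` (integral). (3), (4), (5) by uniqueness (`toO` is multiplicative, `2 ∣ v - v'` gives `MP P (toO v - toO v')`). -/
def S_Zt : Prop := C_Lev → C_Unr → C_Zt

/-- The action of inertia on `c3`. -/
def C_Tc : Prop :=
  ∀ (k t : ℕ) [Ine k t] (P : Ideal ZZ), Ab2 P → ∀ (f N : ℕ) (h : OO k t) (τ : Gal(Om/ℚ)), Odd f → 15 ∣ f →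
    1 ≤ N → Cls P f N h τ → τ c3 = zt P h * c3

/-- (140 lines) **Tc** (from B1, B2, B7, B9, R1, R2, D1, D2, Act, Zt). PROOF. `X = xO ⊤ (1/2)`, `Y = c3^2 X`. (1) `WC ⊤ (1/2) = 0` (B1: `wdC = 0` since `2 * (1/2) ∈ O`; `1/2 ∉ O`: `aL6`), so by B2 `4 X^3 + (A1 X + A3)^2 = 0` (in `Om`, R1). `A1 = 2 a`, `VP P a` (R2), `c3^6 = 4`: `Y^3 + c3^2 a^2 Y^2 + c3^4 a A3 Y + A3^2 = 0`:
`VP P Y` (`DI.VP.of_integral` or: if `¬ VP P Y` then `Y⁻¹` is in the maximal ideal, divide by `Y^3`), `Y^3 = -A3^2` modulo `P`, `A3` a unit (R2), so `UP P Y`. (2) With `a = sp h`, `R` a system of `Lam (sp h * ⊤) / Lam ⊤` (`aL3`), B9 at `z = 1/2`, `z' = 1/3` (both not in `Lam (sp h * ⊤)`: `h/2`, `h/3 ∉ O`, since `h` is prime to `2` and `h = 1` modulo `3`; `aL2`, `aL6`), B7 (`fr (sp h * ⊤) = toC h * fr ⊤`,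
`XC (sp h * ⊤) z = XC ⊤ (toC h * z)`) and `wpC b z - wpC b z' = fr b ^ 2 * (XC b z - XC b z')`, `XC b (1/3) = 0`, `XC ⊤ (h/3) = XC ⊤ (1/3)` (period `(h-1)/3`): `h^2 X(h/2) = ∑_(u ∈ R) (X(1/2 + u) - X(1/3 + u))`. The term with `u ∈ O` is `X(1/2) - 0`; for `u ∉ O`: `Nm h * u ∈ O` (`h u ∈ O`), `Nm h` odd; `1/2` is in the kernel of reduction (D2 (1)); if `1/2 + u` were, then `u` would be (D1), so `Qp P ⊤ u` (D1) and
`u ∈ O` (take `α = Nm h`, `β = 1`); the same for `1/3 + u` (which is not in `O`: else `h/3 ∈ O`; it is killed by `3 Nm h`). So all these values are in `V_P` (D2 (4)). Hence `toO h ^ 2 * (c3^2 X(h/2)) - Y` is in `P`. (3) `τ Y - Y ∈ P` (`DI.VP.inertia`), `τ Y = (τ c3)^2 X(h/2)` (Act; `f 2^N (1/2) ∈ O`). With `ζ = τ c3 / c3`, `ζ^3 = 1`: `toO h ^ 2 * τ Y = ζ^2 (toO h ^ 2 c3^2 X(h/2))`, so `(toO h ^ 2 - ζ^2) Y ∈ P`, `toO h ^ 2 - ζ^2 ∈ P`, fourth powers and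
`toO h ^ 3 - 1 ∈ P` (`aO4`): `toO h - ζ ∈ P`, so `ζ = zt P h` (Zt). -/
def S_Tc : Prop :=
  S_B1 → S_B2 → S_B7 → S_B9 → S_R1 → S_R2 → S_D1 → S_D2 → C_Act → C_Zt → C_Tc

/-- An element `θ` of the field of level `2 f` with `v(θ) = 1/3` and `τ θ = zt P h * θ`. -/
def C_Th : Prop :=
  ∀ (k t : ℕ) [Ine k t] (P : Ideal ZZ), Ab2 P → ∀ f : ℕ, Odd f → 15 ∣ f →
    ∃ θ ∈ EE k t (f * 2), θ ≠ 0 ∧ UP P (θ / c3) ∧ (∀ (N : ℕ) (h : OO k t) (τ : Gal(Om/ℚ)), 1 ≤ N → Cls P f N h τ →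
      τ θ = zt P h * θ ∧ τ (c3 / θ) = c3 / θ)

/-- (100 lines) **Th** (from Lev, Gal, In, Rep, Pi, Sur, Zt, Tc). PROOF. `y = pH (1/f) (1/2) 1`, `Pt k t f 1 (1/f) (1/2)` (`aL6` for `b = ⊤`): `y ∈ EE k t (f * 2)`, `v(y) = 1/3` (Pi), so `y/c3` is a unit at `P`, hence `τ (y/c3) - y/c3 ∈ P`, and by Tc (with `UP (y/c3)`, `zt^3 = 1`) `τ y / y - zt P h ∈ P` for `Cls P f 1 h τ`. `T` a system for `Un f` modulo `2` (Rep), `card T = 3`, `s_h` an inertia element with `Cls P f 1 h s_h` (Sur).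
`θ = ∑_(h ∈ T) zt(h)^2 s_h y` (`zt^2 = zt⁻¹`): `θ/y - 3 ∈ P`, so `θ ≠ 0` and `UP P (θ/c3)`. For `τ` with `Cls P f N h0 τ`: `Cls P f 1 h0 τ` (In (6)); `τ (zt(h)) = zt(h)` (`OA`, Oa or Unr); `τ s_h` has class `h0 h` (In (4)), so `τ s_h y = s_(h') y` for the representative `h' ∈ T` of `h0 h` modulo `2` (In (3), (5)), `zt(h') = zt(h0) zt(h)`: `τ θ = zt(h0) θ` (`h ↦ h'` is a bijection of `T`). The second claim by Tc. -/
def S_Th : Prop :=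
  C_Lev → C_Gal → C_Unr → C_In → C_Rep → C_Pi → C_Sur → C_Zt → C_Tc → C_Th

open Classical in
/-- The sum of the valuations over all classes. -/
def C_SumU : Prop :=
  ∀ (k t : ℕ) [Ine k t] (P : Ideal ZZ), Ab2 P → ∀ (f N : ℕ) (z0 d : ℂ), Pt k t f N z0 d →
    ∀ T : Finset (OO k t), IsR N (Un f) T → ∀ h0 ∈ T,
      ∏ h ∈ T.erase h0, (pH z0 d h0 - pH z0 d h) ≠ 0 ∧
      vP P (∏ h ∈ T.erase h0, (pH z0 d h0 - pH z0 d h)) = N - 1 / 3

/-- (120 lines) **SumU** (from Rep, Pi). PROOF. `vP_prod`; for `h ≠ h0` let `j(h) < N` be maximal with `2^j ∣ h - h0`: the valuation is `4^(j(h))/(3 * 4^(N-1))` (Pi). `#{h ∈ T : 2^j ∣ h - h0} = 4^(N-j)` for `1 ≤ j ≤ N` (after multiplication by an inverse of `h0` modulo `2^N f`, `cop_inv`, this is the card of a system for `Uj f j`, Rep (4); or directly: it is in bijection with the pairs modulo `2^(N-j)`), `card T = 3 * 4^(N-1)`. So the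 sum is
`[2 * 4^(N-1) + ∑_(1 ≤ j < N) (4^(N-j) - 4^(N-j-1)) 4^j]/(3 * 4^(N-1)) = 2/3 + (N - 1)`. -/
def S_SumU : Prop := C_Rep → C_Pi → C_SumU

/-- **TrK.** The trace over all classes, twisted by `zt ^ j`, `j = 1, 2`; and the plain trace. -/
def C_TrK : Prop :=
  ∀ (k t : ℕ) [Ine k t] (P : Ideal ZZ), Ab2 P → ∀ f N : ℕ, Odd f → 15 ∣ f → 1 ≤ N →
    ∀ x ∈ EE k t (f * 2 ^ N), VP P x → ∀ (T : Finset (OO k t)) (s : OO k t → Gal(Om/ℚ)), IsR N (Un f) T →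
      (∀ h ∈ T, Cls P f N h (s h)) →
        (∀ j : ℕ, (j = 1 ∨ j = 2) → GE P N (c3 ^ j * ∑ h ∈ T, zt P h ^ j * s h x)) ∧
        GE P (N - 1) (∑ h ∈ T, s h x)

/-- (130 lines) **TrK** (from Lev, Oa, In, Rep, Pi, Sur, Pol, Mono, SumU, Zt, Th). PROOF. `z0 = 1/f`, `d = 1/2^N`, `Pt k t f N z0 d` (`aL6`). `δ_h = ∏_(h' ∈ T, h' ≠ h) (π_h - π_h')`, `v(δ_h) = N - 1/3` (SumU). CLAIM: `y ∈ EE k t (f 2^N)`, `v(y) + N - 1/3 ≥ m`, `m ∈ ℕ` give `GE P m (∑ s_h y)`: `h1 ∈ T` with `2^N ∣ h1 - 1`; `y δ_(h1)/2^m` is `P`-integral and in `EE k t (f 2^N)` (Lev, Pi), so it is `F(π)` (Mono; `π = π_(h1)`);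
`s_h (y δ_(h1)/2^m) = F(π_h)` and `s_h δ_(h1) = δ_h` (Oa, Pi; `h' ↦` representative of `h h'` is a bijection of `T` with `h1 ↦ h`), so `∑ s_h y = 2^m ∑ F(π_h)/δ_h ∈ 2^m V_P` (Pol (2) with `S` the image of `T`). With `y = x`, `m = N - 1`: the second claim. `y = θ^j x` (Th), `v(y) ≥ j/3`, `m = N`: `c3^j ∑ zt(h)^j s_h x = (c3/θ)^j ∑ s_h(θ^j x)` (`s_h θ = zt(h) θ`), `c3/θ` is a unit at `P`. -/
def S_TrK : Prop :=
  C_Lev → C_Oa → C_In → C_Rep → C_Pi → C_Pol → C_Mono → C_SumU → C_Zt → C_Th → C_TrK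

/-- **TrG.** The same for the values of `g` and of the functions `X`: no Galois elements in the statement. -/
def C_TrG : Prop :=
  ∀ (k t : ℕ) [Ine k t] (P : Ideal ZZ), Ab2 P → ∀ f N : ℕ, Odd f → 15 ∣ f → 1 ≤ N →
    ∀ T : Finset (OO k t), IsR N (Un f) T → ∀ m b : Ideal (OO k t), m ≠ ⊥ → G15 b → PrI m 2 → PrI m 15 →
      NI m ∣ f → ∀ z : ℂ, ((f * 2 ^ N : ℕ) : ℂ) * z ∈ Lam b → z ∉ Lam (m * b) → VP P (gO m b z) →
        ∀ j : ℕ, (j = 1 ∨ j = 2) → GE P N (c3 ^ j * ∑ h ∈ T, zt P h ^ j * gO m b (toC h * z))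

/-- (50 lines) **TrG** (from Lev, Act, Sur, TrK). PROOF. TrK for `x = gO m b z ∈ EE k t (f 2^N)` (Lev), `s_h` inertia elements of class `h ∈ T` (Sur; `h ∈ T` satisfies `Un f h`), `s_h x = gO m b (toC h * z)` (Act). -/
def S_TrG : Prop := C_Lev → C_Act → C_Sur → C_TrK → C_TrG

/-- The additional inputs of this file. -/
structure GTIn : Prop where
  B1 : S_B1
  B2 : S_B2
  B7 : S_B7
  B9 : S_B9
  R1 : S_R1
  R2 : S_R2
  D1 : S_D1
  D2 : S_D2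

/-- The output of this file. -/
structure GTOut : Prop where
  Zt : C_Zt
  Tc : C_Tc
  Th : C_Th
  TrK : C_TrK
  TrG : C_TrG

/-- The composition. -/
theorem asmGT (i : GTIn) (o : GLOut) (pol : C_Pol) (zt : S_Zt) (tc : S_Tc) (th : S_Th) (sumU : S_SumU)
    (trK : S_TrK) (trG : S_TrG) : GTOut := by
  have Zt := zt o.Lev o.Unr
  have Tc := tc i.B1 i.B2 i.B7 i.B9 i.R1 i.R2 i.D1 i.D2 o.Act Zt
  have Th := th o.Lev o.Gal o.Unr o.In o.Rep o.Pi o.Sur Zt Tc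
  have SU := sumU o.Rep o.Pi
  have TrK := trK o.Lev o.Oa o.In o.Rep o.Pi pol o.Mono SU Zt Th
  exact ⟨Zt, Tc, Th, TrK, trG o.Lev o.Act o.Sur TrK⟩

end Pool.Agent.DN.GL
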