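import Pool.Agent.Lib.DN.GL.TD2

/-!
# Abstract tower, tame case: TEv (port of the module of DK/GL)
-/

set_option autoImplicit false

open scoped Pointwise

noncomputable section

namespace Pool.Agent.DN.GL

open Pool.Agent.MuZ Pool.Agent.FW Pool.Agent.DI
open Pool.Agent.DI.GL (Fx StP xx mem_of_Fx Fx.mul Fx.inv Fx.one)

private theorem TEv_base {L : IntermediateField ℚ Om} {LN : ℕ → IntermediateField ℚ Om}
    {P : Ideal ZZ} (hS : SitT L LN P) {ζ : Om}
    (hζ : IsPrimitiveRoot ζ (2 ^ 2)) {ρ : Om} (hρ : ρ ∈ LN 2) : ¬ UP P (ρ ^ 2 / 2) := by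
  have := hS.prime
  have h4 : ζ ^ 4 = 1 := by
    have h := hζ.pow_eq_one
    norm_num at h
    exact h
  have hsq : ζ ^ 2 = -1 := by
    have h1 : (ζ ^ 2 - 1) * (ζ ^ 2 + 1) = 0 := by linear_combination h4
    rcases mul_eq_zero.1 h1 with h2 | h2
    · exfalso
      have h3 := (hζ.pow_eq_one_iff_dvd 2).1 (sub_eq_zero.1 h2)
      norm_num at h3
    · linear_combination h2
  have hmem : ρ ∈ L := by
    refine mem_of_Fx fun τ hτ => ?_
    refine (hS.lnx 2 ζ (by norm_num) hζ τ).2 ⟨hτ, ?_⟩ ρ hρ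
    have h1 : (τ ζ) ^ 2 = -1 := by rw [← map_pow, hsq, map_neg, map_one]
    have h2 : (τ ζ - ζ) * (τ ζ + ζ) = 0 := by linear_combination h1 - hsq
    rcases mul_eq_zero.1 h2 with h3 | h3
    · exact Or.inl (sub_eq_zero.1 h3)
    · right
      refine eq_inv_of_mul_eq_one_left ?_
      have h5 : τ ζ = -ζ := eq_neg_of_add_eq_zero_left h3
      rw [h5]
      linear_combination -hsq
  exact hS.nhf ρ hmem

theorem tTEv : C_TEv := by
  intro L LN P hS N hN
  have hX0 := DI.GL.tX0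
  have hD2 := tTD2
  have := hS.prime
  induction N, hN using Nat.le_induction with
  | base =>
    intro ζ hζ ρ hρ
    rw [(hX0 P hS.prime hS.two 2 le_rfl ζ hζ).2.2.2.1 rfl]
    exact TEv_base hS hζ hρ
  | succ N hN ih =>
    intro ζ' hζ' ρ hρ h
    have hζ : IsPrimitiveRoot (ζ' ^ 2) (2 ^ N) := hζ'.pow (by positivity) (pow_succ' 2 N)
    obtain ⟨hx0, -, -, -, hsq⟩ := hX0 P hS.prime hS.two N hN (ζ' ^ 2) hζ
    obtain ⟨hy2, hun⟩ := hsq ζ' rfl
    obtain ⟨hx'0, -⟩ := hX0 P hS.prime hS.two (N + 1) (by omega) ζ' hζ'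
    obtain ⟨α, hα, β, hβ, hρe⟩ := hD2 L LN P hS N hN ζ' hζ' ρ hρ
    obtain ⟨x, hx⟩ : ∃ x : Om, x = xx (ζ' ^ 2) := ⟨_, rfl⟩
    obtain ⟨y, hy⟩ : ∃ y : Om, y = ζ' + ζ'⁻¹ := ⟨_, rfl⟩
    have ihx := ih (ζ' ^ 2) hζ
    rw [← hx] at hx0 hy2 hun ihx
    rw [← hy] at hy2 hρe
    have hst : UP P (ρ ^ 4 / x) := by
      have h1 := (h.pow 2).mul hun
      have h2 : (ρ ^ 2 / xx ζ') ^ 2 * (xx ζ' ^ 2 / x) = ρ ^ 4 / x := by
        field_simp
      rwa [h2] at h1
    have ha : ¬ UP P (α ^ 4 / x) := by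
      intro h1
      refine ihx (α ^ 2) (pow_mem hα 2) ?_
      have h2 : (α ^ 2) ^ 2 / x = α ^ 4 / x := by ring
      rwa [h2]
    have hb : ¬ UP P (β ^ 4 * x) := by
      intro h1
      refine ihx (β⁻¹ ^ 2) (pow_mem (inv_mem hβ) 2) ?_
      have h2 : (β⁻¹ ^ 2) ^ 2 / x = (β ^ 4 * x)⁻¹ := by
        rw [mul_inv, div_eq_mul_inv, ← pow_mul, inv_pow]
      rw [h2]
      exact h1.inv
    by_cases hα0 : α = 0
    · rw [hα0, zero_add] at hρe
      apply hb
      have h1 : ρ ^ 4 / x = β ^ 4 * x := by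
        rw [hρe, mul_pow, show y ^ 4 = (y ^ 2) ^ 2 by ring, hy2]
        field_simp
      rwa [h1] at hst
    by_cases hβ0 : β = 0
    · rw [hβ0, zero_mul, add_zero] at hρe
      rw [hρe] at hst
      exact ha hst
    have hy0 : y ≠ 0 := by
      rintro rfl
      apply hx0
      rw [← hy2]
      ring
    have hc : ¬ UP P (α / (β * y)) := by
      intro h1
      refine ihx (α / β) (div_mem hα hβ) ?_
      have h2 : (α / β) ^ 2 / x = (α / (β * y)) ^ 2 := by
        rw [← hy2]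
        field_simp
      rw [h2]
      exact h1.pow 2
    rcases VP.or_inv (P := P) (α / (β * y)) with h1 | h1
    · have h2 : MP P (α / (β * y)) := by
        by_contra h3
        exact hc ⟨h1, h3⟩
      have h3 : UP P (1 + α / (β * y)) := by
        refine UP.congr UP.one ?_
        rw [add_sub_cancel_left]
        exact h2
      apply hb
      have h4 := hst.div (h3.pow 4)
      have h5 : ρ ^ 4 / x / (1 + α / (β * y)) ^ 4 = β ^ 4 * x := by
        have h6 : ρ = β * y * (1 + α / (β * y)) := by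
          rw [hρe]
          field_simp
          try ring
        rw [h6, mul_pow, mul_pow, show y ^ 4 = (y ^ 2) ^ 2 by ring, hy2]
        have h7 := h3.ne_zero
        rw [div_div, div_eq_iff (mul_ne_zero hx0 (pow_ne_zero 4 h7))]
        ring
      rwa [h5] at h4
    · have h3 : UP P (1 + (α / (β * y))⁻¹) := by
        refine UP.congr UP.one ?_
        rw [add_sub_cancel_left]
        exact h1
      apply ha
      have h4 := hst.div (h3.pow 4)
      have h5 : ρ ^ 4 / x / (1 + (α / (β * y))⁻¹) ^ 4 = α ^ 4 / x := by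
        have h6 : ρ = α * (1 + (α / (β * y))⁻¹) := by
          rw [hρe, inv_div]
          field_simp
        have h7 := h3.ne_zero
        rw [h6]
        rw [div_div, div_eq_div_iff (mul_ne_zero hx0 (pow_ne_zero 4 h7)) hx0]
        ring
      rwa [h5] at h4

end Pool.Agent.DN.GL
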