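import Pool.Agent.Lib.DK.GL.Spec
import Pool.Agent.Lib.DI.G.L.App
import Pool.Agent.Lib.DI.G.L.Arch
import Pool.Agent.Lib.DI.G.L.Kap
import Pool.Agent.Lib.DI.G.L.Pw
import Pool.Agent.Lib.DI.G.L.Stb

/-!
# Theorem DN, part GL: the abstract tower, tame case (author helper89)

`DK/GL` for a field `L` which is only tamely ramified at `P`: instead of (inertia fixes `L`) we use that there are
inertia elements which fix `L` with a given action on the roots of unity of order `2 ^ m` (`iul`), and instead of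
(unramified) that no element of `L` has valuation `1/2` (`nhf`).
-/

set_option autoImplicit false

open scoped Pointwise

noncomputable section

namespace Pool.Agent.DN.GL

open Pool.Agent.MuZ Pool.Agent.FW Pool.Agent.DI
open Pool.Agent.DI.GL (Fx StP xx mem_of_Fx Fx.mul Fx.inv Fx.one)

/-- The facts on the fields `L`, `L_N` which are used. -/
structure SitT (L : IntermediateField ℚ Om) (LN : ℕ → IntermediateField ℚ Om) (P : Ideal ZZ) : Prop where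
  prime : P.IsPrime
  two : MP P 2
  nrm : ∀ τ : Gal(Om/ℚ), ∀ x ∈ L, τ x ∈ L
  lnn : ∀ (N : ℕ) (τ : Gal(Om/ℚ)), 1 ≤ N → ∀ x ∈ LN N, τ x ∈ LN N
  iul : ∀ m u : ℕ, Odd u → ∃ ι ∈ P.inertia Gal(Om/ℚ), Fx L ι ∧ ∀ z : Om, z ^ 2 ^ m = 1 → ι z = z ^ u
  nhf : ∀ x ∈ L, ¬ UP P (x ^ 2 / 2)
  lze : ∀ τ : Gal(Om/ℚ), Fx L τ → Fx (LN 0) τ
  lnx : ∀ (N : ℕ) (ζ : Om), 1 ≤ N → IsPrimitiveRoot ζ (2 ^ N) → ∀ τ : Gal(Om/ℚ),
    Fx (LN N) τ ↔ Fx L τ ∧ (τ ζ = ζ ∨ τ ζ = ζ⁻¹)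

/-- `d` is in the group `D_P ∩ Gal(Om/L_∞(i))`. -/
def DD (LN : ℕ → IntermediateField ℚ Om) (P : Ideal ZZ) (d : Gal(Om/ℚ)) : Prop :=
  StP P d ∧ (∀ n : ℕ, Fx (LN n) d) ∧ ∀ i : Om, i ^ 2 = -1 → d i = i

/-- `d` is in `D_P`, fixes `L` and the roots of unity of order `2 ^ m`. -/
def DL (L : IntermediateField ℚ Om) (P : Ideal ZZ) (m : ℕ) (d : Gal(Om/ℚ)) : Prop :=
  StP P d ∧ Fx L d ∧ ∀ z : Om, z ^ 2 ^ m = 1 → d z = z

/-- `L_(N+1) = L_N + L_N y`. -/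
def C_TD2 : Prop :=
  ∀ (L : IntermediateField ℚ Om) (LN : ℕ → IntermediateField ℚ Om) (P : Ideal ZZ),
    SitT L LN P → ∀ N : ℕ, 2 ≤ N → ∀ ζ' : Om,
    IsPrimitiveRoot ζ' (2 ^ (N + 1)) → ∀ ρ ∈ LN (N + 1),
    ∃ α ∈ LN N, ∃ β ∈ LN N, ρ = α + β * (ζ' + ζ'⁻¹)

/-- The valuation of an element of `L_N` is not half of the valuation of `xx ζ`. -/
def C_TEv : Prop :=
  ∀ (L : IntermediateField ℚ Om) (LN : ℕ → IntermediateField ℚ Om) (P : Ideal ZZ),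
    SitT L LN P → ∀ N : ℕ, 2 ≤ N → ∀ ζ : Om, IsPrimitiveRoot ζ (2 ^ N) →
    ∀ ρ ∈ LN N, ¬ UP P (ρ ^ 2 / xx ζ)

/-- Compactness. -/
def C_TCpt : Prop :=
  ∀ (L : IntermediateField ℚ Om) (LN : ℕ → IntermediateField ℚ Om) (P : Ideal ZZ),
    SitT L LN P → ∀ r : Om, (∀ d : Gal(Om/ℚ), DD LN P d → d r = r) →
    ∃ m0 : ℕ, ∀ m : ℕ, m0 ≤ m → ∀ d : Gal(Om/ℚ), DL L P m d → d r = r

/-- The Kummer character of `w` on `D_P ∩ Gal(Om/L_N)` is that of `± 1` or `± xx ζ`. -/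
def C_TG8a : Prop :=
  ∀ (L : IntermediateField ℚ Om) (LN : ℕ → IntermediateField ℚ Om) (P : Ideal ZZ),
    SitT L LN P → ∀ N : ℕ, 2 ≤ N →
    ∀ ζ : Om, IsPrimitiveRoot ζ (2 ^ N) → ∀ w ∈ LN N, w ≠ 0 → ∀ m : ℕ,
    (∀ d : Gal(Om/ℚ), DL L P m d → kap w d = 0) →
    ∃ (e : Om) (b : ℕ), (e = 1 ∨ e = -1) ∧ (b = 0 ∨ b = 1) ∧
      ∀ r : Om, r ^ 2 = w * (e * xx ζ ^ b) → ∀ d : Gal(Om/ℚ), StP P d → Fx (LN N) d → d r = r

/-- **The square root.** If the Kummer character of the unit `w` of `L_N` vanishes on `D_P ∩ Gal(Om/L_∞(i))` then `± w`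
is a square modulo every power of `2`. -/
def C_Sq : Prop :=
  ∀ (L : IntermediateField ℚ Om) (LN : ℕ → IntermediateField ℚ Om) (P : Ideal ZZ),
    SitT L LN P → ∀ N : ℕ, 2 ≤ N → ∀ w ∈ LN N, UP P w → (∀ d : Gal(Om/ℚ), DD LN P d → kap w d = 0) →
    ∃ e : Om, (e = 1 ∨ e = -1) ∧ ∀ M : ℕ, ∃ r ∈ LN N, TP P (2 ^ M) (w * e - r ^ 2)

end Pool.Agent.DN.GL
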